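import Pool.Agent.Lib.MP_18cae5_an.Defs

/-! # Elementary facts (proved) -/

set_option autoImplicit false

namespace MP18cae5

open Complex MeasureTheory Set Filter Topology

theorem nsq_nonneg (z : C2) : 0 ≤ nsq z := add_nonneg (normSq_nonneg _) (normSq_nonneg _)

theorem nsq_zero : nsq 0 = 0 := by simp [nsq]

theorem nsq_eq_zero (z : C2) : nsq z = 0 ↔ z = 0 := by
  constructor
  · intro h
    have h1 := normSq_nonneg z.1
    have h2 := normSq_nonneg z.2
    unfold nsq at h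
    have h3 : normSq z.1 = 0 := by linarith
    have h4 : normSq z.2 = 0 := by linarith
    exact Prod.ext (normSq_eq_zero.1 h3) (normSq_eq_zero.1 h4)
  · rintro rfl; exact nsq_zero

theorem nsq_neg (z : C2) : nsq (-z) = nsq z := by simp [nsq]

theorem nsq_sub_comm (z w : C2) : nsq (z - w) = nsq (w - z) := by
  rw [← nsq_neg, neg_sub]

theorem nsq_smul (c : ℂ) (z : C2) : nsq (c • z) = ‖c‖ ^ 2 * nsq z := by
  simp only [nsq, Prod.smul_fst, Prod.smul_snd, smul_eq_mul, normSq_mul, ← normSq_eq_norm_sq]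
  ring

theorem nsq_cj (z : C2) : nsq (cj z) = nsq z := by simp [nsq, cj, normSq_conj]

theorem cj_cj (z : C2) : cj (cj z) = z := by simp [cj]

theorem cj_add (z w : C2) : cj (z + w) = cj z + cj w := by simp [cj]

theorem cj_sub (z w : C2) : cj (z - w) = cj z - cj w := by simp [cj]

theorem cj_smul (c : ℂ) (z : C2) : cj (c • z) = starRingEnd ℂ c • cj z := by simp [cj]

theorem dot_comm (z w : C2) : dot z w = dot w z := by simp only [dot]; ring

theorem dot_add_left (a b z : C2) : dot (a + b) z = dot a z + dot b z := by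
  simp only [dot, Prod.fst_add, Prod.snd_add]; ring

theorem dot_add_right (z a b : C2) : dot z (a + b) = dot z a + dot z b := by
  simp only [dot, Prod.fst_add, Prod.snd_add]; ring

theorem dot_sub_left (a b z : C2) : dot (a - b) z = dot a z - dot b z := by
  simp only [dot, Prod.fst_sub, Prod.snd_sub]; ring

theorem dot_sub_right (z a b : C2) : dot z (a - b) = dot z a - dot z b := by
  simp only [dot, Prod.fst_sub, Prod.snd_sub]; ring

theorem dot_smul_left (c : ℂ) (a z : C2) : dot (c • a) z = c * dot a z := by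
  simp only [dot, Prod.smul_fst, Prod.smul_snd, smul_eq_mul]; ring

theorem dot_smul_right (c : ℂ) (z a : C2) : dot z (c • a) = c * dot z a := by
  simp only [dot, Prod.smul_fst, Prod.smul_snd, smul_eq_mul]; ring

theorem cj_dot (z w : C2) : starRingEnd ℂ (dot z w) = dot (cj z) (cj w) := by
  simp [dot, cj]

theorem dot_cj_self (z : C2) : dot z (cj z) = (nsq z : ℂ) := by
  simp only [dot, cj, nsq, mul_conj]; push_cast; rfl

theorem nsq_add (z w : C2) : nsq (z + w) = nsq z + 2 * (dot z (cj w)).re + nsq w := by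
  simp only [nsq, dot, cj, Prod.fst_add, Prod.snd_add, normSq_add, add_re, mul_re, conj_re, conj_im]
  ring

theorem nsq_sub (z w : C2) : nsq (z - w) = nsq z - 2 * (dot z (cj w)).re + nsq w := by
  simp only [nsq, dot, cj, Prod.fst_sub, Prod.snd_sub, normSq_sub, add_re, mul_re, conj_re, conj_im]
  ring

/-- Lagrange's identity gives Cauchy-Schwarz. -/
theorem normSq_dot_le (z w : C2) : ‖dot z w‖ ^ 2 ≤ nsq z * nsq w := by
  have h : nsq z * nsq w - ‖dot z w‖ ^ 2 =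
      normSq (z.1 * (starRingEnd ℂ) w.2 - z.2 * (starRingEnd ℂ) w.1) := by
    rw [← normSq_eq_norm_sq]
    simp only [nsq, dot, normSq_apply, add_re, add_im, mul_re, mul_im, sub_re, sub_im, conj_re,
      conj_im]
    ring
  have := normSq_nonneg (z.1 * (starRingEnd ℂ) w.2 - z.2 * (starRingEnd ℂ) w.1)
  linarith

theorem norm_sq_le_nsq (z : C2) : ‖z‖ ^ 2 ≤ nsq z := by
  rw [Prod.norm_def, nsq, normSq_eq_norm_sq, normSq_eq_norm_sq]
  rcases max_choice ‖z.1‖ ‖z.2‖ with h | h <;> rw [h]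
  · nlinarith [sq_nonneg ‖z.2‖]
  · nlinarith [sq_nonneg ‖z.1‖]

theorem nsq_le_norm_sq (z : C2) : nsq z ≤ 2 * ‖z‖ ^ 2 := by
  rw [Prod.norm_def, nsq, normSq_eq_norm_sq, normSq_eq_norm_sq]
  have h1 : ‖z.1‖ ≤ max ‖z.1‖ ‖z.2‖ := le_max_left _ _
  have h2 : ‖z.2‖ ≤ max ‖z.1‖ ‖z.2‖ := le_max_right _ _
  have h3 := norm_nonneg z.1
  have h4 := norm_nonneg z.2
  nlinarith

theorem norm_dot_le (z w : C2) : ‖dot z w‖ ≤ 2 * ‖z‖ * ‖w‖ := by
  unfold dot
  refine (norm_add_le _ _).trans ?_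
  rw [norm_mul, norm_mul]
  have h1 := norm_fst_le z
  have h2 := norm_snd_le z
  have h3 := norm_fst_le w
  have h4 := norm_snd_le w
  have := mul_le_mul h1 h3 (norm_nonneg _) (norm_nonneg _)
  have := mul_le_mul h2 h4 (norm_nonneg _) (norm_nonneg _)
  linarith

theorem norm_cj (z : C2) : ‖cj z‖ = ‖z‖ := by
  rw [Prod.norm_def, Prod.norm_def]; simp [cj]

theorem continuous_nsq : Continuous nsq := by
  unfold nsq
  exact (continuous_normSq.comp continuous_fst).add (continuous_normSq.comp continuous_snd)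

theorem isOpen_Bo : IsOpen Bo := isOpen_lt continuous_nsq continuous_const

theorem isClosed_Bc : IsClosed Bc := isClosed_le continuous_nsq continuous_const

theorem Bo_subset_Bc : Bo ⊆ Bc := fun _ hz => le_of_lt (α := ℝ) hz

theorem norm_le_one_of_mem_Bc {z : C2} (hz : z ∈ Bc) : ‖z‖ ≤ 1 := by
  have h1 := norm_sq_le_nsq z
  have h2 : nsq z ≤ 1 := hz
  nlinarith [norm_nonneg z]

theorem isCompact_Bc : IsCompact Bc := by
  refine Metric.isCompact_of_isClosed_isBounded isClosed_Bc ?_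
  refine (Metric.isBounded_iff_subset_closedBall 0).2 ⟨1, fun z hz => ?_⟩
  rw [mem_closedBall_zero_iff]
  exact norm_le_one_of_mem_Bc hz

theorem sqrt_nsq_add_le (z w : C2) :
    Real.sqrt (nsq (z + w)) ≤ Real.sqrt (nsq z) + Real.sqrt (nsq w) := by
  have h1 : (dot z (cj w)).re ≤ Real.sqrt (nsq z) * Real.sqrt (nsq w) := by
    refine (re_le_norm _).trans ?_
    rw [← Real.sqrt_mul (nsq_nonneg z)]
    refine Real.le_sqrt_of_sq_le ?_
    have := normSq_dot_le z (cj w)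
    rwa [nsq_cj] at this
  rw [Real.sqrt_le_left (by positivity), nsq_add, add_sq, Real.sq_sqrt (nsq_nonneg z),
    Real.sq_sqrt (nsq_nonneg w)]
  linarith

theorem convex_Bc : Convex ℝ Bc := by
  intro z hz w hw a b ha hb hab
  have h1 : Real.sqrt (nsq (a • z + b • w)) ≤ 1 := by
    refine (sqrt_nsq_add_le _ _).trans ?_
    have e : ∀ (r : ℝ) (x : C2), 0 ≤ r → Real.sqrt (nsq (r • x)) = r * Real.sqrt (nsq x) := by
      intro r x hr
      have : r • x = (r : ℂ) • x := by simp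
      rw [this, nsq_smul, Real.sqrt_mul (by positivity), Real.sqrt_sq (norm_nonneg _),
        Complex.norm_real, Real.norm_of_nonneg hr]
    rw [e a z ha, e b w hb]
    have hz' : Real.sqrt (nsq z) ≤ 1 := Real.sqrt_le_one.2 hz
    have hw' : Real.sqrt (nsq w) ≤ 1 := Real.sqrt_le_one.2 hw
    nlinarith [mul_le_mul_of_nonneg_left hz' ha, mul_le_mul_of_nonneg_left hw' hb]
  exact Real.sqrt_le_one.1 h1

theorem re_one_sub_dot (z w : C2) (hz : z ∈ Bc) (hw : nsq w = 1) :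
    nsq (z - w) / 2 ≤ 1 - (dot z (cj w)).re := by
  have h1 : nsq z ≤ 1 := hz
  rw [nsq_sub]; linarith

theorem nsq_add_le (z w : C2) : nsq (z + w) ≤ 2 * nsq z + 2 * nsq w := by
  have h := nsq_nonneg (z - w)
  rw [nsq_sub] at h
  rw [nsq_add]; linarith

theorem qs_zero : qs 0 = 1 := by simp [qs]

theorem one_add_mem_slitPlane {u : ℂ} (hu : ‖u‖ < 1) : 1 + u ∈ slitPlane := by
  left
  have := (abs_re_le_norm u)
  have h2 := (abs_le.1 this).1
  simp only [add_re, one_re]; linarith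

theorem one_add_ne_zero {u : ℂ} (hu : ‖u‖ < 1) : 1 + u ≠ 0 :=
  slitPlane_ne_zero (one_add_mem_slitPlane hu)

theorem qs_sq_mul {u : ℂ} (hu : ‖u‖ < 1) : qs u ^ 2 * (1 + u) = 1 := by
  have h := one_add_ne_zero hu
  rw [qs, ← Complex.exp_nat_mul]
  have : ((2 : ℕ) : ℂ) * (-(Complex.log (1 + u)) / 2) = -Complex.log (1 + u) := by
    push_cast; ring
  rw [this, Complex.exp_neg, Complex.exp_log h, inv_mul_cancel₀ h]

theorem norm_qs_sq {u : ℂ} (hu : ‖u‖ < 1) : ‖qs u‖ ^ 2 = 1 / ‖1 + u‖ := by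
  have h := congrArg norm (qs_sq_mul hu)
  rw [norm_mul, norm_pow, norm_one] at h
  have h2 : ‖1 + u‖ ≠ 0 := norm_ne_zero_iff.2 (one_add_ne_zero hu)
  field_simp
  exact h

theorem differentiableAt_qs {u : ℂ} (hu : ‖u‖ < 1) : DifferentiableAt ℂ qs u := by
  unfold qs
  exact (((((differentiableAt_const (1 : ℂ)).add differentiableAt_id).clog
    (one_add_mem_slitPlane hu)).neg).div_const 2).cexp

theorem qs_conj {u : ℂ} (hu : ‖u‖ < 1) : qs (starRingEnd ℂ u) = starRingEnd ℂ (qs u) := by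
  have h1 : (1 : ℂ) + starRingEnd ℂ u = starRingEnd ℂ (1 + u) := by simp
  have h2 : (1 + u).arg ≠ Real.pi := slitPlane_arg_ne_pi (one_add_mem_slitPlane hu)
  rw [qs, qs, h1, Complex.log_conj _ h2, ← Complex.exp_conj]
  congr 1
  rw [map_div₀, map_neg]
  have h3 : (starRingEnd ℂ) (2 : ℂ) = 2 := by
    rw [← Complex.ofReal_ofNat, Complex.conj_ofReal]
  rw [h3]

/-- for real `x ≥ 0` the number `qs x` is `1/sqrt(1+x)` -/
theorem qs_ofReal {x : ℝ} (hx : 0 ≤ x) : qs (x : ℂ) = ((1 / Real.sqrt (1 + x) : ℝ) : ℂ) := by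
  have h1 : (0 : ℝ) < 1 + x := by linarith
  have h2 : (1 : ℂ) + (x : ℂ) = ((1 + x : ℝ) : ℂ) := by push_cast; ring
  rw [qs, h2, ← Complex.ofReal_log h1.le]
  have h3 : -((Real.log (1 + x) : ℝ) : ℂ) / 2 = ((-(Real.log (1 + x)) / 2 : ℝ) : ℂ) := by
    push_cast; ring
  rw [h3, ← Complex.ofReal_exp]
  congr 1
  rw [Real.sqrt_eq_rpow, one_div, ← Real.rpow_neg h1.le, Real.rpow_def_of_pos h1]
  congr 1; ring

theorem qs_sub_one_le {u : ℂ} (hu : ‖u‖ ≤ 1 / 2) : ‖qs u - 1‖ ≤ 2 * ‖u‖ := by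
  have hlog : ‖Complex.log (1 + u)‖ ≤ 3 / 2 * ‖u‖ := Complex.norm_log_one_add_half_le_self hu
  set z : ℂ := -(Complex.log (1 + u)) / 2 with hz
  have hz1 : ‖z‖ ≤ 3 / 4 * ‖u‖ := by
    rw [hz, norm_div, norm_neg]
    have : ‖(2 : ℂ)‖ = 2 := by simp
    rw [this]; linarith
  have hz2 : ‖z‖ ≤ 1 := by linarith
  have h1 : ‖Complex.exp z - 1 - z‖ ≤ ‖z‖ ^ 2 := Complex.norm_exp_sub_one_sub_id_le hz2
  have h2 : ‖Complex.exp z - 1‖ ≤ ‖z‖ + ‖z‖ ^ 2 := by
    calc ‖Complex.exp z - 1‖ = ‖(Complex.exp z - 1 - z) + z‖ := by ring_nf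
      _ ≤ ‖Complex.exp z - 1 - z‖ + ‖z‖ := norm_add_le _ _
      _ ≤ ‖z‖ + ‖z‖ ^ 2 := by linarith
  calc ‖qs u - 1‖ = ‖Complex.exp z - 1‖ := rfl
    _ ≤ 2 * ‖u‖ := by nlinarith [norm_nonneg z, norm_nonneg u]

theorem eps_pos {M : ℝ} (hM : 0 < M) : 0 < eps M := Real.rpow_pos_of_pos hM _

theorem M_mul_eps {M : ℝ} (hM : 0 < M) : M * eps M = M ^ (1 / 3 : ℝ) := by
  rw [eps]
  nth_rewrite 1 [← Real.rpow_one M]
  rw [← Real.rpow_add hM]; norm_num

theorem M_mul_eps_sq {M : ℝ} (hM : 0 < M) : M * eps M ^ 2 = M ^ (-(1 / 3) : ℝ) := by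
  rw [eps, ← Real.rpow_natCast, ← Real.rpow_mul hM.le]
  nth_rewrite 1 [← Real.rpow_one M]
  rw [← Real.rpow_add hM]; norm_num

theorem tendsto_eps : Tendsto eps atTop (𝓝 0) :=
  tendsto_rpow_neg_atTop (by norm_num)

theorem tendsto_M_eps_sq : Tendsto (fun M : ℝ => M * eps M ^ 2) atTop (𝓝 0) := by
  refine Tendsto.congr' ?_ (tendsto_rpow_neg_atTop (by norm_num : (0 : ℝ) < 1 / 3))
  filter_upwards [eventually_gt_atTop 0] with M hM
  rw [M_mul_eps_sq hM]

theorem tendsto_inv_M_eps : Tendsto (fun M : ℝ => 1 / (M * eps M)) atTop (𝓝 0) := by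
  refine Tendsto.congr' ?_ (tendsto_rpow_neg_atTop (by norm_num : (0 : ℝ) < 1 / 3))
  filter_upwards [eventually_gt_atTop 0] with M hM
  rw [M_mul_eps hM, one_div, Real.rpow_neg hM.le, one_div]

/-- all small quantities at once -/
theorem eps_small (δ : ℝ) (hδ : 0 < δ) : ∃ M0 : ℝ, 1 ≤ M0 ∧ ∀ M : ℝ, M0 ≤ M →
    0 < eps M ∧ eps M ≤ δ ∧ M * eps M ^ 2 ≤ δ ∧ 1 / (M * eps M) ≤ δ ∧ 1 / M ≤ δ := by
  have h1 := (tendsto_eps.eventually (eventually_le_nhds hδ))
  have h2 := (tendsto_M_eps_sq.eventually (eventually_le_nhds hδ))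
  have h3 := (tendsto_inv_M_eps.eventually (eventually_le_nhds hδ))
  have h4 : ∀ᶠ M : ℝ in atTop, 1 / M ≤ δ := by
    filter_upwards [eventually_ge_atTop (1 / δ), eventually_gt_atTop 0] with M hM hM0
    rw [div_le_iff₀ hM0]
    rw [div_le_iff₀ hδ] at hM; linarith
  obtain ⟨M0, hM0⟩ := eventually_atTop.1 ((h1.and h2).and (h3.and h4))
  refine ⟨max M0 1, le_max_right _ _, fun M hM => ?_⟩
  have := hM0 M ((le_max_left _ _).trans hM)
  have hpos : 0 < M := lt_of_lt_of_le one_pos ((le_max_right _ _).trans hM)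
  exact ⟨eps_pos hpos, this.1.1, this.1.2, this.2.1, this.2.2⟩

theorem Cur.mem_strip_ofReal {h : ℝ} {φ : ℂ → C2} (hc : Cur h φ) (t : ℝ) : (t : ℂ) ∈ strip h := by
  have : |((t : ℂ)).im| < h := by rw [ofReal_im, abs_zero]; exact hc.h_pos
  exact this

theorem isOpen_strip (h : ℝ) : IsOpen (strip h) :=
  isOpen_lt (continuous_im.abs) continuous_const

theorem conj_mem_strip {h : ℝ} {σ : ℂ} (hσ : σ ∈ strip h) : starRingEnd ℂ σ ∈ strip h := by
  simpa [strip] using hσ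

theorem refl_ofReal (φ : ℂ → C2) (t : ℝ) : refl φ t = cj (φ t) := by simp [refl]

end MP18cae5
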