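import Mathlib

/-!
# MP_18cae5_an : common zeros of ball algebra functions, definitions

`C2 = ℂ × ℂ`, `dot` the bilinear product, `cj` coordinatewise conjugation (so `dot z (cj w)` is the hermitian
product `⟨z, w⟩`), `nsq` the squared euclidean norm, `Bo` / `Bc` the open / closed unit ball.
A curve is a `2π`-periodic map `φ : ℂ → C2`, holomorphic on a strip, with `|φ t| = 1` for real `t`.
-/

set_option autoImplicit false

namespace MP18cae5

open Complex MeasureTheory Set Filter Topology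

/-- two complex variables -/
abbrev C2 := ℂ × ℂ

/-- bilinear product -/
def dot (z w : C2) : ℂ := z.1 * w.1 + z.2 * w.2

/-- coordinatewise conjugation -/
def cj (z : C2) : C2 := (starRingEnd ℂ z.1, starRingEnd ℂ z.2)

/-- squared euclidean norm -/
noncomputable def nsq (z : C2) : ℝ := normSq z.1 + normSq z.2

/-- open unit ball -/
def Bo : Set C2 := {z | nsq z < 1}

/-- closed unit ball -/
def Bc : Set C2 := {z | nsq z ≤ 1}

/-- the ball algebra -/
structure AB (f : C2 → ℂ) : Prop where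
  cont : ContinuousOn f Bc
  holo : DifferentiableOn ℂ f Bo

/-- the strip `|Im σ| < h` -/
def strip (h : ℝ) : Set ℂ := {σ | |σ.im| < h}

/-- reflected map `φ*(σ) = conj (φ (conj σ))` -/
noncomputable def refl (φ : ℂ → C2) (σ : ℂ) : C2 := cj (φ (starRingEnd ℂ σ))

/-- complex tangential field `n = (-φ₂*, φ₁*)` -/
noncomputable def nv (φ : ℂ → C2) (σ : ℂ) : C2 := (-(refl φ σ).2, (refl φ σ).1)

/-- `κ(t) = Im ⟨φ'(t), φ(t)⟩` -/
noncomputable def kap (φ : ℂ → C2) (t : ℝ) : ℝ := (dot (deriv φ t) (cj (φ t))).im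

/-- `Θ(t) = ∫_0^t κ` -/
noncomputable def Th (φ : ℂ → C2) (t : ℝ) : ℝ := ∫ s in (0 : ℝ)..t, kap φ s

/-- a curve in the sphere -/
structure Cur (h : ℝ) (φ : ℂ → C2) : Prop where
  h_pos : 0 < h
  holo : DifferentiableOn ℂ φ (strip h)
  per : ∀ σ : ℂ, φ (σ + 2 * Real.pi) = φ σ
  unit : ∀ t : ℝ, nsq (φ t) = 1
  kpos : ∀ t : ℝ, 0 < kap φ t
  sep : ∃ c : ℝ, 0 < c ∧ ∀ s t : ℝ, |s - t| ≤ Real.pi → c * (s - t) ^ 2 ≤ nsq (φ s - φ t)

/-- a curve together with an entire function vanishing on it (nondegenerately) -/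
structure Stage (h : ℝ) (φ : ℂ → C2) (F : C2 → ℂ) : Prop where
  cur : Cur h φ
  ent : Differentiable ℂ F
  zero : ∀ σ ∈ strip h, F (φ σ) = 0
  nd : ∀ t : ℝ, fderiv ℂ F (φ t) (nv φ t) ≠ 0

/-- admissible frequencies -/
def Adm (φ : ℂ → C2) (M : ℝ) : Prop := ∃ k : ℕ, M * Th φ (2 * Real.pi) = 2 * Real.pi * k

/-- the peak function of the curve `φ` with frequency `M` -/
noncomputable def Pk (φ : ℂ → C2) (M : ℝ) (z : C2) : ℂ :=
  (Real.sqrt (M / (2 * Real.pi)) : ℂ) * ∫ s in (0 : ℝ)..(2 * Real.pi),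
    (Real.sqrt (nsq (deriv φ s)) : ℂ) *
      Complex.exp (M * (dot z (cj (φ s)) - 1 + (Th φ s : ℂ) * I))

/-- the amplitude `ε = M^(-2/3)` -/
noncomputable def eps (M : ℝ) : ℝ := M ^ (-(2 / 3 : ℝ))

/-- `(1+u)^(-1/2)` -/
noncomputable def qs (u : ℂ) : ℂ := Complex.exp (-(Complex.log (1 + u)) / 2)

/-- points near the curve -/
noncomputable def Zf (φ : ℂ → C2) (σ w v : ℂ) : C2 := qs (w * v) • (φ σ + w • nv φ σ)

/-- reflection of a scalar function -/
noncomputable def rf (w : ℂ → ℂ) (σ : ℂ) : ℂ := starRingEnd ℂ (w (starRingEnd ℂ σ))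

/-- the new curve -/
noncomputable def ncur (φ : ℂ → C2) (w : ℂ → ℂ) (σ : ℂ) : C2 := Zf φ σ (w σ) (rf w σ)

/-- a solution `w` of `P F = ε` along the new curve -/
structure Sol (φ : ℂ → C2) (F : C2 → ℂ) (M C1 : ℝ) (w : ℂ → ℂ) : Prop where
  holo : DifferentiableOn ℂ w (strip (3 / M))
  per : ∀ σ : ℂ, w (σ + 2 * Real.pi) = w σ
  bd : ∀ σ ∈ strip (3 / M), ‖w σ‖ ≤ C1 * eps M
  eqn : ∀ σ ∈ strip (3 / M), Pk φ M (ncur φ w σ) * F (ncur φ w σ) = eps M

end MP18cae5
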