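import Pool.Agent.Lib.MP_18cae5_an.Basic

/-! Row R01: algebra of the reflected curve and the tangential field. -/

set_option autoImplicit false

namespace MP18cae5

open Complex MeasureTheory Set Filter Topology

/-- ROW R01.  The scalar version. -/
theorem rf_holo {h : ℝ} {w : ℂ → ℂ} (hw : DifferentiableOn ℂ w (strip h)) :
    DifferentiableOn ℂ (rf w) (strip h) := by
  intro σ hσ
  have h1 : DifferentiableAt ℂ w (starRingEnd ℂ σ) :=
    (hw _ (conj_mem_strip hσ)).differentiableAt ((isOpen_strip h).mem_nhds (conj_mem_strip hσ))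
  have h2 : DifferentiableAt ℂ (starRingEnd ℂ ∘ w ∘ starRingEnd ℂ) σ :=
    differentiableAt_conj_conj_iff.2 h1
  exact h2.differentiableWithinAt

/-- ROW R01.  `refl g` is holomorphic on the strip when `g` is: coordinatewise
`DifferentiableAt` of `conj ∘ g ∘ conj` (`DifferentiableAt.conj_conj` or `differentiableAt_conj_conj_iff`,
search `conj_conj`). -/
theorem refl_holo {h : ℝ} {g : ℂ → C2} (hg : DifferentiableOn ℂ g (strip h)) :
    DifferentiableOn ℂ (refl g) (strip h) := by
  have h1 : DifferentiableOn ℂ (rf (fun σ => (g σ).1)) (strip h) := rf_holo hg.fst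
  have h2 : DifferentiableOn ℂ (rf (fun σ => (g σ).2)) (strip h) := rf_holo hg.snd
  exact h1.prodMk h2

/-- ROW R01. -/
theorem refl_per {g : ℂ → C2} (hg : ∀ σ : ℂ, g (σ + 2 * Real.pi) = g σ) (σ : ℂ) :
    refl g (σ + 2 * Real.pi) = refl g σ := by
  unfold refl
  have : starRingEnd ℂ (σ + 2 * Real.pi) = starRingEnd ℂ σ + 2 * Real.pi := by
    rw [map_add, map_mul, Complex.conj_ofReal, ← Complex.ofReal_ofNat, Complex.conj_ofReal]
  rw [this, hg]

private theorem R01_isPreconnected (h : ℝ) : IsPreconnected (strip h) := by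
  have : strip h = Complex.imLm ⁻¹' (Set.Ioo (-h) h) := by
    ext σ; simp only [strip, Set.mem_preimage, Set.mem_Ioo, ← abs_lt]; rfl
  rw [this]
  exact ((convex_Ioo (-h) h).linear_preimage Complex.imLm).isPreconnected

/-- ROW R01.  `φ · φ* = 1` on the strip: both sides are holomorphic on the connected open strip and agree on the
real axis (`dot_cj_self`, `unit`); `AnalyticOnNhd.eqOn_of_preconnected_of_frequently_eq` or
`AnalyticOnNhd.eqOn_of_preconnected_of_eventuallyEq` (the strip is convex). -/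
theorem dot_refl {h : ℝ} {φ : ℂ → C2} (hc : Cur h φ) (σ : ℂ) (hσ : σ ∈ strip h) :
    dot (φ σ) (refl φ σ) = 1 := by
  have hr := refl_holo hc.holo
  have hd : DifferentiableOn ℂ (fun σ => dot (φ σ) (refl φ σ)) (strip h) := by
    unfold dot
    exact (hc.holo.fst.mul hr.fst).add (hc.holo.snd.mul hr.snd)
  have ha := hd.analyticOnNhd (isOpen_strip h)
  have hb : AnalyticOnNhd ℂ (fun _ : ℂ => (1 : ℂ)) (strip h) := analyticOnNhd_const
  have hreal : ∀ t : ℝ, dot (φ t) (refl φ t) = 1 := by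
    intro t
    rw [refl_ofReal, dot_cj_self, hc.unit]; simp
  have h0 : (0 : ℂ) ∈ strip h := by
    have := hc.mem_strip_ofReal 0
    simpa using this
  have hcl : (0 : ℂ) ∈ closure ({z | (fun σ => dot (φ σ) (refl φ σ)) z = (fun _ : ℂ => (1 : ℂ)) z}
      \ {0}) := by
    rw [Metric.mem_closure_iff]
    intro ε hε
    refine ⟨((ε / 2 : ℝ) : ℂ), ⟨hreal _, ?_⟩, ?_⟩
    · intro hcon
      have h1 : ((ε / 2 : ℝ) : ℂ) = 0 := hcon
      have : (ε / 2 : ℝ) = 0 := by exact_mod_cast h1
      linarith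
    · rw [dist_zero_left, Complex.norm_real, Real.norm_of_nonneg (by positivity)]; linarith
  exact ha.eqOn_of_preconnected_of_mem_closure hb (R01_isPreconnected h) h0 hcl hσ

/-- ROW R01. -/
theorem nv_holo {h : ℝ} {φ : ℂ → C2} (hc : Cur h φ) : DifferentiableOn ℂ (nv φ) (strip h) := by
  have hr := refl_holo hc.holo
  exact (hr.snd.neg).prodMk hr.fst

/-- ROW R01. -/
theorem nv_per {h : ℝ} {φ : ℂ → C2} (hc : Cur h φ) (σ : ℂ) : nv φ (σ + 2 * Real.pi) = nv φ σ := by
  unfold nv; rw [refl_per hc.per]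

/-- ROW R01.  Algebra. -/
theorem dot_nv_refl (φ : ℂ → C2) (σ : ℂ) : dot (nv φ σ) (refl φ σ) = 0 := by
  simp only [dot, nv]; ring

/-- ROW R01.  `nsq (nv φ t) = 1` for real `t`. -/
theorem nsq_nv {h : ℝ} {φ : ℂ → C2} (hc : Cur h φ) (t : ℝ) : nsq (nv φ t) = 1 := by
  have := hc.unit t
  rw [← nsq_cj] at this
  unfold nv
  rw [refl_ofReal]
  simp only [nsq, normSq_neg] at this ⊢
  linarith

/-- ROW R01.  `⟨n(t), φ(t)⟩ = 0` for real `t`. -/
theorem dot_nv_cj (φ : ℂ → C2) (t : ℝ) : dot (nv φ t) (cj (φ t)) = 0 := by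
  rw [← refl_ofReal, dot_nv_refl]

/-- ROW R01.  `⟨φ'(t), φ(t)⟩ = i κ(t)`: the real part is the derivative of `nsq (φ t) / 2`. -/
theorem dot_deriv_cj {h : ℝ} {φ : ℂ → C2} (hc : Cur h φ) (t : ℝ) :
    dot (deriv φ t) (cj (φ t)) = (kap φ t : ℂ) * I := by
  have hre : (dot (deriv φ t) (cj (φ t))).re = 0 := by
    have hdφ : HasDerivAt φ (deriv φ t) (t : ℂ) :=
      ((hc.holo _ (hc.mem_strip_ofReal t)).differentiableAt
        ((isOpen_strip h).mem_nhds (hc.mem_strip_ofReal t))).hasDerivAt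
    have h1 : HasDerivAt (fun s : ℝ => φ s) (deriv φ t) t := by
      have h0 := hdφ.scomp t (Complex.ofRealCLM.hasDerivAt (x := t))
      rw [Complex.ofRealCLM_apply, Complex.ofReal_one, one_smul] at h0
      exact h0
    have h1a : HasDerivAt (fun s : ℝ => (φ s).1) (deriv φ t).1 t := by
      have := (ContinuousLinearMap.fst ℝ ℂ ℂ).hasFDerivAt.comp_hasDerivAt t h1
      exact this
    have h1b : HasDerivAt (fun s : ℝ => (φ s).2) (deriv φ t).2 t := by
      have := (ContinuousLinearMap.snd ℝ ℂ ℂ).hasFDerivAt.comp_hasDerivAt t h1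
      exact this
    have h2a : HasDerivAt (fun s : ℝ => starRingEnd ℂ (φ s).1) (starRingEnd ℂ (deriv φ t).1) t :=
      h1a.star
    have h2b : HasDerivAt (fun s : ℝ => starRingEnd ℂ (φ s).2) (starRingEnd ℂ (deriv φ t).2) t :=
      h1b.star
    have h3 := (h1a.mul h2a).add (h1b.mul h2b)
    have h4 : (fun s : ℝ => ((φ s).1 * starRingEnd ℂ (φ s).1
        + (φ s).2 * starRingEnd ℂ (φ s).2 : ℂ)) = fun _ => 1 := by
      funext s
      have := dot_cj_self (φ s)
      rw [hc.unit] at this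
      simpa [dot, cj] using this
    have h5 : HasDerivAt (fun _ : ℝ => (1 : ℂ)) 0 t := hasDerivAt_const t 1
    have h6 := h3.unique (by
      have : (((fun s : ℝ => (φ s).1) * fun s : ℝ => starRingEnd ℂ (φ s).1)
        + ((fun s : ℝ => (φ s).2) * fun s : ℝ => starRingEnd ℂ (φ s).2)) = fun _ => 1 := h4
      rw [this]; exact h5)
    have h7 := congrArg Complex.re h6
    simp only [add_re, mul_re, conj_re, conj_im, zero_re] at h7
    simp only [dot, cj, add_re, mul_re, conj_re, conj_im]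
    linarith
  apply Complex.ext
  · rw [hre]; simp
  · simp [kap]

/-- ROW R01.  The new curve for real `t`: with `v = rf w t = conj (w t)`. -/
theorem rf_ofReal (w : ℂ → ℂ) (t : ℝ) : rf w t = starRingEnd ℂ (w t) := by
  simp [rf]

/-- ROW R01.  The tangential field of the new curve at real points (`q = 1/sqrt(1+|w|²)` is real):
`ñ = q (n - conj w φ)`. -/
theorem nv_ncur {h : ℝ} {φ : ℂ → C2} (hc : Cur h φ) (w : ℂ → ℂ) (t : ℝ) (hw : ‖w t‖ < 1) :
    nv (ncur φ w) t = qs (w t * rf w t) • (nv φ t - rf w t • φ t) := by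
  have hu : ‖w t * starRingEnd ℂ (w t)‖ < 1 := by
    rw [norm_mul, RCLike.norm_conj]
    nlinarith [norm_nonneg (w t)]
  have hq : starRingEnd ℂ (qs (w t * starRingEnd ℂ (w t))) = qs (w t * starRingEnd ℂ (w t)) := by
    rw [← qs_conj hu]; congr 1; rw [map_mul, Complex.conj_conj]; ring
  have e1 : refl (ncur φ w) t = qs (w t * starRingEnd ℂ (w t)) •
      (cj (φ t) + starRingEnd ℂ (w t) • cj (nv φ t)) := by
    rw [refl_ofReal, ncur, Zf, rf_ofReal, cj_smul, cj_add, cj_smul, hq]
  unfold nv at e1 ⊢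
  rw [e1, rf_ofReal, refl_ofReal]
  simp only [cj, map_neg, Complex.conj_conj, Prod.mk_add_mk, smul_eq_mul, Prod.smul_def]
  refine Prod.ext ?_ ?_
  · simp only [Prod.fst_sub]; ring
  · simp only [Prod.snd_sub]; ring

end MP18cae5
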