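import Pool.Agent.Lib.MP_18cae5_an.R01

/-! Row R02: uniform bounds for a curve. -/

set_option autoImplicit false

namespace MP18cae5

open Complex MeasureTheory Set Filter Topology

/-- ROW R02.  A periodic function which is continuous on the closed strip `|Im σ| ≤ h'` is bounded there:
the rectangle `[0,2π] × [-h',h']` is compact; reduce the real part with `toIcoMod` / `Function.Periodic`. -/
theorem bdd_strip {E : Type*} [NormedAddCommGroup E] [NormedSpace ℂ E] {g : ℂ → E} (h' : ℝ)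
    (hg : ContinuousOn g {σ : ℂ | |σ.im| ≤ h'}) (hp : ∀ σ : ℂ, g (σ + 2 * Real.pi) = g σ) :
    ∃ C : ℝ, 0 < C ∧ ∀ σ : ℂ, |σ.im| ≤ h' → ‖g σ‖ ≤ C := by
  have hK : IsCompact (Set.Icc (0 : ℝ) (2 * Real.pi) ×ℂ Set.Icc (-h') h') :=
    isCompact_Icc.reProdIm isCompact_Icc
  have hsub : Set.Icc (0 : ℝ) (2 * Real.pi) ×ℂ Set.Icc (-h') h' ⊆ {σ : ℂ | |σ.im| ≤ h'} := by
    intro σ hσ
    exact abs_le.2 hσ.2
  obtain ⟨C, hC⟩ := hK.exists_bound_of_continuousOn (hg.mono hsub)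
  refine ⟨max C 1, lt_of_lt_of_le one_pos (le_max_right _ _), fun σ hσ => ?_⟩
  have hpi : (0 : ℝ) < 2 * Real.pi := by positivity
  have hper : Function.Periodic g (2 * Real.pi) := hp
  set m : ℤ := ⌊σ.re / (2 * Real.pi)⌋ with hm
  have h1 : g (σ - m * (2 * Real.pi)) = g σ := hper.sub_int_mul_eq m
  rw [← h1]
  refine (hC _ ?_).trans (le_max_left _ _)
  have hre : (σ - m * (2 * Real.pi)).re = σ.re - m * (2 * Real.pi) := by
    simp
  have him : (σ - m * (2 * Real.pi)).im = σ.im := by simp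
  constructor
  · show (σ - m * (2 * Real.pi)).re ∈ Set.Icc (0 : ℝ) (2 * Real.pi)
    rw [hre]
    have h2 := Int.floor_le (σ.re / (2 * Real.pi))
    have h3 := Int.lt_floor_add_one (σ.re / (2 * Real.pi))
    rw [le_div_iff₀ hpi] at h2
    rw [div_lt_iff₀ hpi] at h3
    constructor
    · linarith
    · rw [← hm] at h3; nlinarith
  · show (σ - m * (2 * Real.pi)).im ∈ Set.Icc (-h') h'
    rw [him]; exact abs_le.1 hσ

/-- ROW R02.  Derivatives of periodic functions are periodic. -/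
theorem deriv_per {E : Type*} [NormedAddCommGroup E] [NormedSpace ℂ E] {g : ℂ → E}
    (hp : ∀ σ : ℂ, g (σ + 2 * Real.pi) = g σ) (σ : ℂ) : deriv g (σ + 2 * Real.pi) = deriv g σ := by
  rw [← deriv_comp_add_const]
  congr 1
  funext x; exact hp x

/-- restriction of a holomorphic function on the strip to the real axis is continuous -/
theorem R02_real_cont {h : ℝ} (hh : 0 < h) {E : Type*} [NormedAddCommGroup E] [NormedSpace ℂ E]
    {g : ℂ → E} (hg : DifferentiableOn ℂ g (strip h)) : Continuous (fun t : ℝ => g t) := by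
  have hm : ∀ t : ℝ, (t : ℂ) ∈ strip h := by
    intro t
    have : |((t : ℂ)).im| < h := by rw [ofReal_im, abs_zero]; exact hh
    exact this
  rw [continuous_iff_continuousAt]
  intro t
  have h1 : ContinuousAt g (t : ℂ) :=
    ((hg _ (hm t)).differentiableAt ((isOpen_strip h).mem_nhds (hm t))).continuousAt
  exact ContinuousAt.comp (f := fun s : ℝ => (s : ℂ)) h1 Complex.continuous_ofReal.continuousAt

/-- ROW R02. -/
theorem kap_continuous {h : ℝ} {φ : ℂ → C2} (hc : Cur h φ) : Continuous (kap φ) := by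
  have h1 : Continuous (fun t : ℝ => φ t) := R02_real_cont hc.h_pos hc.holo
  have h2 : Continuous (fun t : ℝ => deriv φ t) :=
    R02_real_cont hc.h_pos (hc.holo.deriv (isOpen_strip h))
  unfold kap dot cj
  have h1a := continuous_fst.comp h1
  have h1b := continuous_snd.comp h1
  have h2a := continuous_fst.comp h2
  have h2b := continuous_snd.comp h2
  exact continuous_im.comp (((h2a.mul (Complex.continuous_conj.comp h1a))).add
    (h2b.mul (Complex.continuous_conj.comp h1b)))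

/-- ROW R02. -/
theorem kap_per {h : ℝ} {φ : ℂ → C2} (hc : Cur h φ) (t : ℝ) : kap φ (t + 2 * Real.pi) = kap φ t := by
  unfold kap
  have e : ((t + 2 * Real.pi : ℝ) : ℂ) = (t : ℂ) + 2 * Real.pi := by push_cast; ring
  rw [e, hc.per, deriv_per hc.per]

private theorem R02_sub {h : ℝ} (hh : 0 < h) : {σ : ℂ | |σ.im| ≤ h / 2} ⊆ strip h := by
  intro σ hσ
  have h1 : |σ.im| ≤ h / 2 := hσ
  have : |σ.im| < h := by linarith
  exact this

/-- ROW R02.  Everything needed about the size of a curve; `κ` is continuous, periodic and bounded below. -/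
theorem cur_bounds {h : ℝ} {φ : ℂ → C2} (hc : Cur h φ) : ∃ C κ0 : ℝ, 1 ≤ C ∧ 0 < κ0 ∧
    (∀ σ : ℂ, |σ.im| ≤ h / 2 → ‖φ σ‖ ≤ C ∧ ‖deriv φ σ‖ ≤ C ∧ ‖deriv (deriv φ) σ‖ ≤ C ∧
      ‖deriv (deriv (deriv φ)) σ‖ ≤ C ∧ ‖nv φ σ‖ ≤ C ∧ ‖deriv (nv φ) σ‖ ≤ C) ∧
    (∀ t : ℝ, κ0 ≤ kap φ t ∧ kap φ t ≤ C) := by
  have hs := R02_sub hc.h_pos
  have ho := isOpen_strip h
  have d0 := hc.holo
  have d1 := d0.deriv ho
  have d2 := d1.deriv ho
  have d3 := d2.deriv ho
  have n0 := nv_holo hc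
  have n1 := n0.deriv ho
  obtain ⟨C0, hC0, b0⟩ := bdd_strip (h / 2) (d0.continuousOn.mono hs) hc.per
  obtain ⟨C1, hC1, b1⟩ := bdd_strip (h / 2) (d1.continuousOn.mono hs) (deriv_per hc.per)
  obtain ⟨C2, hC2, b2⟩ := bdd_strip (h / 2) (d2.continuousOn.mono hs) (deriv_per (deriv_per hc.per))
  obtain ⟨C3, hC3, b3⟩ := bdd_strip (h / 2) (d3.continuousOn.mono hs)
    (deriv_per (deriv_per (deriv_per hc.per)))
  obtain ⟨C4, hC4, b4⟩ := bdd_strip (h / 2) (n0.continuousOn.mono hs) (nv_per hc)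
  obtain ⟨C5, hC5, b5⟩ := bdd_strip (h / 2) (n1.continuousOn.mono hs) (deriv_per (nv_per hc))
  -- lower and upper bound for κ
  have hpi : (0 : ℝ) ≤ 2 * Real.pi := by positivity
  obtain ⟨t0, -, ht0⟩ := isCompact_Icc.exists_isMinOn (nonempty_Icc.2 hpi)
    (kap_continuous hc).continuousOn
  obtain ⟨t1, -, ht1⟩ := isCompact_Icc.exists_isMaxOn (nonempty_Icc.2 hpi)
    (kap_continuous hc).continuousOn
  have hper : Function.Periodic (kap φ) (2 * Real.pi) := kap_per hc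
  have hred : ∀ t : ℝ, ∃ s ∈ Set.Icc (0 : ℝ) (2 * Real.pi), kap φ t = kap φ s := by
    intro t
    obtain ⟨s, hs, hst⟩ := hper.exists_mem_Ico₀ (by positivity) t
    exact ⟨s, Ico_subset_Icc_self hs, hst⟩
  refine ⟨C0 + C1 + C2 + C3 + C4 + C5 + |kap φ t1| + 1, kap φ t0, ?_, hc.kpos t0, ?_, ?_⟩
  · have := abs_nonneg (kap φ t1); linarith
  · intro σ hσ
    have h0 := b0 σ hσ
    have h1 := b1 σ hσ
    have h2 := b2 σ hσ
    have h3 := b3 σ hσ
    have h4 := b4 σ hσ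
    have h5 := b5 σ hσ
    have := abs_nonneg (kap φ t1)
    refine ⟨?_, ?_, ?_, ?_, ?_, ?_⟩ <;> linarith
  · intro t
    obtain ⟨s, hs, hst⟩ := hred t
    rw [hst]
    refine ⟨ht0 hs, ?_⟩
    have h1 : kap φ s ≤ kap φ t1 := ht1 hs
    have h2 := le_abs_self (kap φ t1)
    linarith

/-- ROW R02.  Lipschitz estimates that follow from `cur_bounds` by the mean value inequality on the convex set
`|Im σ| ≤ h/2`. -/
theorem cur_lip {h : ℝ} {φ : ℂ → C2} (hc : Cur h φ) : ∃ C : ℝ, 1 ≤ C ∧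
    ∀ σ τ : ℂ, |σ.im| ≤ h / 2 → |τ.im| ≤ h / 2 →
      ‖φ σ - φ τ‖ ≤ C * ‖σ - τ‖ ∧ ‖nv φ σ - nv φ τ‖ ≤ C * ‖σ - τ‖ ∧
      ‖deriv φ σ - deriv φ τ‖ ≤ C * ‖σ - τ‖ := by
  obtain ⟨C, κ0, hC, -, hb, -⟩ := cur_bounds hc
  have hs := R02_sub hc.h_pos
  have ho := isOpen_strip h
  have hconv : Convex ℝ {σ : ℂ | |σ.im| ≤ h / 2} := by
    have : {σ : ℂ | |σ.im| ≤ h / 2} = Complex.imLm ⁻¹' (Set.Icc (-(h / 2)) (h / 2)) := by
      ext σ; simp only [Set.mem_preimage, Set.mem_Icc, ← abs_le]; rfl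
    rw [this]
    exact (convex_Icc _ _).linear_preimage Complex.imLm
  have hdiff : ∀ {g : ℂ → C2}, DifferentiableOn ℂ g (strip h) →
      ∀ σ ∈ {σ : ℂ | |σ.im| ≤ h / 2}, DifferentiableAt ℂ g σ := by
    intro g hg σ hσ
    exact (hg _ (hs hσ)).differentiableAt (ho.mem_nhds (hs hσ))
  refine ⟨C, hC, fun σ τ hσ hτ => ⟨?_, ?_, ?_⟩⟩
  · exact hconv.norm_image_sub_le_of_norm_deriv_le (hdiff hc.holo)
      (fun x hx => (hb x hx).2.1) hτ hσ
  · exact hconv.norm_image_sub_le_of_norm_deriv_le (hdiff (nv_holo hc))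
      (fun x hx => (hb x hx).2.2.2.2.2) hτ hσ
  · exact hconv.norm_image_sub_le_of_norm_deriv_le (hdiff (hc.holo.deriv ho))
      (fun x hx => (hb x hx).2.2.1) hτ hσ

end MP18cae5
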