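import Pool.Agent.Lib.MP_18cae5_an.R02

/-! Row R02b: the phase Th and admissible frequencies. -/

set_option autoImplicit false

namespace MP18cae5

open Complex MeasureTheory Set Filter Topology

/-- ROW R02b. -/
theorem Th_hasDerivAt {h : ℝ} {φ : ℂ → C2} (hc : Cur h φ) (t : ℝ) :
    HasDerivAt (Th φ) (kap φ t) t := by
  have hk := kap_continuous hc
  exact intervalIntegral.integral_hasDerivAt_right (hk.intervalIntegrable _ _)
    (hk.stronglyMeasurableAtFilter _ _) hk.continuousAt

/-- ROW R02b.  `Th φ (t + 2π) = Th φ t + Th φ (2π)`. -/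
theorem Th_add {h : ℝ} {φ : ℂ → C2} (hc : Cur h φ) (t : ℝ) :
    Th φ (t + 2 * Real.pi) = Th φ t + Th φ (2 * Real.pi) := by
  have hk := kap_continuous hc
  have hp : Function.Periodic (kap φ) (2 * Real.pi) := fun x => kap_per hc x
  have h1 := hp.intervalIntegral_add_eq t 0
  unfold Th
  rw [← intervalIntegral.integral_add_adjacent_intervals (hk.intervalIntegrable 0 t)
    (hk.intervalIntegrable t (t + 2 * Real.pi)), h1, zero_add]

/-- ROW R02b. -/
theorem Th_pos {h : ℝ} {φ : ℂ → C2} (hc : Cur h φ) : 0 < Th φ (2 * Real.pi) := by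
  have hk := kap_continuous hc
  exact intervalIntegral.intervalIntegral_pos_of_pos (hk.intervalIntegrable _ _)
    (fun x => hc.kpos x) (by positivity)

/-- ROW R02b.  There are arbitrarily large admissible frequencies. -/
theorem exists_adm {h : ℝ} {φ : ℂ → C2} (hc : Cur h φ) (x : ℝ) : ∃ M : ℝ, x ≤ M ∧ Adm φ M := by
  have hT := Th_pos hc
  obtain ⟨k, hk⟩ := exists_nat_ge (x * Th φ (2 * Real.pi) / (2 * Real.pi))
  have hpi := Real.two_pi_pos
  refine ⟨2 * Real.pi * k / Th φ (2 * Real.pi), ?_, k, ?_⟩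
  · rw [le_div_iff₀ hT]
    rw [div_le_iff₀ hpi] at hk
    linarith
  · field_simp

end MP18cae5
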