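import Pool.Agent.Lib.MP_18cae5_an.R02b

/-! Row R03: second order expansion of `⟨φ(s), φ(s+x)⟩`. -/

set_option autoImplicit false

namespace MP18cae5

open Complex MeasureTheory Set Filter Topology

theorem R03_real {h : ℝ} {F : ℂ → C2} (hF : DifferentiableOn ℂ F (strip h)) (h0 : 0 < h) (t : ℝ) :
    HasDerivAt (fun x : ℝ => F (x : ℂ)) (deriv F (t : ℂ)) t := by
  have hm : (t : ℂ) ∈ strip h := by
    show |((t : ℂ)).im| < h
    rw [ofReal_im, abs_zero]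
    exact h0
  have h1 : HasDerivAt F (deriv F (t : ℂ)) (t : ℂ) :=
    (hF.differentiableAt ((isOpen_strip h).mem_nhds hm)).hasDerivAt
  have h2 := h1.scomp t (ofRealCLM.hasDerivAt (x := t))
  refine HasDerivAt.congr_deriv h2 ?_
  simp

theorem R03_dot {A B : ℝ → C2} {A' B' : C2} {x : ℝ} (hA : HasDerivAt A A' x)
    (hB : HasDerivAt B B' x) : HasDerivAt (fun x => dot (A x) (cj (B x)))
      (dot A' (cj (B x)) + dot (A x) (cj B')) x := by
  have a1 : HasDerivAt (fun x => (A x).1) A'.1 x :=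
    (ContinuousLinearMap.fst ℝ ℂ ℂ).hasFDerivAt.comp_hasDerivAt x hA
  have a2 : HasDerivAt (fun x => (A x).2) A'.2 x :=
    (ContinuousLinearMap.snd ℝ ℂ ℂ).hasFDerivAt.comp_hasDerivAt x hA
  have b1 : HasDerivAt (fun x => (B x).1) B'.1 x :=
    (ContinuousLinearMap.fst ℝ ℂ ℂ).hasFDerivAt.comp_hasDerivAt x hB
  have b2 : HasDerivAt (fun x => (B x).2) B'.2 x :=
    (ContinuousLinearMap.snd ℝ ℂ ℂ).hasFDerivAt.comp_hasDerivAt x hB
  have c1 : HasDerivAt (fun x => starRingEnd ℂ (B x).1) (starRingEnd ℂ B'.1) x :=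
    (conjCLE : ℂ →L[ℝ] ℂ).hasFDerivAt.comp_hasDerivAt x b1
  have c2 : HasDerivAt (fun x => starRingEnd ℂ (B x).2) (starRingEnd ℂ B'.2) x :=
    (conjCLE : ℂ →L[ℝ] ℂ).hasFDerivAt.comp_hasDerivAt x b2
  refine ((a1.mul c1).add (a2.mul c2)).congr_deriv ?_
  simp only [dot, cj]
  ring

theorem R03_im {f : ℝ → ℂ} {f' : ℂ} {x : ℝ} (hf : HasDerivAt f f' x) :
    HasDerivAt (fun x => (f x).im) f'.im x :=
  imCLM.hasFDerivAt.comp_hasDerivAt x hf

/-- three times the mean value inequality -/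
theorem R03_taylor {g g1 g2 g3 : ℝ → ℂ} {C : ℝ} (hC : 0 ≤ C)
    (h0 : ∀ x, HasDerivAt g (g1 x) x) (h1 : ∀ x, HasDerivAt g1 (g2 x) x)
    (h2 : ∀ x, HasDerivAt g2 (g3 x) x) (h3 : ∀ x, ‖g3 x‖ ≤ C) (e0 : g 0 = 0) (e1 : g1 0 = 0)
    (e2 : g2 0 = 0) (x : ℝ) : ‖g x‖ ≤ C * |x| ^ 3 := by
  have key : ∀ (f f1 : ℝ → ℂ) (n : ℕ), (∀ x, HasDerivAt f (f1 x) x) → f 0 = 0 →
      (∀ x, ‖f1 x‖ ≤ C * |x| ^ n) → ∀ x, ‖f x‖ ≤ C * |x| ^ (n + 1) := by
    intro f f1 n hf hf0 hb x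
    have h4 := Convex.norm_image_sub_le_of_norm_hasDerivWithin_le (f := f) (f' := f1)
      (s := uIcc 0 x) (x := 0) (y := x) (C := C * |x| ^ n)
      (fun y _ => (hf y).hasDerivWithinAt) (by
        intro y hy
        refine (hb y).trans (mul_le_mul_of_nonneg_left ?_ hC)
        refine pow_le_pow_left₀ (abs_nonneg _) ?_ n
        have := abs_sub_left_of_mem_uIcc hy
        simpa using this) (convex_uIcc 0 x) left_mem_uIcc right_mem_uIcc
    rw [hf0, sub_zero, sub_zero, Real.norm_eq_abs] at h4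
    rw [pow_succ, ← mul_assoc]
    exact h4
  have k2 := key g2 g3 0 h2 e2 (by simpa using h3)
  have k1 := key g1 g2 1 h1 e1 (by simpa using k2)
  exact key g g1 2 h0 e0 (by simpa using k1) x

theorem R03_deriv_holo {h : ℝ} {F : ℂ → C2} (hF : DifferentiableOn ℂ F (strip h)) :
    DifferentiableOn ℂ (deriv F) (strip h) := hF.deriv (isOpen_strip h)

/-- ROW R03.  Put `g(x) = ⟨φ(s), φ(s+x)⟩ - 1 + i(Θ(s+x) - Θ(s)) + |φ'(s)|² x²/2`.  Then `g(0) = 0`,
`g'(x) = ⟨φ(s), φ'(s+x)⟩ + iκ(s+x) + |φ'(s)|² x`, `g'(0) = 0` by `dot_deriv_cj` (conjugate),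
`g''(x) = ⟨φ(s), φ''(s+x)⟩ + iκ'(s+x) + |φ'(s)|²`, `g''(0) = 0`, and `g'''` is bounded. -/
theorem ip_expand {h : ℝ} {φ : ℂ → C2} (hc : Cur h φ) : ∃ C : ℝ, 0 < C ∧ ∀ s x : ℝ,
    ‖dot (φ s) (cj (φ ((s + x : ℝ) : ℂ))) - 1 + ((Th φ (s + x) - Th φ s : ℝ) : ℂ) * I
      + ((nsq (deriv φ s) * x ^ 2 / 2 : ℝ) : ℂ)‖ ≤ C * |x| ^ 3 := by
  obtain ⟨C, κ0, hC1, -, hb, -⟩ := cur_bounds hc
  refine ⟨10 * C ^ 2, by positivity, ?_⟩
  intro s x
  have hreal : ∀ t : ℝ, |((t : ℝ) : ℂ).im| ≤ h / 2 := by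
    intro t
    rw [ofReal_im, abs_zero]
    linarith [hc.h_pos]
  have p0 := R03_real hc.holo hc.h_pos
  have p1 := R03_real (R03_deriv_holo hc.holo) hc.h_pos
  have p2 := R03_real (R03_deriv_holo (R03_deriv_holo hc.holo)) hc.h_pos
  -- shifted versions
  have sh : ∀ {E : Type} [NormedAddCommGroup E] [NormedSpace ℝ E] {f : ℝ → E} {f' : E} (y : ℝ),
      HasDerivAt f f' (s + y) → HasDerivAt (fun y => f (s + y)) f' y := by
    intro E _ _ f f' y hf
    have h1 : HasDerivAt (fun y : ℝ => s + y) 1 y := (hasDerivAt_id y).const_add s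
    have h2 := hf.scomp y h1
    refine HasDerivAt.congr_deriv h2 ?_
    simp
  -- derivative of kap
  have dk : ∀ t : ℝ, HasDerivAt (kap φ) (dot (deriv (deriv φ) t) (cj (φ t)) +
      dot (deriv φ t) (cj (deriv φ t))).im t := by
    intro t
    exact R03_im (R03_dot (p1 t) (p0 t))
  have dk2 : ∀ t : ℝ, HasDerivAt (fun t : ℝ => (dot (deriv (deriv φ) t) (cj (φ t)) +
      dot (deriv φ t) (cj (deriv φ t))).im)
      ((dot (deriv (deriv (deriv φ)) t) (cj (φ t)) + dot (deriv (deriv φ) t) (cj (deriv φ t))) +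
        (dot (deriv (deriv φ) t) (cj (deriv φ t)) +
          dot (deriv φ t) (cj (deriv (deriv φ) t)))).im t := by
    intro t
    exact R03_im ((R03_dot (p2 t) (p0 t)).add (R03_dot (p1 t) (p1 t)))
  have dconst : ∀ t : ℝ, HasDerivAt (fun _ : ℝ => φ s) 0 t := fun t => hasDerivAt_const t _
  have dotz : ∀ z : C2, dot 0 z = 0 := by intro z; simp [dot]
  have dA : ∀ {F : ℂ → C2} {F' : C2} (t : ℝ), HasDerivAt (fun x : ℝ => F (x : ℂ)) F' t →
      HasDerivAt (fun x : ℝ => dot (φ s) (cj (F (x : ℂ)))) (dot (φ s) (cj F')) t := by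
    intro F F' t hF
    have h1 := R03_dot (dconst t) hF
    rw [dotz, zero_add] at h1
    exact h1
  have ofR : ∀ {f : ℝ → ℝ} {f' : ℝ} {t : ℝ}, HasDerivAt f f' t →
      HasDerivAt (fun x => ((f x : ℝ) : ℂ) * I) ((f' : ℂ) * I) t := by
    intro f f' t hf
    exact hf.ofReal_comp.mul_const I
  -- the mixed identity
  have hid : ∀ t : ℝ, dot (deriv φ t) (cj (φ t)) = (kap φ t : ℂ) * I := dot_deriv_cj hc
  have hid2 : dot (deriv (deriv φ) s) (cj (φ s)) + dot (deriv φ s) (cj (deriv φ s)) =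
      (((dot (deriv (deriv φ) s) (cj (φ s)) + dot (deriv φ s) (cj (deriv φ s))).im : ℝ) : ℂ) * I := by
    have h1 := R03_dot (p1 s) (p0 s)
    have h2 := ofR (dk s)
    have h3 : (fun x : ℝ => dot (deriv φ (x : ℂ)) (cj (φ (x : ℂ)))) =
        fun x : ℝ => ((kap φ x : ℝ) : ℂ) * I := funext hid
    rw [h3] at h1
    exact h1.unique h2
  have hconj : ∀ z w : C2, dot w (cj z) = starRingEnd ℂ (dot z (cj w)) := by
    intro z w
    rw [cj_dot, cj_cj, dot_comm]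
  refine R03_taylor (C := 10 * C ^ 2) (by positivity)
    (g := fun x => dot (φ s) (cj (φ ((s + x : ℝ) : ℂ))) - 1 + ((Th φ (s + x) - Th φ s : ℝ) : ℂ) * I
      + ((nsq (deriv φ s) * x ^ 2 / 2 : ℝ) : ℂ))
    (g1 := fun x => dot (φ s) (cj (deriv φ ((s + x : ℝ) : ℂ))) + (kap φ (s + x) : ℂ) * I
      + ((nsq (deriv φ s) * x : ℝ) : ℂ))
    (g2 := fun x => dot (φ s) (cj (deriv (deriv φ) ((s + x : ℝ) : ℂ))) +
      (((dot (deriv (deriv φ) ((s + x : ℝ) : ℂ)) (cj (φ ((s + x : ℝ) : ℂ))) +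
        dot (deriv φ ((s + x : ℝ) : ℂ)) (cj (deriv φ ((s + x : ℝ) : ℂ)))).im : ℝ) : ℂ) * I
      + ((nsq (deriv φ s) : ℝ) : ℂ))
    (g3 := fun x => dot (φ s) (cj (deriv (deriv (deriv φ)) ((s + x : ℝ) : ℂ))) +
      ((((dot (deriv (deriv (deriv φ)) ((s + x : ℝ) : ℂ)) (cj (φ ((s + x : ℝ) : ℂ))) +
          dot (deriv (deriv φ) ((s + x : ℝ) : ℂ)) (cj (deriv φ ((s + x : ℝ) : ℂ)))) +
        (dot (deriv (deriv φ) ((s + x : ℝ) : ℂ)) (cj (deriv φ ((s + x : ℝ) : ℂ))) +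
          dot (deriv φ ((s + x : ℝ) : ℂ)) (cj (deriv (deriv φ) ((s + x : ℝ) : ℂ))))).im : ℝ) : ℂ) * I)
    ?_ ?_ ?_ ?_ ?_ ?_ ?_ x
  · intro y
    have a1 := sh y (dA (s + y) (p0 (s + y)))
    have a2 : HasDerivAt (fun y : ℝ => Th φ (s + y)) (kap φ (s + y)) y :=
      sh y (Th_hasDerivAt hc (s + y))
    have a3 : HasDerivAt (fun y : ℝ => nsq (deriv φ s) * y ^ 2 / 2) (nsq (deriv φ s) * y) y := by
      have := ((hasDerivAt_pow 2 y).const_mul (nsq (deriv φ s))).div_const 2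
      refine this.congr_deriv ?_
      simp
      ring
    exact ((a1.sub_const 1).add (ofR (a2.sub_const (Th φ s)))).add a3.ofReal_comp
  · intro y
    have a1 := sh y (dA (s + y) (p1 (s + y)))
    have a2 : HasDerivAt (fun y : ℝ => kap φ (s + y)) _ y := sh y (dk (s + y))
    have a3 : HasDerivAt (fun y : ℝ => nsq (deriv φ s) * y) (nsq (deriv φ s)) y := by
      have := (hasDerivAt_id y).const_mul (nsq (deriv φ s))
      simpa using this
    exact (a1.add (ofR a2)).add a3.ofReal_comp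
  · intro y
    have a1 := sh y (dA (s + y) (p2 (s + y)))
    have a2 := sh y (dk2 (s + y))
    exact (a1.add (ofR a2)).add_const _
  · intro y
    obtain ⟨b0, b1, b2, b3, -, -⟩ := hb ((s + y : ℝ) : ℂ) (hreal _)
    have b00 := (hb (s : ℂ) (hreal _)).1
    have hC0 : 0 ≤ C := by linarith
    have hd : ∀ z w : C2, ‖z‖ ≤ C → ‖w‖ ≤ C → ‖dot z (cj w)‖ ≤ 2 * C ^ 2 := by
      intro z w hz hw
      refine (norm_dot_le z (cj w)).trans ?_
      rw [norm_cj]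
      nlinarith [norm_nonneg z, norm_nonneg w]
    refine (norm_add_le _ _).trans ?_
    rw [norm_mul, norm_I, mul_one, norm_real, Real.norm_eq_abs]
    have c1 := hd _ _ b00 b3
    have c2 := hd _ _ b3 b0
    have c3 := hd _ _ b2 b1
    have c4 := hd _ _ b1 b2
    have c5 := (abs_im_le_norm ((dot (deriv (deriv (deriv φ)) ((s + y : ℝ) : ℂ)) (cj (φ ((s + y : ℝ) : ℂ))) +
          dot (deriv (deriv φ) ((s + y : ℝ) : ℂ)) (cj (deriv φ ((s + y : ℝ) : ℂ)))) +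
        (dot (deriv (deriv φ) ((s + y : ℝ) : ℂ)) (cj (deriv φ ((s + y : ℝ) : ℂ))) +
          dot (deriv φ ((s + y : ℝ) : ℂ)) (cj (deriv (deriv φ) ((s + y : ℝ) : ℂ)))))).trans
      ((norm_add_le _ _).trans (add_le_add (norm_add_le _ _) (norm_add_le _ _)))
    linarith
  · simp only [add_zero, sub_self, ofReal_zero, zero_mul]
    rw [dot_cj_self, hc.unit]
    norm_num
  · simp only [add_zero, mul_zero, ofReal_zero]
    rw [hconj (deriv φ s) (φ s), hid s, map_mul, conj_ofReal, conj_I]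
    ring
  · simp only [add_zero]
    have h1 := congrArg (starRingEnd ℂ) hid2
    rw [map_add, map_mul, conj_ofReal, conj_I, ← hconj, dot_cj_self, conj_ofReal] at h1
    rw [dot_cj_self]
    linear_combination h1

end MP18cae5
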