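import Pool.Agent.Lib.MP_18cae5_an.R03

/-! Row R04: the exponent near the curve. -/

set_option autoImplicit false

namespace MP18cae5

open Complex MeasureTheory Set Filter Topology

/-- the point `(1+b) φ(s+iη) + w n(s+iη)` -/
noncomputable def pt (φ : ℂ → C2) (s η : ℝ) (b w : ℂ) : C2 :=
  (1 + b) • φ ((s : ℂ) + (η : ℂ) * I) + w • nv φ ((s : ℂ) + (η : ℂ) * I)

theorem R04_im (s η : ℝ) : ((s : ℂ) + (η : ℂ) * I).im = η := by simp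

theorem R04_re (s : ℝ) : |((s : ℂ)).im| = 0 := by simp

theorem R04_decomp (φ : ℂ → C2) (s η t : ℝ) (b w : ℂ) :
    dot (pt φ s η b w) (cj (φ t)) = dot (φ s) (cj (φ t))
      + dot (φ ((s : ℂ) + (η : ℂ) * I) - φ s) (cj (φ t))
      + b * dot (φ ((s : ℂ) + (η : ℂ) * I)) (cj (φ t))
      + w * (dot (nv φ ((s : ℂ) + (η : ℂ) * I) - nv φ s) (cj (φ t))
        + dot (nv φ s) (cj (φ t - φ s))) := by
  have h0 := dot_nv_cj φ s
  rw [pt, dot_add_left, dot_smul_left, dot_smul_left, dot_sub_left, dot_sub_left, cj_sub,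
    dot_sub_right, h0]
  ring

/-- the three error terms of `R04_decomp`, bounded -/
theorem R04_terms {h : ℝ} {φ : ℂ → C2} (hc : Cur h φ) : ∃ C : ℝ, 0 < C ∧
    ∀ (s x η : ℝ) (b w : ℂ), |η| ≤ h / 2 →
    ‖dot (φ ((s : ℂ) + (η : ℂ) * I) - φ s) (cj (φ ((s + x : ℝ) : ℂ)))‖ ≤ C * |η| ∧
    ‖b * dot (φ ((s : ℂ) + (η : ℂ) * I)) (cj (φ ((s + x : ℝ) : ℂ)))‖ ≤ C * ‖b‖ ∧
    ‖w * (dot (nv φ ((s : ℂ) + (η : ℂ) * I) - nv φ s) (cj (φ ((s + x : ℝ) : ℂ)))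
        + dot (nv φ s) (cj (φ ((s + x : ℝ) : ℂ) - φ s)))‖ ≤ C * (‖w‖ * (|x| + |η|)) := by
  obtain ⟨C1, κ0, hC1, -, hb, -⟩ := cur_bounds hc
  obtain ⟨C2', hC2, hl⟩ := cur_lip hc
  have hh : (0 : ℝ) ≤ h / 2 := by have := hc.h_pos; linarith
  refine ⟨2 * C1 * C1 + 2 * C1 * C2', by positivity, fun s x η b w hη => ?_⟩
  set σ : ℂ := (s : ℂ) + (η : ℂ) * I with hσ
  have hσi : |σ.im| ≤ h / 2 := by rw [hσ, R04_im]; exact hη
  have hsi : |((s : ℂ)).im| ≤ h / 2 := by rw [R04_re]; exact hh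
  have hti : |(((s + x : ℝ) : ℂ)).im| ≤ h / 2 := by rw [R04_re]; exact hh
  obtain ⟨a1, -, -, -, a5, -⟩ := hb σ hσi
  obtain ⟨b1, -, -, -, b5, -⟩ := hb (s : ℂ) hsi
  obtain ⟨c1, -, -, -, -, -⟩ := hb ((s + x : ℝ) : ℂ) hti
  obtain ⟨l1, l2, -⟩ := hl σ (s : ℂ) hσi hsi
  obtain ⟨m1, -, -⟩ := hl ((s + x : ℝ) : ℂ) (s : ℂ) hti hsi
  have e1 : ‖σ - (s : ℂ)‖ = |η| := by
    have : σ - (s : ℂ) = (η : ℂ) * I := by rw [hσ]; ring
    rw [this, norm_mul, Complex.norm_I, mul_one, Complex.norm_real, Real.norm_eq_abs]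
  have e2 : ‖((s + x : ℝ) : ℂ) - (s : ℂ)‖ = |x| := by
    have : ((s + x : ℝ) : ℂ) - (s : ℂ) = (x : ℂ) := by push_cast; ring
    rw [this, Complex.norm_real, Real.norm_eq_abs]
  rw [e1] at l1 l2
  rw [e2] at m1
  have hx := abs_nonneg x
  have hη0 := abs_nonneg η
  have hb0 := norm_nonneg b
  have hw0 := norm_nonneg w
  have hC1' : (0 : ℝ) ≤ C1 := by linarith
  have hC2'' : (0 : ℝ) ≤ C2' := by linarith
  refine ⟨?_, ?_, ?_⟩
  · refine (norm_dot_le _ _).trans ?_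
    rw [norm_cj]
    have := mul_le_mul l1 c1 (norm_nonneg _) (by positivity)
    have h3 : (0 : ℝ) ≤ C1 * C1 * |η| := by positivity
    nlinarith
  · rw [norm_mul]
    have h1 : ‖dot (φ σ) (cj (φ ((s + x : ℝ) : ℂ)))‖ ≤ 2 * C1 * C1 := by
      refine (norm_dot_le _ _).trans ?_
      rw [norm_cj]
      have := mul_le_mul a1 c1 (norm_nonneg _) hC1'
      linarith
    have h2 := mul_le_mul_of_nonneg_left h1 hb0
    have h3 : (0 : ℝ) ≤ 2 * C1 * C2' * ‖b‖ := by positivity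
    nlinarith
  · rw [norm_mul]
    have h1 : ‖dot (nv φ σ - nv φ s) (cj (φ ((s + x : ℝ) : ℂ)))
        + dot (nv φ s) (cj (φ ((s + x : ℝ) : ℂ) - φ s))‖ ≤ 2 * C1 * C2' * (|x| + |η|) := by
      refine (norm_add_le _ _).trans ?_
      have h2 := norm_dot_le (nv φ σ - nv φ s) (cj (φ ((s + x : ℝ) : ℂ)))
      have h3 := norm_dot_le (nv φ s) (cj (φ ((s + x : ℝ) : ℂ) - φ s))
      rw [norm_cj] at h2 h3
      have h4 := mul_le_mul l2 c1 (norm_nonneg _) (by positivity)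
      have h5 := mul_le_mul b5 m1 (norm_nonneg _) hC1'
      nlinarith
    have h2 := mul_le_mul_of_nonneg_left h1 hw0
    have h3 : (0 : ℝ) ≤ 2 * C1 * C1 * (‖w‖ * (|x| + |η|)) := by positivity
    nlinarith

/-- second order in `η` -/
theorem R04_second {h : ℝ} {φ : ℂ → C2} (hc : Cur h φ) : ∃ C : ℝ, 0 < C ∧
    ∀ (s x η : ℝ), |η| ≤ h / 2 →
    ‖dot (φ ((s : ℂ) + (η : ℂ) * I) - φ s) (cj (φ ((s + x : ℝ) : ℂ)))
      + ((η * kap φ s : ℝ) : ℂ)‖ ≤ C * (η ^ 2 + |η| * |x|) := by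
  obtain ⟨C1, κ0, hC1, -, hb, -⟩ := cur_bounds hc
  obtain ⟨C2', hC2, hl⟩ := cur_lip hc
  have hpos := hc.h_pos
  have hh : (0 : ℝ) ≤ h / 2 := by linarith
  refine ⟨2 * C1 * C2', by positivity, fun s x η hη => ?_⟩
  set σ : ℂ := (s : ℂ) + (η : ℂ) * I with hσ
  have hσi : |σ.im| ≤ h / 2 := by rw [hσ, R04_im]; exact hη
  have hsi : |((s : ℂ)).im| ≤ h / 2 := by rw [R04_re]; exact hh
  have hti : |(((s + x : ℝ) : ℂ)).im| ≤ h / 2 := by rw [R04_re]; exact hh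
  obtain ⟨b1, b2, -, -, b5, -⟩ := hb (s : ℂ) hsi
  obtain ⟨c1, -, -, -, -, -⟩ := hb ((s + x : ℝ) : ℂ) hti
  obtain ⟨m1, -, -⟩ := hl ((s + x : ℝ) : ℂ) (s : ℂ) hti hsi
  have e1 : ‖σ - (s : ℂ)‖ = |η| := by
    have : σ - (s : ℂ) = (η : ℂ) * I := by rw [hσ]; ring
    rw [this, norm_mul, Complex.norm_I, mul_one, Complex.norm_real, Real.norm_eq_abs]
  have e2 : ‖((s + x : ℝ) : ℂ) - (s : ℂ)‖ = |x| := by
    have : ((s + x : ℝ) : ℂ) - (s : ℂ) = (x : ℂ) := by push_cast; ring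
    rw [this, Complex.norm_real, Real.norm_eq_abs]
  rw [e2] at m1
  -- the remainder
  have hR : ‖φ σ - φ s - (σ - s) • deriv φ s‖ ≤ C2' * |η| * |η| := by
    have hsub : segment ℝ (s : ℂ) σ ⊆ {u : ℂ | |u.im| ≤ h / 2 ∧ ‖u - (s : ℂ)‖ ≤ |η|} := by
      intro u hu
      rw [segment_eq_image'] at hu
      obtain ⟨θ, ⟨h0, h1⟩, rfl⟩ := hu
      have e3 : (s : ℂ) + θ • (σ - (s : ℂ)) = (s : ℂ) + ((θ * η : ℝ) : ℂ) * I := by
        rw [hσ, Complex.real_smul]; push_cast; ring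
      have e4 : |θ * η| ≤ |η| := by
        rw [abs_mul, abs_of_nonneg h0]
        have := mul_le_mul_of_nonneg_right h1 (abs_nonneg η)
        linarith
      constructor
      · show |((s : ℂ) + θ • (σ - (s : ℂ))).im| ≤ h / 2
        rw [e3, R04_im]; linarith
      · show ‖(s : ℂ) + θ • (σ - (s : ℂ)) - (s : ℂ)‖ ≤ |η|
        have e5 : (s : ℂ) + θ • (σ - (s : ℂ)) - (s : ℂ) = ((θ * η : ℝ) : ℂ) * I := by
          rw [e3]; ring
        rw [e5, norm_mul, Complex.norm_I, mul_one, Complex.norm_real, Real.norm_eq_abs]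
        exact e4
    have hder : ∀ u ∈ segment ℝ (s : ℂ) σ,
        HasDerivWithinAt (fun u : ℂ => φ u - (u - s) • deriv φ s) (deriv φ u - deriv φ s)
          (segment ℝ (s : ℂ) σ) u := by
      intro u hu
      have hu' := hsub hu
      have hmem : u ∈ strip h := by
        show |u.im| < h
        have := hu'.1
        linarith
      have hd : HasDerivAt φ (deriv φ u) u :=
        (hc.holo.differentiableAt ((isOpen_strip h).mem_nhds hmem)).hasDerivAt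
      have hd2 : HasDerivAt (fun u : ℂ => (u - s) • deriv φ s) ((1 : ℂ) • deriv φ s) u :=
        ((hasDerivAt_id u).sub_const (s : ℂ)).smul_const _
      rw [one_smul] at hd2
      exact (hd.sub hd2).hasDerivWithinAt
    have hbd : ∀ u ∈ segment ℝ (s : ℂ) σ, ‖deriv φ u - deriv φ s‖ ≤ C2' * |η| := by
      intro u hu
      have hu' := hsub hu
      have := (hl u (s : ℂ) hu'.1 hsi).2.2
      refine this.trans ?_
      exact mul_le_mul_of_nonneg_left hu'.2 (by linarith)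
    have key := (convex_segment (s : ℂ) σ).norm_image_sub_le_of_norm_hasDerivWithin_le hder hbd
      (left_mem_segment ℝ _ _) (right_mem_segment ℝ _ _)
    rw [e1] at key
    have e6 : φ σ - (σ - (s : ℂ)) • deriv φ (s : ℂ) - (φ (s : ℂ) - ((s : ℂ) - (s : ℂ)) • deriv φ (s : ℂ))
        = φ σ - φ s - (σ - s) • deriv φ s := by
      rw [sub_self, zero_smul, sub_zero]; abel
    rw [e6] at key
    exact key
  have e7 : σ - (s : ℂ) = (η : ℂ) * I := by rw [hσ]; ring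
  have hk := dot_deriv_cj hc s
  have e8 : dot (φ σ - φ s) (cj (φ ((s + x : ℝ) : ℂ))) + ((η * kap φ s : ℝ) : ℂ)
      = dot (φ σ - φ s - (σ - s) • deriv φ s) (cj (φ ((s + x : ℝ) : ℂ)))
        + ((η : ℂ) * I) * dot (deriv φ s) (cj (φ ((s + x : ℝ) : ℂ) - φ s)) := by
    rw [dot_sub_left (φ σ - φ s) ((σ - s) • deriv φ s), dot_smul_left, cj_sub, dot_sub_right, hk, e7]
    push_cast
    have hI : I * I = -1 := Complex.I_mul_I
    linear_combination ((η : ℂ) * (kap φ s : ℂ)) * hI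
  rw [e8]
  refine (norm_add_le _ _).trans ?_
  have h2 := norm_dot_le (φ σ - φ s - (σ - s) • deriv φ s) (cj (φ ((s + x : ℝ) : ℂ)))
  have h3 := norm_dot_le (deriv φ (s : ℂ)) (cj (φ ((s + x : ℝ) : ℂ) - φ s))
  rw [norm_cj] at h2 h3
  have hη0 := abs_nonneg η
  have hx := abs_nonneg x
  have hC1' : (0 : ℝ) ≤ C1 := by linarith
  have hC2'' : (0 : ℝ) ≤ C2' := by linarith
  have h4 := mul_le_mul hR c1 (norm_nonneg _) (by positivity)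
  have h5 := mul_le_mul b2 m1 (norm_nonneg _) hC1'
  have h6 : ‖(η : ℂ) * I * dot (deriv φ s) (cj (φ ((s + x : ℝ) : ℂ) - φ s))‖
      ≤ |η| * (2 * (C1 * (C2' * |x|))) := by
    rw [norm_mul, norm_mul, Complex.norm_I, mul_one, Complex.norm_real, Real.norm_eq_abs]
    exact mul_le_mul_of_nonneg_left (by linarith) hη0
  have h7 : |η| * |η| = η ^ 2 := by rw [← sq, sq_abs]
  have h8 : C2' * |η| * |η| = C2' * η ^ 2 := by rw [mul_assoc, h7]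
  rw [h8] at h4
  calc _ ≤ 2 * (C2' * η ^ 2 * C1) + |η| * (2 * (C1 * (C2' * |x|))) := by linarith
    _ = _ := by ring

/-- ROW R04.  `ip_expand` plus: `φ(s+iη) = φ(s) + iη φ'(s) + O(η²)`, `⟨φ'(s), φ(s+x)⟩ = iκ(s) + O(|x|)`,
`|⟨b φ(s+iη), φ(s+x)⟩| ≤ C|b|`, and `|⟨n(s+iη), φ(s+x)⟩| ≤ C(|x|+|η|)` since `⟨n(s), φ(s)⟩ = 0` and `n`, `φ` are Lipschitz. -/
theorem psi_expand {h : ℝ} {φ : ℂ → C2} (hc : Cur h φ) : ∃ C : ℝ, 0 < C ∧
    ∀ (s x η : ℝ) (b w : ℂ), |x| ≤ Real.pi → |η| ≤ h / 2 →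
    ‖dot (pt φ s η b w) (cj (φ ((s + x : ℝ) : ℂ))) - 1 + ((Th φ (s + x) - Th φ s : ℝ) : ℂ) * I
      + ((η * kap φ s : ℝ) : ℂ) + ((nsq (deriv φ s) * x ^ 2 / 2 : ℝ) : ℂ)‖
      ≤ C * (|x| ^ 3 + η ^ 2 + |η| * |x| + ‖b‖ + ‖w‖ * (|x| + |η|)) := by
  obtain ⟨C0, hC0, hip⟩ := ip_expand hc
  obtain ⟨C1, hC1, h1⟩ := R04_terms hc
  obtain ⟨C2', hC2, h2⟩ := R04_second hc
  refine ⟨C0 + C1 + C2', by positivity, fun s x η b w _ hη => ?_⟩
  obtain ⟨-, t2, t3⟩ := h1 s x η b w hη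
  have t1 := h2 s x η hη
  have t0 := hip s x
  rw [R04_decomp]
  have e : dot (φ s) (cj (φ ((s + x : ℝ) : ℂ)))
      + dot (φ ((s : ℂ) + (η : ℂ) * I) - φ s) (cj (φ ((s + x : ℝ) : ℂ)))
      + b * dot (φ ((s : ℂ) + (η : ℂ) * I)) (cj (φ ((s + x : ℝ) : ℂ)))
      + w * (dot (nv φ ((s : ℂ) + (η : ℂ) * I) - nv φ s) (cj (φ ((s + x : ℝ) : ℂ)))
        + dot (nv φ s) (cj (φ ((s + x : ℝ) : ℂ) - φ s)))
      - 1 + ((Th φ (s + x) - Th φ s : ℝ) : ℂ) * I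
      + ((η * kap φ s : ℝ) : ℂ) + ((nsq (deriv φ s) * x ^ 2 / 2 : ℝ) : ℂ)
      = (dot (φ s) (cj (φ ((s + x : ℝ) : ℂ))) - 1 + ((Th φ (s + x) - Th φ s : ℝ) : ℂ) * I
          + ((nsq (deriv φ s) * x ^ 2 / 2 : ℝ) : ℂ))
        + (dot (φ ((s : ℂ) + (η : ℂ) * I) - φ s) (cj (φ ((s + x : ℝ) : ℂ)))
          + ((η * kap φ s : ℝ) : ℂ))
        + b * dot (φ ((s : ℂ) + (η : ℂ) * I)) (cj (φ ((s + x : ℝ) : ℂ)))
        + w * (dot (nv φ ((s : ℂ) + (η : ℂ) * I) - nv φ s) (cj (φ ((s + x : ℝ) : ℂ)))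
          + dot (nv φ s) (cj (φ ((s + x : ℝ) : ℂ) - φ s))) := by ring
  rw [e]
  refine (norm_add_le _ _).trans ?_
  refine (add_le_add_left ((norm_add_le _ _).trans
    (add_le_add_left (norm_add_le _ _) _)) _).trans ?_
  have p1 : (0 : ℝ) ≤ |x| ^ 3 := by positivity
  have p2 : (0 : ℝ) ≤ η ^ 2 + |η| * |x| := by positivity
  have p3 : (0 : ℝ) ≤ ‖b‖ := norm_nonneg b
  have p4 : (0 : ℝ) ≤ ‖w‖ * (|x| + |η|) := by positivity
  have q1 : (0 : ℝ) ≤ (C1 + C2') * |x| ^ 3 := by positivity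
  have q2 : (0 : ℝ) ≤ (C0 + C1) * (η ^ 2 + |η| * |x|) := by positivity
  have q3 : (0 : ℝ) ≤ (C0 + C2') * ‖b‖ := by positivity
  have q4 : (0 : ℝ) ≤ (C0 + C2') * (‖w‖ * (|x| + |η|)) := by positivity
  calc _ ≤ C0 * |x| ^ 3 + C2' * (η ^ 2 + |η| * |x|) + C1 * ‖b‖ + C1 * (‖w‖ * (|x| + |η|)) := by
        linarith
    _ ≤ _ := by linarith

/-- ROW R04.  Domination: `Re ⟨φ(s), φ(s+x)⟩ - 1 = - nsq (φ(s) - φ(s+x)) / 2 ≤ -c x²/2` by `Cur.sep`. -/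
theorem psi_dom {h : ℝ} {φ : ℂ → C2} (hc : Cur h φ) : ∃ c C : ℝ, 0 < c ∧ 0 < C ∧
    ∀ (s x η : ℝ) (b w : ℂ), |x| ≤ Real.pi → |η| ≤ h / 2 →
    (dot (pt φ s η b w) (cj (φ ((s + x : ℝ) : ℂ))) - 1).re
      ≤ - c * x ^ 2 + C * (|η| + ‖b‖ + ‖w‖ * (|x| + |η|)) := by
  obtain ⟨c, hcpos, hsep⟩ := hc.sep
  obtain ⟨C1, hC1, h1⟩ := R04_terms hc
  refine ⟨c / 2, C1, by positivity, hC1, fun s x η b w hx hη => ?_⟩
  obtain ⟨t1, t2, t3⟩ := h1 s x η b w hη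
  rw [R04_decomp]
  have hs := hsep s (s + x) (by rw [show s - (s + x) = -x by ring, abs_neg]; exact hx)
  rw [nsq_sub, hc.unit, hc.unit] at hs
  have r1 := (re_le_norm (dot (φ ((s : ℂ) + (η : ℂ) * I) - φ s) (cj (φ ((s + x : ℝ) : ℂ))))).trans t1
  have r2 := (re_le_norm (b * dot (φ ((s : ℂ) + (η : ℂ) * I)) (cj (φ ((s + x : ℝ) : ℂ))))).trans t2
  have r3 := (re_le_norm (w * (dot (nv φ ((s : ℂ) + (η : ℂ) * I) - nv φ s) (cj (φ ((s + x : ℝ) : ℂ)))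
        + dot (nv φ s) (cj (φ ((s + x : ℝ) : ℂ) - φ s))))).trans t3
  rw [sub_re, add_re, add_re, add_re, one_re]
  have e : (s - (s + x)) ^ 2 = x ^ 2 := by ring
  rw [e] at hs
  nlinarith

end MP18cae5
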