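import Pool.Agent.Lib.MP_18cae5_an.R04

/-! Row R06: the peak function after translation and rescaling. -/

set_option autoImplicit false

namespace MP18cae5

open Complex MeasureTheory Set Filter Topology

theorem R06_exp {M θ : ℝ} {k : ℕ} (h : M * θ = 2 * Real.pi * k) (a : ℂ) (u : ℝ) :
    Complex.exp (M * (a + ((u + θ : ℝ) : ℂ) * I)) = Complex.exp (M * (a + (u : ℂ) * I)) := by
  have h1 : (M : ℂ) * (a + ((u + θ : ℝ) : ℂ) * I) = M * (a + (u : ℂ) * I) + (k : ℕ) * (2 * Real.pi * I) := by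
    have h2 : (M : ℂ) * (θ : ℂ) = 2 * Real.pi * k := by exact_mod_cast h
    rw [Complex.ofReal_add]
    linear_combination I * h2
  rw [h1, Complex.exp_add, Complex.exp_nat_mul_two_pi_mul_I, mul_one]

/-- ROW R06.  For admissible `M` the integrand of `Pk` is `2π`-periodic (`Th_add`, `Adm`: `exp (iM Th (2π)) = 1`), so the
integral over `[0,2π]` is the integral over `[s-π, s+π]` (`Function.Periodic.intervalIntegral_add_eq`); substitute
`s + x` and then `x = y/√M`. -/
theorem Pk_shift {h : ℝ} {φ : ℂ → C2} (hc : Cur h φ) {M : ℝ} (hM : 0 < M) (hadm : Adm φ M) (z : C2)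
    (s : ℝ) :
    Pk φ M z = ((1 / Real.sqrt (2 * Real.pi) : ℝ) : ℂ) *
      ∫ y in (-(Real.pi * Real.sqrt M))..(Real.pi * Real.sqrt M),
        (Real.sqrt (nsq (deriv φ ((s + y / Real.sqrt M : ℝ) : ℂ))) : ℂ) *
          Complex.exp (M * (dot z (cj (φ ((s + y / Real.sqrt M : ℝ) : ℂ))) - 1
            + (Th φ (s + y / Real.sqrt M) : ℂ) * I)) := by
  have hs : Real.sqrt M ≠ 0 := (Real.sqrt_pos.2 hM).ne'
  obtain ⟨k, hk⟩ := hadm
  set f : ℝ → ℂ := fun u => (Real.sqrt (nsq (deriv φ (u : ℂ))) : ℂ) *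
      Complex.exp (M * (dot z (cj (φ (u : ℂ))) - 1 + (Th φ u : ℂ) * I)) with hf
  have hper : Function.Periodic f (2 * Real.pi) := by
    intro u
    have e1 : ((u + 2 * Real.pi : ℝ) : ℂ) = (u : ℂ) + 2 * Real.pi := by push_cast; rfl
    simp only [hf]
    rw [Th_add hc u, R06_exp hk, e1, hc.per, deriv_per hc.per]
  have h1 := intervalIntegral.integral_comp_add_div (a := -(Real.pi * Real.sqrt M)) (b := Real.pi * Real.sqrt M)
    f hs s
  have h2 : (∫ y in (-(Real.pi * Real.sqrt M))..(Real.pi * Real.sqrt M),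
        (Real.sqrt (nsq (deriv φ ((s + y / Real.sqrt M : ℝ) : ℂ))) : ℂ) *
          Complex.exp (M * (dot z (cj (φ ((s + y / Real.sqrt M : ℝ) : ℂ))) - 1
            + (Th φ (s + y / Real.sqrt M) : ℂ) * I))) =
      ∫ y in (-(Real.pi * Real.sqrt M))..(Real.pi * Real.sqrt M), f (s + y / Real.sqrt M) := rfl
  have h3 : s + -(Real.pi * Real.sqrt M) / Real.sqrt M = s - Real.pi := by
    field_simp
    ring
  have h4 : s + Real.pi * Real.sqrt M / Real.sqrt M = (s - Real.pi) + 2 * Real.pi := by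
    field_simp
    ring
  have h5 := hper.intervalIntegral_add_eq 0 (s - Real.pi)
  rw [zero_add] at h5
  rw [h2, h1, h3, h4, ← h5, Pk, Real.sqrt_div' _ (by positivity), Complex.real_smul]
  push_cast
  ring

end MP18cae5
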