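import Pool.Agent.Lib.MP_18cae5_an.R06

/-! Row R07: the Laplace asymptotics of the peak function. -/

set_option autoImplicit false

namespace MP18cae5

open Complex MeasureTheory Set Filter Topology

private lemma R07_eps_le {M : ℝ} (hM : 1 ≤ M) : eps M ≤ 1 :=
  Real.rpow_le_one_of_one_le_of_nonpos hM (by norm_num)

private lemma R07_Meps2_le {M : ℝ} (hM : 1 ≤ M) : M * eps M ^ 2 ≤ 1 := by
  rw [M_mul_eps_sq (by linarith)]
  exact Real.rpow_le_one_of_one_le_of_nonpos hM (by norm_num)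

private lemma R07_Mer_eq {M : ℝ} (hM : 0 < M) : M * eps M / Real.sqrt M = M ^ (-(1 / 6 : ℝ)) := by
  rw [M_mul_eps hM, Real.sqrt_eq_rpow, ← Real.rpow_sub hM]
  norm_num

private lemma R07_Mer_le {M : ℝ} (hM : 1 ≤ M) : M * eps M / Real.sqrt M ≤ 1 := by
  rw [R07_Mer_eq (by linarith)]
  exact Real.rpow_le_one_of_one_le_of_nonpos hM (by norm_num)

private lemma R07_dcont {h : ℝ} {φ : ℂ → C2} (hc : Cur h φ) :
    Continuous fun t : ℝ => deriv φ (t : ℂ) := by
  have h1 : ContinuousOn (deriv φ) (strip h) :=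
    (hc.holo.deriv (isOpen_strip h)).continuousOn
  exact h1.comp_continuous continuous_ofReal fun t => hc.mem_strip_ofReal t

private lemma R07_pcont {h : ℝ} {φ : ℂ → C2} (hc : Cur h φ) :
    Continuous fun t : ℝ => φ (t : ℂ) :=
  hc.holo.continuousOn.comp_continuous continuous_ofReal fun t => hc.mem_strip_ofReal t

private lemma R07_cj_cont : Continuous cj := by
  unfold cj
  exact (continuous_conj.comp continuous_fst).prodMk (continuous_conj.comp continuous_snd)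

private lemma R07_dot_cont (z : C2) : Continuous fun w : C2 => dot z w := by
  unfold dot
  exact (continuous_const.mul continuous_fst).add (continuous_const.mul continuous_snd)

/-- bounds for `nsq φ'` -/
private lemma R07_nsq_bd {h : ℝ} {φ : ℂ → C2} (hc : Cur h φ) : ∃ n0 N0 K0 : ℝ, 0 < n0 ∧ 0 < N0 ∧
    0 < K0 ∧ ∀ t : ℝ, n0 ≤ nsq (deriv φ t) ∧ nsq (deriv φ t) ≤ N0 ∧ |kap φ t| ≤ K0 := by
  obtain ⟨C, κ0, hC, hκ0, h1, h2⟩ := cur_bounds hc
  refine ⟨κ0 ^ 2, 2 * C ^ 2, C, by positivity, by positivity, by linarith, fun t => ⟨?_, ?_, ?_⟩⟩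
  · have h3 := normSq_dot_le (deriv φ t) (cj (φ t))
    rw [nsq_cj, hc.unit t, mul_one] at h3
    have h4 : kap φ t ≤ ‖dot (deriv φ t) (cj (φ t))‖ :=
      (le_abs_self _).trans (abs_im_le_norm _)
    have h5 := (h2 t).1
    nlinarith
  · have h3 : |((t : ℂ)).im| ≤ h / 2 := by
      rw [ofReal_im, abs_zero]
      linarith [hc.h_pos]
    have h4 := (h1 t h3).2.1
    have h5 := nsq_le_norm_sq (deriv φ t)
    have h6 := norm_nonneg (deriv φ t)
    nlinarith
  · rw [abs_le]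
    exact ⟨by linarith [(h2 t).1], (h2 t).2⟩

private lemma R07_sqrt_sub (a b : C2) :
    |Real.sqrt (nsq a) - Real.sqrt (nsq b)| ≤ 2 * ‖a - b‖ := by
  have h0 : ∀ z : C2, Real.sqrt (nsq z) ≤ 2 * ‖z‖ := by
    intro z
    rw [Real.sqrt_le_left (by positivity)]
    have := nsq_le_norm_sq z
    nlinarith [norm_nonneg z]
  rw [abs_le]
  constructor
  · have h1 := sqrt_nsq_add_le a (b - a)
    rw [add_sub_cancel] at h1
    have h2 := h0 (b - a)
    rw [norm_sub_rev] at h2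
    linarith
  · have h1 := sqrt_nsq_add_le b (a - b)
    rw [add_sub_cancel] at h1
    have h2 := h0 (a - b)
    linarith

/-- the integrand after rescaling -/
private noncomputable def R07_psi (φ : ℂ → C2) (M s η : ℝ) (b w : ℂ) (y : ℝ) : ℂ :=
  (M : ℂ) * (dot (pt φ s η b w) (cj (φ ((s + y / Real.sqrt M : ℝ) : ℂ))) - 1 +
    ((Th φ (s + y / Real.sqrt M) - Th φ s : ℝ) : ℂ) * I + ((η * kap φ s : ℝ) : ℂ))

private noncomputable def R07_f (φ : ℂ → C2) (M s η : ℝ) (b w : ℂ) (y : ℝ) : ℂ :=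
  (Real.sqrt (nsq (deriv φ ((s + y / Real.sqrt M : ℝ) : ℂ))) : ℂ) *
    Complex.exp (R07_psi φ M s η b w y)

private noncomputable def R07_F (φ : ℂ → C2) (M s η : ℝ) (b w : ℂ) : ℝ → ℂ :=
  (Ioc (-(Real.pi * Real.sqrt M)) (Real.pi * Real.sqrt M)).indicator (R07_f φ M s η b w)

private noncomputable def R07_G (φ : ℂ → C2) (s : ℝ) (y : ℝ) : ℂ :=
  ((Real.sqrt (nsq (deriv φ s)) * Real.exp (-(nsq (deriv φ s) / 2) * y ^ 2) : ℝ) : ℂ)

private lemma R07_f_cont {h : ℝ} {φ : ℂ → C2} (hc : Cur h φ) (M s η : ℝ) (b w : ℂ) :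
    Continuous (R07_f φ M s η b w) := by
  have hx : Continuous fun y : ℝ => s + y / Real.sqrt M :=
    continuous_const.add (continuous_id.div_const _)
  have hT : Continuous (Th φ) :=
    continuous_iff_continuousAt.2 fun t => (Th_hasDerivAt hc t).continuousAt
  unfold R07_f R07_psi
  refine ((continuous_ofReal.comp ((continuous_nsq.comp ((R07_dcont hc).comp hx)).sqrt))).mul ?_
  refine Complex.continuous_exp.comp (continuous_const.mul ?_)
  refine ((((R07_dot_cont _).comp (R07_cj_cont.comp ((R07_pcont hc).comp hx))).sub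
    continuous_const).add ?_).add continuous_const
  exact (continuous_ofReal.comp ((hT.comp hx).sub continuous_const)).mul continuous_const

/-- the value of the peak function times the exponential -/
private lemma R07_eq {h : ℝ} {φ : ℂ → C2} (hc : Cur h φ) {M : ℝ} (hM : 0 < M) (hadm : Adm φ M)
    (s η : ℝ) (b w : ℂ) :
    Pk φ M (pt φ s η b w) *
      Complex.exp (-((M * Th φ s : ℝ) : ℂ) * I + ((M * η * kap φ s : ℝ) : ℂ)) =
    ((1 / Real.sqrt (2 * Real.pi) : ℝ) : ℂ) * ∫ y : ℝ, R07_F φ M s η b w y := by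
  rw [Pk_shift hc hM hadm _ s, mul_assoc, ← intervalIntegral.integral_mul_const]
  congr 1
  have h1 : -(Real.pi * Real.sqrt M) ≤ Real.pi * Real.sqrt M := by
    have : 0 ≤ Real.pi * Real.sqrt M := by positivity
    linarith
  rw [intervalIntegral.integral_of_le h1]
  unfold R07_F
  rw [integral_indicator measurableSet_Ioc]
  refine integral_congr_ae (Eventually.of_forall fun y => ?_)
  simp only [R07_f, R07_psi]
  rw [mul_assoc, ← Complex.exp_add]
  congr 2
  push_cast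
  ring

/-- the Gaussian integral -/
private lemma R07_G_int {φ : ℂ → C2} (s : ℝ) (hs : 0 < nsq (deriv φ s)) :
    ∫ y : ℝ, R07_G φ s y = ((Real.sqrt (2 * Real.pi) : ℝ) : ℂ) := by
  unfold R07_G
  rw [integral_complex_ofReal, integral_const_mul, integral_gaussian, ← Real.sqrt_mul (nsq_nonneg _)]
  congr 2
  field_simp

private lemma R07_G_integrable {φ : ℂ → C2} (s : ℝ) (hs : 0 < nsq (deriv φ s)) :
    Integrable (R07_G φ s) := by
  have h1 : Integrable fun y : ℝ => Real.sqrt (nsq (deriv φ s)) *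
      Real.exp (-(nsq (deriv φ s) / 2) * y ^ 2) :=
    (integrable_exp_neg_mul_sq (by positivity)).const_mul _
  exact h1.ofReal

/-- elementary bound for the error terms -/
private lemma R07_terms {M A η x y : ℝ} {b w : ℂ} (hM : 1 ≤ M) (hA : 0 ≤ A) (hη : |η| ≤ A / M)
    (hb : ‖b‖ ≤ A * eps M ^ 2) (hw : ‖w‖ ≤ A * eps M) (hx : x = y / Real.sqrt M) :
    M * |η| ≤ A ∧ M * ‖b‖ ≤ A * (M * eps M ^ 2) ∧
      M * (‖w‖ * (|x| + |η|)) ≤ A * |y| * (M * eps M / Real.sqrt M) + A ^ 2 * eps M := by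
  have hM0 : 0 < M := by linarith
  have hr : 0 < Real.sqrt M := Real.sqrt_pos.2 hM0
  have he := (eps_pos hM0).le
  have h1 : M * |η| ≤ A := by
    have := mul_le_mul_of_nonneg_left hη hM0.le
    rwa [mul_div_cancel₀ _ hM0.ne'] at this
  refine ⟨h1, ?_, ?_⟩
  · have := mul_le_mul_of_nonneg_left hb hM0.le
    linarith
  · have h2 : |x| = |y| / Real.sqrt M := by rw [hx, abs_div, abs_of_pos hr]
    have h3 : M * (‖w‖ * (|x| + |η|)) = ‖w‖ * (M * |x|) + ‖w‖ * (M * |η|) := by ring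
    have h4 : ‖w‖ * (M * |x|) ≤ A * eps M * (M * |x|) :=
      mul_le_mul_of_nonneg_right hw (by positivity)
    have h5 : ‖w‖ * (M * |η|) ≤ A * eps M * A :=
      mul_le_mul hw h1 (by positivity) (by positivity)
    have h6 : A * eps M * (M * |x|) = A * |y| * (M * eps M / Real.sqrt M) := by
      rw [h2]; ring
    nlinarith

/-- the domination of the integrand -/
private lemma R07_normF {h : ℝ} {φ : ℂ → C2} {N0 K0 c C' A : ℝ} (hK0 : 0 ≤ K0) (hc0 : 0 < c)
    (hC' : 0 ≤ C') (hA : 0 ≤ A)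
    (hnN : ∀ t : ℝ, nsq (deriv φ t) ≤ N0 ∧ |kap φ t| ≤ K0)
    (hdom : ∀ (s x η : ℝ) (b w : ℂ), |x| ≤ Real.pi → |η| ≤ h / 2 →
      (dot (pt φ s η b w) (cj (φ ((s + x : ℝ) : ℂ))) - 1).re
        ≤ - c * x ^ 2 + C' * (|η| + ‖b‖ + ‖w‖ * (|x| + |η|)))
    {M s η : ℝ} {b w : ℂ} (hM : 1 ≤ M) (hη : |η| ≤ A / M) (hη2 : |η| ≤ h / 2)
    (hb : ‖b‖ ≤ A * eps M ^ 2) (hw : ‖w‖ ≤ A * eps M) (y : ℝ) :
    ‖R07_F φ M s η b w y‖ ≤ Real.sqrt N0 * Real.exp (-(c / 2) * y ^ 2 +
      ((C' * (2 * A + A + A ^ 2) + A * K0) + (C' * (2 * A + A + A ^ 2) + A * K0) ^ 2 / (2 * c))) := by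
  set K : ℝ := C' * (2 * A + A + A ^ 2) + A * K0 with hK
  have hKnn : 0 ≤ K := by positivity
  have hM0 : 0 < M := by linarith
  have hr : 0 < Real.sqrt M := Real.sqrt_pos.2 hM0
  unfold R07_F
  by_cases hy : y ∈ Ioc (-(Real.pi * Real.sqrt M)) (Real.pi * Real.sqrt M)
  · rw [indicator_of_mem hy]
    unfold R07_f
    rw [norm_mul, Complex.norm_exp, Complex.norm_real, Real.norm_of_nonneg (Real.sqrt_nonneg _)]
    refine mul_le_mul (Real.sqrt_le_sqrt (hnN _).1) (Real.exp_le_exp.2 ?_) (Real.exp_pos _).le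
      (Real.sqrt_nonneg _)
    set x : ℝ := y / Real.sqrt M with hx
    have hxpi : |x| ≤ Real.pi := by
      rw [hx, abs_div, abs_of_pos hr, div_le_iff₀ hr, abs_le]
      exact ⟨hy.1.le, hy.2⟩
    have h1 := hdom s x η b w hxpi hη2
    obtain ⟨t1, t2, t3⟩ := R07_terms hM hA hη hb hw hx
    have e1 := R07_Meps2_le hM
    have e2 := R07_Mer_le hM
    have e3 := R07_eps_le hM
    have hre : (R07_psi φ M s η b w y).re =
        M * ((dot (pt φ s η b w) (cj (φ ((s + x : ℝ) : ℂ))) - 1).re) + M * (η * kap φ s) := by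
      unfold R07_psi
      rw [re_ofReal_mul, add_re, add_re, ofReal_re, re_ofReal_mul, I_re, mul_zero, add_zero, ← hx]
      ring
    rw [hre]
    have hx2 : M * x ^ 2 = y ^ 2 := by
      rw [hx, div_pow, Real.sq_sqrt hM0.le, mul_div_cancel₀ _ hM0.ne']
    have h2 := mul_le_mul_of_nonneg_left h1 hM0.le
    have h3 : M * (η * kap φ s) ≤ A * K0 := by
      have h4 : M * (η * kap φ s) ≤ M * (|η| * |kap φ s|) := by
        refine mul_le_mul_of_nonneg_left ?_ hM0.le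
        rw [← abs_mul]
        exact le_abs_self _
      have h5 : M * (|η| * |kap φ s|) = (M * |η|) * |kap φ s| := by ring
      rw [h5] at h4
      exact h4.trans (mul_le_mul t1 (hnN s).2 (abs_nonneg _) hA)
    have h6 : M * (-c * x ^ 2 + C' * (|η| + ‖b‖ + ‖w‖ * (|x| + |η|))) =
        -c * y ^ 2 + C' * (M * |η| + M * ‖b‖ + M * (‖w‖ * (|x| + |η|))) := by
      rw [← hx2]; ring
    rw [h6] at h2
    have t2' : M * ‖b‖ ≤ A := t2.trans (by nlinarith)
    have t3' : M * (‖w‖ * (|x| + |η|)) ≤ A * |y| + A ^ 2 := by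
      refine t3.trans ?_
      have i1 : A * |y| * (M * eps M / Real.sqrt M) ≤ A * |y| * 1 :=
        mul_le_mul_of_nonneg_left e2 (by positivity)
      have i2 : A ^ 2 * eps M ≤ A ^ 2 * 1 := mul_le_mul_of_nonneg_left e3 (by positivity)
      linarith
    have h7 : C' * (M * |η| + M * ‖b‖ + M * (‖w‖ * (|x| + |η|))) ≤
        C' * (A + A + (A * |y| + A ^ 2)) :=
      mul_le_mul_of_nonneg_left (by linarith) hC'
    have h8 : C' * (A + A + (A * |y| + A ^ 2)) + A * K0 ≤ K + K * |y| := by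
      have i1 : 0 ≤ C' * A := by positivity
      have i2 : 0 ≤ C' * A ^ 2 := by positivity
      have i3 : 0 ≤ A * K0 := by positivity
      have i4 := abs_nonneg y
      have i5 : 0 ≤ (C' * A) * |y| := by positivity
      have i6 : 0 ≤ (C' * A ^ 2) * |y| := by positivity
      have i7 : 0 ≤ (A * K0) * |y| := by positivity
      rw [hK]
      nlinarith
    have h9 : K * |y| ≤ c / 2 * y ^ 2 + K ^ 2 / (2 * c) := by
      have h10 : 0 ≤ (c * |y| - K) ^ 2 / (2 * c) := by positivity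
      have h11 : (c * |y| - K) ^ 2 / (2 * c) = c / 2 * |y| ^ 2 - K * |y| + K ^ 2 / (2 * c) := by
        field_simp
        ring
      rw [h11, sq_abs] at h10
      linarith
    linarith
  · rw [indicator_of_notMem hy, norm_zero]
    positivity

private lemma R07_normG {φ : ℂ → C2} {n0 N0 : ℝ}
    (hnN : ∀ t : ℝ, n0 ≤ nsq (deriv φ t) ∧ nsq (deriv φ t) ≤ N0) (s y : ℝ) :
    ‖R07_G φ s y‖ ≤ Real.sqrt N0 * Real.exp (-(n0 / 2) * y ^ 2) := by
  unfold R07_G
  rw [Complex.norm_real, Real.norm_of_nonneg (by positivity)]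
  refine mul_le_mul (Real.sqrt_le_sqrt (hnN s).2) (Real.exp_le_exp.2 ?_) (Real.exp_pos _).le
    (Real.sqrt_nonneg _)
  have := (hnN s).1
  nlinarith [sq_nonneg y]

private lemma R07_diff {h : ℝ} {φ : ℂ → C2} {N0 C CL A : ℝ} (hC : 0 ≤ C)
    (hA : 0 ≤ A) (hnN : ∀ t : ℝ, nsq (deriv φ t) ≤ N0)
    (hCe : ∀ (s x η : ℝ) (b w : ℂ), |x| ≤ Real.pi → |η| ≤ h / 2 →
      ‖dot (pt φ s η b w) (cj (φ ((s + x : ℝ) : ℂ))) - 1 + ((Th φ (s + x) - Th φ s : ℝ) : ℂ) * I
        + ((η * kap φ s : ℝ) : ℂ) + ((nsq (deriv φ s) * x ^ 2 / 2 : ℝ) : ℂ)‖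
        ≤ C * (|x| ^ 3 + η ^ 2 + |η| * |x| + ‖b‖ + ‖w‖ * (|x| + |η|)))
    (hlip : ∀ t t' : ℝ, ‖deriv φ t - deriv φ t'‖ ≤ CL * |t - t'|)
    {M s η : ℝ} {b w : ℂ} (hM : 1 ≤ M) (hη : |η| ≤ A / M) (hη2 : |η| ≤ h / 2)
    (hb : ‖b‖ ≤ A * eps M ^ 2) (hw : ‖w‖ ≤ A * eps M) {y : ℝ} (hy : |y| < Real.pi * Real.sqrt M)
    (hD : C * (|y| ^ 3 * (1 / Real.sqrt M) + A * (A / M) + A * |y| * (1 / Real.sqrt M) +
      A * (M * eps M ^ 2) + (A * |y| * (M * eps M / Real.sqrt M) + A ^ 2 * eps M)) ≤ 1) :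
    ‖R07_F φ M s η b w y - R07_G φ s y‖ ≤
      Real.sqrt N0 * (2 * (C * (|y| ^ 3 * (1 / Real.sqrt M) + A * (A / M) +
        A * |y| * (1 / Real.sqrt M) +
        A * (M * eps M ^ 2) + (A * |y| * (M * eps M / Real.sqrt M) + A ^ 2 * eps M)))) +
      2 * (CL * (|y| * (1 / Real.sqrt M))) := by
  have hM0 : 0 < M := by linarith
  have hr : 0 < Real.sqrt M := Real.sqrt_pos.2 hM0
  have hymem : y ∈ Ioc (-(Real.pi * Real.sqrt M)) (Real.pi * Real.sqrt M) :=
    ⟨(abs_lt.1 hy).1, (abs_lt.1 hy).2.le⟩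
  set x : ℝ := y / Real.sqrt M with hx
  have hxabs : |x| = |y| / Real.sqrt M := by rw [hx, abs_div, abs_of_pos hr]
  have hxpi : |x| ≤ Real.pi := by
    rw [hxabs, div_le_iff₀ hr]
    exact hy.le
  have hx2 : M * x ^ 2 = y ^ 2 := by
    rw [hx, div_pow, Real.sq_sqrt hM0.le, mul_div_cancel₀ _ hM0.ne']
  obtain ⟨t1, t2, t3⟩ := R07_terms hM hA hη hb hw hx
  set δ : ℂ := R07_psi φ M s η b w y + ((nsq (deriv φ s) / 2 * y ^ 2 : ℝ) : ℂ) with hδ
  set D : ℝ := C * (|y| ^ 3 * (1 / Real.sqrt M) + A * (A / M) +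
    A * |y| * (1 / Real.sqrt M) +
    A * (M * eps M ^ 2) + (A * |y| * (M * eps M / Real.sqrt M) + A ^ 2 * eps M)) with hDdef
  have hδn : ‖δ‖ ≤ D := by
    have h1 : δ = (M : ℂ) * (dot (pt φ s η b w) (cj (φ ((s + x : ℝ) : ℂ))) - 1 +
        ((Th φ (s + x) - Th φ s : ℝ) : ℂ) * I
        + ((η * kap φ s : ℝ) : ℂ) + ((nsq (deriv φ s) * x ^ 2 / 2 : ℝ) : ℂ)) := by
      rw [hδ, ← hx2]
      unfold R07_psi
      rw [← hx]
      push_cast
      ring
    rw [h1, norm_mul, Complex.norm_real, Real.norm_of_nonneg hM0.le]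
    refine (mul_le_mul_of_nonneg_left (hCe s x η b w hxpi hη2) hM0.le).trans ?_
    have h2 : M * (C * (|x| ^ 3 + η ^ 2 + |η| * |x| + ‖b‖ + ‖w‖ * (|x| + |η|))) =
        C * (M * |x| ^ 3 + M * η ^ 2 + M * (|η| * |x|) + M * ‖b‖ + M * (‖w‖ * (|x| + |η|))) := by
      ring
    rw [h2, hDdef]
    refine mul_le_mul_of_nonneg_left ?_ hC
    have h3 : M * |x| ^ 3 = |y| ^ 3 * (1 / Real.sqrt M) := by
      have : M * |x| ^ 3 = (M * |x| ^ 2) * |x| := by ring
      rw [this, sq_abs, hx2, hxabs, ← sq_abs y]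
      ring
    have h4 : M * η ^ 2 ≤ A * (A / M) := by
      have : M * η ^ 2 = (M * |η|) * |η| := by rw [← sq_abs η]; ring
      rw [this]
      exact mul_le_mul t1 hη (abs_nonneg _) hA
    have h5 : M * (|η| * |x|) ≤ A * |y| * (1 / Real.sqrt M) := by
      have : M * (|η| * |x|) = (M * |η|) * |x| := by ring
      rw [this]
      have h6 := mul_le_mul_of_nonneg_right t1 (abs_nonneg x)
      refine h6.trans (le_of_eq ?_)
      rw [hxabs]; ring
    linarith
  have hF : R07_F φ M s η b w y = (Real.sqrt (nsq (deriv φ ((s + x : ℝ) : ℂ))) : ℂ) *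
      (Complex.exp δ * ((Real.exp (-(nsq (deriv φ s) / 2) * y ^ 2) : ℝ) : ℂ)) := by
    unfold R07_F
    rw [indicator_of_mem hymem]
    unfold R07_f
    rw [ofReal_exp, ← Complex.exp_add, ← hx]
    congr 2
    rw [hδ]
    push_cast
    ring
  have hG : R07_G φ s y = (Real.sqrt (nsq (deriv φ s)) : ℂ) *
      ((Real.exp (-(nsq (deriv φ s) / 2) * y ^ 2) : ℝ) : ℂ) := by
    unfold R07_G
    rw [ofReal_mul]
  set E : ℂ := ((Real.exp (-(nsq (deriv φ s) / 2) * y ^ 2) : ℝ) : ℂ) with hE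
  have hEn : ‖E‖ ≤ 1 := by
    rw [hE, Complex.norm_real, Real.norm_of_nonneg (Real.exp_pos _).le]
    refine Real.exp_le_one_iff.2 ?_
    have := nsq_nonneg (deriv φ s)
    nlinarith [sq_nonneg y]
  have hsub : R07_F φ M s η b w y - R07_G φ s y =
      E * ((Real.sqrt (nsq (deriv φ ((s + x : ℝ) : ℂ))) : ℂ) * (Complex.exp δ - 1) +
        ((Real.sqrt (nsq (deriv φ ((s + x : ℝ) : ℂ))) - Real.sqrt (nsq (deriv φ s)) : ℝ) : ℂ)) := by
    rw [hF, hG]
    push_cast
    ring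
  rw [hsub, norm_mul]
  have hD0 : 0 ≤ D := (norm_nonneg _).trans hδn
  have hexp : ‖Complex.exp δ - 1‖ ≤ 2 * D :=
    (Complex.norm_exp_sub_one_le (hδn.trans hD)).trans (by linarith)
  have h1 : ‖((Real.sqrt (nsq (deriv φ ((s + x : ℝ) : ℂ))) : ℝ) : ℂ) * (Complex.exp δ - 1)‖ ≤
      Real.sqrt N0 * (2 * D) := by
    rw [norm_mul, Complex.norm_real, Real.norm_of_nonneg (Real.sqrt_nonneg _)]
    exact mul_le_mul (Real.sqrt_le_sqrt (hnN _)) hexp (norm_nonneg _) (Real.sqrt_nonneg _)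
  have h2 : ‖((Real.sqrt (nsq (deriv φ ((s + x : ℝ) : ℂ))) - Real.sqrt (nsq (deriv φ s)) : ℝ) : ℂ)‖
      ≤ 2 * (CL * (|y| * (1 / Real.sqrt M))) := by
    rw [Complex.norm_real, Real.norm_eq_abs]
    refine (R07_sqrt_sub _ _).trans ?_
    have h3 := hlip (s + x) s
    have h4 : |s + x - s| = |y| * (1 / Real.sqrt M) := by
      rw [add_sub_cancel_left, hxabs]; ring
    rw [h4] at h3
    linarith
  calc ‖E‖ * ‖((Real.sqrt (nsq (deriv φ ((s + x : ℝ) : ℂ))) : ℝ) : ℂ) * (Complex.exp δ - 1) +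
        ((Real.sqrt (nsq (deriv φ ((s + x : ℝ) : ℂ))) - Real.sqrt (nsq (deriv φ s)) : ℝ) : ℂ)‖
      ≤ 1 * (Real.sqrt N0 * (2 * D) + 2 * (CL * (|y| * (1 / Real.sqrt M)))) :=
        mul_le_mul hEn ((norm_add_le _ _).trans (add_le_add h1 h2)) (norm_nonneg _) zero_le_one
    _ = _ := one_mul _

theorem Pk_lim {h : ℝ} {φ : ℂ → C2} (hc : Cur h φ) (A : ℝ) (hA : 0 ≤ A) (M s η : ℕ → ℝ) (b w : ℕ → ℂ)
    (hM0 : ∀ j, 1 ≤ M j) (hM : Tendsto M atTop atTop) (hadm : ∀ j, Adm φ (M j))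
    (hη : ∀ j, |η j| ≤ A / M j) (hb : ∀ j, ‖b j‖ ≤ A * eps (M j) ^ 2)
    (hw : ∀ j, ‖w j‖ ≤ A * eps (M j)) :
    Tendsto (fun j => Pk φ (M j) (pt φ (s j) (η j) (b j) (w j)) *
      Complex.exp (-((M j * Th φ (s j) : ℝ) : ℂ) * I + ((M j * η j * kap φ (s j) : ℝ) : ℂ)))
      atTop (𝓝 1) := by
  obtain ⟨n0, N0, K0, hn0, hN0, hK0, hnN⟩ := R07_nsq_bd hc
  obtain ⟨C, hC, hCe⟩ := psi_expand hc
  obtain ⟨c, C', hcpos, hC', hdom⟩ := psi_dom hc
  obtain ⟨CL, hCL, hlip⟩ := cur_lip hc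
  have hMpos : ∀ j, 0 < M j := fun j => lt_of_lt_of_le one_pos (hM0 j)
  have hsq : Tendsto (fun j => Real.sqrt (M j)) atTop atTop := Real.tendsto_sqrt_atTop.comp hM
  have hsqinv : Tendsto (fun j => 1 / Real.sqrt (M j)) atTop (𝓝 0) := by
    have := tendsto_inv_atTop_zero.comp hsq
    refine this.congr fun j => ?_
    simp
  have hη2 : ∀ᶠ j in atTop, |η j| ≤ h / 2 := by
    have h1 : Tendsto (fun j => A / M j) atTop (𝓝 0) := Tendsto.div_atTop tendsto_const_nhds hM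
    have h2 : ∀ᶠ j in atTop, A / M j ≤ h / 2 :=
      h1.eventually (eventually_le_nhds (by linarith [hc.h_pos]))
    filter_upwards [h2] with j hj
    exact (hη j).trans hj
  set K : ℝ := C' * (2 * A + A + A ^ 2) + A * K0 with hK
  have hKnn : 0 ≤ K := by positivity
  -- the bound
  set bd : ℝ → ℝ := fun y => Real.sqrt N0 * Real.exp (-(c / 2) * y ^ 2 + (K + K ^ 2 / (2 * c))) +
    Real.sqrt N0 * Real.exp (-(n0 / 2) * y ^ 2) with hbd
  have hbdint : Integrable bd := by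
    have h1 : Integrable fun y : ℝ => Real.exp (-(c / 2) * y ^ 2) :=
      integrable_exp_neg_mul_sq (by positivity)
    have h2 : Integrable fun y : ℝ => Real.exp (-(n0 / 2) * y ^ 2) :=
      integrable_exp_neg_mul_sq (by positivity)
    have h3 : Integrable fun y : ℝ => Real.sqrt N0 *
        Real.exp (-(c / 2) * y ^ 2 + (K + K ^ 2 / (2 * c))) := by
      have h4 := (h1.mul_const (Real.exp (K + K ^ 2 / (2 * c)))).const_mul (Real.sqrt N0)
      refine h4.congr (Eventually.of_forall fun y => ?_)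
      simp only
      rw [Real.exp_add (-(c / 2) * y ^ 2)]
    exact h3.add (h2.const_mul _)
  have hkey : Tendsto (fun j => ∫ y : ℝ, (R07_F φ (M j) (s j) (η j) (b j) (w j) y -
      R07_G φ (s j) y)) atTop (𝓝 (∫ _ : ℝ, (0 : ℂ))) := by
    refine tendsto_integral_filter_of_dominated_convergence bd ?_ ?_ hbdint ?_
    · refine Eventually.of_forall fun j => ?_
      refine AEStronglyMeasurable.sub ?_ (R07_G_integrable (s j) ?_).aestronglyMeasurable
      · exact ((R07_f_cont hc _ _ _ _ _).aestronglyMeasurable).indicator measurableSet_Ioc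
      · exact lt_of_lt_of_le hn0 (hnN (s j)).1
    · filter_upwards [hη2] with j hj
      refine Eventually.of_forall fun y => ?_
      refine (norm_sub_le _ _).trans (add_le_add ?_ ?_)
      · exact R07_normF hK0.le hcpos hC'.le hA (fun t => ⟨(hnN t).2.1, (hnN t).2.2⟩) hdom (hM0 j)
          (hη j) hj (hb j) (hw j) y
      · exact R07_normG (fun t => ⟨(hnN t).1, (hnN t).2.1⟩) (s j) y
    · refine Eventually.of_forall fun y => ?_
      have hlip' : ∀ t t' : ℝ, ‖deriv φ t - deriv φ t'‖ ≤ CL * |t - t'| := by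
        intro t t'
        have h0 : ∀ r : ℝ, |((r : ℂ)).im| ≤ h / 2 := fun r => by
          rw [ofReal_im, abs_zero]; linarith [hc.h_pos]
        have h1 := (hlip t t' (h0 t) (h0 t')).2.2
        rwa [← ofReal_sub, Complex.norm_real, Real.norm_eq_abs] at h1
      have q1 : Tendsto (fun j => A / M j) atTop (𝓝 0) := Tendsto.div_atTop tendsto_const_nhds hM
      have q2 : Tendsto (fun j => M j * eps (M j) ^ 2) atTop (𝓝 0) := tendsto_M_eps_sq.comp hM
      have q3 : Tendsto (fun j => eps (M j)) atTop (𝓝 0) := tendsto_eps.comp hM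
      have q4 : Tendsto (fun j => M j * eps (M j) / Real.sqrt (M j)) atTop (𝓝 0) := by
        have h1 : Tendsto (fun x : ℝ => x ^ (-(1 / 6 : ℝ))) atTop (𝓝 0) :=
          tendsto_rpow_neg_atTop (by norm_num)
        refine (h1.comp hM).congr fun j => ?_
        rw [Function.comp_apply, R07_Mer_eq (hMpos j)]
      have qD : Tendsto (fun j => C * (|y| ^ 3 * (1 / Real.sqrt (M j)) + A * (A / M j) +
          A * |y| * (1 / Real.sqrt (M j)) +
          A * (M j * eps (M j) ^ 2) + (A * |y| * (M j * eps (M j) / Real.sqrt (M j)) +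
            A ^ 2 * eps (M j)))) atTop (𝓝 0) := by
        have h1 := (((((hsqinv.const_mul (|y| ^ 3)).add (q1.const_mul A)).add
          (hsqinv.const_mul (A * |y|))).add (q2.const_mul A)).add
          ((q4.const_mul (A * |y|)).add (q3.const_mul (A ^ 2)))).const_mul C
        simpa using h1
      have qfin : Tendsto (fun j => Real.sqrt N0 * (2 * (C * (|y| ^ 3 * (1 / Real.sqrt (M j)) +
          A * (A / M j) + A * |y| * (1 / Real.sqrt (M j)) +
          A * (M j * eps (M j) ^ 2) + (A * |y| * (M j * eps (M j) / Real.sqrt (M j)) +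
            A ^ 2 * eps (M j))))) + 2 * (CL * (|y| * (1 / Real.sqrt (M j))))) atTop (𝓝 0) := by
        have h1 := ((qD.const_mul 2).const_mul (Real.sqrt N0)).add
          (((hsqinv.const_mul |y|).const_mul CL).const_mul 2)
        simpa using h1
      have hyev : ∀ᶠ j in atTop, |y| < Real.pi * Real.sqrt (M j) := by
        have h1 : Tendsto (fun j => Real.pi * Real.sqrt (M j)) atTop atTop :=
          hsq.const_mul_atTop Real.pi_pos
        exact h1.eventually_gt_atTop _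
      have hDev : ∀ᶠ j in atTop, C * (|y| ^ 3 * (1 / Real.sqrt (M j)) + A * (A / M j) +
          A * |y| * (1 / Real.sqrt (M j)) +
          A * (M j * eps (M j) ^ 2) + (A * |y| * (M j * eps (M j) / Real.sqrt (M j)) +
            A ^ 2 * eps (M j))) ≤ 1 := qD.eventually (eventually_le_nhds one_pos)
      refine squeeze_zero_norm' ?_ qfin
      filter_upwards [hη2, hyev, hDev] with j h1 h2 h3
      exact R07_diff hC.le hA (fun t => (hnN t).2.1) hCe hlip' (hM0 j) (hη j) h1 (hb j) (hw j) h2 h3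
  rw [integral_zero] at hkey
  have hfin : Tendsto (fun j => ((1 / Real.sqrt (2 * Real.pi) : ℝ) : ℂ) *
      ((∫ y : ℝ, (R07_F φ (M j) (s j) (η j) (b j) (w j) y - R07_G φ (s j) y)) +
        ((Real.sqrt (2 * Real.pi) : ℝ) : ℂ))) atTop (𝓝 1) := by
    have h1 := (hkey.add_const ((Real.sqrt (2 * Real.pi) : ℝ) : ℂ)).const_mul
      ((1 / Real.sqrt (2 * Real.pi) : ℝ) : ℂ)
    have h2 : ((1 / Real.sqrt (2 * Real.pi) : ℝ) : ℂ) *
        (0 + ((Real.sqrt (2 * Real.pi) : ℝ) : ℂ)) = 1 := by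
      rw [zero_add, ← ofReal_mul, one_div, inv_mul_cancel₀ (by positivity), ofReal_one]
    rwa [h2] at h1
  refine hfin.congr' ?_
  filter_upwards [hη2] with j hj
  have hFint : Integrable (R07_F φ (M j) (s j) (η j) (b j) (w j)) := by
    unfold R07_F
    rw [integrable_indicator_iff measurableSet_Ioc]
    exact ((R07_f_cont hc _ _ _ _ _).continuousOn.integrableOn_Icc).mono_set Ioc_subset_Icc_self
  have hpos := lt_of_lt_of_le hn0 (hnN (s j)).1
  rw [R07_eq hc (hMpos j) (hadm j), integral_sub hFint (R07_G_integrable (s j) hpos),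
    R07_G_int (s j) hpos, sub_add_cancel]

end MP18cae5
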