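import Pool.Agent.Lib.MP_18cae5_an.R07

/-! Row R08: uniform version of the asymptotics. -/

set_option autoImplicit false

namespace MP18cae5

open Complex MeasureTheory Set Filter Topology

/-- the comparison factor `exp (i M Θ(s) - M η κ(s))` -/
noncomputable def Ex (φ : ℂ → C2) (M s η : ℝ) : ℂ :=
  Complex.exp (((M * Th φ s : ℝ) : ℂ) * I - ((M * η * kap φ s : ℝ) : ℂ))

/-- ROW R08.  Uniform version of `Pk_lim`, by contradiction: otherwise for some `δ > 0` there are, for every `j`,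
admissible `M j ≥ j + 1` and parameters violating the bound; apply `Pk_lim`. -/
theorem Pk_unif {h : ℝ} {φ : ℂ → C2} (hc : Cur h φ) (A : ℝ) (hA : 0 ≤ A) (δ : ℝ) (hδ : 0 < δ) :
    ∃ M0 : ℝ, 1 ≤ M0 ∧ ∀ M : ℝ, M0 ≤ M → Adm φ M → ∀ (s η : ℝ) (b w : ℂ), |η| ≤ A / M →
      ‖b‖ ≤ A * eps M ^ 2 → ‖w‖ ≤ A * eps M →
      ‖Pk φ M (pt φ s η b w) / Ex φ M s η - 1‖ ≤ δ := by
  by_contra hcon
  push Not at hcon
  have hsel : ∀ j : ℕ, ∃ (M s η : ℝ) (b w : ℂ), (j : ℝ) + 1 ≤ M ∧ Adm φ M ∧ |η| ≤ A / M ∧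
      ‖b‖ ≤ A * eps M ^ 2 ∧ ‖w‖ ≤ A * eps M ∧ δ < ‖Pk φ M (pt φ s η b w) / Ex φ M s η - 1‖ := by
    intro j
    obtain ⟨M, hM, hadm, s, η, b, w, h1, h2, h3, h4⟩ := hcon ((j : ℝ) + 1) (by
      have := Nat.cast_nonneg (α := ℝ) j
      linarith)
    exact ⟨M, s, η, b, w, hM, hadm, h1, h2, h3, h4⟩
  choose M s η b w hM hadm hη hb hw hbad using hsel
  have hM1 : ∀ j, 1 ≤ M j := by
    intro j
    have h1 := hM j
    have h2 := Nat.cast_nonneg (α := ℝ) j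
    linarith
  have hMt : Tendsto M atTop atTop := by
    refine tendsto_atTop_mono (f := fun j : ℕ => (j : ℝ)) (fun j => ?_) tendsto_natCast_atTop_atTop
    have h1 := hM j
    linarith
  have hlim := Pk_lim hc A hA M s η b w hM1 hMt hadm hη hb hw
  have hev := (Metric.tendsto_nhds.1 hlim) δ hδ
  obtain ⟨j, hj⟩ := hev.exists
  rw [dist_eq_norm] at hj
  have h1 : Pk φ (M j) (pt φ (s j) (η j) (b j) (w j)) *
      Complex.exp (-((M j * Th φ (s j) : ℝ) : ℂ) * I + ((M j * η j * kap φ (s j) : ℝ) : ℂ)) =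
      Pk φ (M j) (pt φ (s j) (η j) (b j) (w j)) / Ex φ (M j) (s j) (η j) := by
    rw [Ex, div_eq_mul_inv, ← Complex.exp_neg]
    congr 2
    ring
  rw [h1] at hj
  exact absurd hj (not_lt.2 (hbad j).le)

/-- ROW R08.  Size of `Ex`: `‖Ex‖ = exp(-Mηκ(s))` is between `exp(-AC)` and `exp(AC)` for `|η| ≤ A/M`, `κ ≤ C`. -/
theorem norm_Ex {h : ℝ} {φ : ℂ → C2} (hc : Cur h φ) (A : ℝ) (hA : 0 ≤ A) : ∃ C : ℝ, 1 ≤ C ∧
    ∀ (M s η : ℝ), 0 < M → |η| ≤ A / M → ‖Ex φ M s η‖ ≤ C ∧ 1 / C ≤ ‖Ex φ M s η‖ := by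
  obtain ⟨C, κ0, hC, hκ0, -, hκ⟩ := cur_bounds hc
  refine ⟨Real.exp (A * C), Real.one_le_exp (by positivity), fun M s η hM hη => ?_⟩
  have h1 : ‖Ex φ M s η‖ = Real.exp (-(M * η * kap φ s)) := by
    rw [Ex, Complex.norm_exp]
    congr 1
    rw [Complex.sub_re, Complex.re_ofReal_mul, Complex.I_re, mul_zero, Complex.ofReal_re, zero_sub]
  have h2 : |M * η * kap φ s| ≤ A * C := by
    rw [abs_mul, abs_mul, abs_of_pos hM]
    have h3 := (hκ s).1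
    have h4 := (hκ s).2
    have h5 : |kap φ s| ≤ C := by rw [abs_of_nonneg (by linarith)]; exact h4
    have h6 : M * |η| ≤ A := by
      rw [le_div_iff₀ hM] at hη
      linarith
    exact mul_le_mul h6 h5 (abs_nonneg _) hA
  obtain ⟨h3, h4⟩ := abs_le.1 h2
  rw [h1]
  constructor
  · exact Real.exp_le_exp.2 (by linarith)
  · rw [one_div, ← Real.exp_neg]
    exact Real.exp_le_exp.2 (by linarith)

end MP18cae5
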