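import Pool.Agent.Lib.MP_18cae5_an.R02b

/-! Row R09: upper bound for the peak function on the closed ball. -/

set_option autoImplicit false

namespace MP18cae5

open Complex MeasureTheory Set Filter Topology

theorem R09_cont {h : ℝ} {φ : ℂ → C2} (hc : Cur h φ) : Continuous (fun s : ℝ => φ s) := by
  rw [continuous_iff_continuousAt]
  intro s
  have h1 : ContinuousAt φ (s : ℂ) :=
    (hc.holo.differentiableAt ((isOpen_strip h).mem_nhds (hc.mem_strip_ofReal s))).continuousAt
  exact ContinuousAt.comp (f := fun s : ℝ => (s : ℂ)) (g := φ) h1 continuous_ofReal.continuousAt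

/-- ROW R09.  `|exp (M(⟨z,φ(s)⟩ - 1 + iΘ))| = exp(-M(1 - Re⟨z,φ(s)⟩)) ≤ exp(-M nsq(z-φ(s))/2)` (`re_one_sub_dot`)
`≤ exp(-M r/4) exp(-M nsq(z-φ(s))/4)`.  Let `s1` minimise `nsq (z - φ s)` over `[0,2π]` (hence over `ℝ` by periodicity); then
`nsq(φ(s)-φ(s1)) ≤ 2 nsq(z-φ(s)) + 2 nsq(z-φ(s1)) ≤ 4 nsq(z-φ(s))` so by `Cur.sep` `nsq(z-φ(s)) ≥ (c/4)(s-s1)²` for
`|s-s1| ≤ π`; the integral of the periodic function `exp(-M nsq(z-φ(s))/4)` over `[0,2π]` is its integral over
`[s1-π,s1+π]`, at most `∫_ℝ exp(-Mc x²/16) = √(16π/(Mc))`. -/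
theorem Pk_bound {h : ℝ} {φ : ℂ → C2} (hc : Cur h φ) : ∃ C : ℝ, 0 < C ∧ ∀ M : ℝ, 0 < M →
    ∀ z ∈ Bc, ∀ r : ℝ, 0 ≤ r → (∀ t : ℝ, r ≤ nsq (z - φ t)) →
      ‖Pk φ M z‖ ≤ C * Real.exp (-(M * r / 4)) := by
  obtain ⟨C0, κ0, hC0, -, hbd, -⟩ := cur_bounds hc
  obtain ⟨c, hc0, hsep⟩ := hc.sep
  have hφc := R09_cont hc
  have hC0' : 0 < C0 := by linarith
  refine ⟨2 * C0 * Real.sqrt (8 / c), by positivity, fun M hM z hz r hr hrz => ?_⟩
  set N : ℝ → ℝ := fun s => nsq (z - φ s) with hN
  have hNc : Continuous N := continuous_nsq.comp (continuous_const.sub hφc)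
  have hNp : Function.Periodic N (2 * Real.pi) := by
    intro s
    have h1 := hc.per s
    change nsq (z - φ ((s + 2 * Real.pi : ℝ) : ℂ)) = nsq (z - φ s)
    push_cast
    rw [h1]
  have hpi := Real.pi_pos
  obtain ⟨s1, -, hs1⟩ := isCompact_Icc.exists_isMinOn (s := Icc (0 : ℝ) (2 * Real.pi))
    ⟨0, by constructor <;> linarith⟩ hNc.continuousOn
  have hmin : ∀ s, N s1 ≤ N s := by
    intro s
    obtain ⟨y, hy, hsy⟩ := hNp.exists_mem_Ico₀ (by positivity) s
    rw [hsy]
    exact hs1 (Ico_subset_Icc_self hy)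
  have hlow : ∀ s, |s - s1| ≤ Real.pi → c / 4 * (s - s1) ^ 2 ≤ N s := by
    intro s hs
    have h1 := hsep s s1 hs
    have h2 := nsq_add_le (z - φ s1) (-(z - φ s))
    rw [nsq_neg] at h2
    have h3 : z - φ s1 + -(z - φ s) = φ s - φ s1 := by abel
    rw [h3] at h2
    have h4 := hmin s
    simp only [hN] at h4 ⊢
    linarith
  set G : ℝ → ℝ := fun s => Real.exp (-(M * N s / 4)) with hG
  have hGc : Continuous G := Real.continuous_exp.comp (((continuous_const.mul hNc).div_const 4).neg)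
  have hGp : Function.Periodic G (2 * Real.pi) := by
    intro s
    simp only [hG]
    rw [hNp s]
  have hpt : ∀ s : ℝ, ‖(Real.sqrt (nsq (deriv φ s)) : ℂ) *
      Complex.exp (M * (dot z (cj (φ s)) - 1 + (Th φ s : ℂ) * I))‖ ≤
      2 * C0 * Real.exp (-(M * r / 4)) * G s := by
    intro s
    have h0 : |((s : ℂ)).im| ≤ h / 2 := by
      rw [ofReal_im, abs_zero]
      have := hc.h_pos
      linarith
    have h1 := (hbd s h0).2.1
    have h2 : Real.sqrt (nsq (deriv φ s)) ≤ 2 * C0 := by
      rw [Real.sqrt_le_left (by positivity)]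
      have h3 := nsq_le_norm_sq (deriv φ s)
      nlinarith [norm_nonneg (deriv φ s)]
    have h4 : ‖Complex.exp (M * (dot z (cj (φ s)) - 1 + (Th φ s : ℂ) * I))‖ ≤
        Real.exp (-(M * r / 4)) * G s := by
      rw [Complex.norm_exp, ← Real.exp_add]
      apply Real.exp_le_exp.2
      have h5 : ((M : ℂ) * (dot z (cj (φ s)) - 1 + (Th φ s : ℂ) * I)).re =
          M * ((dot z (cj (φ s))).re - 1) := by
        rw [Complex.re_ofReal_mul, Complex.add_re, Complex.sub_re, Complex.one_re,
          Complex.re_ofReal_mul, Complex.I_re, mul_zero, add_zero]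
      rw [h5]
      have h6 := re_one_sub_dot z (φ s) hz (hc.unit s)
      have h7 := hrz s
      have h8 : N s = nsq (z - φ s) := rfl
      rw [← h8] at h6 h7
      have h9 := mul_le_mul_of_nonneg_left h6 hM.le
      have h10 := mul_le_mul_of_nonneg_left h7 hM.le
      linarith
    rw [norm_mul, Complex.norm_real, Real.norm_of_nonneg (Real.sqrt_nonneg _), mul_assoc]
    exact mul_le_mul h2 h4 (norm_nonneg _) (by positivity)
  have hint : ‖∫ s in (0 : ℝ)..(2 * Real.pi), (Real.sqrt (nsq (deriv φ s)) : ℂ) *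
      Complex.exp (M * (dot z (cj (φ s)) - 1 + (Th φ s : ℂ) * I))‖ ≤
      ∫ s in (0 : ℝ)..(2 * Real.pi), 2 * C0 * Real.exp (-(M * r / 4)) * G s := by
    apply intervalIntegral.norm_integral_le_of_norm_le (by positivity)
    · exact Filter.Eventually.of_forall fun s _ => hpt s
    · exact (continuous_const.mul hGc).intervalIntegrable _ _
  rw [intervalIntegral.integral_const_mul] at hint
  have hb0 : 0 < M * c / 16 := by positivity
  have hgauss : ∫ s in (0 : ℝ)..(2 * Real.pi), G s ≤ Real.sqrt (Real.pi / (M * c / 16)) := by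
    have h1 := hGp.intervalIntegral_add_eq 0 (s1 - Real.pi)
    rw [zero_add] at h1
    rw [h1]
    have hgi : Integrable (fun s : ℝ => Real.exp (-(M * c / 16) * (s - s1) ^ 2)) :=
      (integrable_exp_neg_mul_sq hb0).comp_sub_right s1
    have hle : s1 - Real.pi ≤ s1 - Real.pi + 2 * Real.pi := by linarith
    calc ∫ s in (s1 - Real.pi)..(s1 - Real.pi + 2 * Real.pi), G s ≤
          ∫ s in (s1 - Real.pi)..(s1 - Real.pi + 2 * Real.pi),
            Real.exp (-(M * c / 16) * (s - s1) ^ 2) := by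
          apply intervalIntegral.integral_mono_on hle (hGc.intervalIntegrable _ _)
            hgi.intervalIntegrable
          intro s hs
          simp only [hG]
          apply Real.exp_le_exp.2
          have h2 := hlow s (by
            rw [abs_le]
            constructor
            · linarith [hs.1]
            · linarith [hs.2])
          have h3 := mul_le_mul_of_nonneg_left h2 hM.le
          linarith
      _ = ∫ s in Ioc (s1 - Real.pi) (s1 - Real.pi + 2 * Real.pi),
            Real.exp (-(M * c / 16) * (s - s1) ^ 2) := intervalIntegral.integral_of_le hle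
      _ ≤ ∫ s, Real.exp (-(M * c / 16) * (s - s1) ^ 2) :=
          setIntegral_le_integral hgi (Filter.Eventually.of_forall fun s => (Real.exp_pos _).le)
      _ = ∫ s, Real.exp (-(M * c / 16) * s ^ 2) :=
          integral_sub_right_eq_self (fun s : ℝ => Real.exp (-(M * c / 16) * s ^ 2)) s1
      _ = _ := integral_gaussian _
  rw [Pk, norm_mul, Complex.norm_real, Real.norm_of_nonneg (Real.sqrt_nonneg _)]
  calc Real.sqrt (M / (2 * Real.pi)) * ‖∫ s in (0 : ℝ)..(2 * Real.pi),
        (Real.sqrt (nsq (deriv φ s)) : ℂ) *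
          Complex.exp (M * (dot z (cj (φ s)) - 1 + (Th φ s : ℂ) * I))‖ ≤
      Real.sqrt (M / (2 * Real.pi)) * (2 * C0 * Real.exp (-(M * r / 4)) *
        Real.sqrt (Real.pi / (M * c / 16))) := by
        apply mul_le_mul_of_nonneg_left _ (Real.sqrt_nonneg _)
        exact hint.trans (mul_le_mul_of_nonneg_left hgauss (by positivity))
    _ = 2 * C0 * (Real.sqrt (M / (2 * Real.pi)) * Real.sqrt (Real.pi / (M * c / 16))) *
        Real.exp (-(M * r / 4)) := by ring
    _ = 2 * C0 * Real.sqrt (8 / c) * Real.exp (-(M * r / 4)) := by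
        rw [← Real.sqrt_mul (by positivity)]
        congr 3
        field_simp
        ring

end MP18cae5
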