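import Pool.Agent.Lib.MP_18cae5_an.R02b

/-! Row R10: the peak function is entire. -/

set_option autoImplicit false

namespace MP18cae5

open Complex MeasureTheory Set Filter Topology

private theorem R10_cont {h : ℝ} {φ : ℂ → C2} (hc : Cur h φ) : Continuous (fun s : ℝ => φ s) :=
  hc.holo.continuousOn.comp_continuous (by fun_prop) (fun t => hc.mem_strip_ofReal t)

private theorem R10_dcont {h : ℝ} {φ : ℂ → C2} (hc : Cur h φ) :
    Continuous (fun s : ℝ => deriv φ s) :=
  (hc.holo.deriv (isOpen_strip h)).continuousOn.comp_continuous (by fun_prop)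
    (fun t => hc.mem_strip_ofReal t)

private theorem R10_th {h : ℝ} {φ : ℂ → C2} (hc : Cur h φ) : Continuous (Th φ) :=
  continuous_iff_continuousAt.2 fun t => (Th_hasDerivAt hc t).continuousAt

private theorem R10_cj {φ : ℂ → C2} (hφ : Continuous (fun s : ℝ => φ s)) :
    Continuous (fun s : ℝ => cj (φ s)) := by
  unfold cj
  have h1 : Continuous (fun s : ℝ => (φ s).1) := continuous_fst.comp hφ
  have h2 : Continuous (fun s : ℝ => (φ s).2) := continuous_snd.comp hφ
  exact (Complex.continuous_conj.comp h1).prodMk (Complex.continuous_conj.comp h2)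

private noncomputable def R10_L (φ : ℂ → C2) (s : ℝ) : C2 →L[ℂ] ℂ :=
  (cj (φ s)).1 • ContinuousLinearMap.fst ℂ ℂ ℂ + (cj (φ s)).2 • ContinuousLinearMap.snd ℂ ℂ ℂ

private noncomputable def R10_F (φ : ℂ → C2) (M : ℝ) (z : C2) (s : ℝ) : ℂ :=
  (Real.sqrt (nsq (deriv φ s)) : ℂ) *
      Complex.exp (M * (dot z (cj (φ s)) - 1 + (Th φ s : ℂ) * I))

private theorem R10_F_cont {h : ℝ} {φ : ℂ → C2} (hc : Cur h φ) (M : ℝ) :
    Continuous (fun p : C2 × ℝ => R10_F φ M p.1 p.2) := by
  unfold R10_F
  have h1 : Continuous (fun s : ℝ => (Real.sqrt (nsq (deriv φ s)) : ℂ)) :=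
    Complex.continuous_ofReal.comp (Real.continuous_sqrt.comp (continuous_nsq.comp (R10_dcont hc)))
  have h2 := R10_cj (R10_cont hc)
  have h3 : Continuous (fun p : C2 × ℝ => dot p.1 (cj (φ p.2))) := by
    unfold dot
    have a1 : Continuous (fun p : C2 × ℝ => (cj (φ p.2)).1) :=
      (continuous_fst.comp h2).comp continuous_snd
    have a2 : Continuous (fun p : C2 × ℝ => (cj (φ p.2)).2) :=
      (continuous_snd.comp h2).comp continuous_snd
    exact ((continuous_fst.comp continuous_fst).mul a1).add
      ((continuous_snd.comp continuous_fst).mul a2)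
  have h4 : Continuous (fun p : C2 × ℝ => ((Th φ p.2 : ℝ) : ℂ)) :=
    Complex.continuous_ofReal.comp ((R10_th hc).comp continuous_snd)
  exact (h1.comp continuous_snd).mul (Complex.continuous_exp.comp
    (continuous_const.mul ((h3.sub continuous_const).add (h4.mul continuous_const))))

private theorem R10_L_cont {h : ℝ} {φ : ℂ → C2} (hc : Cur h φ) : Continuous (R10_L φ) := by
  unfold R10_L
  have h2 := R10_cj (R10_cont hc)
  exact ((continuous_fst.comp h2).smul continuous_const).add
    ((continuous_snd.comp h2).smul continuous_const)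

private theorem R10_deriv (φ : ℂ → C2) (M : ℝ) (z : C2) (s : ℝ) :
    HasFDerivAt (fun z => R10_F φ M z s) (((M : ℂ) * R10_F φ M z s) • R10_L φ s) z := by
  have h1 : HasFDerivAt (fun z => dot z (cj (φ s))) (R10_L φ s) z := by
    have h2 : (fun z : C2 => dot z (cj (φ s))) = R10_L φ s := by
      funext w
      simp only [R10_L, dot, ContinuousLinearMap.add_apply, ContinuousLinearMap.smul_apply,
        ContinuousLinearMap.coe_fst', ContinuousLinearMap.coe_snd', smul_eq_mul]
      ring
    rw [h2]
    exact (R10_L φ s).hasFDerivAt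
  have h3 := ((((h1.sub_const 1).add_const ((Th φ s : ℂ) * I)).const_mul (M : ℂ)).cexp).const_mul
    (Real.sqrt (nsq (deriv φ s)) : ℂ)
  refine h3.congr_fderiv ?_
  unfold R10_F
  rw [smul_smul, smul_smul]
  congr 1
  ring

/-- ROW R10. -/
theorem Pk_entire {h : ℝ} {φ : ℂ → C2} (hc : Cur h φ) (M : ℝ) : Differentiable ℂ (Pk φ M) := by
  intro z₀
  have hF := R10_F_cont hc M
  have hL := R10_L_cont hc
  have hF' : Continuous (fun p : C2 × ℝ => ((M : ℂ) * R10_F φ M p.1 p.2) • R10_L φ p.2) :=
    (continuous_const.mul hF).smul (hL.comp continuous_snd)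
  have hK : IsCompact (Metric.closedBall z₀ 1 ×ˢ Set.uIcc (0 : ℝ) (2 * Real.pi)) :=
    (isCompact_closedBall z₀ 1).prod isCompact_uIcc
  obtain ⟨B, hB⟩ := hK.exists_bound_of_continuousOn hF'.continuousOn
  have hmain : HasFDerivAt (fun z => ∫ s in (0 : ℝ)..(2 * Real.pi), R10_F φ M z s)
      (∫ s in (0 : ℝ)..(2 * Real.pi), ((M : ℂ) * R10_F φ M z₀ s) • R10_L φ s) z₀ := by
    refine intervalIntegral.hasFDerivAt_integral_of_dominated_of_fderiv_le (bound := fun _ => B)
      (F' := fun z s => ((M : ℂ) * R10_F φ M z s) • R10_L φ s)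
      (Metric.ball_mem_nhds z₀ one_pos) ?_ ?_ ?_ ?_ ?_ ?_
    · refine Filter.Eventually.of_forall fun z => ?_
      exact (hF.comp (Continuous.prodMk continuous_const continuous_id)).aestronglyMeasurable
    · exact (hF.comp (Continuous.prodMk continuous_const continuous_id)).intervalIntegrable _ _
    · exact (hF'.comp (Continuous.prodMk continuous_const continuous_id)).aestronglyMeasurable
    · refine Filter.Eventually.of_forall fun t ht z hz => ?_
      exact hB (z, t) ⟨Metric.ball_subset_closedBall hz, Set.uIoc_subset_uIcc ht⟩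
    · exact _root_.intervalIntegrable_const
    · refine Filter.Eventually.of_forall fun t _ z _ => ?_
      exact R10_deriv φ M z t
  have h1 := hmain.differentiableAt.const_mul (Real.sqrt (M / (2 * Real.pi)) : ℂ)
  exact h1

end MP18cae5
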