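import Pool.Agent.Lib.MP_18cae5_an.R02b

/-! Row R11: Cauchy estimates in two variables. -/

set_option autoImplicit false

namespace MP18cae5

open Complex MeasureTheory Set Filter Topology

/-- ROW R11.  Cauchy estimate for the derivative on a ball of `C2` (sup norm): apply the one variable estimate
`Complex.norm_deriv_le_of_forall_mem_sphere_norm_le` to `λ ↦ g (x + λ v)`, `‖v‖ = 1`, radius `R' < R`, `R' → R`. -/
theorem cauchy_fderiv {g : C2 → ℂ} {x : C2} {R C : ℝ} (hR : 0 < R)
    (hg : DifferentiableOn ℂ g (Metric.ball x R)) (hb : ∀ y ∈ Metric.ball x R, ‖g y‖ ≤ C) :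
    ‖fderiv ℂ g x‖ ≤ C / R := by
  have hC : 0 ≤ C := (norm_nonneg _).trans (hb x (Metric.mem_ball_self hR))
  have key : ∀ R' : ℝ, 0 < R' → R' < R → ‖fderiv ℂ g x‖ ≤ C / R' := by
    intro R' hR' hlt
    refine ContinuousLinearMap.opNorm_le_bound _ (by positivity) fun v => ?_
    by_cases hv : v = 0
    · simp [hv]
    have hv' : 0 < ‖v‖ := norm_pos_iff.2 hv
    set ρ : ℝ := R' / ‖v‖ with hρ
    have hρ0 : 0 < ρ := by positivity
    have hρv : ρ * ‖v‖ = R' := by rw [hρ]; field_simp
    have hmem : ∀ l : ℂ, ‖l‖ ≤ ρ → x + l • v ∈ Metric.ball x R := by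
      intro l hl
      rw [Metric.mem_ball, dist_eq_norm, add_sub_cancel_left, norm_smul]
      calc ‖l‖ * ‖v‖ ≤ ρ * ‖v‖ := by gcongr
        _ = R' := hρv
        _ < R := hlt
    have hx : DifferentiableAt ℂ g x := hg.differentiableAt (Metric.ball_mem_nhds x hR)
    have hline : ∀ l : ℂ, HasDerivAt (fun l : ℂ => x + l • v) v l := by
      intro l
      simpa using ((hasDerivAt_id l).smul_const v).const_add x
    have hda : ∀ l : ℂ, ‖l‖ ≤ ρ → DifferentiableAt ℂ (fun l : ℂ => g (x + l • v)) l := by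
      intro l hl
      have h1 : DifferentiableAt ℂ g (x + l • v) :=
        hg.differentiableAt (Metric.isOpen_ball.mem_nhds (hmem l hl))
      exact h1.comp l (hline l).differentiableAt
    have hder : deriv (fun l : ℂ => g (x + l • v)) 0 = fderiv ℂ g x v := by
      have h1 : HasFDerivAt g (fderiv ℂ g x) (x + (0 : ℂ) • v) := by simpa using hx.hasFDerivAt
      have h2 := h1.comp_hasDerivAt (0 : ℂ) (hline 0)
      exact h2.deriv
    have hcl : DiffContOnCl ℂ (fun l : ℂ => g (x + l • v)) (Metric.ball 0 ρ) := by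
      refine DifferentiableOn.diffContOnCl ?_
      rw [closure_ball _ hρ0.ne']
      intro l hl
      exact (hda l (by simpa using hl)).differentiableWithinAt
    have := Complex.norm_deriv_le_of_forall_mem_sphere_norm_le hρ0 hcl (C := C) (by
      intro z hz
      exact hb _ (hmem z (by simpa using (mem_sphere_zero_iff_norm.1 hz).le)))
    rw [hder] at this
    calc ‖fderiv ℂ g x v‖ ≤ C / ρ := this
      _ = C / R' * ‖v‖ := by rw [hρ]; field_simp
  by_contra hcon
  push Not at hcon
  set n := ‖fderiv ℂ g x‖ with hn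
  have hn0 : 0 < n := lt_of_le_of_lt (by positivity) hcon
  have h1 : C < n * R := by rwa [div_lt_iff₀ hR] at hcon
  have h2 : C / n < R := by rw [div_lt_iff₀ hn0]; linarith
  have h3 : 0 ≤ C / n := by positivity
  have h4 := key ((C / n + R) / 2) (by linarith) (by linarith)
  rw [le_div_iff₀ (by linarith)] at h4
  have h5 : n * ((C / n + R) / 2) = (C + n * R) / 2 := by field_simp
  rw [h5] at h4
  linarith

/-- ROW R11.  Lipschitz estimate on the half ball. -/
theorem lip_of_bdd {g : C2 → ℂ} {x : C2} {R C : ℝ} (hR : 0 < R)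
    (hg : DifferentiableOn ℂ g (Metric.ball x R)) (hb : ∀ y ∈ Metric.ball x R, ‖g y‖ ≤ C)
    (y y' : C2) (hy : y ∈ Metric.ball x (R / 2)) (hy' : y' ∈ Metric.ball x (R / 2)) :
    ‖g y - g y'‖ ≤ 2 * C / R * ‖y - y'‖ := by
  have hsub : ∀ z ∈ Metric.ball x (R / 2), Metric.ball z (R / 2) ⊆ Metric.ball x R := by
    intro z hz
    refine Metric.ball_subset_ball' ?_
    have := Metric.mem_ball.1 hz
    linarith
  refine (convex_ball x (R / 2)).norm_image_sub_le_of_norm_fderiv_le (𝕜 := ℂ) (f := g) ?_ ?_ hy' hy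
  · intro z hz
    exact hg.differentiableAt (Metric.isOpen_ball.mem_nhds
      (hsub z hz (Metric.mem_ball_self (by linarith))))
  · intro z hz
    have := cauchy_fderiv (x := z) (R := R / 2) (C := C) (by linarith) (hg.mono (hsub z hz))
      (fun w hw => hb w (hsub z hz hw))
    calc ‖fderiv ℂ g z‖ ≤ C / (R / 2) := this
      _ = 2 * C / R := by field_simp

/-- ROW R11.  A function vanishing to second order at `0` has small Lipschitz constant near `0`.
On the line `λ ↦ g (λ y)` the function is `O(λ²)`: `‖g y‖ ≤ C ‖y‖²/R²` (Schwarz lemma twice, or the estimate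
`Complex.norm_iteratedDeriv`, or apply the maximum principle to `g(λy)/λ²`); then `cauchy_fderiv` on the ball of radius
`‖y‖`... at `y` (`‖y‖ ≤ R/2`) gives `‖fderiv g y‖ ≤ 4C ‖y‖/R²`, and the mean value inequality on the ball of radius `r`. -/
theorem quad_lip {g : C2 → ℂ} {R C : ℝ} (hR : 0 < R)
    (hg : DifferentiableOn ℂ g (Metric.ball 0 R)) (hb : ∀ y ∈ Metric.ball 0 R, ‖g y‖ ≤ C)
    (h0 : g 0 = 0) (h1 : fderiv ℂ g 0 = 0) (r : ℝ) (hr : 0 < r) (hr' : r ≤ R / 4) (y y' : C2)
    (hy : ‖y‖ ≤ r) (hy' : ‖y'‖ ≤ r) :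
    ‖g y - g y'‖ ≤ 16 * C * r / R ^ 2 * ‖y - y'‖ := by
  have hC : 0 ≤ C := (norm_nonneg _).trans (hb 0 (Metric.mem_ball_self hR))
  have hquad : ∀ z : C2, ‖z‖ < R → ‖g z‖ ≤ C * (‖z‖ / R) ^ 2 := by
    intro z hz
    have hd0 : HasFDerivAt g (0 : C2 →L[ℂ] ℂ) 0 := by
      have := (hg.differentiableAt (Metric.ball_mem_nhds (0 : C2) hR)).hasFDerivAt
      rwa [h1] at this
    have hlo : (fun w => g w - g 0) =o[𝓝 (0 : C2)] (fun w => ‖w - 0‖ ^ 1) := by
      have := hd0.isLittleO
      simpa using this.norm_right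
    have := Complex.dist_le_mul_div_pow_of_mapsTo_ball_of_isLittleO (f := g) (c := (0 : C2)) (z := z)
      (R₁ := R) (R₂ := C) (n := 1) hg (fun w hw => by
        rw [h0, mem_closedBall_zero_iff]; exact hb w hw) hlo (by simpa using hz)
    simpa [h0] using this
  refine (convex_closedBall (0 : C2) r).norm_image_sub_le_of_norm_fderiv_le (𝕜 := ℂ) (f := g) ?_ ?_
    (by simpa using hy') (by simpa using hy)
  · intro z hz
    have hz' : ‖z‖ ≤ r := by simpa using hz
    exact hg.differentiableAt (Metric.isOpen_ball.mem_nhds (by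
      rw [mem_ball_zero_iff]; linarith))
  · intro z hz
    have hz' : ‖z‖ ≤ r := by simpa using hz
    have hsub : ∀ w ∈ Metric.ball z r, ‖w‖ < 2 * r := by
      intro w hw
      have := Metric.mem_ball.1 hw
      rw [dist_eq_norm] at this
      calc ‖w‖ = ‖(w - z) + z‖ := by rw [sub_add_cancel]
        _ ≤ ‖w - z‖ + ‖z‖ := norm_add_le _ _
        _ < r + r := by linarith
        _ = 2 * r := by ring
    have := cauchy_fderiv (g := g) (x := z) (R := r) (C := C * (2 * r / R) ^ 2) hr
      (hg.mono (fun w hw => by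
        rw [mem_ball_zero_iff]; linarith [hsub w hw])) (fun w hw => by
        refine (hquad w (by linarith [hsub w hw])).trans ?_
        have := hsub w hw
        gcongr)
    refine this.trans ?_
    have e : C * (2 * r / R) ^ 2 / r = 4 * (C * r / R ^ 2) := by field_simp; ring
    have e2 : 16 * C * r / R ^ 2 = 16 * (C * r / R ^ 2) := by ring
    rw [e, e2]
    have : 0 ≤ C * r / R ^ 2 := by positivity
    linarith

end MP18cae5
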