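import Pool.Agent.Lib.MP_18cae5_an.R11

/-! Row R12: the derivative G of F across the curve. -/

set_option autoImplicit false

namespace MP18cae5

open Complex MeasureTheory Set Filter Topology

/-- `G(σ) = dF(φ(σ))(n(σ))` -/
noncomputable def Gf (φ : ℂ → C2) (F : C2 → ℂ) (σ : ℂ) : ℂ := fderiv ℂ F (φ σ) (nv φ σ)

/-- second order Taylor estimate -/
theorem R12_taylor {F : C2 → ℂ} (hF : Differentiable ℂ F) {x : C2} {C : ℝ}
    (hb : ∀ y ∈ Metric.ball x 1, ‖F y‖ ≤ C) (y : C2) (hy : ‖y‖ ≤ 1 / 4) :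
    ‖F (x + y) - F x - fderiv ℂ F x y‖ ≤ 48 * C * ‖y‖ ^ 2 := by
  have hC : 0 ≤ C := (norm_nonneg _).trans (hb x (Metric.mem_ball_self one_pos))
  have hd : ‖fderiv ℂ F x‖ ≤ C := by
    have := cauchy_fderiv (g := F) (x := x) (R := 1) (C := C) one_pos hF.differentiableOn hb
    simpa using this
  rcases eq_or_ne y 0 with rfl | hy0
  · simp
  · have hyp : 0 < ‖y‖ := norm_pos_iff.2 hy0
    set g : C2 → ℂ := fun z => F (x + z) - F x - fderiv ℂ F x z with hg
    have hFx : Differentiable ℂ (fun z : C2 => F (x + z)) :=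
      hF.comp ((differentiable_const x).add differentiable_id)
    have hgd : Differentiable ℂ g :=
      (hFx.sub (differentiable_const _)).sub (fderiv ℂ F x).differentiable
    have hgb : ∀ z ∈ Metric.ball (0 : C2) 1, ‖g z‖ ≤ 3 * C := by
      intro z hz
      have hz' : ‖z‖ < 1 := by simpa using hz
      have h1 : ‖F (x + z)‖ ≤ C := hb _ (by simpa [Metric.mem_ball, dist_eq_norm] using hz')
      have h2 : ‖F x‖ ≤ C := hb x (Metric.mem_ball_self one_pos)
      have h3 : ‖fderiv ℂ F x z‖ ≤ C := by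
        refine ((fderiv ℂ F x).le_opNorm z).trans ?_
        calc ‖fderiv ℂ F x‖ * ‖z‖ ≤ C * 1 :=
              mul_le_mul hd hz'.le (norm_nonneg _) hC
          _ = C := mul_one C
      calc ‖g z‖ ≤ ‖F (x + z) - F x‖ + ‖fderiv ℂ F x z‖ := norm_sub_le _ _
        _ ≤ (‖F (x + z)‖ + ‖F x‖) + ‖fderiv ℂ F x z‖ := by
            gcongr
            exact norm_sub_le _ _
        _ ≤ 3 * C := by linarith
    have hg0 : g 0 = 0 := by simp [hg]
    have hg1 : fderiv ℂ g 0 = 0 := by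
      have e1 : HasFDerivAt (fun z : C2 => F (x + z)) (fderiv ℂ F x) 0 := by
        have h4 : HasFDerivAt F (fderiv ℂ F x) (x + 0) := by
          rw [add_zero]
          exact (hF x).hasFDerivAt
        have h5 : HasFDerivAt (fun z : C2 => x + z) (ContinuousLinearMap.id ℂ C2) 0 :=
          (hasFDerivAt_id (0 : C2)).const_add x
        have h6 : HasFDerivAt (fun z : C2 => F (x + z))
            ((fderiv ℂ F x).comp (ContinuousLinearMap.id ℂ C2)) 0 := h4.comp (0 : C2) h5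
        rw [ContinuousLinearMap.comp_id] at h6
        exact h6
      have e2 : HasFDerivAt g (fderiv ℂ F x - 0 - fderiv ℂ F x) 0 :=
        (e1.sub (hasFDerivAt_const (F x) (0 : C2))).sub (fderiv ℂ F x).hasFDerivAt
      rw [e2.fderiv]
      simp
    have h := quad_lip (g := g) (R := 1) (C := 3 * C) one_pos hgd.differentiableOn hgb hg0 hg1
      ‖y‖ hyp hy y 0 le_rfl (by rw [norm_zero]; exact hyp.le)
    rw [hg0, sub_zero, sub_zero] at h
    calc ‖F (x + y) - F x - fderiv ℂ F x y‖ = ‖g y‖ := rfl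
      _ ≤ 16 * (3 * C) * ‖y‖ / 1 ^ 2 * ‖y‖ := h
      _ = 48 * C * ‖y‖ ^ 2 := by ring

/-- ROW R12.  `G` is holomorphic on the strip.  `G(σ)` is the limit, as `k → ∞`, of the difference quotients
`k (F(φ σ + n σ/k) - F(φ σ))`, which are holomorphic in `σ`; for `σ` in a compact subset the functions `λ ↦ F(φ σ + λ n σ)` are bounded on
`‖λ‖ ≤ 1` by a common constant, so by the Cauchy estimates the convergence is locally uniform
(`‖F(φ σ + λ n σ) - F(φ σ) - λ G(σ)‖ ≤ C ‖λ‖²`); `TendstoLocallyUniformlyOn.differentiableOn`.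
(Alternatively `G(σ) = (2πi)⁻¹ ∮ F(φ σ + λ n σ)/λ² dλ`.) -/
theorem Gf_holo {h : ℝ} {φ : ℂ → C2} {F : C2 → ℂ} (hS : Stage h φ F) :
    DifferentiableOn ℂ (Gf φ F) (strip h) := by
  have hφ := hS.cur.holo
  have hn := nv_holo hS.cur
  have hF := hS.ent
  set Q : ℕ → ℂ → ℂ := fun k σ =>
    ((k : ℂ) + 1) * (F (φ σ + ((k : ℂ) + 1)⁻¹ • nv φ σ) - F (φ σ)) with hQ
  have hQd : ∀ k : ℕ, DifferentiableOn ℂ (Q k) (strip h) := by
    intro k
    have h1 : DifferentiableOn ℂ (fun σ => F (φ σ + ((k : ℂ) + 1)⁻¹ • nv φ σ)) (strip h) :=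
      hF.comp_differentiableOn (hφ.fun_add (hn.fun_const_smul _))
    have h2 : DifferentiableOn ℂ (fun σ => F (φ σ)) (strip h) := hF.comp_differentiableOn hφ
    exact (h1.sub h2).const_mul _
  refine TendstoLocallyUniformlyOn.differentiableOn (F := Q) (φ := atTop) ?_
    (Eventually.of_forall hQd) (isOpen_strip h)
  rw [tendstoLocallyUniformlyOn_iff_forall_isCompact (isOpen_strip h)]
  intro K hK hKc
  -- bounds on the compact set
  have hcont : ContinuousOn (fun p : ℂ × C2 => F (φ p.1 + p.2)) (K ×ˢ Metric.closedBall 0 1) := by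
    have h1 : ContinuousOn (fun p : ℂ × C2 => φ p.1 + p.2) (K ×ˢ Metric.closedBall 0 1) := by
      refine ContinuousOn.add ?_ continuousOn_snd
      exact (hφ.continuousOn.mono hK).comp continuousOn_fst (fun p hp => hp.1)
    exact hF.continuous.comp_continuousOn h1
  obtain ⟨C, hC⟩ := (hKc.prod (isCompact_closedBall (0 : C2) 1)).exists_bound_of_continuousOn hcont
  obtain ⟨B, hB⟩ := hKc.exists_bound_of_continuousOn (hn.continuousOn.mono hK)
  set C' : ℝ := max C 0 with hC'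
  set B' : ℝ := max B 1 with hB'
  have hC'0 : 0 ≤ C' := le_max_right _ _
  have hB'1 : 1 ≤ B' := le_max_right _ _
  rw [Metric.tendstoUniformlyOn_iff]
  intro ε hε
  have hk1 : ∀ᶠ k : ℕ in atTop, 4 * B' ≤ (k : ℝ) + 1 := by
    filter_upwards [eventually_ge_atTop ⌈4 * B'⌉₊] with k hk
    have : 4 * B' ≤ k := (Nat.le_ceil _).trans (by exact_mod_cast hk)
    linarith
  have hk2 : ∀ᶠ k : ℕ in atTop, (48 * C' * B' ^ 2 + 1) / ε < (k : ℝ) + 1 := by
    filter_upwards [eventually_ge_atTop ⌈(48 * C' * B' ^ 2 + 1) / ε⌉₊] with k hk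
    have : (48 * C' * B' ^ 2 + 1) / ε ≤ k := (Nat.le_ceil _).trans (by exact_mod_cast hk)
    linarith
  filter_upwards [hk1, hk2] with k hk1 hk2 σ hσ
  have hkp : (0 : ℝ) < (k : ℝ) + 1 := by positivity
  have hkc : ((k : ℂ) + 1) ≠ 0 := by
    have : ((k : ℝ) + 1 : ℝ) ≠ 0 := hkp.ne'
    exact_mod_cast this
  have hkn : ‖((k : ℂ) + 1)‖ = (k : ℝ) + 1 := by
    have : ((k : ℂ) + 1) = (((k : ℝ) + 1 : ℝ) : ℂ) := by push_cast; rfl
    rw [this, Complex.norm_real, Real.norm_of_nonneg hkp.le]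
  set y : C2 := ((k : ℂ) + 1)⁻¹ • nv φ σ with hy
  have hyn : ‖y‖ ≤ B' / ((k : ℝ) + 1) := by
    rw [hy, norm_smul, norm_inv, hkn, div_eq_inv_mul]
    gcongr
    exact (hB σ hσ).trans (le_max_left _ _)
  have hy4 : ‖y‖ ≤ 1 / 4 := by
    refine hyn.trans ?_
    rw [div_le_div_iff₀ hkp (by norm_num)]
    linarith
  have hb : ∀ z ∈ Metric.ball (φ σ) 1, ‖F z‖ ≤ C' := by
    intro z hz
    have h1 : ((σ, z - φ σ) : ℂ × C2) ∈ K ×ˢ Metric.closedBall (0 : C2) 1 := by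
      refine ⟨hσ, ?_⟩
      have h3 : ‖z - φ σ‖ < 1 := by simpa [Metric.mem_ball, dist_eq_norm] using hz
      simpa using h3.le
    have h2 := hC _ h1
    simp only [add_sub_cancel] at h2
    exact h2.trans (le_max_left _ _)
  have ht := R12_taylor hF hb y hy4
  have e1 : Q k σ - Gf φ F σ = ((k : ℂ) + 1) * (F (φ σ + y) - F (φ σ) - fderiv ℂ F (φ σ) y) := by
    rw [hQ, Gf]
    simp only
    rw [hy, map_smul, smul_eq_mul]
    field_simp
  rw [dist_comm, dist_eq_norm, e1, norm_mul, hkn]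
  have h5 : ‖y‖ ^ 2 ≤ (B' / ((k : ℝ) + 1)) ^ 2 := pow_le_pow_left₀ (norm_nonneg _) hyn 2
  calc ((k : ℝ) + 1) * ‖F (φ σ + y) - F (φ σ) - fderiv ℂ F (φ σ) y‖
      ≤ ((k : ℝ) + 1) * (48 * C' * (B' / ((k : ℝ) + 1)) ^ 2) := by
        gcongr
        exact ht.trans (mul_le_mul_of_nonneg_left h5 (by positivity))
    _ = (48 * C' * B' ^ 2) / ((k : ℝ) + 1) := by
        field_simp
    _ < ε := by
        rw [div_lt_iff₀ hkp]
        rw [div_lt_iff₀ hε] at hk2
        linarith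

/-- ROW R12. -/
theorem Gf_per {h : ℝ} {φ : ℂ → C2} {F : C2 → ℂ} (hS : Stage h φ F) (σ : ℂ) :
    Gf φ F (σ + 2 * Real.pi) = Gf φ F σ := by
  unfold Gf
  rw [hS.cur.per, nv_per hS.cur]

/-- ROW R12.  `G` is bounded and bounded away from zero near the real axis (compactness, `Stage.nd`). -/
theorem Gf_bounds {h : ℝ} {φ : ℂ → C2} {F : C2 → ℂ} (hS : Stage h φ F) : ∃ r0 g0 C : ℝ,
    0 < r0 ∧ r0 ≤ h / 2 ∧ 0 < g0 ∧ ∀ σ : ℂ, |σ.im| ≤ r0 → g0 ≤ ‖Gf φ F σ‖ ∧ ‖Gf φ F σ‖ ≤ C := by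
  have hh : 0 < h := hS.cur.h_pos
  have hG := (Gf_holo hS).continuousOn
  have hsub : {σ : ℂ | |σ.im| ≤ h / 2} ⊆ strip h := by
    intro σ hσ
    have h1 : |σ.im| ≤ h / 2 := hσ
    show |σ.im| < h
    linarith
  obtain ⟨C, hC0, hC⟩ := bdd_strip (h / 2) (hG.mono hsub) (Gf_per hS)
  set K : Set ℂ := Icc 0 (2 * Real.pi) ×ℂ Icc (-(h / 2)) (h / 2) with hK
  have hKc : IsCompact K := isCompact_Icc.reProdIm isCompact_Icc
  have hKs : K ⊆ strip h := by
    intro σ hσ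
    rw [hK, mem_reProdIm] at hσ
    apply hsub
    show |σ.im| ≤ h / 2
    exact abs_le.2 hσ.2
  have hpi : (0 : ℝ) ≤ 2 * Real.pi := by positivity
  -- the minimum on the real axis
  have hreal : ContinuousOn (fun t : ℝ => ‖Gf φ F t‖) (Icc 0 (2 * Real.pi)) := by
    refine ContinuousOn.norm ?_
    refine hG.comp continuous_ofReal.continuousOn ?_
    intro t _
    exact hS.cur.mem_strip_ofReal t
  obtain ⟨t1, ht1, hmin⟩ := isCompact_Icc.exists_isMinOn (nonempty_Icc.2 hpi) hreal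
  set g1 : ℝ := ‖Gf φ F t1‖ with hg1
  have hg1p : 0 < g1 := norm_pos_iff.2 (hS.nd t1)
  have hU := hKc.uniformContinuousOn_of_continuous (hG.mono hKs)
  rw [Metric.uniformContinuousOn_iff] at hU
  obtain ⟨δ, hδ, hU⟩ := hU (g1 / 2) (by positivity)
  refine ⟨min (h / 2) (δ / 2), g1 / 2, C, by positivity, min_le_left _ _, by positivity, ?_⟩
  intro σ hσ
  refine ⟨?_, hC σ (hσ.trans (min_le_left _ _))⟩
  have hper : Function.Periodic (Gf φ F) (2 * Real.pi : ℂ) := Gf_per hS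
  set m : ℤ := ⌊σ.re / (2 * Real.pi)⌋ with hm
  set τ : ℂ := σ - m • (2 * Real.pi : ℂ) with hτ
  have hGτ : Gf φ F τ = Gf φ F σ := hper.sub_zsmul_eq m
  have hτim : τ.im = σ.im := by
    rw [hτ, zsmul_eq_mul]
    simp
  have hτre : τ.re = σ.re - m * (2 * Real.pi) := by
    rw [hτ, zsmul_eq_mul]
    simp
  have h2pi : (0 : ℝ) < 2 * Real.pi := by positivity
  have hre0 : 0 ≤ τ.re := by
    rw [hτre]
    have := Int.floor_le (σ.re / (2 * Real.pi))
    rw [← hm, le_div_iff₀ h2pi] at this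
    linarith
  have hre1 : τ.re ≤ 2 * Real.pi := by
    rw [hτre]
    have := (Int.lt_floor_add_one (σ.re / (2 * Real.pi))).le
    rw [← hm, div_le_iff₀ h2pi] at this
    linarith
  have him : |τ.im| ≤ h / 2 := by
    rw [hτim]
    exact hσ.trans (min_le_left _ _)
  have hτK : τ ∈ K := by
    rw [hK, mem_reProdIm]
    exact ⟨⟨hre0, hre1⟩, abs_le.1 him⟩
  have hrK : ((τ.re : ℝ) : ℂ) ∈ K := by
    rw [hK, mem_reProdIm]
    refine ⟨by simpa using ⟨hre0, hre1⟩, ?_⟩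
    rw [ofReal_im]
    constructor <;> linarith
  have hdist : dist τ ((τ.re : ℝ) : ℂ) < δ := by
    have e : τ - ((τ.re : ℝ) : ℂ) = (τ.im : ℂ) * I := by
      apply Complex.ext <;> simp
    rw [dist_eq_norm, e, norm_mul, Complex.norm_I, mul_one, Complex.norm_real, Real.norm_eq_abs, hτim]
    have := hσ.trans (min_le_right _ _)
    linarith
  have h6 := hU τ hτK _ hrK hdist
  have h7 : g1 ≤ ‖Gf φ F ((τ.re : ℝ) : ℂ)‖ := by
    have := (isMinOn_iff.1 hmin) τ.re ⟨hre0, hre1⟩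
    exact this
  rw [dist_eq_norm] at h6
  have h8 : ‖Gf φ F ((τ.re : ℝ) : ℂ)‖ ≤ ‖Gf φ F τ‖ + ‖Gf φ F τ - Gf φ F ((τ.re : ℝ) : ℂ)‖ := by
    have := norm_sub_le (Gf φ F τ) (Gf φ F τ - Gf φ F ((τ.re : ℝ) : ℂ))
    rwa [sub_sub_cancel] at this
  rw [← hGτ]
  linarith

end MP18cae5
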