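import Pool.Agent.Lib.MP_18cae5_an.R12

/-! Row R12b: expansion of F near the curve. -/

set_option autoImplicit false

namespace MP18cae5

open Complex MeasureTheory Set Filter Topology

private noncomputable def R12b_Z (a n : C2) (p : C2) : C2 := qs (p.1 * p.2) • (a + p.1 • n)

private theorem R12b_small {p : C2} (hp : ‖p‖ < 1 / 2) : ‖p.1 * p.2‖ < 1 / 4 := by
  have h1 : ‖p.1‖ < 1 / 2 := lt_of_le_of_lt (norm_fst_le p) hp
  have h2 : ‖p.2‖ < 1 / 2 := lt_of_le_of_lt (norm_snd_le p) hp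
  rw [norm_mul]
  have h3 := norm_nonneg p.1
  have h4 := norm_nonneg p.2
  nlinarith

private theorem R12b_qs {u : ℂ} (hu : ‖u‖ < 1 / 4) : ‖qs u‖ ≤ 2 := by
  have h1 := norm_qs_sq (u := u) (by linarith)
  have h2 : (3 / 4 : ℝ) ≤ ‖1 + u‖ := by
    have h3 : ‖(1 : ℂ)‖ ≤ ‖1 + u‖ + ‖u‖ := by
      calc ‖(1 : ℂ)‖ = ‖(1 + u) - u‖ := by congr 1; ring
        _ ≤ ‖1 + u‖ + ‖u‖ := norm_sub_le _ _
    rw [norm_one] at h3
    linarith
  have h4 : 1 / ‖1 + u‖ ≤ 4 := by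
    rw [div_le_iff₀ (by linarith)]
    linarith
  rw [← h1] at h4
  nlinarith [norm_nonneg (qs u)]

private theorem R12b_Zdiff (a n : C2) {p : C2} (hp : ‖p‖ < 1 / 2) :
    DifferentiableAt ℂ (R12b_Z a n) p := by
  have h0 := R12b_small hp
  have h1 : DifferentiableAt ℂ (fun p : C2 => p.1 * p.2) p :=
    differentiableAt_fst.mul differentiableAt_snd
  have hq1 : DifferentiableAt ℂ qs ((fun p : C2 => p.1 * p.2) p) := by
    refine differentiableAt_qs ?_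
    change ‖p.1 * p.2‖ < 1
    linarith
  have h2 : DifferentiableAt ℂ (qs ∘ (fun p : C2 => p.1 * p.2)) p := hq1.comp p h1
  have h3 : DifferentiableAt ℂ (fun p : C2 => a + p.1 • n) p :=
    (differentiableAt_fst.smul_const n).const_add a
  exact h2.smul h3

private theorem R12b_Zderiv (a n : C2) : HasFDerivAt (R12b_Z a n)
    ((ContinuousLinearMap.fst ℂ ℂ ℂ).smulRight n) 0 := by
  have h1 : HasFDerivAt (fun p : C2 => p.1 * p.2) (0 : C2 →L[ℂ] ℂ) 0 := by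
    have h := (hasFDerivAt_fst (𝕜 := ℂ) (p := (0 : C2))).mul (hasFDerivAt_snd (𝕜 := ℂ) (p := (0 : C2)))
    refine h.congr_fderiv ?_
    ext <;> simp
  have hq : HasDerivAt qs (deriv qs 0) ((fun p : C2 => p.1 * p.2) 0) := by
    have : (fun p : C2 => p.1 * p.2) 0 = (0 : ℂ) := by simp
    rw [this]
    exact (differentiableAt_qs (u := 0) (by simp)).hasDerivAt
  have h2 : HasFDerivAt (fun p : C2 => qs (p.1 * p.2)) (0 : C2 →L[ℂ] ℂ) 0 := by
    have h := hq.comp_hasFDerivAt (0 : C2) h1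
    refine h.congr_fderiv ?_
    ext <;> simp
  have h3 : HasFDerivAt (fun p : C2 => a + p.1 • n)
      ((ContinuousLinearMap.fst ℂ ℂ ℂ).smulRight n) 0 :=
    ((hasFDerivAt_fst (𝕜 := ℂ) (p := (0 : C2))).smul_const n).const_add a
  have h4 := h2.smul h3
  refine h4.congr_fderiv ?_
  ext <;> simp [qs_zero]

/-- ROW R12b. -/
theorem F_expand {h : ℝ} {φ : ℂ → C2} {F : C2 → ℂ} (hS : Stage h φ F) : ∃ C : ℝ, 0 < C ∧
    ∀ (σ : ℂ) (r : ℝ) (w v w' v' : ℂ), |σ.im| ≤ h / 2 → 0 < r → r ≤ 1 / 8 →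
      ‖w‖ ≤ r → ‖v‖ ≤ r → ‖w'‖ ≤ r → ‖v'‖ ≤ r →
      ‖(F (Zf φ σ w v) - w * Gf φ F σ) - (F (Zf φ σ w' v') - w' * Gf φ F σ)‖
        ≤ C * r * (‖w - w'‖ + ‖v - v'‖) := by
  have hc := hS.cur
  obtain ⟨C, κ0, hC1, -, hCb, -⟩ := cur_bounds hc
  obtain ⟨B, hB⟩ := (isCompact_closedBall (0 : C2) (4 * C)).exists_bound_of_continuousOn
    hS.ent.continuous.continuousOn
  have hB0 : 0 ≤ B := (norm_nonneg _).trans (hB 0 (Metric.mem_closedBall_self (by linarith)))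
  refine ⟨64 * (B + B * C) + 1, by positivity, ?_⟩
  intro σ r w v w' v' hσ hr hr8 hw hv hw' hv'
  obtain ⟨hφ, -, -, -, hn, -⟩ := hCb σ hσ
  have hσs : σ ∈ strip h := by
    have := hc.h_pos
    exact lt_of_le_of_lt hσ (by linarith)
  have hG : ‖Gf φ F σ‖ ≤ B * C := by
    have h1 : ‖fderiv ℂ F (φ σ)‖ ≤ B / 1 := by
      refine cauchy_fderiv one_pos hS.ent.differentiableOn fun y hy => hB y ?_
      rw [mem_closedBall_zero_iff]
      have h2 : ‖y - φ σ‖ < 1 := by rwa [Metric.mem_ball, dist_eq_norm] at hy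
      have h3 : ‖y‖ ≤ ‖y - φ σ‖ + ‖φ σ‖ := by
        calc ‖y‖ = ‖(y - φ σ) + φ σ‖ := by rw [sub_add_cancel]
          _ ≤ _ := norm_add_le _ _
      linarith
    rw [div_one] at h1
    unfold Gf
    exact ((fderiv ℂ F (φ σ)).le_opNorm _).trans (mul_le_mul h1 hn (norm_nonneg _) hB0)
  set g : C2 → ℂ := fun p => F (R12b_Z (φ σ) (nv φ σ) p) - p.1 * Gf φ F σ with hg
  have hgd : DifferentiableOn ℂ g (Metric.ball 0 (1 / 2)) := by
    intro p hp
    rw [mem_ball_zero_iff] at hp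
    exact (((hS.ent _).comp p (R12b_Zdiff _ _ hp)).sub
      (differentiableAt_fst.mul_const _)).differentiableWithinAt
  have hgb : ∀ p ∈ Metric.ball (0 : C2) (1 / 2), ‖g p‖ ≤ B + B * C := by
    intro p hp
    rw [mem_ball_zero_iff] at hp
    have h1 : ‖p.1‖ < 1 / 2 := lt_of_le_of_lt (norm_fst_le p) hp
    have h2 : ‖F (R12b_Z (φ σ) (nv φ σ) p)‖ ≤ B := by
      refine hB _ ?_
      rw [mem_closedBall_zero_iff]
      unfold R12b_Z
      rw [norm_smul]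
      have h3 := R12b_qs (R12b_small hp)
      have h4 : ‖φ σ + p.1 • nv φ σ‖ ≤ 2 * C := by
        refine (norm_add_le _ _).trans ?_
        rw [norm_smul]
        have h5 : ‖p.1‖ * ‖nv φ σ‖ ≤ 1 * C :=
          mul_le_mul (by linarith) hn (norm_nonneg _) zero_le_one
        linarith
      calc ‖qs (p.1 * p.2)‖ * ‖φ σ + p.1 • nv φ σ‖ ≤ 2 * (2 * C) :=
            mul_le_mul h3 h4 (norm_nonneg _) (by norm_num)
        _ = 4 * C := by ring
    refine (norm_sub_le _ _).trans (add_le_add h2 ?_)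
    rw [norm_mul]
    calc ‖p.1‖ * ‖Gf φ F σ‖ ≤ 1 * (B * C) := mul_le_mul (by linarith) hG (norm_nonneg _) zero_le_one
      _ = B * C := one_mul _
  have hz0 : R12b_Z (φ σ) (nv φ σ) 0 = φ σ := by
    unfold R12b_Z
    simp [qs_zero]
  have hg0 : g 0 = 0 := by
    rw [hg]
    simp only [Prod.fst_zero, zero_mul, sub_zero]
    rw [hz0]
    exact hS.zero σ hσs
  have hg1 : fderiv ℂ g 0 = 0 := by
    have h1 : HasFDerivAt F (fderiv ℂ F (φ σ)) (R12b_Z (φ σ) (nv φ σ) 0) := by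
      rw [hz0]
      exact (hS.ent (φ σ)).hasFDerivAt
    have h2 := h1.comp (0 : C2) (R12b_Zderiv (φ σ) (nv φ σ))
    have h3 := h2.sub ((hasFDerivAt_fst (𝕜 := ℂ) (p := (0 : C2))).mul_const (Gf φ F σ))
    have h4 : HasFDerivAt g (0 : C2 →L[ℂ] ℂ) 0 := by
      refine h3.congr_fderiv ?_
      apply ContinuousLinearMap.ext
      intro x
      have e1 : ((fderiv ℂ F (φ σ)).comp ((ContinuousLinearMap.fst ℂ ℂ ℂ).smulRight (nv φ σ))) x =
          x.1 * Gf φ F σ := by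
        change fderiv ℂ F (φ σ) (x.1 • nv φ σ) = x.1 * fderiv ℂ F (φ σ) (nv φ σ)
        rw [map_smul, smul_eq_mul]
      have e2 : (Gf φ F σ • ContinuousLinearMap.fst ℂ ℂ ℂ) x = Gf φ F σ * x.1 := rfl
      change ((fderiv ℂ F (φ σ)).comp ((ContinuousLinearMap.fst ℂ ℂ ℂ).smulRight (nv φ σ))) x -
        (Gf φ F σ • ContinuousLinearMap.fst ℂ ℂ ℂ) x = 0
      rw [e1, e2]
      ring
    exact h4.fderiv
  have hy : ‖((w, v) : C2)‖ ≤ r := by rw [Prod.norm_def]; exact max_le hw hv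
  have hy' : ‖((w', v') : C2)‖ ≤ r := by rw [Prod.norm_def]; exact max_le hw' hv'
  have hq := quad_lip (by norm_num : (0 : ℝ) < 1 / 2) hgd hgb hg0 hg1 r hr (by linarith)
    (w, v) (w', v') hy hy'
  have hyy : ‖((w, v) : C2) - (w', v')‖ ≤ ‖w - w'‖ + ‖v - v'‖ := by
    rw [Prod.mk_sub_mk, Prod.norm_def]
    exact max_le (by linarith [norm_nonneg (v - v')]) (by linarith [norm_nonneg (w - w')])
  have hZ : ∀ a b : ℂ, F (Zf φ σ a b) - a * Gf φ F σ = g (a, b) := fun a b => rfl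
  rw [hZ, hZ]
  refine hq.trans ?_
  have h0 : 0 ≤ ‖w - w'‖ + ‖v - v'‖ := by positivity
  have hBC : 0 ≤ B * C := mul_nonneg hB0 (by linarith)
  calc 16 * (B + B * C) * r / (1 / 2) ^ 2 * ‖((w, v) : C2) - (w', v')‖ ≤
        16 * (B + B * C) * r / (1 / 2) ^ 2 * (‖w - w'‖ + ‖v - v'‖) :=
        mul_le_mul_of_nonneg_left hyy (by positivity)
    _ = 64 * (B + B * C) * r * (‖w - w'‖ + ‖v - v'‖) := by ring
    _ ≤ (64 * (B + B * C) + 1) * r * (‖w - w'‖ + ‖v - v'‖) := by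
        refine mul_le_mul_of_nonneg_right ?_ h0
        refine mul_le_mul_of_nonneg_right ?_ hr.le
        linarith

end MP18cae5
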