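import Pool.Agent.Lib.MP_18cae5_an.R08
import Pool.Agent.Lib.MP_18cae5_an.R10
import Pool.Agent.Lib.MP_18cae5_an.R11

/-! Row R13: the peak function at the points Zf. -/

set_option autoImplicit false

namespace MP18cae5

open Complex MeasureTheory Set Filter Topology

/-- ROW R13.  `Zf φ σ w v = pt φ s η b w'` with `σ = s + iη`, `b = qs (wv) - 1`, `w' = qs(wv) w`. -/
theorem Zf_eq_pt (φ : ℂ → C2) (s η : ℝ) (w v : ℂ) :
    Zf φ ((s : ℂ) + (η : ℂ) * I) w v = pt φ s η (qs (w * v) - 1) (qs (w * v) * w) := by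
  rw [Zf, pt, smul_add, smul_smul, add_sub_cancel]

/-- ROW R13.  From `Pk_unif` with `A = max 3 (64 C1² + 16 C1 + 16)` (if `‖w‖,‖v‖ ≤ 2 C1 eps` then
`‖qs(wv)-1‖ ≤ 2‖wv‖ ≤ 8 C1² eps²`, `‖qs(wv) w‖ ≤ 4 C1 eps` once `C1 eps` is small). -/
theorem Pk_near {h : ℝ} {φ : ℂ → C2} (hc : Cur h φ) (C1 : ℝ) (hC1 : 0 < C1) (δ : ℝ) (hδ : 0 < δ) :
    ∃ M0 : ℝ, 1 ≤ M0 ∧ ∀ M : ℝ, M0 ≤ M → Adm φ M → ∀ (s η : ℝ) (w v : ℂ), |η| ≤ 3 / M →
      ‖w‖ ≤ 2 * C1 * eps M → ‖v‖ ≤ 2 * C1 * eps M →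
      ‖Pk φ M (Zf φ ((s : ℂ) + (η : ℂ) * I) w v) / Ex φ M s η - 1‖ ≤ δ := by
  set A : ℝ := 3 + 8 * C1 ^ 2 + 4 * C1 with hA
  have hA0 : 0 ≤ A := by positivity
  obtain ⟨M0, hM0, hP⟩ := Pk_unif hc A hA0 δ hδ
  obtain ⟨M1, hM1, hE⟩ := eps_small (1 / (4 * C1)) (by positivity)
  refine ⟨max M0 M1, hM0.trans (le_max_left _ _), fun M hM hadm s η w v hη hw hv => ?_⟩
  obtain ⟨he0, he1, -, -, -⟩ := hE M ((le_max_right _ _).trans hM)
  have hMpos : 0 < M := by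
    have := (hM0.trans (le_max_left M0 M1)).trans hM
    linarith
  have hwv : ‖w * v‖ ≤ 4 * C1 ^ 2 * eps M ^ 2 := by
    rw [norm_mul]
    calc ‖w‖ * ‖v‖ ≤ (2 * C1 * eps M) * (2 * C1 * eps M) :=
          mul_le_mul hw hv (norm_nonneg _) (by positivity)
      _ = _ := by ring
  have hce : C1 * eps M ≤ 1 / 4 := by
    have h1 : C1 * eps M ≤ C1 * (1 / (4 * C1)) := mul_le_mul_of_nonneg_left he1 hC1.le
    have h2 : C1 * (1 / (4 * C1)) = 1 / 4 := by field_simp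
    linarith
  have hce0 : 0 < C1 * eps M := by positivity
  have hhalf : ‖w * v‖ ≤ 1 / 2 := by
    refine hwv.trans ?_
    have h3 : 4 * C1 ^ 2 * eps M ^ 2 = 4 * (C1 * eps M) ^ 2 := by ring
    rw [h3]
    nlinarith
  have hq := qs_sub_one_le hhalf
  have hq1 : ‖qs (w * v)‖ ≤ 2 := by
    calc ‖qs (w * v)‖ = ‖(qs (w * v) - 1) + 1‖ := by rw [sub_add_cancel]
      _ ≤ ‖qs (w * v) - 1‖ + ‖(1 : ℂ)‖ := norm_add_le _ _
      _ ≤ 2 := by rw [norm_one]; linarith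
  rw [Zf_eq_pt]
  refine hP M ((le_max_left _ _).trans hM) hadm s η _ _ ?_ ?_ ?_
  · refine hη.trans ?_
    gcongr
    rw [hA]
    nlinarith [sq_nonneg C1]
  · calc ‖qs (w * v) - 1‖ ≤ 2 * ‖w * v‖ := hq
      _ ≤ 2 * (4 * C1 ^ 2 * eps M ^ 2) := by linarith
      _ = 8 * C1 ^ 2 * eps M ^ 2 := by ring
      _ ≤ A * eps M ^ 2 := by
        apply mul_le_mul_of_nonneg_right _ (by positivity)
        rw [hA]
        linarith
  · rw [norm_mul]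
    calc ‖qs (w * v)‖ * ‖w‖ ≤ 2 * (2 * C1 * eps M) :=
          mul_le_mul hq1 hw (norm_nonneg _) (by norm_num)
      _ = 4 * C1 * eps M := by ring
      _ ≤ A * eps M := by
        apply mul_le_mul_of_nonneg_right _ he0.le
        rw [hA]
        nlinarith [sq_nonneg C1]

end MP18cae5
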