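import Pool.Agent.Lib.MP_18cae5_an.R13

/-! Row R13b: eps / P has small Lipschitz constant. -/

set_option autoImplicit false

namespace MP18cae5

open Complex MeasureTheory Set Filter Topology

theorem R13b_Zf_diff (φ : ℂ → C2) (σ : ℂ) : DifferentiableOn ℂ (fun p : C2 => Zf φ σ p.1 p.2)
    (Metric.ball 0 1) := by
  intro p hp
  rw [mem_ball_zero_iff] at hp
  have h1 : ‖p.1 * p.2‖ < 1 := by
    rw [norm_mul]
    have h2 := norm_fst_le p
    have h3 := norm_snd_le p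
    calc ‖p.1‖ * ‖p.2‖ ≤ ‖p‖ * ‖p‖ := mul_le_mul h2 h3 (norm_nonneg _) (norm_nonneg _)
      _ < 1 := by nlinarith [norm_nonneg p]
  apply DifferentiableAt.differentiableWithinAt
  have h2 : DifferentiableAt ℂ (fun p : C2 => qs (p.1 * p.2)) p :=
    DifferentiableAt.comp (g := qs) (f := fun p : C2 => p.1 * p.2) p (differentiableAt_qs h1)
      (differentiableAt_fst.mul differentiableAt_snd)
  unfold Zf
  exact h2.smul ((differentiableAt_const _).add (differentiableAt_fst.smul_const _))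

/-- ROW R13b.  The constant `C2` does not depend on `C1`: `‖P(Zf)‖ ≥ ‖Ex‖/2`, `norm_Ex` with `A = 3`.
For the Lipschitz estimate apply `lip_of_bdd` to `g(w,v) = P(Zf φ σ w v)/Ex - 1` on the ball of radius `2 C1 eps`
(`‖g‖ ≤ δ'` by `Pk_near`): `‖g x - g x'‖ ≤ (δ'/(C1 eps)) ‖x - x'‖`, and
`eps/P - eps/P' = eps (P'-P)/(P P')`. -/
theorem epsP_lip {h : ℝ} {φ : ℂ → C2} (hc : Cur h φ) : ∃ C2 : ℝ, 1 ≤ C2 ∧ ∀ (C1 : ℝ), 0 < C1 →
    ∀ δ : ℝ, 0 < δ → ∃ M0 : ℝ, 1 ≤ M0 ∧ ∀ M : ℝ, M0 ≤ M → Adm φ M →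
      ∀ (σ w v w' v' : ℂ), |σ.im| < 3 / M → ‖w‖ ≤ C1 * eps M → ‖v‖ ≤ C1 * eps M →
      ‖w'‖ ≤ C1 * eps M → ‖v'‖ ≤ C1 * eps M →
      Pk φ M (Zf φ σ w v) ≠ 0 ∧ ‖(eps M : ℂ) / Pk φ M (Zf φ σ w v)‖ ≤ C2 * eps M ∧
      ‖(eps M : ℂ) / Pk φ M (Zf φ σ w v) - (eps M : ℂ) / Pk φ M (Zf φ σ w' v')‖
        ≤ δ * (‖w - w'‖ + ‖v - v'‖) := by
  obtain ⟨C, hC, hEx⟩ := norm_Ex hc 3 (by norm_num)
  refine ⟨2 * C, by linarith, fun C1 hC1 δ hδ => ?_⟩
  have hCpos : 0 < C := by linarith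
  set δ' : ℝ := min (1 / 2) (δ * C1 / (2 * C)) with hδ'
  have hδ'0 : 0 < δ' := lt_min (by norm_num) (by positivity)
  obtain ⟨M0, hM0, hP⟩ := Pk_near hc (2 * C1) (by positivity) δ' hδ'0
  obtain ⟨M1, hM1, hE⟩ := eps_small (1 / (8 * C1)) (by positivity)
  refine ⟨max M0 M1, hM0.trans (le_max_left _ _), fun M hM hadm σ w v w' v' hσ hw hv hw' hv' => ?_⟩
  obtain ⟨he0, he1, -, -, -⟩ := hE M ((le_max_right _ _).trans hM)
  have hMpos : 0 < M := by
    have := (hM0.trans (le_max_left M0 M1)).trans hM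
    linarith
  have hσe : σ = ((σ.re : ℝ) : ℂ) + ((σ.im : ℝ) : ℂ) * I := (Complex.re_add_im σ).symm
  obtain ⟨hx1, hx2⟩ := hEx M σ.re σ.im hMpos hσ.le
  set E : ℂ := Ex φ M σ.re σ.im with hEdef
  have hEpos : 0 < ‖E‖ := lt_of_lt_of_le (by positivity) hx2
  have hE0 : E ≠ 0 := norm_pos_iff.1 hEpos
  set R : ℝ := 4 * C1 * eps M with hR
  have hR0 : 0 < R := by positivity
  have hR1 : R ≤ 1 / 2 := by
    have h1 : C1 * eps M ≤ C1 * (1 / (8 * C1)) := mul_le_mul_of_nonneg_left he1 hC1.le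
    have h2 : C1 * (1 / (8 * C1)) = 1 / 8 := by field_simp
    have h3 : R = 4 * (C1 * eps M) := by rw [hR]; ring
    linarith
  set g : C2 → ℂ := fun p => Pk φ M (Zf φ σ p.1 p.2) / E - 1 with hg
  have hgb : ∀ p ∈ Metric.ball (0 : C2) R, ‖g p‖ ≤ δ' := by
    intro p hp
    rw [mem_ball_zero_iff] at hp
    have h1 := hP M ((le_max_left _ _).trans hM) hadm σ.re σ.im p.1 p.2 hσ.le
      ((norm_fst_le p).trans (by rw [hR] at hp; linarith))
      ((norm_snd_le p).trans (by rw [hR] at hp; linarith))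
    rw [← hσe] at h1
    exact h1
  have hgd : DifferentiableOn ℂ g (Metric.ball 0 R) := by
    have h1 : DifferentiableOn ℂ (fun p : C2 => Zf φ σ p.1 p.2) (Metric.ball 0 R) :=
      (R13b_Zf_diff φ σ).mono (Metric.ball_subset_ball (by linarith))
    have h2 : DifferentiableOn ℂ (fun p : C2 => Pk φ M (Zf φ σ p.1 p.2)) (Metric.ball 0 R) :=
      (Pk_entire hc M).comp_differentiableOn h1
    have h3 : g = fun p : C2 => Pk φ M (Zf φ σ p.1 p.2) * E⁻¹ - 1 := by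
      rw [hg]
      funext p
      rw [div_eq_mul_inv]
    rw [h3]
    exact (h2.mul_const E⁻¹).sub_const 1
  have hmem : ∀ a b : ℂ, ‖a‖ ≤ C1 * eps M → ‖b‖ ≤ C1 * eps M →
      ((a, b) : C2) ∈ Metric.ball (0 : C2) (R / 2) := by
    intro a b ha hb
    rw [mem_ball_zero_iff, Prod.norm_def, max_lt_iff]
    have h1 : 0 < C1 * eps M := by positivity
    have h2 : R / 2 = 2 * (C1 * eps M) := by rw [hR]; ring
    rw [h2]
    constructor
    · change ‖a‖ < _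
      linarith
    · change ‖b‖ < _
      linarith
  have hball : Metric.ball (0 : C2) (R / 2) ⊆ Metric.ball 0 R :=
    Metric.ball_subset_ball (by linarith)
  have hval : ∀ a b : ℂ, Pk φ M (Zf φ σ a b) = E * (1 + g (a, b)) := by
    intro a b
    rw [hg]
    simp only
    field_simp
    ring
  have hlow : ∀ a b : ℂ, ‖a‖ ≤ C1 * eps M → ‖b‖ ≤ C1 * eps M → 1 / 2 ≤ ‖1 + g (a, b)‖ := by
    intro a b ha hb
    have h1 := hgb _ (hball (hmem a b ha hb))
    have h2 : δ' ≤ 1 / 2 := min_le_left _ _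
    have h3 : ‖(1 : ℂ)‖ ≤ ‖1 + g (a, b)‖ + ‖g (a, b)‖ := by
      calc ‖(1 : ℂ)‖ = ‖(1 + g (a, b)) - g (a, b)‖ := by rw [add_sub_cancel_right]
        _ ≤ _ := norm_sub_le _ _
    rw [norm_one] at h3
    linarith
  have h1 := hlow w v hw hv
  have h2 := hlow w' v' hw' hv'
  have hn1 : 1 + g (w, v) ≠ 0 := norm_pos_iff.1 (by linarith)
  have hn2 : 1 + g (w', v') ≠ 0 := norm_pos_iff.1 (by linarith)
  have hlip := lip_of_bdd hR0 hgd hgb (w, v) (w', v') (hmem w v hw hv) (hmem w' v' hw' hv')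
  have hen : ‖(eps M : ℂ)‖ = eps M := by rw [Complex.norm_real, Real.norm_of_nonneg he0.le]
  have hCE : 1 ≤ C * ‖E‖ := by
    rw [div_le_iff₀ hCpos] at hx2
    linarith
  refine ⟨?_, ?_, ?_⟩
  · rw [hval]
    exact mul_ne_zero hE0 hn1
  · rw [hval, norm_div, hen, norm_mul, div_le_iff₀ (by positivity)]
    have h3 : (1 : ℝ) ≤ 2 * C * (‖E‖ * ‖1 + g (w, v)‖) := by
      have h4 : (1 : ℝ) * (1 / 2) ≤ (C * ‖E‖) * ‖1 + g (w, v)‖ :=
        mul_le_mul hCE h1 (by norm_num) (by positivity)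
      linarith
    nlinarith
  · have h3 : (eps M : ℂ) / Pk φ M (Zf φ σ w v) - (eps M : ℂ) / Pk φ M (Zf φ σ w' v') =
        (eps M : ℂ) * (g (w', v') - g (w, v)) / (E * (1 + g (w, v)) * (1 + g (w', v'))) := by
      rw [hval, hval]
      field_simp
      ring
    have h4 : ‖((w, v) : C2) - (w', v')‖ ≤ ‖w - w'‖ + ‖v - v'‖ := by
      rw [Prod.norm_def]
      change max ‖w - w'‖ ‖v - v'‖ ≤ _
      exact max_le (by linarith [norm_nonneg (v - v')]) (by linarith [norm_nonneg (w - w')])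
    set d : ℝ := ‖w - w'‖ + ‖v - v'‖ with hd
    have hd0 : 0 ≤ d := by positivity
    have h5 : ‖g (w', v') - g (w, v)‖ ≤ 2 * δ' / R * d := by
      rw [norm_sub_rev]
      exact hlip.trans (mul_le_mul_of_nonneg_left h4 (by positivity))
    rw [h3, norm_div, norm_mul, hen, norm_mul, norm_mul, div_le_iff₀ (by positivity)]
    have h6 : eps M * (2 * δ' / R * d) = δ' / (2 * C1) * d := by
      rw [hR]
      field_simp
      ring
    have h7 : (1 : ℝ) / (4 * C) ≤ ‖E‖ * ‖1 + g (w, v)‖ * ‖1 + g (w', v')‖ := by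
      rw [div_le_iff₀ (by positivity)]
      have h8 : (1 : ℝ) * (1 / 2) ≤ (C * ‖E‖) * ‖1 + g (w, v)‖ :=
        mul_le_mul hCE h1 (by norm_num) (by positivity)
      have h9 : (1 : ℝ) * (1 / 2) * (1 / 2) ≤ (C * ‖E‖) * ‖1 + g (w, v)‖ * ‖1 + g (w', v')‖ :=
        mul_le_mul h8 h2 (by norm_num) (by positivity)
      linarith
    calc eps M * ‖g (w', v') - g (w, v)‖ ≤ eps M * (2 * δ' / R * d) :=
          mul_le_mul_of_nonneg_left h5 he0.le
      _ = δ' / (2 * C1) * d := h6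
      _ ≤ (δ * C1 / (2 * C)) / (2 * C1) * d := by
        apply mul_le_mul_of_nonneg_right _ hd0
        exact div_le_div_of_nonneg_right (min_le_right _ _) (by positivity)
      _ = δ * d * (1 / (4 * C)) := by
        field_simp
        ring
      _ ≤ δ * d * (‖E‖ * ‖1 + g (w, v)‖ * ‖1 + g (w', v')‖) :=
        mul_le_mul_of_nonneg_left h7 (by positivity)

end MP18cae5
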