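import Pool.Agent.Lib.MP_18cae5_an.R01

/-! Row R14: an iteration scheme for holomorphic fixed points. -/

set_option autoImplicit false

namespace MP18cae5

open Complex MeasureTheory Set Filter Topology

/-- the iteration -/
noncomputable def R14_it (N : ℂ → ℂ → ℂ → ℂ) : ℕ → ℂ → ℂ
  | 0 => fun _ => 0
  | (j + 1) => fun σ => N σ (R14_it N j σ) (rf (R14_it N j) σ)

theorem R14_norm_rf (w : ℂ → ℂ) (σ : ℂ) : ‖rf w σ‖ = ‖w (starRingEnd ℂ σ)‖ := by
  rw [rf, RCLike.norm_conj]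

theorem R14_norm_rf_sub (w w' : ℂ → ℂ) (σ : ℂ) :
    ‖rf w σ - rf w' σ‖ = ‖w (starRingEnd ℂ σ) - w' (starRingEnd ℂ σ)‖ := by
  rw [rf, rf, ← map_sub, RCLike.norm_conj]

theorem R14_per {w : ℂ → ℂ} (hw : ∀ σ : ℂ, w (σ + 2 * Real.pi) = w σ) (σ : ℂ) :
    rf w (σ + 2 * Real.pi) = rf w σ := by
  have e : starRingEnd ℂ (σ + 2 * (Real.pi : ℂ)) = starRingEnd ℂ σ + 2 * (Real.pi : ℂ) := by
    rw [map_add, map_mul, conj_ofReal]
    congr 2
    exact Complex.conj_ofNat 2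
  rw [rf, rf, e, hw]

/-- ROW R14.  Iterate `w_0 = 0`, `w_{j+1}(σ) = N σ (w_j σ) (rf w_j σ)`: by induction holomorphic on the strip (`rf_holo`),
`2π`-periodic, bounded by `r`; with `d_j = sup over the strip of ‖w_{j+1} - w_j‖` one has `d_{j+1} ≤ d_j/2`
(`‖rf w_{j+1} σ - rf w_j σ‖ = ‖w_{j+1} (conj σ) - w_j (conj σ)‖`): more precisely
`‖w_{j+1} σ - w_j σ‖ ≤ r 2^{-j}` for all `σ` in the strip.  Uniform limit: `TendstoUniformlyOn`,
`TendstoLocallyUniformlyOn.differentiableOn`.  Off the strip put `w = 0`. -/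
theorem iter_fix (H r : ℝ) (hr : 0 < r) (N : ℂ → ℂ → ℂ → ℂ)
    (hmap : ∀ σ ∈ strip H, ∀ w v : ℂ, ‖w‖ ≤ r → ‖v‖ ≤ r → ‖N σ w v‖ ≤ r)
    (hlip : ∀ σ ∈ strip H, ∀ w v w' v' : ℂ, ‖w‖ ≤ r → ‖v‖ ≤ r → ‖w'‖ ≤ r → ‖v'‖ ≤ r →
      ‖N σ w v - N σ w' v'‖ ≤ (1 / 4) * (‖w - w'‖ + ‖v - v'‖))
    (hholo : ∀ w v : ℂ → ℂ, DifferentiableOn ℂ w (strip H) → DifferentiableOn ℂ v (strip H) →
      (∀ σ ∈ strip H, ‖w σ‖ ≤ r) → (∀ σ ∈ strip H, ‖v σ‖ ≤ r) →
      DifferentiableOn ℂ (fun σ => N σ (w σ) (v σ)) (strip H))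
    (hper : ∀ σ w v : ℂ, N (σ + 2 * Real.pi) w v = N σ w v) :
    ∃ w : ℂ → ℂ, DifferentiableOn ℂ w (strip H) ∧ (∀ σ : ℂ, w (σ + 2 * Real.pi) = w σ) ∧
      (∀ σ ∈ strip H, ‖w σ‖ ≤ r) ∧ ∀ σ ∈ strip H, N σ (w σ) (rf w σ) = w σ := by
  classical
  set u := R14_it N with hu
  have hbd : ∀ j : ℕ, ∀ σ ∈ strip H, ‖u j σ‖ ≤ r := by
    intro j
    induction j with
    | zero => intro σ _; simp [hu, R14_it, hr.le]
    | succ j ih =>
      intro σ hσ
      exact hmap σ hσ _ _ (ih σ hσ) (by rw [R14_norm_rf]; exact ih _ (conj_mem_strip hσ))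
  have hbd' : ∀ j : ℕ, ∀ σ ∈ strip H, ‖rf (u j) σ‖ ≤ r := by
    intro j σ hσ
    rw [R14_norm_rf]; exact hbd j _ (conj_mem_strip hσ)
  have hdiff : ∀ j : ℕ, DifferentiableOn ℂ (u j) (strip H) := by
    intro j
    induction j with
    | zero => exact differentiableOn_const 0
    | succ j ih => exact hholo _ _ ih (rf_holo ih) (hbd j) (hbd' j)
  have hperu : ∀ j : ℕ, ∀ σ : ℂ, u j (σ + 2 * Real.pi) = u j σ := by
    intro j
    induction j with
    | zero => intro σ; rfl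
    | succ j ih =>
      intro σ
      show N (σ + 2 * Real.pi) (u j (σ + 2 * Real.pi)) (rf (u j) (σ + 2 * Real.pi)) =
        N σ (u j σ) (rf (u j) σ)
      rw [hper, ih, R14_per ih]
  have hstep : ∀ j : ℕ, ∀ σ ∈ strip H, ‖u (j + 1) σ - u j σ‖ ≤ r / 2 / 2 ^ j * 2 := by
    intro j
    induction j with
    | zero =>
      intro σ hσ
      have h := hbd 1 σ hσ
      have e : u 0 σ = 0 := rfl
      rw [e, sub_zero]
      calc ‖u (0 + 1) σ‖ ≤ r := h
        _ = r / 2 / 2 ^ 0 * 2 := by ring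
    | succ j ih =>
      intro σ hσ
      have h1 := hlip σ hσ (u (j + 1) σ) (rf (u (j + 1)) σ) (u j σ) (rf (u j) σ) (hbd _ σ hσ)
        (hbd' _ σ hσ) (hbd _ σ hσ) (hbd' _ σ hσ)
      rw [R14_norm_rf_sub] at h1
      have h2 := ih σ hσ
      have h3 := ih _ (conj_mem_strip hσ)
      calc ‖u (j + 1 + 1) σ - u (j + 1) σ‖
          ≤ 1 / 4 * (‖u (j + 1) σ - u j σ‖ +
            ‖u (j + 1) (starRingEnd ℂ σ) - u j (starRingEnd ℂ σ)‖) := h1
        _ ≤ 1 / 4 * (r / 2 / 2 ^ j * 2 + r / 2 / 2 ^ j * 2) := by gcongr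
        _ = r / 2 / 2 ^ (j + 1) * 2 := by rw [pow_succ]; field_simp; ring
  -- pointwise limit
  have hc : ∀ σ ∈ strip H, CauchySeq (fun j => u j σ) := by
    intro σ hσ
    refine cauchySeq_of_le_geometric (1 / 2) r (by norm_num) ?_
    intro n
    rw [dist_comm, dist_eq_norm]
    refine (hstep n σ hσ).trans (le_of_eq ?_)
    rw [one_div, inv_pow]; field_simp
  have hlim : ∀ σ ∈ strip H, ∃ z : ℂ, Tendsto (fun j => u j σ) atTop (𝓝 z) := fun σ hσ =>
    cauchySeq_tendsto_of_complete (hc σ hσ)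
  let w : ℂ → ℂ := fun σ => if h : σ ∈ strip H then Classical.choose (hlim σ h) else 0
  have hw : ∀ σ ∈ strip H, Tendsto (fun j => u j σ) atTop (𝓝 (w σ)) := by
    intro σ hσ
    have e : w σ = Classical.choose (hlim σ hσ) := by simp only [w]; rw [dif_pos hσ]
    rw [e]
    exact Classical.choose_spec (hlim σ hσ)
  have hw0 : ∀ σ, σ ∉ strip H → w σ = 0 := by
    intro σ hσ
    simp only [w]; rw [dif_neg hσ]
  have hdist : ∀ j : ℕ, ∀ σ ∈ strip H, ‖u j σ - w σ‖ ≤ 2 * r * (1 / 2) ^ j := by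
    intro j σ hσ
    have := dist_le_of_le_geometric_of_tendsto (1 / 2) r (by norm_num) (f := fun j => u j σ)
      (fun n => by
        rw [dist_comm, dist_eq_norm]
        refine (hstep n σ hσ).trans (le_of_eq ?_)
        rw [one_div, inv_pow]; field_simp) (hw σ hσ) j
    rw [dist_eq_norm] at this
    refine this.trans (le_of_eq ?_)
    ring
  have hunif : TendstoUniformlyOn u w atTop (strip H) := by
    rw [Metric.tendstoUniformlyOn_iff]
    intro δ hδ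
    have h0 : Tendsto (fun j : ℕ => 2 * r * (1 / 2 : ℝ) ^ j) atTop (𝓝 0) := by
      have := (tendsto_pow_atTop_nhds_zero_of_lt_one (r := (1 / 2 : ℝ)) (by norm_num)
        (by norm_num)).const_mul (2 * r)
      simpa using this
    filter_upwards [h0.eventually (gt_mem_nhds hδ)] with j hj σ hσ
    rw [dist_comm, dist_eq_norm]
    exact (hdist j σ hσ).trans_lt hj
  have hmem : ∀ σ : ℂ, (σ + 2 * Real.pi ∈ strip H ↔ σ ∈ strip H) := by
    intro σ
    simp [strip]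
  refine ⟨w, ?_, ?_, ?_, ?_⟩
  · exact hunif.tendstoLocallyUniformlyOn.differentiableOn (Eventually.of_forall hdiff)
      (isOpen_strip H)
  · intro σ
    by_cases hσ : σ ∈ strip H
    · have h1 := hw _ ((hmem σ).2 hσ)
      have h2 := hw σ hσ
      have e : (fun j => u j (σ + 2 * Real.pi)) = fun j => u j σ := funext fun j => hperu j σ
      rw [e] at h1
      exact tendsto_nhds_unique h1 h2
    · rw [hw0 σ hσ, hw0 _ (fun h => hσ ((hmem σ).1 h))]
  · intro σ hσ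
    exact le_of_tendsto (hw σ hσ).norm (Eventually.of_forall fun j => hbd j σ hσ)
  · intro σ hσ
    have hwb : ∀ σ ∈ strip H, ‖w σ‖ ≤ r := fun σ hσ =>
      le_of_tendsto (hw σ hσ).norm (Eventually.of_forall fun j => hbd j σ hσ)
    have h1 : Tendsto (fun j => u (j + 1) σ) atTop (𝓝 (w σ)) := (hw σ hσ).comp (tendsto_add_atTop_nat 1)
    have h2 : Tendsto (fun j => u (j + 1) σ) atTop (𝓝 (N σ (w σ) (rf w σ))) := by
      rw [tendsto_iff_norm_sub_tendsto_zero]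
      have hb : ∀ j : ℕ, ‖u (j + 1) σ - N σ (w σ) (rf w σ)‖ ≤ r * (1 / 2 : ℝ) ^ j := by
        intro j
        have h3 := hlip σ hσ (u j σ) (rf (u j) σ) (w σ) (rf w σ) (hbd _ σ hσ) (hbd' _ σ hσ)
          (hwb σ hσ) (by rw [R14_norm_rf]; exact hwb _ (conj_mem_strip hσ))
        rw [R14_norm_rf_sub] at h3
        have h4 := hdist j σ hσ
        have h5 := hdist j _ (conj_mem_strip hσ)
        calc ‖u (j + 1) σ - N σ (w σ) (rf w σ)‖
            ≤ 1 / 4 * (‖u j σ - w σ‖ + ‖u j (starRingEnd ℂ σ) - w (starRingEnd ℂ σ)‖) := h3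
          _ ≤ 1 / 4 * (2 * r * (1 / 2) ^ j + 2 * r * (1 / 2) ^ j) := by gcongr
          _ = r * (1 / 2 : ℝ) ^ j := by ring
      have h0 : Tendsto (fun j : ℕ => r * (1 / 2 : ℝ) ^ j) atTop (𝓝 0) := by
        have := (tendsto_pow_atTop_nhds_zero_of_lt_one (r := (1 / 2 : ℝ)) (by norm_num)
          (by norm_num)).const_mul r
        simpa using this
      exact squeeze_zero (fun j => norm_nonneg _) hb h0
    exact tendsto_nhds_unique h2 h1

end MP18cae5
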