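import Pool.Agent.Lib.MP_18cae5_an.R12b
import Pool.Agent.Lib.MP_18cae5_an.R13b
import Pool.Agent.Lib.MP_18cae5_an.R14

/-! Row R15: existence of the solution `w`. -/

set_option autoImplicit false

namespace MP18cae5

open Complex MeasureTheory Set Filter Topology

/-- `Zf` along holomorphic `w`, `v` is holomorphic -/
theorem R15_Zf_holo {h H : ℝ} {φ : ℂ → C2} (hc : Cur h φ) (hH : H ≤ h) {w v : ℂ → ℂ}
    (hw : DifferentiableOn ℂ w (strip H)) (hv : DifferentiableOn ℂ v (strip H))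
    (hwv : ∀ σ ∈ strip H, ‖w σ * v σ‖ < 1) :
    DifferentiableOn ℂ (fun σ => Zf φ σ (w σ) (v σ)) (strip H) := by
  have hsub : strip H ⊆ strip h := fun σ hσ => lt_of_lt_of_le (α := ℝ) hσ hH
  intro σ hσ
  have h1 : DifferentiableWithinAt ℂ φ (strip H) σ := (hc.holo.mono hsub) σ hσ
  have h2 : DifferentiableWithinAt ℂ (nv φ) (strip H) σ := ((nv_holo hc).mono hsub) σ hσ
  have h3 : DifferentiableWithinAt ℂ (fun σ => qs (w σ * v σ)) (strip H) σ :=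
    DifferentiableAt.comp_differentiableWithinAt (g := qs) (f := fun σ => w σ * v σ) σ
      (differentiableAt_qs (hwv σ hσ)) ((hw σ hσ).mul (hv σ hσ))
  exact h3.smul (h1.add ((hw σ hσ).smul h2))

theorem R15_norm_rf (w : ℂ → ℂ) (σ : ℂ) : ‖rf w σ‖ = ‖w (starRingEnd ℂ σ)‖ := by
  rw [rf, RCLike.norm_conj]

theorem R15_Zf_zero (φ : ℂ → C2) (σ : ℂ) : Zf φ σ 0 0 = φ σ := by
  simp [Zf, qs_zero]

/-- ROW R15.  `N σ w v = w - (F(Zf φ σ w v) - eps/P(Zf φ σ w v))/G(σ)`.  With `C2` from `epsP_lip`, `g0` from `Gf_bounds`, take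
`C1 = 2 C2/g0 + 1`, `r = C1 eps`.  `F_expand` (with `w' = v' = 0`): `‖F(Zf) - wG‖ ≤ 2 C r²`; so
`‖N‖ ≤ (2C r² + C2 eps)/g0 ≤ r` for large `M`, Lipschitz constant `(C r + δ)/g0 ≤ 1/4`.  `iter_fix` on `strip (3/M)`
(`3/M ≤ r0`); the fixed point equation is `F(Z) = eps/P(Z)`. -/
theorem exists_sol {h : ℝ} {φ : ℂ → C2} {F : C2 → ℂ} (hS : Stage h φ F) : ∃ C1 M0 : ℝ, 0 < C1 ∧
    1 ≤ M0 ∧ ∀ M : ℝ, M0 ≤ M → Adm φ M → ∃ w : ℂ → ℂ, Sol φ F M C1 w := by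
  have hc := hS.cur
  have hh := hc.h_pos
  obtain ⟨r0, g0, CG, hr0, hr0h, hg0, hG⟩ := Gf_bounds hS
  obtain ⟨CF, hCF, hF⟩ := F_expand hS
  obtain ⟨K2, hK2, hP⟩ := epsP_lip hc
  set C1 : ℝ := 2 * K2 / g0 + 1 with hC1
  have hC1p : 0 < C1 := by positivity
  obtain ⟨M1, hM1, hP⟩ := hP C1 hC1p (g0 / 8) (by positivity)
  obtain ⟨M2, hM2, hE⟩ := eps_small (min (min (1 / (8 * C1)) (g0 / (8 * CF * C1))) (r0 / 3))
    (by positivity)
  refine ⟨C1, max M1 M2, hC1p, hM1.trans (le_max_left _ _), fun M hM hA => ?_⟩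
  have hMM1 : M1 ≤ M := (le_max_left _ _).trans hM
  have hMM2 : M2 ≤ M := (le_max_right _ _).trans hM
  have hM0 : 0 < M := by linarith
  obtain ⟨he0, he1, -, -, he2⟩ := hE M hMM2
  have hP := hP M hMM1 hA
  set e : ℝ := eps M with he
  have hea : e ≤ 1 / (8 * C1) := he1.trans ((min_le_left _ _).trans (min_le_left _ _))
  have heb : e ≤ g0 / (8 * CF * C1) := he1.trans ((min_le_left _ _).trans (min_le_right _ _))
  have hec : 1 / M ≤ r0 / 3 := he2.trans (min_le_right _ _)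
  have h3M : 3 / M ≤ r0 := by
    have : 3 / M = 3 * (1 / M) := by ring
    rw [this]; linarith
  set r : ℝ := C1 * e with hr
  have hrp : 0 < r := by positivity
  have hr8 : r ≤ 1 / 8 := by
    rw [le_div_iff₀ (by positivity)] at hea
    rw [hr]; linarith
  have hrG : 8 * CF * r ≤ g0 := by
    rw [le_div_iff₀ (by positivity)] at heb
    rw [hr]; linarith
  have hK2r : K2 * e / g0 ≤ r / 2 := by
    have : r / 2 = K2 * e / g0 + e / 2 := by rw [hr, hC1]; field_simp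
    rw [this]; linarith
  have hHh : 3 / M ≤ h := by linarith
  have him : ∀ σ ∈ strip (3 / M), |σ.im| ≤ h / 2 := fun σ hσ => by
    have : |σ.im| < 3 / M := hσ
    linarith
  have hGs : ∀ σ ∈ strip (3 / M), g0 ≤ ‖Gf φ F σ‖ := fun σ hσ => by
    have h1 : |σ.im| < 3 / M := hσ
    exact (hG σ (by linarith)).1
  have hG0 : ∀ σ ∈ strip (3 / M), Gf φ F σ ≠ 0 := fun σ hσ h0 => by
    have := hGs σ hσ
    rw [h0, norm_zero] at this
    linarith
  let N : ℂ → ℂ → ℂ → ℂ := fun σ w v =>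
    w - (F (Zf φ σ w v) - (e : ℂ) / Pk φ M (Zf φ σ w v)) / Gf φ F σ
  have hN : ∀ σ ∈ strip (3 / M), ∀ w v : ℂ, N σ w v =
      -((F (Zf φ σ w v) - w * Gf φ F σ) - (e : ℂ) / Pk φ M (Zf φ σ w v)) / Gf φ F σ := by
    intro σ hσ w v
    have := hG0 σ hσ
    simp only [N]
    field_simp
    ring
  have hmap : ∀ σ ∈ strip (3 / M), ∀ w v : ℂ, ‖w‖ ≤ r → ‖v‖ ≤ r → ‖N σ w v‖ ≤ r := by
    intro σ hσ w v hw hv
    have h0 := hF σ r w v 0 0 (him σ hσ) hrp hr8 hw hv (by simpa using hrp.le)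
      (by simpa using hrp.le)
    have hz : F (Zf φ σ 0 0) = 0 := by
      rw [R15_Zf_zero]
      exact hS.zero σ (lt_of_lt_of_le (α := ℝ) hσ hHh)
    rw [hz, zero_mul, sub_zero, sub_zero, sub_zero, sub_zero] at h0
    have h1 := (hP σ w v 0 0 hσ hw hv (by simpa using hrp.le) (by simpa using hrp.le)).2.1
    rw [hN σ hσ, norm_div, norm_neg]
    have h2 : ‖(F (Zf φ σ w v) - w * Gf φ F σ) - (e : ℂ) / Pk φ M (Zf φ σ w v)‖
        ≤ CF * r * (r + r) + K2 * e := by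
      refine (norm_sub_le _ _).trans (add_le_add (h0.trans ?_) h1)
      gcongr
    have h3 : CF * r * (r + r) + K2 * e ≤ r * g0 := by
      have h4 : K2 * e ≤ r / 2 * g0 := by
        rwa [div_le_iff₀ hg0] at hK2r
      nlinarith [mul_le_mul_of_nonneg_right hrG hrp.le]
    rw [div_le_iff₀ (lt_of_lt_of_le hg0 (hGs σ hσ))]
    calc _ ≤ CF * r * (r + r) + K2 * e := h2
      _ ≤ r * g0 := h3
      _ ≤ r * ‖Gf φ F σ‖ := by
        have := hGs σ hσ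
        gcongr
  have hlip : ∀ σ ∈ strip (3 / M), ∀ w v w' v' : ℂ, ‖w‖ ≤ r → ‖v‖ ≤ r → ‖w'‖ ≤ r → ‖v'‖ ≤ r →
      ‖N σ w v - N σ w' v'‖ ≤ (1 / 4) * (‖w - w'‖ + ‖v - v'‖) := by
    intro σ hσ w v w' v' hw hv hw' hv'
    have h0 := hF σ r w v w' v' (him σ hσ) hrp hr8 hw hv hw' hv'
    have h1 := (hP σ w v w' v' hσ hw hv hw' hv').2.2
    have h2 := hGs σ hσ
    have h2' : 0 < ‖Gf φ F σ‖ := lt_of_lt_of_le hg0 h2
    rw [hN σ hσ, hN σ hσ, ← sub_div, norm_div, div_le_iff₀ h2']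
    have e1 : -((F (Zf φ σ w v) - w * Gf φ F σ) - (e : ℂ) / Pk φ M (Zf φ σ w v)) -
        -((F (Zf φ σ w' v') - w' * Gf φ F σ) - (e : ℂ) / Pk φ M (Zf φ σ w' v')) =
        -(((F (Zf φ σ w v) - w * Gf φ F σ) - (F (Zf φ σ w' v') - w' * Gf φ F σ)) -
          ((e : ℂ) / Pk φ M (Zf φ σ w v) - (e : ℂ) / Pk φ M (Zf φ σ w' v'))) := by ring
    rw [e1, norm_neg]
    set D : ℝ := ‖w - w'‖ + ‖v - v'‖ with hD
    have hD0 : 0 ≤ D := by positivity
    calc _ ≤ CF * r * D + g0 / 8 * D := (norm_sub_le _ _).trans (add_le_add h0 h1)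
      _ ≤ 1 / 4 * D * g0 := by nlinarith [mul_le_mul_of_nonneg_right hrG hD0]
      _ ≤ 1 / 4 * D * ‖Gf φ F σ‖ := by gcongr
  have hholo : ∀ w v : ℂ → ℂ, DifferentiableOn ℂ w (strip (3 / M)) → DifferentiableOn ℂ v (strip (3 / M)) →
      (∀ σ ∈ strip (3 / M), ‖w σ‖ ≤ r) → (∀ σ ∈ strip (3 / M), ‖v σ‖ ≤ r) →
      DifferentiableOn ℂ (fun σ => N σ (w σ) (v σ)) (strip (3 / M)) := by
    intro w v hw hv hwb hvb
    have hsub : strip (3 / M) ⊆ strip h := fun σ hσ => lt_of_lt_of_le (α := ℝ) hσ hHh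
    have hwv : ∀ σ ∈ strip (3 / M), ‖w σ * v σ‖ < 1 := by
      intro σ hσ
      rw [norm_mul]
      have h1 := (hwb σ hσ).trans hr8
      have h2 := (hvb σ hσ).trans hr8
      calc ‖w σ‖ * ‖v σ‖ ≤ 1 / 8 * (1 / 8) := by gcongr
        _ < 1 := by norm_num
    have hZ := R15_Zf_holo hc hHh hw hv hwv
    have h1 : DifferentiableOn ℂ (fun σ => F (Zf φ σ (w σ) (v σ))) (strip (3 / M)) :=
      hS.ent.comp_differentiableOn hZ
    have h2 : DifferentiableOn ℂ (fun σ => Pk φ M (Zf φ σ (w σ) (v σ))) (strip (3 / M)) :=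
      (Pk_entire hc M).comp_differentiableOn hZ
    have h3 : DifferentiableOn ℂ (Gf φ F) (strip (3 / M)) := (Gf_holo hS).mono hsub
    exact hw.sub ((h1.sub ((differentiableOn_const (e : ℂ)).div h2 (fun σ hσ =>
      (hP σ (w σ) (v σ) 0 0 hσ (hwb σ hσ) (hvb σ hσ) (by simpa using hrp.le)
        (by simpa using hrp.le)).1))).div h3 hG0)
  have hper : ∀ σ w v : ℂ, N (σ + 2 * Real.pi) w v = N σ w v := by
    intro σ w v
    simp only [N, Zf]
    rw [hc.per, nv_per hc, Gf_per hS]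
  obtain ⟨w, hw1, hw2, hw3, hw4⟩ := iter_fix (3 / M) r hrp N hmap hlip hholo hper
  refine ⟨w, hw1, hw2, hw3, ?_⟩
  intro σ hσ
  have h1 := hw4 σ hσ
  have h2 := hG0 σ hσ
  have hP0 := (hP σ (w σ) (rf w σ) 0 0 hσ (hw3 σ hσ)
    (by rw [R15_norm_rf]; exact hw3 _ (conj_mem_strip hσ)) (by simpa using hrp.le)
    (by simpa using hrp.le)).1
  simp only [N] at h1
  have h3 : (F (Zf φ σ (w σ) (rf w σ)) - (e : ℂ) / Pk φ M (Zf φ σ (w σ) (rf w σ))) /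
      Gf φ F σ = 0 := by
    linear_combination -h1
  rw [div_eq_zero_iff, or_iff_left h2, sub_eq_zero] at h3
  unfold ncur
  rw [h3, mul_div_cancel₀ _ hP0]

end MP18cae5
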