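import Pool.Agent.Lib.MP_18cae5_an.R02b

/-! Row R16: derivative of the solution w. -/

set_option autoImplicit false

namespace MP18cae5

open Complex MeasureTheory Set Filter Topology

theorem R16_strip {M : ℝ} (hM : 0 < M) {σ : ℂ} (hσ : |σ.im| ≤ 2 / M) : σ ∈ strip (3 / M) := by
  show |σ.im| < 3 / M
  have h1 : 2 / M < 3 / M := div_lt_div_of_pos_right (by norm_num) hM
  linarith

/-- ROW R16.  Cauchy estimate on discs of radius `1/(2M)`. -/
theorem sol_deriv {φ : ℂ → C2} {F : C2 → ℂ} {M C1 : ℝ} {w : ℂ → ℂ} (hM : 0 < M) (hC1 : 0 < C1)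
    (hw : Sol φ F M C1 w) (σ : ℂ) (hσ : |σ.im| ≤ 2 / M) : ‖deriv w σ‖ ≤ 2 * C1 * eps M * M := by
  have hr : 0 < 1 / (2 * M) := by positivity
  have hsub : Metric.closedBall σ (1 / (2 * M)) ⊆ strip (3 / M) := by
    intro τ hτ
    rw [Metric.mem_closedBall, dist_eq_norm] at hτ
    show |τ.im| < 3 / M
    have h1 : |(τ - σ).im| ≤ 1 / (2 * M) := (abs_im_le_norm _).trans hτ
    rw [sub_im] at h1
    have h2 : 2 / M + 1 / (2 * M) < 3 / M := by
      have e1 : 2 / M + 1 / (2 * M) = (5 / 2) / M := by field_simp; norm_num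
      rw [e1]
      exact div_lt_div_of_pos_right (by norm_num) hM
    have h3 := abs_add_le (τ.im - σ.im) σ.im
    rw [sub_add_cancel] at h3
    linarith
  have h4 : ‖deriv w σ‖ ≤ C1 * eps M / (1 / (2 * M)) := by
    refine Complex.norm_deriv_le_of_forall_mem_sphere_norm_le hr ?_ ?_
    · refine DifferentiableOn.diffContOnCl ?_
      exact hw.holo.mono (Metric.closure_ball_subset_closedBall.trans hsub)
    · intro z hz
      exact hw.bd z (hsub (Metric.sphere_subset_closedBall hz))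
  refine h4.trans (le_of_eq ?_)
  field_simp

/-- ROW R16.  `‖w(σ) - w(conj σ)‖ ≤ 4 C1 eps M |Im σ|` (vertical segment). -/
theorem sol_vert {φ : ℂ → C2} {F : C2 → ℂ} {M C1 : ℝ} {w : ℂ → ℂ} (hM : 0 < M) (hC1 : 0 < C1)
    (hw : Sol φ F M C1 w) (σ : ℂ) (hσ : |σ.im| ≤ 2 / M) :
    ‖w σ - w (starRingEnd ℂ σ)‖ ≤ 4 * C1 * eps M * M * |σ.im| := by
  have hconv : Convex ℝ {τ : ℂ | |τ.im| ≤ 2 / M} := by
    have e : {τ : ℂ | |τ.im| ≤ 2 / M} = {τ : ℂ | τ.im ≤ 2 / M} ∩ {τ : ℂ | -(2 / M) ≤ τ.im} := by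
      ext τ
      rw [mem_inter_iff, mem_ofPred_eq, mem_ofPred_eq, mem_ofPred_eq, abs_le]
      exact and_comm
    rw [e]
    exact (convex_halfSpace_im_le _).inter (convex_halfSpace_im_ge _)
  have hmem : starRingEnd ℂ σ ∈ {τ : ℂ | |τ.im| ≤ 2 / M} := by
    show |(starRingEnd ℂ σ).im| ≤ 2 / M
    rw [conj_im, abs_neg]
    exact hσ
  have h1 := hconv.norm_image_sub_le_of_norm_deriv_le (f := w) (C := 2 * C1 * eps M * M)
    (fun τ hτ => hw.holo.differentiableAt ((isOpen_strip _).mem_nhds (R16_strip hM hτ)))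
    (fun τ hτ => sol_deriv hM hC1 hw τ hτ) hmem (show σ ∈ {τ : ℂ | |τ.im| ≤ 2 / M} from hσ)
  refine h1.trans (le_of_eq ?_)
  have h2 : σ - starRingEnd ℂ σ = ((2 * σ.im : ℝ) : ℂ) * I := by
    apply Complex.ext
    · simp
    · simp; ring
  rw [h2, norm_mul, norm_I, mul_one, norm_real, Real.norm_eq_abs, abs_mul, abs_two]
  ring

end MP18cae5
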