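import Pool.Agent.Lib.MP_18cae5_an.R16

/-! Row R16b: first properties of the new curve. -/

set_option autoImplicit false

namespace MP18cae5

open Complex MeasureTheory Set Filter Topology

/-- thresholds -/
private lemma R16b_M0 {h : ℝ} (hh : 0 < h) (C1 : ℝ) (hC1 : 0 < C1) :
    ∃ M0 : ℝ, 1 ≤ M0 ∧ ∀ M : ℝ, M0 ≤ M →
      0 < M ∧ 3 / M ≤ h ∧ 2 / M ≤ h / 2 ∧ C1 * eps M ≤ 1 / 2 ∧ 0 < eps M ∧ eps M ≤ 1 := by
  obtain ⟨M0, hM0, hM⟩ := eps_small (min (h / 4) (min (1 / (2 * C1)) 1)) (by positivity)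
  refine ⟨M0, hM0, fun M hMM => ?_⟩
  obtain ⟨h1, h2, _, _, h5⟩ := hM M hMM
  have hMpos : 0 < M := lt_of_lt_of_le one_pos (hM0.trans hMM)
  have h6 : 1 / M ≤ h / 4 := h5.trans (min_le_left _ _)
  have h7 : eps M ≤ 1 / (2 * C1) := h2.trans ((min_le_right _ _).trans (min_le_left _ _))
  have h8 : eps M ≤ 1 := h2.trans ((min_le_right _ _).trans (min_le_right _ _))
  refine ⟨hMpos, ?_, ?_, ?_, h1, h8⟩
  · have : 3 / M = 3 * (1 / M) := by ring
    rw [this]; linarith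
  · have : 2 / M = 2 * (1 / M) := by ring
    rw [this]; linarith
  · have := mul_le_mul_of_nonneg_left h7 hC1.le
    refine this.trans (le_of_eq ?_)
    field_simp

private lemma R16b_rf_bd {φ : ℂ → C2} {F : C2 → ℂ} {M C1 : ℝ} {w : ℂ → ℂ} (hw : Sol φ F M C1 w)
    {σ : ℂ} (hσ : σ ∈ strip (3 / M)) : ‖rf w σ‖ ≤ C1 * eps M := by
  have h1 := hw.bd _ (conj_mem_strip hσ)
  unfold rf
  rwa [Complex.norm_conj]

private lemma R16b_u_bd {φ : ℂ → C2} {F : C2 → ℂ} {M C1 : ℝ} {w : ℂ → ℂ} (hw : Sol φ F M C1 w)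
    {σ : ℂ} (hσ : σ ∈ strip (3 / M)) : ‖w σ * rf w σ‖ ≤ (C1 * eps M) * (C1 * eps M) := by
  rw [norm_mul]
  exact mul_le_mul (hw.bd _ hσ) (R16b_rf_bd hw hσ) (norm_nonneg _)
    ((norm_nonneg _).trans (hw.bd _ hσ))

private lemma R16b_conj_2pi (σ : ℂ) :
    starRingEnd ℂ (σ + 2 * Real.pi) = starRingEnd ℂ σ + 2 * Real.pi := by
  rw [map_add, map_mul, Complex.conj_ofReal]
  have h3 : (starRingEnd ℂ) (2 : ℂ) = 2 := by
    rw [← Complex.ofReal_ofNat, Complex.conj_ofReal]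
  rw [h3]

/-- ROW R16b.  For `M` large the new curve is holomorphic on `strip (3/M)`, periodic and lies on the sphere for real `t`
(`nsq (φ t + w n t) = 1 + |w|²`, `qs_ofReal`). -/
theorem ncur_basic {h : ℝ} {φ : ℂ → C2} {F : C2 → ℂ} (hS : Stage h φ F) (C1 : ℝ) (hC1 : 0 < C1) :
    ∃ M0 : ℝ, 1 ≤ M0 ∧ ∀ M : ℝ, M0 ≤ M → ∀ w : ℂ → ℂ, Sol φ F M C1 w →
      DifferentiableOn ℂ (ncur φ w) (strip (3 / M)) ∧
      (∀ σ : ℂ, ncur φ w (σ + 2 * Real.pi) = ncur φ w σ) ∧ (∀ t : ℝ, nsq (ncur φ w t) = 1) := by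
  obtain ⟨M0, hM0, hM⟩ := R16b_M0 hS.cur.h_pos C1 hC1
  refine ⟨M0, hM0, fun M hMM w hw => ⟨?_, ?_, ?_⟩⟩
  · obtain ⟨h1, h2, h3, h4, h5, h6⟩ := hM M hMM
    have hsub : strip (3 / M) ⊆ strip h := fun σ hσ => lt_of_lt_of_le hσ h2
    have hφ : DifferentiableOn ℂ φ (strip (3 / M)) := hS.cur.holo.mono hsub
    have hn : DifferentiableOn ℂ (nv φ) (strip (3 / M)) := (nv_holo hS.cur).mono hsub
    have hr : DifferentiableOn ℂ (rf w) (strip (3 / M)) := rf_holo hw.holo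
    have hq : DifferentiableOn ℂ (fun σ => qs (w σ * rf w σ)) (strip (3 / M)) := by
      intro σ hσ
      have hu : ‖w σ * rf w σ‖ < 1 := by
        have h7 := R16b_u_bd hw hσ
        have h8 : 0 ≤ C1 * eps M := by positivity
        nlinarith
      have hg : DifferentiableWithinAt ℂ (fun σ => w σ * rf w σ) (strip (3 / M)) σ :=
        (hw.holo σ hσ).mul (hr σ hσ)
      have hf : DifferentiableAt ℂ qs ((fun σ => w σ * rf w σ) σ) := differentiableAt_qs hu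
      have := DifferentiableAt.comp_differentiableWithinAt (g := qs)
        (f := fun σ => w σ * rf w σ) σ hf hg
      exact this
    exact hq.smul (hφ.add (hw.holo.smul hn))
  · intro σ
    have h1 : rf w (σ + 2 * Real.pi) = rf w σ := by
      unfold rf
      rw [R16b_conj_2pi, hw.per]
    unfold ncur Zf
    rw [h1, hw.per, hS.cur.per, nv_per hS.cur]
  · intro t
    have h1 : w t * rf w t = ((normSq (w t) : ℝ) : ℂ) := by
      rw [rf_ofReal, mul_conj]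
    unfold ncur Zf
    rw [h1, qs_ofReal (normSq_nonneg _), nsq_smul, nsq_add, hS.cur.unit, nsq_smul,
      nsq_nv hS.cur, cj_smul, dot_smul_right]
    have h2 : dot (φ t) (cj (nv φ t)) = 0 := by
      have h3 := congrArg (starRingEnd ℂ) (dot_nv_cj φ t)
      rw [cj_dot, cj_cj, map_zero, dot_comm] at h3
      exact h3
    rw [h2, mul_zero, zero_re, Complex.norm_real, Real.norm_of_nonneg (by positivity),
      div_pow, Real.sq_sqrt (by linarith [normSq_nonneg (w t)]), normSq_eq_norm_sq]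
    have h4 : (0 : ℝ) < 1 + ‖w t‖ ^ 2 := by positivity
    field_simp
    ring

/-- ROW R16b.  The new curve is close to the old one. -/
theorem ncur_close {h : ℝ} {φ : ℂ → C2} {F : C2 → ℂ} (hS : Stage h φ F) (C1 : ℝ) (hC1 : 0 < C1) :
    ∃ C M0 : ℝ, 0 < C ∧ 1 ≤ M0 ∧ ∀ M : ℝ, M0 ≤ M → ∀ w : ℂ → ℂ, Sol φ F M C1 w →
      ∀ t y : ℝ, |y| ≤ 2 / M →
        nsq (ncur φ w ((t : ℂ) + (y : ℂ) * I) - φ t) ≤ C * (eps M + 1 / M) ^ 2 ∧
        nsq (ncur φ w ((t : ℂ) + (y : ℂ) * I) - φ ((t : ℂ) + (y : ℂ) * I)) ≤ C * eps M ^ 2 := by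
  obtain ⟨M0, hM0, hM⟩ := R16b_M0 hS.cur.h_pos C1 hC1
  obtain ⟨Cb, κ0, hCb, _, hb, _⟩ := cur_bounds hS.cur
  obtain ⟨CL, hCL, hlip⟩ := cur_lip hS.cur
  set C2' : ℝ := 2 * C1 ^ 2 * Cb + 2 * C1 * Cb with hC2
  have hC2pos : 0 < C2' := by positivity
  set C3 : ℝ := C2' + 2 * CL with hC3
  have hC3pos : 0 < C3 := by positivity
  refine ⟨2 * C3 ^ 2, M0, by positivity, hM0, fun M hMM w hw t y hy => ?_⟩
  obtain ⟨h1, h2, h3, h4, h5, h6⟩ := hM M hMM
  set σ : ℂ := (t : ℂ) + (y : ℂ) * I with hσdef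
  have him : σ.im = y := by simp [hσdef]
  have hσ : σ ∈ strip (3 / M) := by
    have : |σ.im| < 3 / M := by
      rw [him]
      refine lt_of_le_of_lt hy ?_
      exact div_lt_div_of_pos_right (by norm_num) h1
    exact this
  have hσ2 : |σ.im| ≤ h / 2 := by rw [him]; exact hy.trans h3
  have hφ := (hb σ hσ2).1
  have hn : ‖nv φ σ‖ ≤ Cb := (hb σ hσ2).2.2.2.2.1
  have hu := R16b_u_bd hw hσ
  have hC1e : 0 ≤ C1 * eps M := by positivity
  have hu2 : ‖w σ * rf w σ‖ ≤ 1 / 2 := by nlinarith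
  have hq1 := qs_sub_one_le hu2
  have hq2 : ‖qs (w σ * rf w σ)‖ ≤ 2 := by
    have e : qs (w σ * rf w σ) = (qs (w σ * rf w σ) - 1) + 1 := by ring
    rw [e]
    refine (norm_add_le _ _).trans ?_
    rw [norm_one]
    linarith
  have hA : ‖ncur φ w σ - φ σ‖ ≤ C2' * eps M := by
    have e : ncur φ w σ - φ σ = (qs (w σ * rf w σ) - 1) • φ σ +
        qs (w σ * rf w σ) • (w σ • nv φ σ) := by
      unfold ncur Zf
      rw [smul_add, sub_smul, one_smul]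
      abel
    rw [e]
    refine (norm_add_le _ _).trans ?_
    rw [norm_smul, norm_smul, norm_smul]
    have i1 : ‖qs (w σ * rf w σ) - 1‖ * ‖φ σ‖ ≤ (2 * ((C1 * eps M) * (C1 * eps M))) * Cb :=
      mul_le_mul (hq1.trans (by linarith)) hφ (norm_nonneg _) (by positivity)
    have i2 : ‖qs (w σ * rf w σ)‖ * (‖w σ‖ * ‖nv φ σ‖) ≤ 2 * ((C1 * eps M) * Cb) :=
      mul_le_mul hq2 (mul_le_mul (hw.bd _ hσ) hn (norm_nonneg _) hC1e)
        (by positivity) (by norm_num)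
    have i3 : (2 * ((C1 * eps M) * (C1 * eps M))) * Cb ≤ 2 * C1 ^ 2 * Cb * eps M := by
      have : (2 * ((C1 * eps M) * (C1 * eps M))) * Cb = 2 * C1 ^ 2 * Cb * eps M * eps M := by ring
      rw [this]
      have i4 : 0 ≤ 2 * C1 ^ 2 * Cb * eps M := by positivity
      nlinarith
    have i5 : C2' * eps M = 2 * C1 ^ 2 * Cb * eps M + 2 * ((C1 * eps M) * Cb) := by
      rw [hC2]; ring
    rw [i5]
    linarith
  have hC23 : C2' ≤ C3 := by rw [hC3]; linarith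
  constructor
  · have hB : ‖φ σ - φ t‖ ≤ CL * (2 / M) := by
      have h7 : |((t : ℂ)).im| ≤ h / 2 := by
        rw [ofReal_im, abs_zero]; linarith [hS.cur.h_pos]
      have h8 := (hlip σ t hσ2 h7).1
      have h9 : ‖σ - t‖ = |y| := by
        rw [hσdef, add_sub_cancel_left, norm_mul, Complex.norm_I, mul_one, Complex.norm_real,
          Real.norm_eq_abs]
      rw [h9] at h8
      exact h8.trans (mul_le_mul_of_nonneg_left hy (by linarith))
    have hD : ‖ncur φ w σ - φ t‖ ≤ C3 * (eps M + 1 / M) := by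
      have e : ncur φ w σ - φ t = (ncur φ w σ - φ σ) + (φ σ - φ t) := by abel
      rw [e]
      refine (norm_add_le _ _).trans ?_
      have i1 : CL * (2 / M) = 2 * CL * (1 / M) := by ring
      have i2 : 0 < 1 / M := by positivity
      rw [i1] at hB
      rw [hC3]
      nlinarith [mul_nonneg hC2pos.le i2.le, mul_nonneg (by linarith : (0:ℝ) ≤ 2 * CL) h5.le]
    refine (nsq_le_norm_sq _).trans ?_
    have i3 : ‖ncur φ w σ - φ t‖ ^ 2 ≤ (C3 * (eps M + 1 / M)) ^ 2 :=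
      pow_le_pow_left₀ (norm_nonneg _) hD 2
    calc 2 * ‖ncur φ w σ - φ t‖ ^ 2 ≤ 2 * (C3 * (eps M + 1 / M)) ^ 2 := by linarith
      _ = 2 * C3 ^ 2 * (eps M + 1 / M) ^ 2 := by ring
  · refine (nsq_le_norm_sq _).trans ?_
    have i1 : ‖ncur φ w σ - φ σ‖ ≤ C3 * eps M :=
      hA.trans (mul_le_mul_of_nonneg_right hC23 h5.le)
    have i3 : ‖ncur φ w σ - φ σ‖ ^ 2 ≤ (C3 * eps M) ^ 2 :=
      pow_le_pow_left₀ (norm_nonneg _) i1 2
    calc 2 * ‖ncur φ w σ - φ σ‖ ^ 2 ≤ 2 * (C3 * eps M) ^ 2 := by linarith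
      _ = 2 * C3 ^ 2 * eps M ^ 2 := by ring

end MP18cae5
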