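import Pool.Agent.Lib.MP_18cae5_an.R16b

/-! Row R17: heights. -/

set_option autoImplicit false

namespace MP18cae5

open Complex MeasureTheory Set Filter Topology

theorem R17_dist (t y : ℝ) (hy : 0 ≤ y) : ‖((t : ℂ) + (y : ℂ) * I) - (t : ℂ)‖ = y := by
  rw [add_sub_cancel_left, norm_mul, norm_I, mul_one, norm_real, Real.norm_of_nonneg hy]

theorem R17_im (t y : ℝ) : ((t : ℂ) + (y : ℂ) * I).im = y := by simp

/-- first order expansion on the vertical line -/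
theorem R17_taylor {h : ℝ} {φ : ℂ → C2} (hc : Cur h φ) {C1 : ℝ} (hC1 : 0 ≤ C1)
    (hlip : ∀ σ τ : ℂ, |σ.im| ≤ h / 2 → |τ.im| ≤ h / 2 → ‖deriv φ σ - deriv φ τ‖ ≤ C1 * ‖σ - τ‖)
    (t y : ℝ) (hy : 0 ≤ y) (hyh : y ≤ h / 2) :
    ‖φ ((t : ℂ) + (y : ℂ) * I) - φ t - ((y : ℂ) * I) • deriv φ t‖ ≤ C1 * y ^ 2 := by
  have hh := hc.h_pos
  have hin : ∀ σ ∈ Metric.closedBall (t : ℂ) y, |σ.im| ≤ h / 2 := by
    intro σ hσ
    rw [mem_closedBall_iff_norm] at hσ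
    have h1 := abs_im_le_norm (σ - t)
    rw [sub_im, ofReal_im, sub_zero] at h1
    linarith
  have key := (convex_closedBall (t : ℂ) y).norm_image_sub_le_of_norm_hasDerivWithin_le (𝕜 := ℂ)
    (f := fun σ : ℂ => φ σ - σ • deriv φ t) (f' := fun σ : ℂ => deriv φ σ - (1 : ℂ) • deriv φ t)
    (C := C1 * y) (x := (t : ℂ)) (y := (t : ℂ) + (y : ℂ) * I) ?_ ?_ ?_ ?_
  · rw [R17_dist t y hy] at key
    have e : φ ((t : ℂ) + (y : ℂ) * I) - φ t - ((y : ℂ) * I) • deriv φ t =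
        (φ ((t : ℂ) + (y : ℂ) * I) - ((t : ℂ) + (y : ℂ) * I) • deriv φ t) -
          (φ t - (t : ℂ) • deriv φ t) := by
      rw [add_smul]
      abel
    rw [e]
    refine key.trans (le_of_eq ?_)
    ring
  · intro σ hσ
    have hσ' : σ ∈ strip h := by
      have := hin σ hσ
      show |σ.im| < h
      linarith
    have h1 : HasDerivAt φ (deriv φ σ) σ :=
      ((hc.holo σ hσ').differentiableAt ((isOpen_strip h).mem_nhds hσ')).hasDerivAt
    exact (h1.sub ((hasDerivAt_id σ).smul_const (deriv φ t))).hasDerivWithinAt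
  · intro σ hσ
    have hσ' := hσ
    rw [mem_closedBall_iff_norm] at hσ'
    show ‖deriv φ σ - (1 : ℂ) • deriv φ t‖ ≤ C1 * y
    rw [one_smul]
    refine (hlip σ t (hin σ hσ) (by rw [ofReal_im, abs_zero]; linarith)).trans ?_
    exact mul_le_mul_of_nonneg_left hσ' hC1
  · exact Metric.mem_closedBall_self hy
  · rw [mem_closedBall_iff_norm, R17_dist t y hy]

theorem R17_nsq_add_le (a b : C2) : nsq (a + b) ≤ nsq a + 4 * ‖a‖ * ‖b‖ + 2 * ‖b‖ ^ 2 := by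
  rw [nsq_add]
  have h1 : (dot a (cj b)).re ≤ 2 * ‖a‖ * ‖b‖ := by
    refine (re_le_norm _).trans ?_
    have := norm_dot_le a (cj b)
    rwa [norm_cj] at this
  have h2 := nsq_le_norm_sq b
  linarith

theorem nsq_height {h : ℝ} {φ : ℂ → C2} (hc : Cur h φ) : ∃ C y0 : ℝ, 0 < C ∧ 0 < y0 ∧ y0 ≤ h / 2 ∧
    ∀ t y : ℝ, 0 ≤ y → y ≤ y0 →
      nsq (φ ((t : ℂ) + (y : ℂ) * I)) ≤ 1 - 2 * kap φ t * y + C * y ^ 2 ∧
      ‖dot (nv φ ((t : ℂ) + (y : ℂ) * I)) (cj (φ ((t : ℂ) + (y : ℂ) * I)))‖ ≤ C * y ∧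
      nsq (nv φ ((t : ℂ) + (y : ℂ) * I)) ≤ 1 + C * y := by
  obtain ⟨C, κ0, hC, -, hb, -⟩ := cur_bounds hc
  obtain ⟨C1, hC1, hl⟩ := cur_lip hc
  have hh := hc.h_pos
  obtain ⟨K, hK⟩ : ∃ K : ℝ, K = 2 * C ^ 2 + 8 * C * C1 + 2 * C1 ^ 2 := ⟨_, rfl⟩
  have hC0 : 0 < C := by linarith
  have hC10 : 0 < C1 := by linarith
  have hCC : 0 < C * C1 := mul_pos hC0 hC10
  refine ⟨K, min (h / 2) 1, by rw [hK]; positivity, lt_min (by linarith) one_pos,
    min_le_left _ _, fun t y hy hy0 => ?_⟩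
  have hyh : y ≤ h / 2 := hy0.trans (min_le_left _ _)
  have hy1 : y ≤ 1 := hy0.trans (min_le_right _ _)
  have hσ : |((t : ℂ) + (y : ℂ) * I).im| ≤ h / 2 := by
    rw [R17_im, abs_of_nonneg hy]
    exact hyh
  have hτ : |((t : ℂ)).im| ≤ h / 2 := by
    rw [ofReal_im, abs_zero]
    linarith
  obtain ⟨b1, b2, -, -, b5, -⟩ := hb (t : ℂ) hτ
  obtain ⟨c1, -, -, -, c5, -⟩ := hb _ hσ
  obtain ⟨l1, l2, -⟩ := hl _ _ hσ hτ
  rw [R17_dist t y hy] at l1 l2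
  have hy2 : y ^ 2 ≤ y := by nlinarith
  refine ⟨?_, ?_, ?_⟩
  · have hR := R17_taylor hc hC10.le (fun σ τ h1 h2 => (hl σ τ h1 h2).2.2) t y hy hyh
    obtain ⟨R, hRdef⟩ : ∃ R : C2, R = φ ((t : ℂ) + (y : ℂ) * I) - φ t - ((y : ℂ) * I) • deriv φ t :=
      ⟨_, rfl⟩
    rw [← hRdef] at hR
    have e : φ ((t : ℂ) + (y : ℂ) * I) = (φ t + ((y : ℂ) * I) • deriv φ t) + R := by
      rw [hRdef]
      abel
    have h1 : nsq (φ t + ((y : ℂ) * I) • deriv φ t) = 1 - 2 * kap φ t * y + y ^ 2 * nsq (deriv φ t) := by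
      have h2 : (dot (φ t) (cj (((y : ℂ) * I) • deriv φ t))).re = -(kap φ t * y) := by
        have h3 : dot (φ t) (cj (((y : ℂ) * I) • deriv φ t)) =
            starRingEnd ℂ (dot (((y : ℂ) * I) • deriv φ t) (cj (φ t))) := by
          rw [cj_dot, cj_cj, dot_comm]
        rw [h3, dot_smul_left, dot_deriv_cj hc t, conj_re]
        have h4 : (y : ℂ) * I * ((kap φ t : ℂ) * I) = ((-(kap φ t * y) : ℝ) : ℂ) := by
          push_cast
          linear_combination (y : ℂ) * (kap φ t : ℂ) * I_mul_I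
        rw [h4, ofReal_re]
      rw [nsq_add, h2, hc.unit t, nsq_smul]
      have h5 : ‖(y : ℂ) * I‖ = y := by
        rw [norm_mul, norm_I, mul_one, norm_real, Real.norm_of_nonneg hy]
      rw [h5]
      ring
    have h6 := nsq_le_norm_sq (deriv φ t)
    have h7 : ‖deriv φ t‖ ^ 2 ≤ C ^ 2 := pow_le_pow_left₀ (norm_nonneg _) b2 2
    have h8 : ‖φ t + ((y : ℂ) * I) • deriv φ t‖ ≤ 2 * C := by
      refine (norm_add_le _ _).trans ?_
      rw [norm_smul]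
      have h5 : ‖(y : ℂ) * I‖ = y := by
        rw [norm_mul, norm_I, mul_one, norm_real, Real.norm_of_nonneg hy]
      rw [h5]
      have := mul_le_mul hy1 b2 (norm_nonneg _) zero_le_one
      linarith
    have h9 := R17_nsq_add_le (φ t + ((y : ℂ) * I) • deriv φ t) R
    rw [e]
    have h10 : 4 * ‖φ t + ((y : ℂ) * I) • deriv φ t‖ * ‖R‖ ≤ 4 * (2 * C) * (C1 * y ^ 2) :=
      mul_le_mul (mul_le_mul_of_nonneg_left h8 (by norm_num)) hR (norm_nonneg _) (by positivity)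
    have h11 : ‖R‖ ^ 2 ≤ (C1 * y ^ 2) ^ 2 := pow_le_pow_left₀ (norm_nonneg _) hR 2
    have h12 : (C1 * y ^ 2) ^ 2 ≤ C1 ^ 2 * y ^ 2 := by
      have : y ^ 2 * y ^ 2 ≤ 1 * y ^ 2 :=
        mul_le_mul_of_nonneg_right (by nlinarith) (sq_nonneg y)
      nlinarith [sq_nonneg C1]
    have h13 : y ^ 2 * nsq (deriv φ t) ≤ y ^ 2 * (2 * C ^ 2) :=
      mul_le_mul_of_nonneg_left (by linarith) (sq_nonneg y)
    rw [hK]
    linarith
  · have h0 := dot_nv_cj φ t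
    obtain ⟨σ, hσd⟩ : ∃ σ : ℂ, σ = (t : ℂ) + (y : ℂ) * I := ⟨_, rfl⟩
    rw [← hσd]
    rw [← hσd] at l1 l2 c1
    have e : dot (nv φ σ) (cj (φ σ)) = dot (nv φ σ - nv φ t) (cj (φ σ)) +
        dot (nv φ t) (cj (φ σ - φ t)) := by
      rw [dot_sub_left, cj_sub, dot_sub_right, h0]
      ring
    rw [e]
    refine (norm_add_le _ _).trans ?_
    have h1 := norm_dot_le (nv φ σ - nv φ t) (cj (φ σ))
    have h2 := norm_dot_le (nv φ t) (cj (φ σ - φ t))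
    rw [norm_cj] at h1 h2
    have h3 : 2 * ‖nv φ σ - nv φ t‖ * ‖φ σ‖ ≤ 2 * (C1 * y) * C :=
      mul_le_mul (mul_le_mul_of_nonneg_left l2 (by norm_num)) c1 (norm_nonneg _) (by positivity)
    have h4 : 2 * ‖nv φ t‖ * ‖φ σ - φ t‖ ≤ 2 * C * (C1 * y) :=
      mul_le_mul (mul_le_mul_of_nonneg_left b5 (by norm_num)) l1 (norm_nonneg _) (by positivity)
    have h5 : 0 ≤ (2 * C ^ 2 + 4 * (C * C1) + 2 * C1 ^ 2) * y := by positivity
    rw [hK]
    linarith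
  · have h9 := R17_nsq_add_le (nv φ t) (nv φ ((t : ℂ) + (y : ℂ) * I) - nv φ t)
    rw [add_sub_cancel, nsq_nv hc t] at h9
    have h10 : 4 * ‖nv φ t‖ * ‖nv φ ((t : ℂ) + (y : ℂ) * I) - nv φ t‖ ≤ 4 * C * (C1 * y) :=
      mul_le_mul (mul_le_mul_of_nonneg_left b5 (by norm_num)) l2 (norm_nonneg _) (by positivity)
    have h11 : ‖nv φ ((t : ℂ) + (y : ℂ) * I) - nv φ t‖ ^ 2 ≤ (C1 * y) ^ 2 :=
      pow_le_pow_left₀ (norm_nonneg _) l2 2
    have h12 : (C1 * y) ^ 2 ≤ C1 ^ 2 * y := by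
      rw [mul_pow]
      exact mul_le_mul_of_nonneg_left hy2 (sq_nonneg _)
    have h5 : 0 ≤ (2 * C ^ 2 + 4 * (C * C1)) * y := by positivity
    rw [hK]
    linarith

/-- If `nsq (ψ(t+iy)) ≤ 1 - c y` for small `y > 0` and `nsq (ψ t) = 1` then `κ(t) ≥ c/2`. -/
theorem kap_of_height {ψ : ℂ → C2} {h c : ℝ} (hh : 0 < h) (hψ : DifferentiableOn ℂ ψ (strip h)) (t : ℝ)
    (hu : nsq (ψ t) = 1) (y0 : ℝ) (hy0 : 0 < y0)
    (hy : ∀ y : ℝ, 0 < y → y ≤ y0 → nsq (ψ ((t : ℂ) + (y : ℂ) * I)) ≤ 1 - c * y) :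
    c / 2 ≤ kap ψ t := by
  have ht : (t : ℂ) ∈ strip h := by
    show |((t : ℂ)).im| < h
    rw [ofReal_im, abs_zero]
    exact hh
  have hd : HasDerivAt ψ (deriv ψ t) (t : ℂ) :=
    ((hψ _ ht).differentiableAt ((isOpen_strip h).mem_nhds ht)).hasDerivAt
  have hslope := hasDerivAt_iff_tendsto_slope_zero.mp hd
  -- the points y I
  have hpath : Tendsto (fun y : ℝ => (y : ℂ) * I) (𝓝[>] 0) (𝓝[≠] 0) := by
    refine tendsto_nhdsWithin_iff.mpr ⟨?_, ?_⟩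
    · have h1 : Continuous fun y : ℝ => (y : ℂ) * I := by fun_prop
      have h2 := h1.tendsto 0
      rw [ofReal_zero, zero_mul] at h2
      exact h2.mono_left nhdsWithin_le_nhds
    · filter_upwards [self_mem_nhdsWithin] with y hy
      have hy' : (0 : ℝ) < y := hy
      simp only [mem_compl_iff, mem_singleton_iff, mul_eq_zero, ofReal_eq_zero, I_ne_zero, or_false]
      exact hy'.ne'
  have h1 := hslope.comp hpath
  have hL : Continuous fun z : C2 => (dot (I • z) (cj (ψ t))).re := by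
    unfold dot
    simp only [Prod.smul_fst, Prod.smul_snd, smul_eq_mul]
    fun_prop
  have h2 := (hL.tendsto (deriv ψ t)).comp h1
  have hval : (dot (I • deriv ψ t) (cj (ψ t))).re = -kap ψ t := by
    rw [dot_smul_left, kap]
    simp
  rw [hval] at h2
  have h3 : -kap ψ t ≤ -(c / 2) := by
    refine le_of_tendsto h2 ?_
    filter_upwards [Ioc_mem_nhdsGT hy0] with y hy'
    have hyp : 0 < y := hy'.1
    have h4 := hy y hyp hy'.2
    simp only [Function.comp_apply]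
    obtain ⟨Δ, hΔ⟩ : ∃ Δ : C2, Δ = ψ ((t : ℂ) + (y : ℂ) * I) - ψ t := ⟨_, rfl⟩
    have e : ψ ((t : ℂ) + (y : ℂ) * I) = ψ t + Δ := by rw [hΔ]; abel
    rw [e, nsq_add, hu] at h4
    rw [← hΔ]
    have h5 := nsq_nonneg Δ
    have h6 : (dot (ψ t) (cj Δ)).re = (dot Δ (cj (ψ t))).re := by
      have h7 : dot (ψ t) (cj Δ) = starRingEnd ℂ (dot Δ (cj (ψ t))) := by
        rw [cj_dot, cj_cj, dot_comm]
      rw [h7, conj_re]
    have h8 : dot (I • ((y : ℂ) * I)⁻¹ • Δ) (cj (ψ t)) = ((y⁻¹ : ℝ) : ℂ) * dot Δ (cj (ψ t)) := by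
      rw [dot_smul_left, dot_smul_left, ← mul_assoc]
      congr 1
      have : (y : ℂ) ≠ 0 := by exact_mod_cast hyp.ne'
      rw [ofReal_inv]
      field_simp [I_ne_zero]
    rw [h8, re_ofReal_mul, ← h6]
    rw [inv_mul_le_iff₀ hyp]
    linarith
  linarith

end MP18cae5
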