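import Pool.Agent.Lib.MP_18cae5_an.R17

/-! Row R17b: the new curve enters the ball. -/

set_option autoImplicit false

namespace MP18cae5

open Complex MeasureTheory Set Filter Topology

/-- ROW R17b.  With `τ = t + iy`, `v = rf w τ`, `a = φ(τ)`, `b = n(τ)`:
`nsq (ncur φ w τ) = ‖qs(wv)‖² (nsq a + 2 Re(w ⟨b,a⟩) + |w|² nsq b)`, `‖qs(wv)‖² = 1/‖1+wv‖`, `‖1+wv‖ ≥ 1 + Re(wv)` and
`|w|² - Re(wv) ≤ |w| |w - conj v| = |w| |w(τ) - w(conj τ)| ≤ C1 eps * 4 C1 eps M y` (`sol_vert`), so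
`nsq (ncur) ≤ 1 - (2κ - C(y + eps + M eps²)) y/‖1+wv‖ ≤ 1 - κ0 y` for `M` large (`nsq_height`). -/
theorem ncur_height {h : ℝ} {φ : ℂ → C2} {F : C2 → ℂ} (hS : Stage h φ F) (C1 : ℝ) (hC1 : 0 < C1) :
    ∃ κ0 M0 : ℝ, 0 < κ0 ∧ 1 ≤ M0 ∧ ∀ M : ℝ, M0 ≤ M → ∀ w : ℂ → ℂ, Sol φ F M C1 w →
      ∀ t y : ℝ, 0 ≤ y → y ≤ 2 / M → nsq (ncur φ w ((t : ℂ) + (y : ℂ) * I)) ≤ 1 - κ0 * y := by
  have hc := hS.cur
  obtain ⟨C, y0, hC, hy0, -, hH⟩ := nsq_height hc
  obtain ⟨C0, κ, _, hκ, _, hk⟩ := cur_bounds hc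
  obtain ⟨M1, hM1, hsm⟩ := eps_small
    (min (y0 / 2) (min (κ / (16 * C1 ^ 2)) (min (κ / (8 * C)) (min (κ / (8 * C * C1))
      (min (κ / (4 * C * C1 ^ 2)) (1 / (2 * C1 ^ 2)))))))
    (by positivity)
  refine ⟨κ / 2, M1, by positivity, hM1, fun M hM w hw t y hy hyM => ?_⟩
  obtain ⟨he, hee, hMe, -, hMi⟩ := hsm M hM
  have hMpos : 0 < M := lt_of_lt_of_le one_pos (hM1.trans hM)
  have hM1' : 1 ≤ M := hM1.trans hM
  have e2M : 2 / M = 2 * (1 / M) := by ring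
  have g0 : y ≤ y0 := by
    have := hMi.trans (min_le_left _ _)
    linarith
  have g1 : M * eps M ^ 2 ≤ κ / (16 * C1 ^ 2) :=
    hMe.trans ((min_le_right _ _).trans (min_le_left _ _))
  have g2 : 1 / M ≤ κ / (8 * C) :=
    hMi.trans ((min_le_right _ _).trans ((min_le_right _ _).trans (min_le_left _ _)))
  have g3 : eps M ≤ κ / (8 * C * C1) :=
    hee.trans ((min_le_right _ _).trans ((min_le_right _ _).trans ((min_le_right _ _).trans
      (min_le_left _ _))))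
  have g4 : M * eps M ^ 2 ≤ κ / (4 * C * C1 ^ 2) :=
    hMe.trans ((min_le_right _ _).trans ((min_le_right _ _).trans ((min_le_right _ _).trans
      ((min_le_right _ _).trans (min_le_left _ _)))))
  have g5 : M * eps M ^ 2 ≤ 1 / (2 * C1 ^ 2) :=
    hMe.trans ((min_le_right _ _).trans ((min_le_right _ _).trans ((min_le_right _ _).trans
      ((min_le_right _ _).trans (min_le_right _ _)))))
  have hee2 : eps M ^ 2 ≤ M * eps M ^ 2 := le_mul_of_one_le_left (by positivity) hM1'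
  rw [le_div_iff₀ (by positivity)] at g1 g2 g3 g4 g5
  set τ : ℂ := (t : ℂ) + (y : ℂ) * I with hτ
  have hτim : τ.im = y := by simp [hτ]
  have hτa : |τ.im| ≤ 2 / M := by rw [hτim, abs_of_nonneg hy]; exact hyM
  have hτs : τ ∈ strip (3 / M) := by
    show |τ.im| < 3 / M
    refine lt_of_le_of_lt hτa ?_
    gcongr
    norm_num
  obtain ⟨h1, h2, h3⟩ := hH t y hy g0
  rw [← hτ] at h1 h2 h3
  set a := φ τ with ha
  set b := nv φ τ with hb
  have hwb : ‖w τ‖ ≤ C1 * eps M := hw.bd τ hτs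
  have hvb : ‖rf w τ‖ ≤ C1 * eps M := by
    rw [rf, RCLike.norm_conj]
    exact hw.bd _ (conj_mem_strip hτs)
  have hw2 : ‖w τ‖ ^ 2 ≤ C1 ^ 2 * eps M ^ 2 := by
    calc ‖w τ‖ ^ 2 ≤ (C1 * eps M) ^ 2 := pow_le_pow_left₀ (norm_nonneg _) hwb 2
      _ = _ := by ring
  have hwv : ‖w τ * rf w τ‖ ≤ C1 ^ 2 * eps M ^ 2 := by
    rw [norm_mul]
    calc ‖w τ‖ * ‖rf w τ‖ ≤ (C1 * eps M) * (C1 * eps M) :=
          mul_le_mul hwb hvb (norm_nonneg _) (by positivity)
      _ = _ := by ring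
  have hwv2 : ‖w τ * rf w τ‖ ≤ 1 / 2 := by
    refine hwv.trans ?_
    have := mul_le_mul_of_nonneg_left hee2 (by positivity : (0 : ℝ) ≤ C1 ^ 2)
    linarith
  -- the denominator
  set D := ‖1 + w τ * rf w τ‖ with hDd
  have hD2 : D ≤ 2 := by
    refine (norm_add_le _ _).trans ?_
    rw [norm_one]
    linarith
  have hD1 : 1 + (w τ * rf w τ).re ≤ D := by
    have := re_le_norm (1 + w τ * rf w τ)
    rwa [add_re, one_re] at this
  have hD0 : 0 < D := norm_pos_iff.2 (one_add_ne_zero (by linarith))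
  -- the difference
  have hdiff : ‖w τ‖ ^ 2 - (w τ * rf w τ).re ≤ 4 * C1 ^ 2 * (M * eps M ^ 2) * y := by
    have e1 : ‖w τ‖ ^ 2 = (w τ * starRingEnd ℂ (w τ)).re := by
      rw [mul_conj, ofReal_re, normSq_eq_norm_sq]
    have e2 : ‖w τ‖ ^ 2 - (w τ * rf w τ).re = (w τ * (starRingEnd ℂ (w τ) - rf w τ)).re := by
      rw [e1, ← sub_re, mul_sub]
    have e3 : ‖starRingEnd ℂ (w τ) - rf w τ‖ = ‖w τ - w (starRingEnd ℂ τ)‖ := by
      rw [rf, ← map_sub, RCLike.norm_conj]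
    have e4 := sol_vert hMpos hC1 hw τ hτa
    rw [hτim, abs_of_nonneg hy] at e4
    rw [e2]
    refine (re_le_norm _).trans ?_
    rw [norm_mul, e3]
    calc ‖w τ‖ * ‖w τ - w (starRingEnd ℂ τ)‖ ≤ C1 * eps M * (4 * C1 * eps M * M * y) :=
          mul_le_mul hwb e4 (norm_nonneg _) (by positivity)
      _ = 4 * C1 ^ 2 * (M * eps M ^ 2) * y := by ring
  -- the numerator
  have hN : nsq (a + w τ • b) ≤ D - κ * y := by
    have e1 : nsq (a + w τ • b) = nsq a + 2 * (dot a (cj (w τ • b))).re + ‖w τ‖ ^ 2 * nsq b := by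
      rw [nsq_add, nsq_smul]
    have e2 : (dot a (cj (w τ • b))).re ≤ C1 * eps M * (C * y) := by
      refine (re_le_norm _).trans ?_
      have : dot a (cj (w τ • b)) = starRingEnd ℂ (w τ * dot b (cj a)) := by
        rw [map_mul, cj_dot, cj_cj, cj_smul, dot_smul_right, dot_comm (cj b)]
      rw [this, RCLike.norm_conj, norm_mul]
      exact mul_le_mul hwb h2 (norm_nonneg _) (by positivity)
    have e3 : ‖w τ‖ ^ 2 * nsq b ≤ ‖w τ‖ ^ 2 + C1 ^ 2 * eps M ^ 2 * (C * y) := by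
      calc ‖w τ‖ ^ 2 * nsq b ≤ ‖w τ‖ ^ 2 * (1 + C * y) :=
            mul_le_mul_of_nonneg_left h3 (by positivity)
        _ = ‖w τ‖ ^ 2 + ‖w τ‖ ^ 2 * (C * y) := by ring
        _ ≤ _ := by
            have := mul_le_mul_of_nonneg_right hw2 (by positivity : (0 : ℝ) ≤ C * y)
            linarith
    have f1 : 4 * C1 ^ 2 * (M * eps M ^ 2) * y ≤ κ / 4 * y := by
      refine mul_le_mul_of_nonneg_right ?_ hy
      linarith
    have f2 : C * y ^ 2 ≤ κ / 4 * y := by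
      have : y * C ≤ κ / 4 := by
        have k1 : y * C ≤ 2 / M * C := mul_le_mul_of_nonneg_right hyM hC.le
        have k2 : 2 / M * C = 1 / M * (8 * C) / 4 := by ring
        linarith
      calc C * y ^ 2 = y * C * y := by ring
        _ ≤ _ := mul_le_mul_of_nonneg_right this hy
    have f3 : 2 * (C1 * eps M * (C * y)) ≤ κ / 4 * y := by
      calc 2 * (C1 * eps M * (C * y)) = eps M * (8 * C * C1) / 4 * y := by ring
        _ ≤ κ / 4 * y := by
          refine mul_le_mul_of_nonneg_right ?_ hy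
          linarith
    have f4 : C1 ^ 2 * eps M ^ 2 * (C * y) ≤ κ / 4 * y := by
      calc C1 ^ 2 * eps M ^ 2 * (C * y) ≤ C1 ^ 2 * (M * eps M ^ 2) * (C * y) := by
            gcongr
        _ = M * eps M ^ 2 * (4 * C * C1 ^ 2) / 4 * y := by ring
        _ ≤ κ / 4 * y := by
          refine mul_le_mul_of_nonneg_right ?_ hy
          linarith
    have f5 : κ * y ≤ kap φ t * y := mul_le_mul_of_nonneg_right (hk t).1 hy
    rw [e1]
    linarith
  have e : ncur φ w τ = qs (w τ * rf w τ) • (a + w τ • b) := rfl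
  rw [e, nsq_smul, norm_qs_sq (by linarith), ← hDd]
  calc 1 / D * nsq (a + w τ • b) ≤ 1 / D * (D - κ * y) :=
        mul_le_mul_of_nonneg_left hN (by positivity)
    _ = 1 - κ * y / D := by field_simp
    _ ≤ 1 - κ * y / 2 := by
        have : κ * y / 2 ≤ κ * y / D := div_le_div_of_nonneg_left (by positivity) hD0 hD2
        linarith
    _ = 1 - κ / 2 * y := by ring

end MP18cae5
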