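import Pool.Agent.Lib.MP_18cae5_an.R03
import Pool.Agent.Lib.MP_18cae5_an.R16b

/-! Row R18: the new curve is separated. -/

set_option autoImplicit false

namespace MP18cae5

open Complex MeasureTheory Set Filter Topology

/-- ROW R18 auxiliary: the imaginary part of the scalar product of two points of the curve. -/
theorem R18_im {h : ℝ} {φ : ℂ → C2} (hc : Cur h φ) : ∃ C κ0 : ℝ, 0 < C ∧ 0 < κ0 ∧ ∀ s t : ℝ,
    κ0 * |s - t| - C * |s - t| ^ 3 ≤ |(dot (φ s) (cj (φ t))).im| := by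
  obtain ⟨C, hC, hip⟩ := ip_expand hc
  obtain ⟨C0, κ0, _, hκ0, _, hk⟩ := cur_bounds hc
  refine ⟨C, κ0, hC, hκ0, fun s t => ?_⟩
  -- monotonicity of the phase
  have hTh : κ0 * |s - t| ≤ |Th φ s - Th φ t| := by
    have hmono : ∀ a b : ℝ, a ≤ b → κ0 * (b - a) ≤ Th φ b - Th φ a := by
      intro a b hab
      have hcont : Continuous (Th φ) :=
        continuous_iff_continuousAt.2 fun x => (Th_hasDerivAt hc x).continuousAt
      refine Convex.mul_sub_le_image_sub_of_le_deriv (convex_Icc a b) hcont.continuousOn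
        (fun x _ => (Th_hasDerivAt hc x).differentiableAt.differentiableWithinAt) ?_ a
        (left_mem_Icc.2 hab) b (right_mem_Icc.2 hab) hab
      intro x _
      rw [(Th_hasDerivAt hc x).deriv]
      exact (hk x).1
    rcases le_total t s with hst | hst
    · rw [abs_of_nonneg (sub_nonneg.2 hst)]
      exact (hmono t s hst).trans (le_abs_self _)
    · rw [abs_of_nonpos (sub_nonpos.2 hst), abs_sub_comm]
      have := hmono s t hst
      rw [neg_sub]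
      exact this.trans (le_abs_self _)
  have h1 := hip t (s - t)
  rw [add_sub_cancel] at h1
  have h2 := (abs_im_le_norm _).trans h1
  have h3 : (dot (φ t) (cj (φ s)) - 1 + ((Th φ s - Th φ t : ℝ) : ℂ) * I
      + ((nsq (deriv φ t) * (s - t) ^ 2 / 2 : ℝ) : ℂ)).im =
      (dot (φ t) (cj (φ s))).im + (Th φ s - Th φ t) := by
    simp only [add_im, sub_im, one_im, mul_im, ofReal_re, ofReal_im, I_re, I_im]
    ring
  rw [h3] at h2
  have h4 : (dot (φ s) (cj (φ t))).im = -(dot (φ t) (cj (φ s))).im := by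
    have : dot (φ s) (cj (φ t)) = starRingEnd ℂ (dot (φ t) (cj (φ s))) := by
      rw [cj_dot, cj_cj, dot_comm]
    rw [this, conj_im]
  rw [h4, abs_neg]
  have h5 : |Th φ s - Th φ t| ≤
      |(dot (φ t) (cj (φ s))).im + (Th φ s - Th φ t)| + |(dot (φ t) (cj (φ s))).im| := by
    have := abs_sub ((dot (φ t) (cj (φ s))).im + (Th φ s - Th φ t)) (dot (φ t) (cj (φ s))).im
    rwa [add_sub_cancel_left] at this
  linarith

/-- ROW R18 auxiliary: the tangential field is almost orthogonal to nearby points. -/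
theorem R18_nv {h : ℝ} {φ : ℂ → C2} (hc : Cur h φ) : ∃ C : ℝ, 0 < C ∧ ∀ s t : ℝ,
    ‖dot (nv φ s) (cj (φ t))‖ ≤ C * |s - t| := by
  obtain ⟨C, hC, hl⟩ := cur_lip hc
  refine ⟨2 * C, by linarith, fun s t => ?_⟩
  have h0 : ∀ u : ℝ, |((u : ℂ)).im| ≤ h / 2 := fun u => by
    rw [ofReal_im, abs_zero]
    linarith [hc.h_pos]
  have h1 : dot (nv φ s) (cj (φ t)) = dot (nv φ s) (cj (φ t - φ s)) := by
    rw [cj_sub, dot_sub_right, dot_nv_cj, sub_zero]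
  have h2 := (hl (t : ℂ) (s : ℂ) (h0 t) (h0 s)).1
  have h3 : ‖((t : ℂ) - (s : ℂ))‖ = |s - t| := by
    rw [← ofReal_sub, Complex.norm_real, Real.norm_eq_abs, abs_sub_comm]
  rw [h3] at h2
  have h4 := normSq_dot_le (nv φ s) (cj (φ t - φ s))
  rw [nsq_nv hc, one_mul, nsq_cj] at h4
  have h5 := nsq_le_norm_sq (φ t - φ s)
  have h6 : 0 ≤ C * |s - t| := by positivity
  have h7 : ‖φ t - φ s‖ ^ 2 ≤ (C * |s - t|) ^ 2 := pow_le_pow_left₀ (norm_nonneg _) h2 2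
  rw [h1]
  refine le_of_sq_le_sq (?_ : _ ^ 2 ≤ _ ^ 2) (by positivity)
  nlinarith [sq_nonneg (C * |s - t|)]

/-- ROW R18 auxiliary: the factor `qs` at real points. -/
theorem R18_qs (w : ℂ → ℂ) (s : ℝ) (hw : ‖w s‖ ≤ 1) :
    ∃ q : ℝ, 1 / 2 ≤ q ∧ qs (w s * rf w s) = (q : ℂ) := by
  have h1 : w s * rf w s = ((‖w s‖ ^ 2 : ℝ) : ℂ) := by
    rw [rf_ofReal, mul_conj, normSq_eq_norm_sq]
  refine ⟨1 / Real.sqrt (1 + ‖w s‖ ^ 2), ?_, ?_⟩
  · refine one_div_le_one_div_of_le (Real.sqrt_pos.2 (by positivity)) ?_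
    rw [Real.sqrt_le_left (by norm_num)]
    nlinarith [norm_nonneg (w s)]
  · rw [h1, qs_ofReal (by positivity)]

/-- ROW R18 auxiliary: the local estimate. -/
theorem R18_loc {h : ℝ} {φ : ℂ → C2} (hc : Cur h φ) (w : ℂ → ℂ) {C κ0 C' : ℝ} {s t : ℝ}
    (hκ : κ0 * |s - t| - C * |s - t| ^ 3 ≤ |(dot (φ s) (cj (φ t))).im|)
    (hn : ‖dot (nv φ s) (cj (φ t))‖ ≤ C' * |s - t|)
    (hws : ‖w s‖ ≤ 1) (hwt : ‖w t‖ ≤ 1) (h1 : C * |s - t| ^ 2 ≤ κ0 / 4)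
    (h2 : ‖w s‖ * C' ≤ κ0 / 4) (hκ0 : 0 < κ0) :
    κ0 ^ 2 / 16 * (s - t) ^ 2 ≤ nsq (ncur φ w s - ncur φ w t) := by
  obtain ⟨a, ha, hqa⟩ := R18_qs w s hws
  obtain ⟨b, hb, hqb⟩ := R18_qs w t hwt
  have e1 : dot (ncur φ w s) (cj (φ t)) =
      a * (dot (φ s) (cj (φ t)) + w s * dot (nv φ s) (cj (φ t))) := by
    rw [ncur, Zf, hqa, dot_smul_left, dot_add_left, dot_smul_left]
  have e2 : dot (ncur φ w t) (cj (φ t)) = b := by
    rw [ncur, Zf, hqb, dot_smul_left, dot_add_left, dot_smul_left, dot_nv_cj, dot_cj_self,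
      hc.unit t]
    simp
  have e3 : (dot (ncur φ w s - ncur φ w t) (cj (φ t))).im =
      a * ((dot (φ s) (cj (φ t))).im + (w s * dot (nv φ s) (cj (φ t))).im) := by
    rw [dot_sub_left, e1, e2, sub_im, ofReal_im, sub_zero, im_ofReal_mul, add_im]
  have e4 : |(w s * dot (nv φ s) (cj (φ t))).im| ≤ κ0 / 4 * |s - t| := by
    refine (abs_im_le_norm _).trans ?_
    rw [norm_mul]
    calc ‖w s‖ * ‖dot (nv φ s) (cj (φ t))‖ ≤ ‖w s‖ * (C' * |s - t|) :=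
          mul_le_mul_of_nonneg_left hn (norm_nonneg _)
      _ = ‖w s‖ * C' * |s - t| := by ring
      _ ≤ κ0 / 4 * |s - t| := mul_le_mul_of_nonneg_right h2 (abs_nonneg _)
  have e5 : C * |s - t| ^ 3 ≤ κ0 / 4 * |s - t| := by
    calc C * |s - t| ^ 3 = C * |s - t| ^ 2 * |s - t| := by ring
      _ ≤ κ0 / 4 * |s - t| := mul_le_mul_of_nonneg_right h1 (abs_nonneg _)
  have e6 : κ0 / 2 * |s - t| ≤
      |(dot (φ s) (cj (φ t))).im + (w s * dot (nv φ s) (cj (φ t))).im| := by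
    have := abs_sub ((dot (φ s) (cj (φ t))).im + (w s * dot (nv φ s) (cj (φ t))).im)
      (w s * dot (nv φ s) (cj (φ t))).im
    rw [add_sub_cancel_right] at this
    linarith
  have e7 : κ0 / 4 * |s - t| ≤ |(dot (ncur φ w s - ncur φ w t) (cj (φ t))).im| := by
    rw [e3, abs_mul, abs_of_pos (by linarith : (0 : ℝ) < a)]
    have e8 : 0 ≤ κ0 / 2 * |s - t| := by positivity
    calc κ0 / 4 * |s - t| = 1 / 2 * (κ0 / 2 * |s - t|) := by ring
      _ ≤ a * (κ0 / 2 * |s - t|) := mul_le_mul_of_nonneg_right ha e8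
      _ ≤ a * |(dot (φ s) (cj (φ t))).im + (w s * dot (nv φ s) (cj (φ t))).im| :=
          mul_le_mul_of_nonneg_left e6 (by linarith)
  have e9 := normSq_dot_le (ncur φ w s - ncur φ w t) (cj (φ t))
  rw [nsq_cj, hc.unit t, mul_one] at e9
  refine le_trans ?_ e9
  have e10 := e7.trans (abs_im_le_norm _)
  calc κ0 ^ 2 / 16 * (s - t) ^ 2 = (κ0 / 4 * |s - t|) ^ 2 := by
        rw [mul_pow, sq_abs]; ring
    _ ≤ _ := pow_le_pow_left₀ (by positivity) e10 2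

/-- ROW R18.  Let `ψ = ncur φ w`.  For `|s-t| ≥ δ0` use `nsq (ψ s - ψ t) ≥ nsq (φ s - φ t)/2 - 2 nsq(..) - 2 nsq(..)` (`nsq_add_le`) and
`ncur_close`.  For `|s-t| < δ0`: `ψ(s) = q_s (φ(s) + w(s) n(s))` with `q_s` real in `[1/2,1]`;
`Im ⟨ψ(s) - ψ(t), φ(t)⟩ = q_s (Im ⟨φ(s),φ(t)⟩ + Im (w(s) ⟨n(s),φ(t)⟩))` because `⟨ψ(t),φ(t)⟩ = q_t` is real;
`|Im ⟨φ(s),φ(t)⟩ - κ(t)(s-t)| ≤ C (s-t)²` (`ip_expand` with the roles of `s`, `t`, or Taylor), `|⟨n(s),φ(t)⟩| ≤ C|s-t|`, hence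
`|Im ⟨ψ(s)-ψ(t),φ(t)⟩| ≥ (κ0/4)|s-t|`, and `|⟨x,φ(t)⟩|² ≤ nsq x` (`normSq_dot_le`). -/
theorem ncur_sep {h : ℝ} {φ : ℂ → C2} {F : C2 → ℂ} (hS : Stage h φ F) (C1 : ℝ) (hC1 : 0 < C1) :
    ∃ c M0 : ℝ, 0 < c ∧ 1 ≤ M0 ∧ ∀ M : ℝ, M0 ≤ M → ∀ w : ℂ → ℂ, Sol φ F M C1 w →
      ∀ s t : ℝ, |s - t| ≤ Real.pi → c * (s - t) ^ 2 ≤ nsq (ncur φ w s - ncur φ w t) := by
  have hc := hS.cur
  obtain ⟨C, κ0, hC, hκ0, him⟩ := R18_im hc
  obtain ⟨C', hC', hnv⟩ := R18_nv hc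
  obtain ⟨c0, hc0, hsep⟩ := hc.sep
  obtain ⟨C'', M1, hC'', hM1, hcl⟩ := ncur_close hS C1 hC1
  -- the threshold between near and far
  obtain ⟨δ0, hδ0, hδ⟩ : ∃ δ0 : ℝ, 0 < δ0 ∧ C * δ0 ^ 2 ≤ κ0 / 4 := by
    refine ⟨Real.sqrt (κ0 / (4 * C)), Real.sqrt_pos.2 (by positivity), ?_⟩
    rw [Real.sq_sqrt (by positivity)]
    apply le_of_eq
    field_simp
  obtain ⟨M2, hM2, hsm⟩ := eps_small
    (min (min 1 (1 / C1)) (min (κ0 / (4 * (C1 * C'))) (c0 * δ0 ^ 2 / (16 * C''))))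
    (by positivity)
  refine ⟨min (κ0 ^ 2 / 16) (c0 / 4), max M1 M2, by positivity, hM1.trans (le_max_left _ _), ?_⟩
  intro M hM w hw s t hst
  obtain ⟨he, he', -, -, -⟩ := hsm M ((le_max_right _ _).trans hM)
  have hMpos : 0 < M := lt_of_lt_of_le one_pos ((hM1.trans (le_max_left _ _)).trans hM)
  have g1 : eps M ≤ 1 := he'.trans ((min_le_left _ _).trans (min_le_left _ _))
  have g2 : eps M ≤ 1 / C1 := he'.trans ((min_le_left _ _).trans (min_le_right _ _))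
  have g3 : eps M ≤ κ0 / (4 * (C1 * C')) := he'.trans ((min_le_right _ _).trans (min_le_left _ _))
  have g4 : eps M ≤ c0 * δ0 ^ 2 / (16 * C'') :=
    he'.trans ((min_le_right _ _).trans (min_le_right _ _))
  rw [le_div_iff₀ hC1] at g2
  rw [le_div_iff₀ (by positivity)] at g3 g4
  have hstrip : ∀ u : ℝ, (u : ℂ) ∈ strip (3 / M) := fun u => by
    show |((u : ℂ)).im| < 3 / M
    rw [ofReal_im, abs_zero]
    positivity
  have hwu : ∀ u : ℝ, ‖w u‖ ≤ C1 * eps M := fun u => hw.bd _ (hstrip u)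
  have hw1 : ∀ u : ℝ, ‖w u‖ ≤ 1 := fun u => (hwu u).trans (by linarith)
  rcases le_or_gt |s - t| δ0 with hnear | hfar
  · have k1 : C * |s - t| ^ 2 ≤ κ0 / 4 := by
      refine le_trans ?_ hδ
      exact mul_le_mul_of_nonneg_left (pow_le_pow_left₀ (abs_nonneg _) hnear 2) hC.le
    have k2 : ‖w s‖ * C' ≤ κ0 / 4 := by
      have := mul_le_mul_of_nonneg_right (hwu s) hC'.le
      nlinarith
    refine le_trans ?_ (R18_loc hc w (him s t) (hnv s t) (hw1 s) (hw1 t) k1 k2 hκ0)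
    exact mul_le_mul_of_nonneg_right (min_le_left _ _) (sq_nonneg _)
  · have k0 : |(0 : ℝ)| ≤ 2 / M := by rw [abs_zero]; positivity
    have k1 := (hcl M ((le_max_left _ _).trans hM) w hw s 0 k0).2
    have k2 := (hcl M ((le_max_left _ _).trans hM) w hw t 0 k0).2
    rw [ofReal_zero, zero_mul, add_zero] at k1 k2
    have k3 : nsq (φ s - φ t) ≤ 2 * nsq (ncur φ w s - ncur φ w t) +
        2 * nsq ((φ s - ncur φ w s) + (ncur φ w t - φ t)) := by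
      have := nsq_add_le (ncur φ w s - ncur φ w t) ((φ s - ncur φ w s) + (ncur φ w t - φ t))
      rwa [show ncur φ w s - ncur φ w t + (φ s - ncur φ w s + (ncur φ w t - φ t)) =
        φ s - φ t by abel] at this
    have k4 := nsq_add_le (φ s - ncur φ w s) (ncur φ w t - φ t)
    rw [nsq_sub_comm (φ s) (ncur φ w s)] at k4
    have k5 := hsep s t hst
    have k6 : δ0 ^ 2 ≤ (s - t) ^ 2 := by
      rw [← sq_abs (s - t)]
      exact pow_le_pow_left₀ hδ0.le hfar.le 2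
    have k7 : eps M ^ 2 ≤ eps M := by nlinarith
    have k8 : C'' * eps M ^ 2 ≤ c0 * δ0 ^ 2 / 16 := by
      have := mul_le_mul_of_nonneg_left k7 hC''.le
      linarith
    have k9 : c0 * δ0 ^ 2 ≤ c0 * (s - t) ^ 2 := mul_le_mul_of_nonneg_left k6 hc0.le
    have k10 : min (κ0 ^ 2 / 16) (c0 / 4) * (s - t) ^ 2 ≤ c0 / 4 * (s - t) ^ 2 :=
      mul_le_mul_of_nonneg_right (min_le_right _ _) (sq_nonneg _)
    linarith

end MP18cae5
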