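import Pool.Agent.Lib.MP_18cae5_an.R13
import Pool.Agent.Lib.MP_18cae5_an.R16b

/-! Row R19: derivative of the new function on the new curve, second term. -/

set_option autoImplicit false

namespace MP18cae5

open Complex MeasureTheory Set Filter Topology

/-- the new function -/
noncomputable def newF (φ : ℂ → C2) (F : C2 → ℂ) (M : ℝ) (z : C2) : ℂ :=
  F z * (1 - Pk φ M z * F z / eps M)

/-- ROW R19.  Product rule at `z = ψ(t)`, `ψ = ncur φ w`, where `P F = eps`: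
`d newF (z)(ñ) = -(F/eps)(P dF(ñ) + F dP(ñ)) = - dF(z)(ñ) - (F(z)/P(z)) dP(z)(ñ)`. -/
theorem fderiv_newF {h : ℝ} {φ : ℂ → C2} {F : C2 → ℂ} (hS : Stage h φ F) {M : ℝ} (hM : 0 < M) (z : C2)
    (hz : Pk φ M z * F z = eps M) (u : C2) :
    fderiv ℂ (newF φ F M) z u
      = - fderiv ℂ F z u - (F z / Pk φ M z) * fderiv ℂ (Pk φ M) z u := by
  have he : (eps M : ℂ) ≠ 0 := by
    exact_mod_cast (eps_pos hM).ne'
  have hP0 : Pk φ M z ≠ 0 := by
    intro h0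
    rw [h0, zero_mul] at hz
    exact he hz.symm
  have hF0 : F z ≠ 0 := by
    intro h0
    rw [h0, mul_zero] at hz
    exact he hz.symm
  have hF : HasFDerivAt F (fderiv ℂ F z) z := (hS.ent z).hasFDerivAt
  have hP : HasFDerivAt (Pk φ M) (fderiv ℂ (Pk φ M) z) z := (Pk_entire hS.cur M z).hasFDerivAt
  have h1 : HasFDerivAt (fun y => Pk φ M y * F y)
      (Pk φ M z • fderiv ℂ F z + F z • fderiv ℂ (Pk φ M) z) z := hP.mul hF
  have h2 : HasFDerivAt (fun y => 1 - (eps M : ℂ)⁻¹ * (Pk φ M y * F y))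
      (-((eps M : ℂ)⁻¹ • (Pk φ M z • fderiv ℂ F z + F z • fderiv ℂ (Pk φ M) z))) z :=
    (h1.const_mul ((eps M : ℂ)⁻¹)).const_sub 1
  have h3 : HasFDerivAt (fun y => F y * (1 - (eps M : ℂ)⁻¹ * (Pk φ M y * F y)))
      (F z • (-((eps M : ℂ)⁻¹ • (Pk φ M z • fderiv ℂ F z + F z • fderiv ℂ (Pk φ M) z))) +
        (1 - (eps M : ℂ)⁻¹ * (Pk φ M z * F z)) • fderiv ℂ F z) z := hF.mul h2
  have h4 : newF φ F M = fun y => F y * (1 - (eps M : ℂ)⁻¹ * (Pk φ M y * F y)) := by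
    funext y
    rw [newF, div_eq_inv_mul]
  rw [h4, h3.fderiv, hz, inv_mul_cancel₀ he, sub_self]
  simp only [ContinuousLinearMap.smul_apply, ContinuousLinearMap.neg_apply,
    ContinuousLinearMap.add_apply, smul_eq_mul, zero_mul, add_zero]
  rw [← hz]
  field_simp
  ring

/-- ROW R19.  `ñ = nv ψ t = q (n - v φ)`, `v = conj (w t)` (`nv_ncur`); `ψ(t) + ξ ñ = q((1-ξv) φ(t) + (w+ξ) n(t))`
is `pt φ t 0 b w'` with `‖b‖ ≤ C eps²`, `‖w'‖ ≤ C eps` for `‖ξ‖ ≤ eps`.  By `Pk_unif` `‖P(ψ(t)+ξñ)/Ex - 1‖ ≤ δ`, so the Cauchy estimate gives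
`‖dP(ψ(t))(ñ)‖ ≤ ‖Ex‖ δ/eps`, `‖Ex φ M t 0‖ = 1`, `‖P(ψ t)‖ ≥ 1/2`, `‖F(ψ t)‖ = eps/‖P‖ ≤ 2 eps`; so the second term is `≤ 4δ`. -/
theorem second_small {h : ℝ} {φ : ℂ → C2} {F : C2 → ℂ} (hS : Stage h φ F) (C1 : ℝ) (hC1 : 0 < C1)
    (δ : ℝ) (hδ : 0 < δ) :
    ∃ M0 : ℝ, 1 ≤ M0 ∧ ∀ M : ℝ, M0 ≤ M → Adm φ M → ∀ w : ℂ → ℂ, Sol φ F M C1 w → ∀ t : ℝ,
      ‖(F (ncur φ w t) / Pk φ M (ncur φ w t)) *
        fderiv ℂ (Pk φ M) (ncur φ w t) (nv (ncur φ w) t)‖ ≤ δ := by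
  obtain ⟨δ', hδ', hδ1, hδ2⟩ : ∃ δ' : ℝ, 0 < δ' ∧ δ' ≤ 1 / 2 ∧ 4 * δ' ≤ δ :=
    ⟨min (1 / 2) (δ / 4), lt_min (by norm_num) (by positivity), min_le_left _ _, by
      have := min_le_right (1 / 2 : ℝ) (δ / 4)
      linarith⟩
  have hA : (0 : ℝ) ≤ 2 * (C1 + 1) ^ 2 := by positivity
  obtain ⟨M1, hM1, hPk⟩ := Pk_unif hS.cur (2 * (C1 + 1) ^ 2) hA δ' hδ'
  obtain ⟨M2, hM2, heps⟩ := eps_small (1 / (2 * (C1 + 1))) (by positivity)
  refine ⟨max M1 M2, le_max_of_le_left hM1, fun M hM hadm w hw t => ?_⟩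
  have hMM1 : M1 ≤ M := (le_max_left _ _).trans hM
  have hMM2 : M2 ≤ M := (le_max_right _ _).trans hM
  have hMpos : 0 < M := by linarith
  obtain ⟨he0, he1, -, -, -⟩ := heps M hMM2
  have hts : (t : ℂ) ∈ strip (3 / M) := by
    show |((t : ℂ)).im| < 3 / M
    rw [ofReal_im, abs_zero]
    positivity
  set W : ℂ := w t with hWdef
  have hW : ‖W‖ ≤ C1 * eps M := hw.bd _ hts
  obtain ⟨v, hv⟩ : ∃ v : ℂ, v = rf w t := ⟨_, rfl⟩
  have hvn : ‖v‖ = ‖W‖ := by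
    rw [hv, rf_ofReal, RCLike.norm_conj]
  have hC1e : (C1 + 1) * eps M ≤ 1 / 2 := by
    have := mul_le_mul_of_nonneg_left he1 (show (0 : ℝ) ≤ C1 + 1 by positivity)
    have e : (C1 + 1) * (1 / (2 * (C1 + 1))) = 1 / 2 := by field_simp
    linarith
  have hW2 : ‖W‖ ≤ 1 / 2 := by nlinarith
  have hWv : ‖W * v‖ ≤ C1 ^ 2 * eps M ^ 2 := by
    rw [norm_mul, hvn]
    have := mul_le_mul hW hW (norm_nonneg _) (by positivity)
    linarith [this]
  have hWv2 : ‖W * v‖ ≤ 1 / 2 := by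
    rw [norm_mul, hvn]
    nlinarith [norm_nonneg W]
  obtain ⟨q, hq⟩ : ∃ q : ℂ, q = qs (W * v) := ⟨_, rfl⟩
  have hq1 : ‖q - 1‖ ≤ 2 * ‖W * v‖ := by
    rw [hq]
    exact qs_sub_one_le hWv2
  have hq2 : ‖q‖ ≤ 2 := by
    have h1 : ‖q‖ ≤ ‖q - 1‖ + ‖(1 : ℂ)‖ := by
      have := norm_add_le (q - 1) 1
      rwa [sub_add_cancel] at this
    rw [norm_one] at h1
    linarith
  have hψ : ncur φ w t = q • (φ t + W • nv φ t) := by
    rw [ncur, Zf, hq, hv]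
  have hn : nv (ncur φ w) t = q • (nv φ t - v • φ t) := by
    rw [nv_ncur hS.cur w t (by linarith [hW2] : ‖w t‖ < 1), hq, hv]
  have hpt : ∀ ξ : ℂ, ncur φ w t + ξ • nv (ncur φ w) t =
      pt φ t 0 (q * (1 - ξ * v) - 1) (q * (W + ξ)) := by
    intro ξ
    rw [hψ, hn, pt]
    have e0 : (t : ℂ) + ((0 : ℝ) : ℂ) * I = t := by simp
    rw [e0]
    module
  have hEx : ‖Ex φ M t 0‖ = 1 := by
    rw [Ex, Complex.norm_exp]
    simp
  have hEx0 : Ex φ M t 0 ≠ 0 := by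
    rw [← norm_ne_zero_iff, hEx]
    exact one_ne_zero
  have key : ∀ ξ : ℂ, ‖ξ‖ ≤ eps M →
      ‖Pk φ M (ncur φ w t + ξ • nv (ncur φ w) t) - Ex φ M t 0‖ ≤ δ' := by
    intro ξ hξ
    have h1 := hPk M hMM1 hadm t 0 (q * (1 - ξ * v) - 1) (q * (W + ξ))
      (by rw [abs_zero]; positivity)
      (by
        have e1 : q * (1 - ξ * v) - 1 = (q - 1) - q * (ξ * v) := by ring
        rw [e1]
        refine (norm_sub_le _ _).trans ?_
        have e2 : ‖q * (ξ * v)‖ ≤ 2 * (eps M * (C1 * eps M)) := by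
          rw [norm_mul, norm_mul, hvn]
          exact mul_le_mul hq2 (mul_le_mul hξ hW (norm_nonneg _) he0.le) (by positivity)
            (by norm_num)
        have e3 : 0 ≤ eps M ^ 2 := sq_nonneg _
        nlinarith)
      (by
        rw [norm_mul]
        have e2 : ‖W + ξ‖ ≤ (C1 + 1) * eps M := by
          refine (norm_add_le _ _).trans ?_
          linarith
        have e3 := mul_le_mul hq2 e2 (norm_nonneg _) (by norm_num)
        have e4 : 2 * ((C1 + 1) * eps M) ≤ 2 * (C1 + 1) ^ 2 * eps M := by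
          have : 0 ≤ C1 * (C1 + 1) * eps M := by positivity
          nlinarith
        linarith)
    rw [← hpt] at h1
    have h2 : Pk φ M (ncur φ w t + ξ • nv (ncur φ w) t) - Ex φ M t 0 =
        (Pk φ M (ncur φ w t + ξ • nv (ncur φ w) t) / Ex φ M t 0 - 1) * Ex φ M t 0 := by
      field_simp
    rw [h2, norm_mul, hEx, mul_one]
    exact h1
  -- Cauchy estimate
  have hderiv : ‖fderiv ℂ (Pk φ M) (ncur φ w t) (nv (ncur φ w) t)‖ ≤ δ' / eps M := by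
    have hP : HasFDerivAt (Pk φ M) (fderiv ℂ (Pk φ M) (ncur φ w t))
        (ncur φ w t + (0 : ℂ) • nv (ncur φ w) t) := by
      rw [zero_smul, add_zero]
      exact (Pk_entire hS.cur M _).hasFDerivAt
    have hline : ∀ ξ : ℂ, HasDerivAt (fun ξ : ℂ => ncur φ w t + ξ • nv (ncur φ w) t)
        (nv (ncur φ w) t) ξ := by
      intro ξ
      have := ((hasDerivAt_id ξ).smul_const (nv (ncur φ w) t)).const_add (ncur φ w t)
      simpa using this
    have hg : HasDerivAt (fun ξ : ℂ => Pk φ M (ncur φ w t + ξ • nv (ncur φ w) t) - Ex φ M t 0)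
        (fderiv ℂ (Pk φ M) (ncur φ w t) (nv (ncur φ w) t)) 0 :=
      (hP.comp_hasDerivAt (0 : ℂ) (hline 0)).sub_const _
    have hdiff : Differentiable ℂ
        (fun ξ : ℂ => Pk φ M (ncur φ w t + ξ • nv (ncur φ w) t) - Ex φ M t 0) := by
      intro ξ
      have h1 := ((Pk_entire hS.cur M (ncur φ w t + ξ • nv (ncur φ w) t)).hasFDerivAt)
      exact ((h1.comp_hasDerivAt ξ (hline ξ)).sub_const _).differentiableAt
    rw [← hg.deriv]
    refine Complex.norm_deriv_le_of_forall_mem_sphere_norm_le he0 hdiff.diffContOnCl ?_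
    intro ξ hξ
    rw [mem_sphere_zero_iff_norm] at hξ
    exact key ξ hξ.le
  have hPlow : 1 / 2 ≤ ‖Pk φ M (ncur φ w t)‖ := by
    have h1 := key 0 (by rw [norm_zero]; exact he0.le)
    rw [zero_smul, add_zero] at h1
    have h2 := norm_sub_norm_le (Ex φ M t 0) (Pk φ M (ncur φ w t))
    rw [hEx, norm_sub_rev] at h2
    linarith
  have hFup : ‖F (ncur φ w t)‖ ≤ 2 * eps M := by
    have h1 := congrArg norm (hw.eqn _ hts)
    rw [norm_mul, Complex.norm_real, Real.norm_of_nonneg he0.le] at h1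
    have h2 := mul_le_mul_of_nonneg_right hPlow (norm_nonneg (F (ncur φ w t)))
    linarith
  have hratio : ‖F (ncur φ w t) / Pk φ M (ncur φ w t)‖ ≤ 4 * eps M := by
    rw [norm_div, div_le_iff₀ (by linarith)]
    nlinarith
  rw [norm_mul]
  calc ‖F (ncur φ w t) / Pk φ M (ncur φ w t)‖ *
        ‖fderiv ℂ (Pk φ M) (ncur φ w t) (nv (ncur φ w) t)‖
      ≤ (4 * eps M) * (δ' / eps M) := mul_le_mul hratio hderiv (norm_nonneg _) (by positivity)
    _ = 4 * δ' := by field_simp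
    _ ≤ δ := hδ2

end MP18cae5
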