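import Pool.Agent.Lib.MP_18cae5_an.R19
import Pool.Agent.Lib.MP_18cae5_an.R12

/-! Row R19b: nondegeneracy. -/

set_option autoImplicit false

namespace MP18cae5

open Complex MeasureTheory Set Filter Topology

theorem R19b_mem_strip {M : ℝ} (hM : 1 ≤ M) (t : ℝ) : (t : ℂ) ∈ strip (3 / M) := by
  have h1 : (0 : ℝ) < 3 / M := by positivity
  have : |((t : ℂ)).im| < 3 / M := by rw [ofReal_im, abs_zero]; exact h1
  exact this

theorem R19b_norm_nv (ψ : ℂ → C2) (t : ℝ) : ‖nv ψ t‖ = ‖ψ t‖ := by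
  rw [nv, refl_ofReal, Prod.norm_def, Prod.norm_def]
  simp only [cj, norm_neg, RCLike.norm_conj]
  exact max_comm _ _

theorem R19b_norm_nv_sub (ψ φ : ℂ → C2) (t : ℝ) : ‖nv ψ t - nv φ t‖ = ‖ψ t - φ t‖ := by
  rw [nv, nv, refl_ofReal, refl_ofReal, Prod.norm_def, Prod.norm_def]
  simp only [cj, Prod.fst_sub, Prod.snd_sub]
  have h1 : ‖-(starRingEnd ℂ) (ψ t).2 - -(starRingEnd ℂ) (φ t).2‖ = ‖(ψ t).2 - (φ t).2‖ := by
    rw [← RCLike.norm_conj ((ψ t).2 - (φ t).2), map_sub, ← norm_neg]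
    congr 1
    ring
  have h2 : ‖(starRingEnd ℂ) (ψ t).1 - (starRingEnd ℂ) (φ t).1‖ = ‖(ψ t).1 - (φ t).1‖ := by
    rw [← RCLike.norm_conj ((ψ t).1 - (φ t).1), map_sub]
  rw [h1, h2]
  exact max_comm _ _

/-- the new curve is close to the old one -/
theorem R19b_close {h : ℝ} {φ : ℂ → C2} {F : C2 → ℂ} (hS : Stage h φ F) (C1 : ℝ) (hC1 : 0 < C1)
    (δ : ℝ) (hδ : 0 < δ) :
    ∃ M0 : ℝ, 1 ≤ M0 ∧ ∀ M : ℝ, M0 ≤ M → ∀ w : ℂ → ℂ, Sol φ F M C1 w → ∀ t : ℝ,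
      ‖ncur φ w t - φ t‖ ≤ δ := by
  obtain ⟨M0, hM0, hs⟩ := eps_small (min (1 / (2 * C1)) (δ / (4 * C1))) (by positivity)
  refine ⟨M0, hM0, fun M hM w hw t => ?_⟩
  obtain ⟨he0, he1, -, -, -⟩ := hs M hM
  have hM1 : 1 ≤ M := hM0.trans hM
  have hw1 : ‖w t‖ ≤ C1 * eps M := hw.bd _ (R19b_mem_strip hM1 t)
  have hw2 : ‖w t‖ ≤ 1 / 2 := by
    have h1 : C1 * eps M ≤ C1 * (1 / (2 * C1)) :=
      mul_le_mul_of_nonneg_left (he1.trans (min_le_left _ _)) hC1.le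
    have h2 : C1 * (1 / (2 * C1)) = 1 / 2 := by field_simp
    linarith
  have hw3 : ‖w t‖ ≤ δ / 4 := by
    have h1 : C1 * eps M ≤ C1 * (δ / (4 * C1)) :=
      mul_le_mul_of_nonneg_left (he1.trans (min_le_right _ _)) hC1.le
    have h2 : C1 * (δ / (4 * C1)) = δ / 4 := by field_simp
    linarith
  have hrf : rf w t = starRingEnd ℂ (w t) := by
    unfold rf
    rw [Complex.conj_ofReal]
  have hq0 : ‖w t * rf w t‖ = ‖w t‖ ^ 2 := by
    rw [norm_mul, hrf, RCLike.norm_conj, pow_two]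
  have hq1 : ‖w t * rf w t‖ ≤ 1 / 2 := by
    rw [hq0]
    nlinarith [norm_nonneg (w t)]
  have hq2 := qs_sub_one_le hq1
  rw [hq0] at hq2
  set q := qs (w t * rf w t) with hq
  have hqn : ‖q‖ ≤ 2 := by
    have h1 : ‖q‖ ≤ ‖q - 1‖ + ‖(1 : ℂ)‖ := by
      have := norm_add_le (q - 1) 1
      rwa [sub_add_cancel] at this
    rw [norm_one] at h1
    nlinarith [norm_nonneg (w t)]
  have hφ : ‖φ t‖ ≤ 1 := norm_le_one_of_mem_Bc (hS.cur.unit t).le
  have hn : ‖nv φ t‖ ≤ 1 := by rw [R19b_norm_nv]; exact hφ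
  have e : ncur φ w t - φ t = (q - 1) • φ t + (q * w t) • nv φ t := by
    unfold ncur Zf
    rw [← hq, smul_add, smul_smul, sub_smul, one_smul]
    abel
  rw [e]
  refine (norm_add_le _ _).trans ?_
  rw [norm_smul, norm_smul, norm_mul]
  have h1 : ‖q - 1‖ * ‖φ t‖ ≤ 2 * ‖w t‖ ^ 2 * 1 := mul_le_mul hq2 hφ (norm_nonneg _) (by positivity)
  have h2 : ‖q‖ * ‖w t‖ * ‖nv φ t‖ ≤ 2 * ‖w t‖ * 1 :=
    mul_le_mul (mul_le_mul_of_nonneg_right hqn (norm_nonneg _)) hn (norm_nonneg _) (by positivity)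
  nlinarith [norm_nonneg (w t)]

theorem R19b_hasDeriv {F : C2 → ℂ} (hF : Differentiable ℂ F) (z u : C2) :
    HasDerivAt (fun c : ℂ => F (z + c • u)) (fderiv ℂ F z u) 0 := by
  have h1 : HasFDerivAt F (fderiv ℂ F z) (z + (0 : ℂ) • u) := by
    rw [zero_smul, add_zero]
    exact (hF z).hasFDerivAt
  have h2 : HasDerivAt (fun c : ℂ => z + c • u) u 0 := by
    have h3 : HasDerivAt (fun c : ℂ => c • u) ((1 : ℂ) • u) 0 := (hasDerivAt_id (0 : ℂ)).smul_const u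
    rw [one_smul] at h3
    exact h3.const_add z
  exact h1.comp_hasDerivAt (0 : ℂ) h2

/-- ROW R19b.  `dF(ψ(t))(ñ) → dF(φ(t))(n(t))` uniformly in `t` (write `dF(z)(u)` as the derivative at `0` of `F(z + λu)` and use the Cauchy
estimate for `F(z+λu) - F(z'+λu')`, `F` is Lipschitz on bounded sets). -/
theorem first_close {h : ℝ} {φ : ℂ → C2} {F : C2 → ℂ} (hS : Stage h φ F) (C1 : ℝ) (hC1 : 0 < C1)
    (δ : ℝ) (hδ : 0 < δ) :
    ∃ M0 : ℝ, 1 ≤ M0 ∧ ∀ M : ℝ, M0 ≤ M → ∀ w : ℂ → ℂ, Sol φ F M C1 w → ∀ t : ℝ,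
      ‖fderiv ℂ F (ncur φ w t) (nv (ncur φ w) t) - fderiv ℂ F (φ t) (nv φ t)‖ ≤ δ := by
  -- Lipschitz constant
  obtain ⟨C, hC⟩ := (isCompact_closedBall (0 : C2) 20).exists_bound_of_continuousOn
    (f := F) hS.ent.continuous.continuousOn
  have hC0 : 0 ≤ C := (norm_nonneg _).trans (hC 0 (by simp))
  have hlip : ∀ y y' : C2, ‖y‖ < 10 → ‖y'‖ < 10 → ‖F y - F y'‖ ≤ 2 * C / 20 * ‖y - y'‖ := by
    intro y y' hy hy'
    refine lip_of_bdd (g := F) (x := 0) (R := 20) (C := C) (by norm_num) hS.ent.differentiableOn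
      (fun x hx => hC x (Metric.ball_subset_closedBall hx)) y y' ?_ ?_
    · rw [mem_ball_zero_iff]; linarith
    · rw [mem_ball_zero_iff]; linarith
  obtain ⟨M0, hM0, hcl⟩ := R19b_close hS C1 hC1 (min 1 (δ / (C + 1))) (by positivity)
  refine ⟨M0, hM0, fun M hM w hw t => ?_⟩
  have hd := hcl M hM w hw t
  have hd1 : ‖ncur φ w t - φ t‖ ≤ 1 := hd.trans (min_le_left _ _)
  have hd2 : ‖ncur φ w t - φ t‖ ≤ δ / (C + 1) := hd.trans (min_le_right _ _)
  have hφ : ‖φ t‖ ≤ 1 := norm_le_one_of_mem_Bc (hS.cur.unit t).le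
  have hψ : ‖ncur φ w t‖ ≤ 2 := by
    have := norm_add_le (ncur φ w t - φ t) (φ t)
    rw [sub_add_cancel] at this
    linarith
  have hn : ‖nv φ t‖ ≤ 1 := by rw [R19b_norm_nv]; exact hφ
  have hnψ : ‖nv (ncur φ w) t‖ ≤ 2 := by rw [R19b_norm_nv]; exact hψ
  have hnd : ‖nv (ncur φ w) t - nv φ t‖ ≤ δ / (C + 1) := by rw [R19b_norm_nv_sub]; exact hd2
  set z := ncur φ w t
  set u := nv (ncur φ w) t
  set z' := φ t
  set u' := nv φ t
  set g : ℂ → ℂ := fun c => F (z + c • u) - F (z' + c • u') with hg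
  have hgd : Differentiable ℂ g := by
    rw [hg]
    exact (hS.ent.comp ((differentiable_id.smul_const u).const_add z)).sub
      (hS.ent.comp ((differentiable_id.smul_const u').const_add z'))
  have hderiv : deriv g 0 = fderiv ℂ F z u - fderiv ℂ F z' u' :=
    ((R19b_hasDeriv hS.ent z u).sub (R19b_hasDeriv hS.ent z' u')).deriv
  rw [← hderiv]
  have hb : ∀ c ∈ Metric.sphere (0 : ℂ) 1, ‖g c‖ ≤ δ := by
    intro c hc
    rw [mem_sphere_zero_iff_norm] at hc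
    have h1 : ‖z + c • u‖ < 10 := by
      have := norm_add_le z (c • u)
      rw [norm_smul, hc, one_mul] at this
      linarith
    have h2 : ‖z' + c • u'‖ < 10 := by
      have := norm_add_le z' (c • u')
      rw [norm_smul, hc, one_mul] at this
      linarith
    refine (hlip _ _ h1 h2).trans ?_
    have h3 : ‖z + c • u - (z' + c • u')‖ ≤ 2 * (δ / (C + 1)) := by
      have e : z + c • u - (z' + c • u') = (z - z') + c • (u - u') := by
        rw [smul_sub]; abel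
      rw [e]
      refine (norm_add_le _ _).trans ?_
      rw [norm_smul, hc, one_mul]
      linarith
    have h4 : 0 ≤ 2 * C / 20 := by positivity
    refine (mul_le_mul_of_nonneg_left h3 h4).trans ?_
    have h5 : 2 * C / 20 * (2 * (δ / (C + 1))) = (C / (C + 1)) * (δ / 5) := by
      field_simp
      ring
    rw [h5]
    have h6 : C / (C + 1) ≤ 1 := by
      rw [div_le_one (by linarith)]
      linarith
    nlinarith
  have := Complex.norm_deriv_le_of_forall_mem_sphere_norm_le (c := (0 : ℂ)) (R := 1) (C := δ) (f := g)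
    one_pos hgd.diffContOnCl hb
  rwa [div_one] at this

/-- ROW R19b.  `‖fderiv ℂ F (φ t) (nv φ t)‖ ≥ g0 > 0` by compactness (continuity of `t ↦ fderiv ℂ F (φ t) (nv φ t)`). -/
theorem nd_new {h : ℝ} {φ : ℂ → C2} {F : C2 → ℂ} (hS : Stage h φ F) (C1 : ℝ) (hC1 : 0 < C1) :
    ∃ M0 : ℝ, 1 ≤ M0 ∧ ∀ M : ℝ, M0 ≤ M → Adm φ M → ∀ w : ℂ → ℂ, Sol φ F M C1 w → ∀ t : ℝ,
      fderiv ℂ (newF φ F M) (ncur φ w t) (nv (ncur φ w) t) ≠ 0 := by
  obtain ⟨r0, g0, C, hr0, hr1, hg0, hG⟩ := Gf_bounds hS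
  obtain ⟨M1, hM1, h1⟩ := first_close hS C1 hC1 (g0 / 4) (by positivity)
  obtain ⟨M2, hM2, h2⟩ := second_small hS C1 hC1 (g0 / 4) (by positivity)
  refine ⟨max M1 M2, hM1.trans (le_max_left _ _), fun M hM hA w hw t => ?_⟩
  have hMa : M1 ≤ M := (le_max_left _ _).trans hM
  have hMb : M2 ≤ M := (le_max_right _ _).trans hM
  have hM1' : 1 ≤ M := hM1.trans hMa
  have a1 := h1 M hMa w hw t
  have a2 := h2 M hMb hA w hw t
  have a3 := (hG (t : ℂ) (by rw [ofReal_im, abs_zero]; exact hr0.le)).1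
  unfold Gf at a3
  have heq := hw.eqn (t : ℂ) (R19b_mem_strip hM1' t)
  rw [fderiv_newF hS (by linarith) _ heq]
  intro h0
  set A := fderiv ℂ F (ncur φ w t) (nv (ncur φ w) t)
  set B := fderiv ℂ F (φ t) (nv φ t)
  set D := F (ncur φ w t) / Pk φ M (ncur φ w t) * fderiv ℂ (Pk φ M) (ncur φ w t) (nv (ncur φ w) t)
  have h3 : A = -D := by
    have : -A - D = 0 := h0
    linear_combination -this
  have h4 : ‖A‖ ≤ g0 / 4 := by rw [h3, norm_neg]; exact a2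
  have h5 : ‖B‖ ≤ ‖A‖ + ‖A - B‖ := by
    have := norm_sub_le A (A - B)
    rwa [sub_sub_cancel] at this
  linarith

end MP18cae5
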