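import Pool.Agent.Lib.MP_18cae5_an.R17

/-! Row R20: bounded holomorphic functions on the ball hardly change between the two curves. -/

set_option autoImplicit false

namespace MP18cae5

open Complex MeasureTheory Set Filter Topology

/-- ROW R20.  If the disc `{a + ξ b : ‖ξ‖ < r}` lies in the ball and `‖f‖ ≤ 1` there then
`‖f(a+ξb) - f(a)‖ ≤ 2‖ξ‖/r` for `‖ξ‖ < r` (Schwarz lemma for `f(a + ξ b) - f(a)`, bounded by `2`, zero at `0`;
`Complex.dist_le_div_mul_dist_of_mapsTo_ball`). -/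
theorem slice_lip {f : C2 → ℂ} (hf : DifferentiableOn ℂ f Bo) (hb : ∀ z ∈ Bo, ‖f z‖ ≤ 1)
    (a b : C2) (r : ℝ) (hr : 0 < r) (hd : ∀ ξ : ℂ, ‖ξ‖ < r → a + ξ • b ∈ Bo) (ξ : ℂ) (hξ : ‖ξ‖ < r) :
    ‖f (a + ξ • b) - f a‖ ≤ 2 * ‖ξ‖ / r := by
  have hmaps : MapsTo (fun x : ℂ => a + x • b) (Metric.ball 0 r) Bo := fun x hx =>
    hd x (mem_ball_zero_iff.1 hx)
  have hD : DifferentiableOn ℂ (fun x : ℂ => f (a + x • b)) (Metric.ball 0 r) := by
    refine hf.comp ?_ hmaps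
    exact ((differentiable_const a).add (differentiable_id.smul_const b)).differentiableOn
  have h0 : (0 : ℂ) ∈ Metric.ball (0 : ℂ) r := Metric.mem_ball_self hr
  have hM : MapsTo (fun x : ℂ => f (a + x • b)) (Metric.ball 0 r)
      (Metric.closedBall (f (a + (0 : ℂ) • b)) 2) := by
    intro x hx
    rw [Metric.mem_closedBall, dist_eq_norm]
    refine (norm_sub_le _ _).trans ?_
    have h1 := hb _ (hmaps hx)
    have h2 := hb _ (hmaps h0)
    simp only at h1 h2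
    linarith
  have h3 := Complex.dist_le_div_mul_dist_of_mapsTo_ball hD hM (mem_ball_zero_iff.2 hξ)
  rw [dist_eq_norm, dist_zero_right, zero_smul, add_zero] at h3
  calc ‖f (a + ξ • b) - f a‖ ≤ 2 / r * ‖ξ‖ := h3
    _ = 2 * ‖ξ‖ / r := by ring

/-- ROW R20.  From `nsq_height`: `nsq(φ + ξ n) ≤ 1 - 2κ0 y + C y² + 2 ‖ξ‖ C y + ‖ξ‖² (1 + C y)`. -/
theorem disc_in_ball {h : ℝ} {φ : ℂ → C2} (hc : Cur h φ) : ∃ c0 y0 : ℝ, 0 < c0 ∧ 0 < y0 ∧ y0 ≤ h / 2 ∧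
    ∀ t y : ℝ, 0 < y → y ≤ y0 → ∀ ξ : ℂ, ‖ξ‖ ^ 2 ≤ c0 * y →
      nsq (φ ((t : ℂ) + (y : ℂ) * I) + ξ • nv φ ((t : ℂ) + (y : ℂ) * I)) ≤ 1 - c0 * y := by
  obtain ⟨C, y1, hC, hy1, hy1h, hH⟩ := nsq_height hc
  obtain ⟨C0, κ0, _, hκ0, _, hk⟩ := cur_bounds hc
  refine ⟨κ0 / 4, min y1 (min (κ0 / (4 * C)) (min (1 / C) (κ0 / (16 * C ^ 2)))), by positivity,
    by positivity, (min_le_left _ _).trans hy1h, ?_⟩
  intro t y hy0 hy ξ hξ
  have g1 : y ≤ y1 := hy.trans (min_le_left _ _)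
  have g2 : y ≤ κ0 / (4 * C) := hy.trans ((min_le_right _ _).trans (min_le_left _ _))
  have g3 : y ≤ 1 / C :=
    hy.trans ((min_le_right _ _).trans ((min_le_right _ _).trans (min_le_left _ _)))
  have g4 : y ≤ κ0 / (16 * C ^ 2) :=
    hy.trans ((min_le_right _ _).trans ((min_le_right _ _).trans (min_le_right _ _)))
  rw [le_div_iff₀ (by positivity)] at g2 g3 g4
  obtain ⟨h1, h2, h3⟩ := hH t y hy0.le g1
  have h4 := (hk t).1
  set p := φ ((t : ℂ) + (y : ℂ) * I) with hp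
  set n := nv φ ((t : ℂ) + (y : ℂ) * I) with hn
  have e1 : nsq (p + ξ • n) = nsq p + 2 * (dot p (cj (ξ • n))).re + ‖ξ‖ ^ 2 * nsq n := by
    rw [nsq_add, nsq_smul]
  have e2 : (dot p (cj (ξ • n))).re ≤ ‖ξ‖ * (C * y) := by
    refine (re_le_norm _).trans ?_
    have : dot p (cj (ξ • n)) = starRingEnd ℂ (ξ * dot n (cj p)) := by
      rw [map_mul, cj_dot, cj_cj, cj_smul, dot_smul_right, dot_comm (cj n)]
    rw [this, RCLike.norm_conj, norm_mul]
    exact mul_le_mul_of_nonneg_left h2 (norm_nonneg _)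
  have e3 : 2 * C * ‖ξ‖ ≤ κ0 / 4 := by
    refine le_of_sq_le_sq ?_ (by positivity)
    calc (2 * C * ‖ξ‖) ^ 2 = 4 * C ^ 2 * ‖ξ‖ ^ 2 := by ring
      _ ≤ 4 * C ^ 2 * (κ0 / 4 * y) := mul_le_mul_of_nonneg_left hξ (by positivity)
      _ = κ0 / 16 * (y * (16 * C ^ 2)) := by ring
      _ ≤ κ0 / 16 * κ0 := mul_le_mul_of_nonneg_left g4 (by positivity)
      _ = (κ0 / 4) ^ 2 := by ring
  have e4 : 2 * (‖ξ‖ * (C * y)) ≤ κ0 / 4 * y := by
    calc 2 * (‖ξ‖ * (C * y)) = 2 * C * ‖ξ‖ * y := by ring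
      _ ≤ κ0 / 4 * y := mul_le_mul_of_nonneg_right e3 hy0.le
  have e5 : C * y ^ 2 ≤ κ0 / 4 * y := by
    have : y * C ≤ κ0 / 4 := by linarith
    calc C * y ^ 2 = y * C * y := by ring
      _ ≤ κ0 / 4 * y := mul_le_mul_of_nonneg_right this hy0.le
  have e6 : ‖ξ‖ ^ 2 * nsq n ≤ κ0 / 4 * y * 2 := by
    refine mul_le_mul hξ ?_ (nsq_nonneg _) (by positivity)
    linarith
  have e7 : κ0 * y ≤ kap φ t * y := mul_le_mul_of_nonneg_right h4 hy0.le
  have e8 : 0 < κ0 * y := by positivity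
  rw [e1]
  linarith

/-- ROW R20.  Two moves: from `φ(τ)` to `p = φ(τ) + w n(τ)` (`slice_lip`, `r² = c0 y/2`, cost `≤ C eps/√y`, `y ≥ λ/(2M)`: `eps² M → 0`), then
from `p` to `qs(w v) p` (`slice_lip` with `a = b = p`, `r = c0 y/4`: `nsq ((1+ξ)p) = ‖1+ξ‖² nsq p < 1`; cost `≤ C eps²/y`). -/
theorem hug {h : ℝ} {φ : ℂ → C2} {F : C2 → ℂ} (hS : Stage h φ F) (C1 : ℝ) (hC1 : 0 < C1)
    (lam : ℝ) (hl : 0 < lam) (hl1 : lam ≤ 1) (δ : ℝ) (hδ : 0 < δ) :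
    ∃ M0 : ℝ, 1 ≤ M0 ∧ ∀ M : ℝ, M0 ≤ M → ∀ w : ℂ → ℂ, Sol φ F M C1 w →
      ∀ f : C2 → ℂ, DifferentiableOn ℂ f Bo → (∀ z ∈ Bo, ‖f z‖ ≤ 1) →
      ∀ t y : ℝ, lam / (2 * M) ≤ y → y ≤ lam / M →
        ‖f (ncur φ w ((t : ℂ) + (y : ℂ) * I)) - f (φ ((t : ℂ) + (y : ℂ) * I))‖ ≤ δ := by
  have hc := hS.cur
  obtain ⟨c0, y0, hc0, hy0, -, hD⟩ := disc_in_ball hc
  obtain ⟨M1, hM1, hsm⟩ := eps_small
    (min y0 (min (1 / (2 * C1 ^ 2)) (min (c0 * lam / (32 * C1 ^ 2))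
      (min (c0 * lam * δ ^ 2 / (32 * C1 ^ 2)) (c0 * lam * δ / (64 * C1 ^ 2))))))
    (by positivity)
  refine ⟨M1, hM1, fun M hM w hw f hf hfb t y hy1 hy2 => ?_⟩
  obtain ⟨he, -, hMe, -, hMi⟩ := hsm M hM
  have hMpos : 0 < M := lt_of_lt_of_le one_pos (hM1.trans hM)
  have hM1' : 1 ≤ M := hM1.trans hM
  have hy : 0 < y := lt_of_lt_of_le (by positivity) hy1
  have hyM : y ≤ 1 / M := hy2.trans (by gcongr)
  have hyy0 : y ≤ y0 := hyM.trans (hMi.trans (min_le_left _ _))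
  have g1 : M * eps M ^ 2 ≤ 1 / (2 * C1 ^ 2) :=
    hMe.trans ((min_le_right _ _).trans (min_le_left _ _))
  have g2 : M * eps M ^ 2 ≤ c0 * lam / (32 * C1 ^ 2) :=
    hMe.trans ((min_le_right _ _).trans ((min_le_right _ _).trans (min_le_left _ _)))
  have g3 : M * eps M ^ 2 ≤ c0 * lam * δ ^ 2 / (32 * C1 ^ 2) :=
    hMe.trans ((min_le_right _ _).trans ((min_le_right _ _).trans ((min_le_right _ _).trans
      (min_le_left _ _))))
  have g4 : M * eps M ^ 2 ≤ c0 * lam * δ / (64 * C1 ^ 2) :=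
    hMe.trans ((min_le_right _ _).trans ((min_le_right _ _).trans ((min_le_right _ _).trans
      (min_le_right _ _))))
  rw [le_div_iff₀ (by positivity)] at g1 g2 g3 g4
  rw [div_le_iff₀ (by positivity)] at hy1
  set X := C1 ^ 2 * eps M ^ 2 with hX
  have hX0 : 0 < X := by positivity
  have x1 : X ≤ 1 / 2 := by
    have : X ≤ M * X := le_mul_of_one_le_left hX0.le hM1'
    have e : M * X = M * eps M ^ 2 * (2 * C1 ^ 2) / 2 := by rw [hX]; ring
    linarith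
  have x2 : X ≤ c0 * y / 16 := by
    have e : M * X = M * eps M ^ 2 * (32 * C1 ^ 2) / 32 := by rw [hX]; ring
    have e2 : c0 * lam ≤ c0 * (y * (2 * M)) := mul_le_mul_of_nonneg_left hy1 hc0.le
    have : M * X ≤ M * (c0 * y / 16) := by linarith
    exact le_of_mul_le_mul_left this hMpos
  have x3 : X ≤ c0 * y * δ ^ 2 / 16 := by
    have e : M * X = M * eps M ^ 2 * (32 * C1 ^ 2) / 32 := by rw [hX]; ring
    have e2 : c0 * δ ^ 2 * lam ≤ c0 * δ ^ 2 * (y * (2 * M)) :=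
      mul_le_mul_of_nonneg_left hy1 (by positivity)
    have : M * X ≤ M * (c0 * y * δ ^ 2 / 16) := by linarith
    exact le_of_mul_le_mul_left this hMpos
  have x4 : X ≤ c0 * y * δ / 32 := by
    have e : M * X = M * eps M ^ 2 * (64 * C1 ^ 2) / 64 := by rw [hX]; ring
    have e2 : c0 * δ * lam ≤ c0 * δ * (y * (2 * M)) :=
      mul_le_mul_of_nonneg_left hy1 (by positivity)
    have : M * X ≤ M * (c0 * y * δ / 32) := by linarith
    exact le_of_mul_le_mul_left this hMpos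
  set τ : ℂ := (t : ℂ) + (y : ℂ) * I with hτ
  have hτim : τ.im = y := by simp [hτ]
  have hτs : τ ∈ strip (3 / M) := by
    show |τ.im| < 3 / M
    rw [hτim, abs_of_pos hy]
    refine lt_of_le_of_lt hyM ?_
    gcongr
    norm_num
  have hwb : ‖w τ‖ ≤ C1 * eps M := hw.bd τ hτs
  have hvb : ‖rf w τ‖ ≤ C1 * eps M := by
    rw [rf, RCLike.norm_conj]
    exact hw.bd _ (conj_mem_strip hτs)
  have hw2 : ‖w τ‖ ^ 2 ≤ X := by
    calc ‖w τ‖ ^ 2 ≤ (C1 * eps M) ^ 2 := pow_le_pow_left₀ (norm_nonneg _) hwb 2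
      _ = X := by rw [hX]; ring
  have hwv : ‖w τ * rf w τ‖ ≤ X := by
    rw [norm_mul]
    calc ‖w τ‖ * ‖rf w τ‖ ≤ (C1 * eps M) * (C1 * eps M) :=
          mul_le_mul hwb hvb (norm_nonneg _) (by positivity)
      _ = X := by rw [hX]; ring
  set p : C2 := φ τ + w τ • nv φ τ with hp
  -- the first move
  have m1 : ‖f p - f (φ τ)‖ ≤ δ / 2 := by
    have hr : 0 < Real.sqrt (c0 * y) := Real.sqrt_pos.2 (by positivity)
    have hsq : Real.sqrt (c0 * y) ^ 2 = c0 * y := Real.sq_sqrt (by positivity)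
    have hd : ∀ ξ : ℂ, ‖ξ‖ < Real.sqrt (c0 * y) → φ τ + ξ • nv φ τ ∈ Bo := by
      intro ξ hξ
      have h1 : ‖ξ‖ ^ 2 ≤ c0 * y := by
        rw [← hsq]
        exact pow_le_pow_left₀ (norm_nonneg _) hξ.le 2
      have h2 := hD t y hy hyy0 ξ h1
      show nsq _ < 1
      have : 0 < c0 * y := by positivity
      linarith
    have hlt : ‖w τ‖ < Real.sqrt (c0 * y) := by
      refine lt_of_pow_lt_pow_left₀ 2 hr.le ?_
      rw [hsq]
      have : 0 < c0 * y := by positivity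
      linarith
    refine (slice_lip hf hfb (φ τ) (nv φ τ) _ hr hd (w τ) hlt).trans ?_
    rw [div_le_iff₀ hr]
    have : 4 * ‖w τ‖ ≤ δ * Real.sqrt (c0 * y) := by
      refine le_of_sq_le_sq ?_ (by positivity)
      rw [mul_pow, mul_pow, hsq]
      linarith
    linarith
  -- the second move
  have m2 : ‖f (qs (w τ * rf w τ) • p) - f p‖ ≤ δ / 2 := by
    have hcy : 0 < c0 * y := by positivity
    have hr : 0 < c0 * y / 4 := by positivity
    have hnp : nsq p ≤ 1 - c0 * y := by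
      refine hD t y hy hyy0 (w τ) ?_
      linarith
    have hd : ∀ ξ : ℂ, ‖ξ‖ < c0 * y / 4 → p + ξ • p ∈ Bo := by
      intro ξ hξ
      have e : p + ξ • p = (1 + ξ) • p := by rw [add_smul, one_smul]
      show nsq _ < 1
      rw [e, nsq_smul]
      have h1 : ‖1 + ξ‖ ≤ 1 + c0 * y / 4 := by
        refine (norm_add_le _ _).trans ?_
        rw [norm_one]
        linarith
      have h2 : ‖1 + ξ‖ ^ 2 ≤ (1 + c0 * y / 4) ^ 2 := pow_le_pow_left₀ (norm_nonneg _) h1 2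
      calc ‖1 + ξ‖ ^ 2 * nsq p ≤ (1 + c0 * y / 4) ^ 2 * (1 - c0 * y) :=
            mul_le_mul h2 hnp (nsq_nonneg _) (by positivity)
        _ < 1 := by
            have h3 : 0 < (c0 * y) ^ 2 := by positivity
            have h4 : 0 < (c0 * y) ^ 3 := by positivity
            nlinarith
    have hξ : ‖qs (w τ * rf w τ) - 1‖ ≤ 2 * X := by
      refine (qs_sub_one_le (hwv.trans x1)).trans ?_
      linarith
    have hlt : ‖qs (w τ * rf w τ) - 1‖ < c0 * y / 4 := by linarith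
    have h5 := slice_lip hf hfb p p _ hr hd (qs (w τ * rf w τ) - 1) hlt
    have e : p + (qs (w τ * rf w τ) - 1) • p = qs (w τ * rf w τ) • p := by
      rw [sub_smul, one_smul]
      abel
    rw [e] at h5
    refine h5.trans ?_
    rw [div_le_iff₀ hr]
    linarith
  have e : ncur φ w τ = qs (w τ * rf w τ) • p := rfl
  rw [e]
  calc ‖f (qs (w τ * rf w τ) • p) - f (φ τ)‖
      = ‖(f (qs (w τ * rf w τ) • p) - f p) + (f p - f (φ τ))‖ := by ring_nf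
    _ ≤ ‖f (qs (w τ * rf w τ) • p) - f p‖ + ‖f p - f (φ τ)‖ := norm_add_le _ _
    _ ≤ δ := by linarith

end MP18cae5
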