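import Pool.Agent.Lib.MP_18cae5_an.R09

/-! Row R21: the perturbation `P F/eps` is small. -/

set_option autoImplicit false

namespace MP18cae5

open Complex MeasureTheory Set Filter Topology

/-- ROW R21 auxiliary: `x exp(-x) ≤ 1`. -/
theorem R21_exp (x : ℝ) : x * Real.exp (-x) ≤ 1 := by
  have h1 := Real.add_one_le_exp x
  have h2 : 0 < Real.exp x := Real.exp_pos x
  rw [Real.exp_neg, ← div_eq_mul_inv, div_le_one h2]
  linarith

/-- ROW R21 auxiliary: an entire function is bounded on compact sets. -/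
theorem R21_bdd {g : C2 → ℂ} (hg : Differentiable ℂ g) (R : ℝ) :
    ∃ B : ℝ, 0 < B ∧ ∀ z : C2, ‖z‖ ≤ R → ‖g z‖ ≤ B := by
  obtain ⟨B, hB⟩ := (isCompact_closedBall (0 : C2) R).exists_bound_of_continuousOn
    hg.continuous.continuousOn
  refine ⟨max B 1, by positivity, fun z hz => ?_⟩
  exact (hB z (mem_closedBall_zero_iff.2 hz)).trans (le_max_left _ _)

/-- ROW R21.  An entire function vanishing on the real curve is `O(dist)` on the closed ball (it is Lipschitz on the compact convex set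
`Bc`; `‖z - φ t‖ ≤ √(nsq (z - φ t))`). -/
theorem lip_zero {h : ℝ} {φ : ℂ → C2} (hc : Cur h φ) {g : C2 → ℂ} (hg : Differentiable ℂ g)
    (h0 : ∀ t : ℝ, g (φ t) = 0) : ∃ C : ℝ, 0 < C ∧ ∀ z ∈ Bc, ∀ t : ℝ,
      ‖g z‖ ^ 2 ≤ C * nsq (z - φ t) := by
  obtain ⟨B, hB, hb⟩ := R21_bdd hg 4
  refine ⟨(2 * B / 3) ^ 2, by positivity, fun z hz t => ?_⟩
  have hφ : ‖φ t‖ ≤ 1 := norm_le_one_of_mem_Bc (le_of_eq (hc.unit t) : nsq (φ t) ≤ 1)
  have hz1 := norm_le_one_of_mem_Bc hz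
  have hmaps : MapsTo g (Metric.ball (φ t) 3) (Metric.closedBall (g (φ t)) (2 * B)) := by
    intro x hx
    rw [Metric.mem_closedBall, dist_eq_norm]
    rw [Metric.mem_ball, dist_eq_norm] at hx
    have h1 : ‖x‖ ≤ 4 := by
      have := norm_add_le (x - φ t) (φ t)
      rw [sub_add_cancel] at this
      linarith
    have h2 := hb x h1
    have h3 := hb (φ t) (by linarith)
    exact (norm_sub_le _ _).trans (by linarith)
  have hd : ‖z - φ t‖ ≤ 2 := (norm_sub_le _ _).trans (by linarith)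
  have hmem : z ∈ Metric.ball (φ t) 3 := by
    rw [Metric.mem_ball, dist_eq_norm]
    linarith
  have h1 := Complex.dist_le_div_mul_dist_of_mapsTo_ball hg.differentiableOn hmaps hmem
  rw [dist_eq_norm, dist_eq_norm, h0 t, sub_zero] at h1
  calc ‖g z‖ ^ 2 ≤ (2 * B / 3 * ‖z - φ t‖) ^ 2 := pow_le_pow_left₀ (norm_nonneg _) h1 2
    _ = (2 * B / 3) ^ 2 * ‖z - φ t‖ ^ 2 := by ring
    _ ≤ (2 * B / 3) ^ 2 * nsq (z - φ t) :=
        mul_le_mul_of_nonneg_left (norm_sq_le_nsq _) (by positivity)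

/-- ROW R21.  With `r = min_t nsq (z - φ t)`: `‖g z F z‖ ≤ C r`, `‖P z‖ ≤ C exp(-Mr/4)` (`Pk_bound`) and `x exp(-x) ≤ 1`, so
`‖g P F‖/eps ≤ 4C/(M eps)`. -/
theorem gPF_small {h : ℝ} {φ : ℂ → C2} {F : C2 → ℂ} (hS : Stage h φ F) {g : C2 → ℂ}
    (hg : Differentiable ℂ g) (h0 : ∀ t : ℝ, g (φ t) = 0) (δ : ℝ) (hδ : 0 < δ) :
    ∃ M0 : ℝ, 1 ≤ M0 ∧ ∀ M : ℝ, M0 ≤ M → ∀ z ∈ Bc, ‖g z * (Pk φ M z * F z / eps M)‖ ≤ δ := by
  have hc := hS.cur
  obtain ⟨C, hC, hP⟩ := Pk_bound hc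
  obtain ⟨K1, hK1, h1⟩ := lip_zero hc hg h0
  obtain ⟨K2, hK2, h2⟩ := lip_zero hc hS.ent (fun t => hS.zero _ (hc.mem_strip_ofReal t))
  obtain ⟨K, hK, hK'⟩ : ∃ K : ℝ, 0 < K ∧ K1 * K2 ≤ K ^ 2 :=
    ⟨Real.sqrt (K1 * K2), Real.sqrt_pos.2 (by positivity),
      (Real.sq_sqrt (by positivity)).ge⟩
  obtain ⟨M1, hM1, hsm⟩ := eps_small (δ / (4 * K * C)) (by positivity)
  refine ⟨M1, hM1, fun M hM z hz => ?_⟩
  obtain ⟨he, -, -, hMe, -⟩ := hsm M hM
  have hMpos : 0 < M := lt_of_lt_of_le one_pos (hM1.trans hM)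
  have hr : ∀ t : ℝ, ‖g z * F z‖ / K ≤ nsq (z - φ t) := by
    intro t
    have hn := nsq_nonneg (z - φ t)
    rw [div_le_iff₀ hK]
    refine le_of_sq_le_sq ?_ (by positivity)
    rw [norm_mul, mul_pow]
    calc ‖g z‖ ^ 2 * ‖F z‖ ^ 2 ≤ (K1 * nsq (z - φ t)) * (K2 * nsq (z - φ t)) :=
          mul_le_mul (h1 z hz t) (h2 z hz t) (by positivity) (by positivity)
      _ = K1 * K2 * nsq (z - φ t) ^ 2 := by ring
      _ ≤ K ^ 2 * nsq (z - φ t) ^ 2 := mul_le_mul_of_nonneg_right hK' (by positivity)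
      _ = (nsq (z - φ t) * K) ^ 2 := by ring
  set r := ‖g z * F z‖ / K with hrd
  have hr0 : 0 ≤ r := by positivity
  have h3 := hP M hMpos z hz r hr0 hr
  have h4 : ‖g z * F z‖ = K * r := by rw [hrd]; field_simp
  have h5 : ‖g z * (Pk φ M z * F z / eps M)‖ = ‖g z * F z‖ * ‖Pk φ M z‖ / eps M := by
    have : g z * (Pk φ M z * F z / eps M) = g z * F z * Pk φ M z / eps M := by ring
    rw [this, norm_div, norm_mul, Complex.norm_real, Real.norm_of_nonneg he.le]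
  rw [h5, h4]
  have h6 : K * r * ‖Pk φ M z‖ ≤ 4 * K * C / M := by
    calc K * r * ‖Pk φ M z‖ ≤ K * r * (C * Real.exp (-(M * r / 4))) :=
          mul_le_mul_of_nonneg_left h3 (by positivity)
      _ = 4 * K * C / M * (M * r / 4 * Real.exp (-(M * r / 4))) := by field_simp
      _ ≤ 4 * K * C / M * 1 := mul_le_mul_of_nonneg_left (R21_exp _) (by positivity)
      _ = 4 * K * C / M := mul_one _
  rw [le_div_iff₀ (by positivity)] at hMe
  calc K * r * ‖Pk φ M z‖ / eps M ≤ 4 * K * C / M / eps M :=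
        div_le_div_of_nonneg_right h6 he.le
    _ = 1 / (M * eps M) * (4 * K * C) := by field_simp
    _ ≤ δ := hMe

/-- ROW R21.  `exp(-Mr/4)/eps(M) = M^(2/3) exp(-Mr/4) → 0`. -/
theorem PF_far {h : ℝ} {φ : ℂ → C2} {F : C2 → ℂ} (hS : Stage h φ F) (r : ℝ) (hr : 0 < r)
    (δ : ℝ) (hδ : 0 < δ) :
    ∃ M0 : ℝ, 1 ≤ M0 ∧ ∀ M : ℝ, M0 ≤ M → ∀ z ∈ Bc, (∀ t : ℝ, r ≤ nsq (z - φ t)) →
      ‖Pk φ M z * F z / eps M‖ ≤ δ := by
  have hc := hS.cur
  obtain ⟨C, hC, hP⟩ := Pk_bound hc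
  obtain ⟨B, hB, hb⟩ := R21_bdd hS.ent 1
  obtain ⟨M1, hM1, hsm⟩ := eps_small (δ * r / (4 * C * B)) (by positivity)
  refine ⟨M1, hM1, fun M hM z hz hrz => ?_⟩
  obtain ⟨he, -, -, hMe, -⟩ := hsm M hM
  have hMpos : 0 < M := lt_of_lt_of_le one_pos (hM1.trans hM)
  have h3 := hP M hMpos z hz r hr.le hrz
  have h4 : Real.exp (-(M * r / 4)) ≤ 4 / (M * r) := by
    have := R21_exp (M * r / 4)
    rw [le_div_iff₀ (by positivity)]
    linarith
  have h5 : ‖Pk φ M z * F z‖ ≤ C * (4 / (M * r)) * B := by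
    rw [norm_mul]
    refine mul_le_mul (h3.trans (mul_le_mul_of_nonneg_left h4 hC.le))
      (hb z (norm_le_one_of_mem_Bc hz)) (norm_nonneg _) (by positivity)
  rw [le_div_iff₀ (by positivity)] at hMe
  rw [norm_div, Complex.norm_real, Real.norm_of_nonneg he.le]
  calc ‖Pk φ M z * F z‖ / eps M ≤ C * (4 / (M * r)) * B / eps M :=
        div_le_div_of_nonneg_right h5 he.le
    _ = 1 / (M * eps M) * (4 * C * B) / r := by field_simp
    _ ≤ δ * r / r := div_le_div_of_nonneg_right hMe hr.le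
    _ = δ := by field_simp

end MP18cae5
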