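import Pool.Agent.Lib.MP_18cae5_an.R15
import Pool.Agent.Lib.MP_18cae5_an.R18
import Pool.Agent.Lib.MP_18cae5_an.R17b
import Pool.Agent.Lib.MP_18cae5_an.R19b
import Pool.Agent.Lib.MP_18cae5_an.R20
import Pool.Agent.Lib.MP_18cae5_an.R21

/-! Row R22: the step. -/

set_option autoImplicit false

namespace MP18cae5

open Complex MeasureTheory Set Filter Topology

/-- ROW R22.  `T` = admissible `M ≥ M0`, `P M = Pk φ M`, `Φ M = ncur φ w` with `w` chosen by `exists_sol` (use `Classical.choose`),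
new strip `5/(2M)`. All the properties are the previous rows (`exists_adm`, `Pk_entire`, `ncur_basic`, `ncur_close`,
`ncur_height`, `kap_of_height`, `ncur_sep`, `nd_new`, `hug`, `gPF_small`, `PF_far`). -/
theorem step {h : ℝ} {φ : ℂ → C2} {F : C2 → ℂ} (hS : Stage h φ F) :
    ∃ (T : Set ℝ) (Φ : ℝ → ℂ → C2), (∀ x : ℝ, ∃ M ∈ T, x ≤ M) ∧ (∀ M ∈ T, 1 ≤ M) ∧
      (∀ M ∈ T, Stage (5 / (2 * M)) (Φ M) (newF φ F M)) ∧
      (∀ M ∈ T, ∀ t y : ℝ, 0 < y → y ≤ 2 / M → Φ M ((t : ℂ) + (y : ℂ) * I) ∈ Bo) ∧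
      (∀ M ∈ T, ∀ t : ℝ, Pk φ M (Φ M t) * F (Φ M t) = eps M) ∧
      (∀ δ : ℝ, 0 < δ → ∃ M0 : ℝ, ∀ M ∈ T, M0 ≤ M → ∀ t y : ℝ, |y| ≤ 2 / M →
        nsq (Φ M ((t : ℂ) + (y : ℂ) * I) - φ t) ≤ δ) ∧
      (∀ lam δ : ℝ, 0 < lam → lam ≤ 1 → 0 < δ → ∃ M0 : ℝ, ∀ M ∈ T, M0 ≤ M →
        ∀ f : C2 → ℂ, DifferentiableOn ℂ f Bo → (∀ z ∈ Bo, ‖f z‖ ≤ 1) →
        ∀ t y : ℝ, lam / (2 * M) ≤ y → y ≤ lam / M →
          ‖f (Φ M ((t : ℂ) + (y : ℂ) * I)) - f (φ ((t : ℂ) + (y : ℂ) * I))‖ ≤ δ) := by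
  have hc := hS.cur
  obtain ⟨C1, M1, hC1, hM1, hsol⟩ := exists_sol hS
  obtain ⟨M2, hM2, hbas⟩ := ncur_basic hS C1 hC1
  obtain ⟨C, M3, hC, hM3, hclose⟩ := ncur_close hS C1 hC1
  obtain ⟨κ0, M4, hκ0, hM4, hheight⟩ := ncur_height hS C1 hC1
  obtain ⟨c, M5, hc5, hM5, hsep⟩ := ncur_sep hS C1 hC1
  obtain ⟨M6, hM6, hnd⟩ := nd_new hS C1 hC1
  set M0 : ℝ := max M1 (max M2 (max M3 (max M4 (max M5 M6)))) with hM0
  have g1 : M1 ≤ M0 := le_max_left _ _
  have g2 : M2 ≤ M0 := (le_max_left _ _).trans (le_max_right _ _)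
  have g3 : M3 ≤ M0 := ((le_max_left _ _).trans (le_max_right _ _)).trans (le_max_right _ _)
  have g4 : M4 ≤ M0 :=
    (((le_max_left _ _).trans (le_max_right _ _)).trans (le_max_right _ _)).trans (le_max_right _ _)
  have g5 : M5 ≤ M0 :=
    ((((le_max_left _ _).trans (le_max_right _ _)).trans (le_max_right _ _)).trans
      (le_max_right _ _)).trans (le_max_right _ _)
  have g6 : M6 ≤ M0 :=
    ((((le_max_right _ _).trans (le_max_right _ _)).trans (le_max_right _ _)).trans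
      (le_max_right _ _)).trans (le_max_right _ _)
  have h1M0 : 1 ≤ M0 := hM1.trans g1
  have hex : ∀ M : ℝ, M0 ≤ M ∧ Adm φ M → ∃ w : ℂ → ℂ, Sol φ F M C1 w :=
    fun M hM => hsol M (g1.trans hM.1) hM.2
  choose! W hW using hex
  have hT0 : ∀ M : ℝ, M0 ≤ M ∧ Adm φ M → 0 < M := fun M hM => by linarith [hM.1]
  have hstrip : ∀ M : ℝ, 0 < M → strip (5 / (2 * M)) ⊆ strip (3 / M) := by
    intro M hM σ hσ
    have h1 : |σ.im| < 5 / (2 * M) := hσ
    have h2 : 5 / (2 * M) ≤ 3 / M := by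
      rw [div_le_div_iff₀ (by positivity) hM]
      nlinarith
    exact lt_of_lt_of_le h1 h2
  have hreal : ∀ M : ℝ, 0 < M → ∀ t : ℝ, (t : ℂ) ∈ strip (3 / M) := by
    intro M hM t
    show |((t : ℂ)).im| < 3 / M
    rw [ofReal_im, abs_zero]
    positivity
  refine ⟨{M | M0 ≤ M ∧ Adm φ M}, fun M => ncur φ (W M), ?_, ?_, ?_, ?_, ?_, ?_, ?_⟩
  · intro x
    obtain ⟨M, hM, hA⟩ := exists_adm hc (max x M0)
    exact ⟨M, ⟨(le_max_right _ _).trans hM, hA⟩, (le_max_left _ _).trans hM⟩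
  · intro M hM
    exact h1M0.trans hM.1
  · intro M hM
    have hMp := hT0 M hM
    have hw := hW M hM
    obtain ⟨b1, b2, b3⟩ := hbas M (g2.trans hM.1) (W M) hw
    have hh : 0 < 5 / (2 * M) := by positivity
    refine ⟨⟨hh, b1.mono (hstrip M hMp), b2, b3, ?_, ?_⟩, ?_, ?_, ?_⟩
    · intro t
      have h1 := kap_of_height (c := κ0) hh (b1.mono (hstrip M hMp)) t (b3 t) (2 / M) (by positivity)
        (fun y hy hy' => hheight M (g4.trans hM.1) (W M) hw t y hy.le hy')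
      linarith
    · exact ⟨c, hc5, hsep M (g5.trans hM.1) (W M) hw⟩
    · have hP := Pk_entire hc M
      have hF := hS.ent
      have h1 : Differentiable ℂ (fun z : C2 => Pk φ M z * F z / (eps M : ℂ)) := by
        have h2 : Differentiable ℂ (fun z : C2 => Pk φ M z * F z) := hP.mul hF
        simp only [div_eq_mul_inv]
        exact h2.mul_const _
      unfold newF
      exact hF.mul ((differentiable_const _).sub h1)
    · intro σ hσ
      have h1 := hw.eqn σ (hstrip M hMp hσ)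
      have h2 : (eps M : ℂ) ≠ 0 := by
        have := (eps_pos hMp).ne'
        exact_mod_cast this
      unfold newF
      rw [h1, div_self h2, sub_self, mul_zero]
    · exact hnd M (g6.trans hM.1) hM.2 (W M) hw
  · intro M hM t y hy hy'
    have h1 := hheight M (g4.trans hM.1) (W M) (hW M hM) t y hy.le hy'
    show nsq (ncur φ (W M) ((t : ℂ) + (y : ℂ) * I)) < 1
    have : 0 < κ0 * y := mul_pos hκ0 hy
    linarith
  · intro M hM t
    exact (hW M hM).eqn t (hreal M (hT0 M hM) t)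
  · intro δ hδ
    obtain ⟨M7, hM7, he⟩ := eps_small (min 1 (δ / (4 * C))) (by positivity)
    refine ⟨M7, fun M hM hM' t y hy => ?_⟩
    obtain ⟨e1, e2, _, _, e5⟩ := he M hM'
    have hMp := hT0 M hM
    refine (hclose M (g3.trans hM.1) (W M) (hW M hM) t y hy).1.trans ?_
    have h1 : 0 ≤ 1 / M := by positivity
    set d : ℝ := min 1 (δ / (4 * C)) with hd
    have hd0 : 0 < d := by rw [hd]; positivity
    have hd1 : d ≤ 1 := min_le_left _ _
    have hd2 : d ≤ δ / (4 * C) := min_le_right _ _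
    have h2 : (eps M + 1 / M) ^ 2 ≤ (2 * d) ^ 2 :=
      pow_le_pow_left₀ (by linarith) (by linarith) 2
    have h3 : (2 * d) ^ 2 ≤ 4 * d := by nlinarith
    rw [le_div_iff₀ (by positivity)] at hd2
    calc C * (eps M + 1 / M) ^ 2 ≤ C * (4 * d) :=
          mul_le_mul_of_nonneg_left (h2.trans h3) hC.le
      _ = d * (4 * C) := by ring
      _ ≤ δ := hd2
  · intro lam δ hl hl1 hδ
    obtain ⟨M8, hM8, hh⟩ := hug hS C1 hC1 lam hl hl1 δ hδ
    exact ⟨M8, fun M hM hM' f hf hfb t y hy hy' => hh M hM' (W M) (hW M hM) f hf hfb t y hy hy'⟩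

end MP18cae5
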