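import Pool.Agent.Lib.MP_18cae5_an.R01

/-! Row R23: the initial stage. -/

set_option autoImplicit false

namespace MP18cae5

open Complex MeasureTheory Set Filter Topology

/-- the circle -/
noncomputable def phi0 (σ : ℂ) : C2 := (Complex.exp (σ * I), 0)

theorem R23_hasDeriv (σ : ℂ) : HasDerivAt phi0 (Complex.exp (σ * I) * I, 0) σ := by
  have h1 : HasDerivAt (fun σ : ℂ => Complex.exp (σ * I)) (Complex.exp (σ * I) * I) σ := by
    have h := ((hasDerivAt_id σ).mul_const I).cexp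
    simpa using h
  exact h1.prodMk (hasDerivAt_const σ (0 : ℂ))

theorem R23_norm (t : ℝ) : normSq (Complex.exp ((t : ℂ) * I)) = 1 := by
  rw [normSq_eq_norm_sq, Complex.norm_exp_ofReal_mul_I]; norm_num

theorem R23_kap (t : ℝ) : kap phi0 t = 1 := by
  unfold kap
  rw [(R23_hasDeriv (t : ℂ)).deriv]
  have h : dot (Complex.exp ((t : ℂ) * I) * I, 0) (cj (phi0 t)) = I := by
    simp only [dot, cj, phi0, map_zero, mul_zero, add_zero]
    have h2 : Complex.exp ((t : ℂ) * I) * I * (starRingEnd ℂ) (Complex.exp ((t : ℂ) * I)) =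
        I * (Complex.exp ((t : ℂ) * I) * (starRingEnd ℂ) (Complex.exp ((t : ℂ) * I))) := by ring
    rw [h2, mul_conj, R23_norm]; simp
  rw [h]; simp

theorem R23_sep (s t : ℝ) (h : |s - t| ≤ Real.pi) :
    4 / Real.pi ^ 2 * (s - t) ^ 2 ≤ nsq (phi0 s - phi0 t) := by
  have e : nsq (phi0 s - phi0 t) = 2 - 2 * Real.cos (s - t) := by
    simp only [nsq, phi0, Prod.fst_sub, Prod.snd_sub, sub_self, map_zero, add_zero]
    rw [normSq_apply]
    simp only [sub_re, sub_im, Complex.exp_ofReal_mul_I_re, Complex.exp_ofReal_mul_I_im]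
    rw [Real.cos_sub]
    have h1 := Real.sin_sq_add_cos_sq s
    have h2 := Real.sin_sq_add_cos_sq t
    nlinarith
  rw [e]
  have h3 := Real.cos_le_one_sub_mul_cos_sq h
  have h4 : 4 / Real.pi ^ 2 * (s - t) ^ 2 = 2 * (2 / Real.pi ^ 2 * (s - t) ^ 2) := by ring
  rw [h4]; linarith

/-- ROW R23.  `κ = 1`, `n(t) = (0, e^{-it})`, `F = z₂`; separation: `|e^{is} - e^{it}| = 2 |sin((s-t)/2)| ≥ (2/π)|s-t|` for `|s-t| ≤ π`
(`Real.mul_abs_le_abs_sin` or `Real.mul_le_sin`). -/
theorem stage0 : Stage 2 phi0 (fun z => z.2) := by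
  refine ⟨⟨by norm_num, ?_, ?_, ?_, ?_, ?_⟩, ?_, ?_, ?_⟩
  · intro σ _
    exact (R23_hasDeriv σ).differentiableAt.differentiableWithinAt
  · intro σ
    simp only [phi0]
    have : (σ + 2 * (Real.pi : ℂ)) * I = σ * I + 2 * (Real.pi : ℂ) * I := by ring
    rw [this, Complex.exp_periodic]
  · intro t
    simp only [nsq, phi0, map_zero, add_zero]
    exact R23_norm t
  · intro t
    rw [R23_kap]; norm_num
  · exact ⟨4 / Real.pi ^ 2, by positivity, fun s t h => R23_sep s t h⟩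
  · exact differentiable_snd
  · intro σ _
    simp [phi0]
  · intro t
    have h1 : fderiv ℂ (fun z : C2 => z.2) (phi0 t) = ContinuousLinearMap.snd ℂ ℂ ℂ :=
      (hasFDerivAt_snd (𝕜 := ℂ)).fderiv
    rw [h1]
    simp only [ContinuousLinearMap.coe_snd', nv, refl, cj, phi0]
    simp [Complex.exp_ne_zero]

/-- ROW R23. -/
theorem phi0_mem (t y : ℝ) (hy : 0 < y) : phi0 ((t : ℂ) + (y : ℂ) * I) ∈ Bo := by
  show nsq _ < 1
  simp only [nsq, phi0, map_zero, add_zero]
  rw [normSq_eq_norm_sq, Complex.norm_exp]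
  have h1 : (((t : ℂ) + (y : ℂ) * I) * I).re = -y := by simp
  rw [h1]
  have h2 : Real.exp (-y) < 1 := Real.exp_lt_one_iff.2 (by linarith)
  have h3 := Real.exp_pos (-y)
  nlinarith

end MP18cae5
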