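import Pool.Agent.Lib.MP_18cae5_an.Tower
import Pool.Agent.Lib.MP_18cae5_an.R22
import Pool.Agent.Lib.MP_18cae5_an.R23

/-! Row R24: construction of the tower by dependent choice. -/

set_option autoImplicit false

namespace MP18cae5

open Complex MeasureTheory Set Filter Topology

/-- ROW R24.  For every `k` and `H > 0` there is an admissible error: `x ↦ x^p` (`p > 0`) tends to `0` at `0`. -/
theorem exists_err (k : ℕ) (H b : ℝ) (hb : 0 < b) : ∃ e : ℝ, 0 < e ∧ e ≤ b ∧
    (2 * 4 ^ (k + 1) * e) ^ ((1 / 4 : ℝ) * (1 / 3) ^ (⌈52 / H⌉₊)) ≤ 1 / (k + 1 : ℝ) := by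
  set p : ℝ := (1 / 4 : ℝ) * (1 / 3) ^ (⌈52 / H⌉₊) with hp
  have hp0 : 0 < p := by rw [hp]; positivity
  have hk : (0 : ℝ) < 1 / (k + 1 : ℝ) := by positivity
  refine ⟨min b ((1 / (k + 1 : ℝ)) ^ (1 / p) / (2 * 4 ^ (k + 1))), ?_, min_le_left _ _, ?_⟩
  · exact lt_min hb (by positivity)
  · have h1 : 2 * 4 ^ (k + 1) * min b ((1 / (k + 1 : ℝ)) ^ (1 / p) / (2 * 4 ^ (k + 1))) ≤
        (1 / (k + 1 : ℝ)) ^ (1 / p) := by
      calc 2 * 4 ^ (k + 1) * min b ((1 / (k + 1 : ℝ)) ^ (1 / p) / (2 * 4 ^ (k + 1)))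
          ≤ 2 * 4 ^ (k + 1) * ((1 / (k + 1 : ℝ)) ^ (1 / p) / (2 * 4 ^ (k + 1))) := by
            gcongr
            exact min_le_right _ _
        _ = _ := by field_simp
    calc _ ≤ ((1 / (k + 1 : ℝ)) ^ (1 / p)) ^ p := by
          apply Real.rpow_le_rpow _ h1 hp0.le
          have : 0 ≤ min b ((1 / (k + 1 : ℝ)) ^ (1 / p) / (2 * 4 ^ (k + 1))) :=
            le_min hb.le (by positivity)
          positivity
      _ = 1 / (k + 1 : ℝ) := by
          rw [← Real.rpow_mul hk.le, one_div_mul_cancel hp0.ne', Real.rpow_one]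

/-- the state at stage `k` -/
structure R24_St (k : ℕ) where
  h : ℝ
  φ : ℂ → C2
  F : C2 → ℂ
  H : ℝ
  e : ℝ
  R : ℕ → C2 → ℂ
  hS : Stage h φ F
  hHh : H < h
  Hpos : 0 < H
  inB : ∀ t y : ℝ, 0 < y → y ≤ H → φ ((t : ℂ) + (y : ℂ) * I) ∈ Bo
  epos : 0 < e
  esup : (2 * 4 ^ (k + 1) * e) ^ ((1 / 4 : ℝ) * (1 / 3) ^ (⌈52 / H⌉₊)) ≤ 1 / (k + 1 : ℝ)
  R_ent : ∀ j < k, Differentiable ℂ (R j)
  R_zero : ∀ j < k, ∀ t : ℝ, R j (φ t) = 0

/-- the relation between consecutive states -/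
structure R24_Rel (k : ℕ) (a : R24_St k) (E : C2 → ℂ) (b : R24_St (k + 1)) : Prop where
  E_ent : Differentiable ℂ E
  E_zero : ∀ t : ℝ, E (b.φ t) = 0
  E_small : ∀ j < k, ∀ z ∈ Bc, ‖a.R j z * (E z - 1)‖ ≤ (1 / 2 : ℝ) ^ (k + 3)
  E_far : ∀ z ∈ Bc, (∀ t : ℝ, (1 / 4 : ℝ) ^ k ≤ nsq (z - a.φ t)) →
    ‖E z - 1‖ ≤ (1 / 2 : ℝ) ^ (k + 3)
  close : ∀ t y : ℝ, |y| ≤ b.H →
    nsq (b.φ ((t : ℂ) + (y : ℂ) * I) - a.φ t) ≤ ((1 / 2 : ℝ) ^ (k + 9)) ^ 2
  H_le : b.H ≤ lam k ^ 2 / 8
  H_dec : b.H ≤ a.H / 2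
  e_dec : b.e ≤ a.e ^ 2 / 4
  hug : ∀ f : C2 → ℂ, DifferentiableOn ℂ f Bo → (∀ z ∈ Bo, ‖f z‖ ≤ 1) →
    ∀ t y : ℝ, lam k * b.H / 4 ≤ y → y ≤ lam k * b.H / 2 →
      ‖f (b.φ ((t : ℂ) + (y : ℂ) * I)) - f (a.φ ((t : ℂ) + (y : ℂ) * I))‖ ≤ a.e
  R_lt : ∀ j < k, ∀ z, b.R j z = a.R j z * E z
  R_self : ∀ z, b.R k z = E z

theorem R24_lam_pos (k : ℕ) : 0 < lam k := by unfold lam; positivity

theorem R24_lam_le (k : ℕ) : lam k ≤ 1 := by
  unfold lam
  exact pow_le_one₀ (by norm_num) (by norm_num)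

theorem R24_step (k : ℕ) (a : R24_St k) : ∃ (E : C2 → ℂ) (b : R24_St (k + 1)), R24_Rel k a E b := by
  obtain ⟨T, Φ, hT, hT1, hSt, hB, heq, hcl, hhug⟩ := step a.hS
  obtain ⟨m1, hm1⟩ := hcl (((1 / 2 : ℝ) ^ (k + 9)) ^ 2) (by positivity)
  obtain ⟨m2, hm2⟩ := hhug (lam k) a.e (R24_lam_pos k) (R24_lam_le k) a.epos
  obtain ⟨m4, hm41, hm4⟩ := PF_far a.hS ((1 / 4 : ℝ) ^ k) (by positivity) ((1 / 2 : ℝ) ^ (k + 3))
    (by positivity)
  have h3 : ∀ᶠ M : ℝ in atTop, ∀ j ∈ Finset.range k, ∀ z ∈ Bc,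
      ‖a.R j z * (Pk a.φ M z * a.F z / eps M)‖ ≤ (1 / 2 : ℝ) ^ (k + 3) := by
    rw [Filter.eventually_all_finset]
    intro j hj
    rw [Finset.mem_range] at hj
    obtain ⟨m3, _, hm3⟩ := gPF_small a.hS (a.R_ent j hj) (a.R_zero j hj) ((1 / 2 : ℝ) ^ (k + 3))
      (by positivity)
    filter_upwards [eventually_ge_atTop m3] with M hM
    exact hm3 M hM
  obtain ⟨m3, hm3⟩ := eventually_atTop.1 h3
  set L : ℝ := lam k ^ 2 / 8 with hL
  have hL0 : 0 < L := by rw [hL]; have := R24_lam_pos k; positivity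
  obtain ⟨M, hMT, hM⟩ := hT (max (max m1 m2) (max (max m3 m4) (max (2 / L) (2 / (a.H / 2)))))
  have hM1 : 1 ≤ M := hT1 M hMT
  have hMpos : 0 < M := lt_of_lt_of_le one_pos hM1
  have hMm1 : m1 ≤ M := ((le_max_left _ _).trans (le_max_left _ _)).trans hM
  have hMm2 : m2 ≤ M := ((le_max_right _ _).trans (le_max_left _ _)).trans hM
  have hMm3 : m3 ≤ M := ((le_max_left _ _).trans ((le_max_left _ _).trans (le_max_right _ _))).trans hM
  have hMm4 : m4 ≤ M := ((le_max_right _ _).trans ((le_max_left _ _).trans (le_max_right _ _))).trans hM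
  have hML : 2 / L ≤ M := ((le_max_left _ _).trans ((le_max_right _ _).trans (le_max_right _ _))).trans hM
  have hMH : 2 / (a.H / 2) ≤ M :=
    ((le_max_right _ _).trans ((le_max_right _ _).trans (le_max_right _ _))).trans hM
  have hH2 : 0 < a.H / 2 := by have := a.Hpos; positivity
  have hb1 : 2 / M ≤ L := by
    rw [div_le_iff₀ hMpos]
    rw [div_le_iff₀ hL0] at hML
    linarith
  have hb2 : 2 / M ≤ a.H / 2 := by
    rw [div_le_iff₀ hMpos]
    rw [div_le_iff₀ hH2] at hMH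
    linarith
  obtain ⟨e', he', hedec, hesup⟩ := exists_err (k + 1) (2 / M) (a.e ^ 2 / 4)
    (by have := a.epos; positivity)
  have hPe : Differentiable ℂ (Pk a.φ M) := Pk_entire a.hS.cur M
  have hEe : Differentiable ℂ (fun z => 1 - Pk a.φ M z * a.F z / eps M) := by
    simp only [div_eq_mul_inv]
    exact (differentiable_const _).sub ((hPe.mul a.hS.ent).mul_const _)
  have heps : (eps M : ℂ) ≠ 0 := by exact_mod_cast (eps_pos hMpos).ne'
  have hEz : ∀ t : ℝ, (fun z => 1 - Pk a.φ M z * a.F z / eps M) (Φ M t) = 0 := by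
    intro t
    simp only
    rw [heq M hMT t, div_self heps, sub_self]
  refine ⟨fun z => 1 - Pk a.φ M z * a.F z / eps M,
    { h := 5 / (2 * M), φ := Φ M, F := newF a.φ a.F M, H := 2 / M, e := e',
      R := fun j => if j < k then fun z => a.R j z * (1 - Pk a.φ M z * a.F z / eps M)
        else fun z => 1 - Pk a.φ M z * a.F z / eps M
      hS := hSt M hMT
      hHh := by
        rw [div_lt_div_iff₀ hMpos (by positivity)]
        nlinarith
      Hpos := by positivity
      inB := hB M hMT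
      epos := he'
      esup := hesup
      R_ent := ?_
      R_zero := ?_ }, ?_⟩
  · intro j hj
    by_cases h : j < k
    · rw [if_pos h]
      exact (a.R_ent j h).mul hEe
    · rw [if_neg h]
      exact hEe
  · intro j hj t
    by_cases h : j < k
    · rw [if_pos h]
      have := hEz t
      simp only at this ⊢
      rw [this, mul_zero]
    · rw [if_neg h]
      exact hEz t
  · refine ⟨hEe, hEz, ?_, ?_, ?_, hb1, hb2, hedec, ?_, ?_, ?_⟩
    · intro j hj z hz
      have := hm3 M hMm3 j (Finset.mem_range.2 hj) z hz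
      have e1 : a.R j z * ((fun z => 1 - Pk a.φ M z * a.F z / eps M) z - 1) =
          -(a.R j z * (Pk a.φ M z * a.F z / eps M)) := by simp only; ring
      rw [e1, norm_neg]
      exact this
    · intro z hz hfar
      have := hm4 M hMm4 z hz hfar
      have e1 : (fun z => 1 - Pk a.φ M z * a.F z / eps M) z - 1 =
          -(Pk a.φ M z * a.F z / eps M) := by simp only; ring
      rw [e1, norm_neg]
      exact this
    · exact hm1 M hMT hMm1
    · intro f hf hf1 t y h1 h2
      refine hm2 M hMT hMm2 f hf hf1 t y ?_ ?_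
      · refine le_trans (le_of_eq ?_) h1
        show lam k / (2 * M) = lam k * (2 / M) / 4
        field_simp
        ring
      · refine h2.trans (le_of_eq ?_)
        show lam k * (2 / M) / 2 = lam k / M
        field_simp
    · intro j hj z
      simp only
      rw [if_pos hj]
    · intro z
      simp only
      rw [if_neg (lt_irrefl k)]

/-- the initial state -/
theorem R24_start : ∃ a : R24_St 0, a.φ = phi0 ∧ a.H = 1 ∧ a.e ≤ 1 / 64 := by
  obtain ⟨e, he, he1, hsup⟩ := exists_err 0 1 (1 / 64) (by norm_num)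
  refine ⟨{ h := 2
            φ := phi0
            F := fun z => z.2
            H := 1
            e := e
            R := fun _ _ => 0
            hS := stage0
            hHh := by norm_num
            Hpos := one_pos
            inB := fun t y hy _ => phi0_mem t y hy
            epos := he
            esup := hsup
            R_ent := fun j hj => absurd hj (Nat.not_lt_zero j)
            R_zero := fun j hj => absurd hj (Nat.not_lt_zero j) }, rfl, rfl, he1⟩

/-- the sequence of states -/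
noncomputable def R24_seq : (k : ℕ) → R24_St k
  | 0 => Classical.choose R24_start
  | k + 1 => Classical.choose (Classical.choose_spec (R24_step k (R24_seq k)))

/-- the sequence of factors -/
noncomputable def R24_E (k : ℕ) : C2 → ℂ := Classical.choose (R24_step k (R24_seq k))

theorem R24_rel (k : ℕ) : R24_Rel k (R24_seq k) (R24_E k) (R24_seq (k + 1)) :=
  Classical.choose_spec (Classical.choose_spec (R24_step k (R24_seq k)))

theorem R24_prod (j : ℕ) (z : C2) : ∀ n : ℕ, (R24_seq (j + 1 + n)).R j z =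
    ∏ i ∈ Finset.Ico j (j + 1 + n), R24_E i z := by
  intro n
  induction n with
  | zero =>
    rw [Nat.add_zero, Finset.prod_Ico_succ_top le_rfl, Finset.Ico_self, Finset.prod_empty, one_mul]
    exact (R24_rel j).R_self z
  | succ n ih =>
    rw [show j + 1 + (n + 1) = (j + 1 + n) + 1 from rfl,
      Finset.prod_Ico_succ_top (by omega), ← ih]
    exact (R24_rel (j + 1 + n)).R_lt j (by omega) z

/-- ROW R24.  State at stage `k`: `(h, φ, F)` with `Stage h φ F`, `H < h`, `H > 0`, `inB`, the error `e > 0` chosen for this stage (`e_super`), and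
the past functions `R j` (`j < k`), entire and zero on `φ t`.  Step: apply `step` and choose `M ∈ T` so large that
`H' = 2/M ≤ λ_k²/8`, `≤ H/2`; `close` with `δ = ((1/2)^(k+9))²`; `hug` with `lam k`, `δ = e` (`λ_k/(2M) = λ_k H'/4`);
`gPF_small` for `g = R j`, all `j < k`, with `δ = (1/2)^(k+3)` (`E_k - 1 = - Pk φ M z * F z/eps M`), `PF_far` with `r = (1/4)^k`.
New past: `R' j = R j * E_k` (`j < k`), `R' k = E_k`, so that `R_{j,k} = ∏_{i ∈ Ico j k} E_i`; `e' = exists_err (k+1) H' (e²/4)`.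
Start: `stage0`, `phi0_mem`, `h = 2`, `H = 1`, `e ≤ 1/64`.
(Keep the last `E` in the state; the sequence exists by `exists_seq`-style recursion on a subtype, e.g. `Nat.rec` with
`Classical.choose`.) -/
theorem exists_tower : ∃ (φ : ℕ → ℂ → C2) (E : ℕ → C2 → ℂ) (H e : ℕ → ℝ), Tower φ E H e := by
  obtain ⟨hφ0, hH0, he0⟩ := Classical.choose_spec R24_start
  refine ⟨fun k => (R24_seq k).φ, R24_E, fun k => (R24_seq k).H, fun k => (R24_seq k).e, ?_⟩
  refine
    { start := ?_
      holo := fun k => ⟨(R24_seq k).h, (R24_seq k).hHh, (R24_seq k).hS.cur.holo⟩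
      per := fun k => (R24_seq k).hS.cur.per
      unit := fun k => (R24_seq k).hS.cur.unit
      inB := fun k => (R24_seq k).inB
      E_ent := fun k => (R24_rel k).E_ent
      E_zero := fun k => (R24_rel k).E_zero
      E_small := ?_
      E_far := fun k => (R24_rel k).E_far
      close := fun k => (R24_rel k).close
      H_pos := fun k => (R24_seq k).Hpos
      H_le := fun k => (R24_rel k).H_le
      H_dec := fun k => (R24_rel k).H_dec
      e_pos := fun k => (R24_seq k).epos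
      e_zero := he0
      e_dec := fun k => (R24_rel k).e_dec
      e_super := fun k => (R24_seq k).esup
      hug := fun k => (R24_rel k).hug }
  · intro t
    show (R24_seq 0).φ t = _
    have : (R24_seq 0).φ = phi0 := hφ0
    rw [this]
    rfl
  · intro j k hjk z hz
    obtain ⟨n, rfl⟩ : ∃ n, k = j + 1 + n := ⟨k - (j + 1), by omega⟩
    rw [← R24_prod j z n]
    exact (R24_rel (j + 1 + n)).E_small j hjk z hz

end MP18cae5
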