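import Mathlib

/-! Row R25: a two constants theorem for strips. -/

set_option autoImplicit false

namespace MP18cae5

open Complex MeasureTheory Set Filter Topology

theorem R25_cos_one_half : (1 : ℝ) / 2 ≤ Real.cos 1 := by
  rw [← Real.cos_pi_div_three]
  apply Real.cos_le_cos_of_nonneg_of_le_pi (by norm_num)
  · have := Real.pi_gt_three
    have := Real.pi_pos
    linarith
  · have := Real.pi_gt_three
    linarith

theorem R25_cos_re (z : ℂ) : (Complex.cos z).re = Real.cos z.re * Real.cosh z.im := by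
  conv_lhs => rw [← Complex.re_add_im z]
  rw [Complex.cos_add_mul_I]
  simp [← Complex.ofReal_cos, ← Complex.ofReal_cosh, ← Complex.ofReal_sin, ← Complex.ofReal_sinh]

theorem R25_norm_E (β : ℝ) (z : ℂ) :
    ‖Complex.exp (-(β : ℂ) * Complex.cos z)‖ = Real.exp (-β * (Real.cos z.re * Real.cosh z.im)) := by
  rw [Complex.norm_exp, ← R25_cos_re]
  simp

/-- ROW R25.  Put `H = b - a`, `β = 2 log(1/ν) exp(-r/H)/cos 1`, `E(σ) = exp(-β cosh((σ - t0 - ia)/H))`.  For `σ = t + iu`,
`Re cosh((σ-t0-ia)/H) = cosh((t-t0)/H) cos((u-a)/H) ≥ 0` on the closed strip (`0 ≤ (u-a)/H ≤ 1 < π/2`), so `‖E‖ ≤ 1`.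
On the line `Im = a`: `‖gE‖ ≤ ν` if `|t-t0| ≤ r`, and for `|t-t0| > r` `cosh ≥ exp(r/H)/2` gives
`‖E‖ ≤ exp(-β exp(r/H)/2) = ν^(1/cos 1) ≤ ν`.  Hadamard's three lines theorem (`Complex.HadamardThreeLines`, for vertical strips: compose
with `z ↦ t0 + i(a + H z)`... or with `z ↦ i z`) gives `‖gE(t0+iy)‖ ≤ ν^(1-(y-a)/H)`, and `‖E(t0+iy)‖ ≥ exp(-β)
= ν^(2 exp(-r/H)/cos 1) ≥ ν^(4 exp(-r/H))` because `cos 1 ≥ 1/2` (`Real.cos_one_pos`, `Real.cos_one_le`,
`cos 1 ≥ cos (π/3)`). -/
theorem two_const {g : ℂ → ℂ} {a b : ℝ} (hab : a < b)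
    (hg : DifferentiableOn ℂ g {σ : ℂ | a < σ.im ∧ σ.im < b})
    (hc : ContinuousOn g {σ : ℂ | a ≤ σ.im ∧ σ.im ≤ b})
    (h1 : ∀ σ : ℂ, a ≤ σ.im → σ.im ≤ b → ‖g σ‖ ≤ 1) (ν : ℝ) (hν : 0 < ν) (hν1 : ν ≤ 1)
    (t0 r : ℝ) (hr : 0 < r) (hs : ∀ t : ℝ, |t - t0| ≤ r → ‖g ((t : ℂ) + (a : ℂ) * I)‖ ≤ ν)
    (y : ℝ) (hy : a ≤ y) (hy' : y ≤ b) :
    ‖g ((t0 : ℂ) + (y : ℂ) * I)‖ ≤ ν ^ (1 - (y - a) / (b - a) - 4 * Real.exp (-(r / (b - a)))) := by
  have hH : 0 < b - a := by linarith
  have hc1 := R25_cos_one_half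
  have hc1p : 0 < Real.cos 1 := by linarith
  have hc1l : Real.cos 1 ≤ 1 := Real.cos_le_one 1
  have hlog : 0 ≤ Real.log (1 / ν) := by
    apply Real.log_nonneg
    rw [le_div_iff₀ hν]; linarith
  set β : ℝ := 2 * Real.log (1 / ν) * Real.exp (-(r / (b - a))) / Real.cos 1 with hβ
  have hβ0 : 0 ≤ β := by positivity
  have him : ∀ z : ℂ, ((t0 : ℂ) + ((a : ℂ) + ((b - a : ℝ) : ℂ) * z) * I).im = a + (b - a) * z.re := by
    intro z; simp
  have hre : ∀ z : ℂ, ((t0 : ℂ) + ((a : ℂ) + ((b - a : ℝ) : ℂ) * z) * I).re = t0 - (b - a) * z.im := by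
    intro z; simp; ring
  set f : ℂ → ℂ := fun z => g ((t0 : ℂ) + ((a : ℂ) + ((b - a : ℝ) : ℂ) * z) * I) *
    Complex.exp (-(β : ℂ) * Complex.cos z) with hf
  have hEle : ∀ z : ℂ, 0 ≤ z.re → z.re ≤ 1 → ‖Complex.exp (-(β : ℂ) * Complex.cos z)‖ ≤ 1 := by
    intro z h0 h1'
    rw [R25_norm_E]
    apply Real.exp_le_one_iff.2
    have : 0 ≤ Real.cos z.re := by
      apply Real.cos_nonneg_of_neg_pi_div_two_le_of_le
      · have := Real.pi_pos; linarith
      · have := Real.pi_gt_three; linarith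
    have h2 : 0 ≤ Real.cos z.re * Real.cosh z.im := mul_nonneg this (Real.cosh_pos _).le
    nlinarith
  have hfle : ∀ z : ℂ, 0 ≤ z.re → z.re ≤ 1 → ‖f z‖ ≤ 1 := by
    intro z h0 h1'
    have hg1 : ‖g ((t0 : ℂ) + ((a : ℂ) + ((b - a : ℝ) : ℂ) * z) * I)‖ ≤ 1 := by
      apply h1
      · rw [him]; nlinarith
      · rw [him]; nlinarith
    rw [hf]
    simp only [norm_mul]
    calc _ ≤ 1 * 1 := mul_le_mul hg1 (hEle z h0 h1') (norm_nonneg _) zero_le_one
      _ = 1 := one_mul 1
  have hlin : Differentiable ℂ (fun z : ℂ => (t0 : ℂ) + ((a : ℂ) + ((b - a : ℝ) : ℂ) * z) * I) := by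
    fun_prop
  have hexpd : Differentiable ℂ (fun z : ℂ => Complex.exp (-(β : ℂ) * Complex.cos z)) := by
    fun_prop
  have hd : DiffContOnCl ℂ f (Complex.HadamardThreeLines.verticalStrip 0 1) := by
    constructor
    · apply DifferentiableOn.mul _ hexpd.differentiableOn
      apply hg.comp hlin.differentiableOn
      intro z hz
      simp only [Complex.HadamardThreeLines.verticalStrip, mem_preimage, mem_Ioo] at hz
      simp only [mem_setOf_eq]
      rw [him]
      constructor <;> nlinarith [hz.1, hz.2]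
    · have hcl : closure (Complex.HadamardThreeLines.verticalStrip 0 1) ⊆
          {z : ℂ | 0 ≤ z.re ∧ z.re ≤ 1} := by
        apply closure_minimal
        · intro z hz
          simp only [Complex.HadamardThreeLines.verticalStrip, mem_preimage, mem_Ioo] at hz
          exact ⟨hz.1.le, hz.2.le⟩
        · exact (isClosed_le continuous_const Complex.continuous_re).inter
            (isClosed_le Complex.continuous_re continuous_const)
      apply ContinuousOn.mono _ hcl
      apply ContinuousOn.mul _ hexpd.continuous.continuousOn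
      apply hc.comp hlin.continuous.continuousOn
      intro z hz
      simp only [mem_setOf_eq] at hz ⊢
      rw [him]
      constructor <;> nlinarith [hz.1, hz.2]
  have hB : BddAbove ((norm ∘ f) '' Complex.HadamardThreeLines.verticalClosedStrip 0 1) := by
    refine ⟨1, ?_⟩
    rintro _ ⟨z, hz, rfl⟩
    simp only [Complex.HadamardThreeLines.verticalClosedStrip, mem_preimage, mem_Icc] at hz
    exact hfle z hz.1 hz.2
  have hleft : ∀ z ∈ re ⁻¹' {(0 : ℝ)}, ‖f z‖ ≤ ν := by
    intro z hz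
    have hz0 : z.re = 0 := by simpa using hz
    have hσ : (t0 : ℂ) + ((a : ℂ) + ((b - a : ℝ) : ℂ) * z) * I =
        ((t0 - (b - a) * z.im : ℝ) : ℂ) + (a : ℂ) * I := by
      apply Complex.ext
      · rw [hre]; simp
      · rw [him, hz0]; simp
    rw [hf]
    simp only [norm_mul]
    by_cases hc2 : |(t0 - (b - a) * z.im) - t0| ≤ r
    · have := hs _ hc2
      rw [hσ]
      calc _ ≤ ν * 1 := mul_le_mul this (hEle z hz0.ge (by rw [hz0]; norm_num)) (norm_nonneg _) hν.le
        _ = ν := mul_one ν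
    · have hg1 : ‖g ((t0 : ℂ) + ((a : ℂ) + ((b - a : ℝ) : ℂ) * z) * I)‖ ≤ 1 := by
        apply h1
        · rw [him, hz0]; simp
        · rw [him, hz0]; nlinarith
      have hE : ‖Complex.exp (-(β : ℂ) * Complex.cos z)‖ ≤ ν := by
        rw [R25_norm_E, hz0, Real.cos_zero, one_mul]
        push Not at hc2
        have e1 : |(t0 - (b - a) * z.im) - t0| = (b - a) * |z.im| := by
          rw [show (t0 - (b - a) * z.im) - t0 = -((b - a) * z.im) by ring, abs_neg, abs_mul,
            abs_of_pos hH]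
        rw [e1] at hc2
        have e2 : r / (b - a) ≤ |z.im| := by
          rw [div_le_iff₀ hH]; nlinarith
        have e3 : Real.exp (r / (b - a)) / 2 ≤ Real.cosh z.im := by
          rw [← Real.cosh_abs, Real.cosh_eq]
          have := Real.exp_le_exp.2 e2
          have := Real.exp_pos (-|z.im|)
          linarith
        have e4 : Real.log (1 / ν) ≤ β * Real.cosh z.im := by
          calc Real.log (1 / ν) ≤ Real.log (1 / ν) / Real.cos 1 := by
                rw [le_div_iff₀ hc1p]; nlinarith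
            _ = β * (Real.exp (r / (b - a)) / 2) := by
                rw [hβ, Real.exp_neg]
                have := (Real.exp_pos (r / (b - a))).ne'
                field_simp
            _ ≤ β * Real.cosh z.im := mul_le_mul_of_nonneg_left e3 hβ0
        calc Real.exp (-β * Real.cosh z.im) ≤ Real.exp (-Real.log (1 / ν)) := by
              apply Real.exp_le_exp.2; linarith
          _ = ν := by
              rw [one_div, Real.log_inv, neg_neg, Real.exp_log hν]
      calc _ ≤ 1 * ν := mul_le_mul hg1 hE (norm_nonneg _) zero_le_one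
        _ = ν := one_mul ν
  have hright : ∀ z ∈ re ⁻¹' {(1 : ℝ)}, ‖f z‖ ≤ 1 := by
    intro z hz
    have hz0 : z.re = 1 := by simpa using hz
    exact hfle z (by rw [hz0]; norm_num) hz0.le
  set s : ℝ := (y - a) / (b - a) with hsdef
  have hs0 : 0 ≤ s := div_nonneg (by linarith) hH.le
  have hs1 : s ≤ 1 := by rw [hsdef, div_le_one hH]; linarith
  have key := Complex.HadamardThreeLines.norm_le_interp_of_mem_verticalClosedStrip₀₁' f (z := (s : ℂ))
    (by simp only [Complex.HadamardThreeLines.verticalClosedStrip, mem_preimage, mem_Icc, Complex.ofReal_re]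
        exact ⟨hs0, hs1⟩) hd hB hleft hright
  simp only [Complex.ofReal_re, Real.one_rpow, mul_one] at key
  have hpt : (t0 : ℂ) + ((a : ℂ) + ((b - a : ℝ) : ℂ) * (s : ℂ)) * I = (t0 : ℂ) + (y : ℂ) * I := by
    have : a + (b - a) * s = y := by
      rw [hsdef]; field_simp; ring
    rw [← this]; push_cast; ring
  have hfs : ‖f s‖ = ‖g ((t0 : ℂ) + (y : ℂ) * I)‖ * Real.exp (-β * Real.cos s) := by
    rw [hf]
    simp only [norm_mul]
    rw [hpt, R25_norm_E]
    simp
  have hlow : Real.exp (-β) ≤ Real.exp (-β * Real.cos s) := by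
    apply Real.exp_le_exp.2
    have := Real.cos_le_one s
    nlinarith
  have h3 : ‖g ((t0 : ℂ) + (y : ℂ) * I)‖ * Real.exp (-β) ≤ ν ^ (1 - s) := by
    calc _ ≤ ‖g ((t0 : ℂ) + (y : ℂ) * I)‖ * Real.exp (-β * Real.cos s) :=
          mul_le_mul_of_nonneg_left hlow (norm_nonneg _)
      _ = ‖f s‖ := hfs.symm
      _ ≤ _ := key
  have h4 : ‖g ((t0 : ℂ) + (y : ℂ) * I)‖ ≤ ν ^ (1 - s) * Real.exp β := by
    have hp := Real.exp_pos β
    calc ‖g ((t0 : ℂ) + (y : ℂ) * I)‖
        = (‖g ((t0 : ℂ) + (y : ℂ) * I)‖ * Real.exp (-β)) * Real.exp β := by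
          rw [mul_assoc, ← Real.exp_add]; simp
      _ ≤ ν ^ (1 - s) * Real.exp β := mul_le_mul_of_nonneg_right h3 hp.le
  have h5 : Real.exp β ≤ ν ^ (-(4 * Real.exp (-(r / (b - a))))) := by
    rw [Real.rpow_def_of_pos hν]
    apply Real.exp_le_exp.2
    have hl2 : Real.log ν = -Real.log (1 / ν) := by
      rw [one_div, Real.log_inv, neg_neg]
    rw [hl2, hβ, div_le_iff₀ hc1p]
    have hx : 0 ≤ Real.log (1 / ν) * Real.exp (-(r / (b - a))) := by positivity
    nlinarith
  calc _ ≤ ν ^ (1 - s) * Real.exp β := h4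
    _ ≤ ν ^ (1 - s) * ν ^ (-(4 * Real.exp (-(r / (b - a))))) :=
        mul_le_mul_of_nonneg_left h5 (Real.rpow_nonneg hν.le _)
    _ = ν ^ (1 - s - 4 * Real.exp (-(r / (b - a)))) := by
        rw [← Real.rpow_add hν]; ring_nf

end MP18cae5
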