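import Mathlib

/-! Row R26: three circles and a chain of discs. -/

set_option autoImplicit false

namespace MP18cae5

open Complex MeasureTheory Set Filter Topology

theorem R26_circle {g : ℂ → ℂ} {p : ℂ} {r : ℝ} (hr : 0 < r)
    (hg : DifferentiableOn ℂ g (Metric.ball p (3 * r)))
    (ν : ℝ) (hs : ∀ z ∈ Metric.ball p r, ‖g z‖ ≤ ν) (z : ℂ) (hz : ‖z - p‖ = r) : ‖g z‖ ≤ ν := by
  have hz3 : z ∈ Metric.ball p (3 * r) := by
    rw [Metric.mem_ball, dist_eq_norm, hz]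
    linarith
  have hc : ContinuousAt g z := (hg.continuousOn).continuousAt (Metric.isOpen_ball.mem_nhds hz3)
  have hcl : z ∈ closure (Metric.ball p r) := by
    rw [closure_ball p hr.ne', Metric.mem_closedBall, dist_eq_norm, hz]
  have h2 : ContinuousWithinAt (fun w => ‖g w‖) (Metric.ball p r) z := hc.norm.continuousWithinAt
  have h3 := h2.mem_closure_image hcl
  have h4 : closure ((fun w => ‖g w‖) '' Metric.ball p r) ⊆ Set.Iic ν := by
    apply closure_minimal _ isClosed_Iic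
    rintro _ ⟨w, hw, rfl⟩
    exact hs w hw
  exact h4 h3

theorem R26_lines {g : ℂ → ℂ} {p : ℂ} {r : ℝ} (hr : 0 < r)
    (hg : DifferentiableOn ℂ g (Metric.ball p (3 * r))) (h1 : ∀ z ∈ Metric.ball p (3 * r), ‖g z‖ ≤ 1)
    (ν : ℝ) (hν : 0 < ν) (hν1 : ν ≤ 1) (hs : ∀ z ∈ Metric.ball p r, ‖g z‖ ≤ ν)
    (w : ℂ) (hw1 : Real.log r ≤ w.re) (hw2 : w.re ≤ Real.log (2 * r)) :
    ‖g (p + exp w)‖ ≤ ν ^ (1 / 3 : ℝ) := by
  have hl : Real.log r < Real.log (2.9 * r) := Real.log_lt_log hr (by linarith)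
  have hl2 : Real.log (2 * r) < Real.log (2.9 * r) := Real.log_lt_log (by linarith) (by linarith)
  have hball : ∀ z : ℂ, z.re ≤ Real.log (2.9 * r) → p + exp z ∈ Metric.ball p (3 * r) := by
    intro z hz
    rw [Metric.mem_ball, dist_eq_norm, add_sub_cancel_left, Complex.norm_exp]
    calc Real.exp z.re ≤ Real.exp (Real.log (2.9 * r)) := Real.exp_le_exp.mpr hz
      _ = 2.9 * r := Real.exp_log (by positivity)
      _ < 3 * r := by linarith
  have hclo : closure (HadamardThreeLines.verticalStrip (Real.log r) (Real.log (2.9 * r))) ⊆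
      HadamardThreeLines.verticalClosedStrip (Real.log r) (Real.log (2.9 * r)) := by
    apply closure_minimal
    · intro z hz
      exact ⟨hz.1.le, hz.2.le⟩
    · exact isClosed_Icc.preimage Complex.continuous_re
  have hd : DiffContOnCl ℂ (fun z => g (p + exp z))
      (HadamardThreeLines.verticalStrip (Real.log r) (Real.log (2.9 * r))) := by
    apply DifferentiableOn.diffContOnCl
    intro z hz
    have hz' := hclo hz
    have h5 : DifferentiableAt ℂ g (p + exp z) :=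
      hg.differentiableAt (Metric.isOpen_ball.mem_nhds (hball z hz'.2))
    exact (h5.comp (f := fun z => p + exp z) z (by fun_prop)).differentiableWithinAt
  have hB : BddAbove ((norm ∘ fun z => g (p + exp z)) ''
      HadamardThreeLines.verticalClosedStrip (Real.log r) (Real.log (2.9 * r))) := by
    refine ⟨1, ?_⟩
    rintro _ ⟨z, hz, rfl⟩
    exact h1 _ (hball z hz.2)
  have ha : ∀ z ∈ re ⁻¹' {Real.log r}, ‖g (p + exp z)‖ ≤ ν := by
    intro z hz
    have hz' : z.re = Real.log r := hz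
    apply R26_circle hr hg ν hs
    rw [add_sub_cancel_left, Complex.norm_exp, hz', Real.exp_log hr]
  have hb : ∀ z ∈ re ⁻¹' {Real.log (2.9 * r)}, ‖g (p + exp z)‖ ≤ 1 := by
    intro z hz
    have hz' : z.re = Real.log (2.9 * r) := hz
    exact h1 _ (hball z hz'.le)
  have hmain := HadamardThreeLines.norm_le_interp_of_mem_verticalClosedStrip' hl
    (f := fun z => g (p + exp z)) (z := w) ⟨hw1, hw2.trans hl2.le⟩ hd hB ha hb
  rw [Real.one_rpow, mul_one] at hmain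
  refine hmain.trans ?_
  apply Real.rpow_le_rpow_of_exponent_ge hν hν1
  have e1 : Real.log (2.9 * r) - Real.log r = Real.log 2.9 := by
    rw [Real.log_mul (by norm_num) hr.ne']
    ring
  have e2 : Real.log (2 * r) = Real.log 2 + Real.log r := by
    rw [Real.log_mul (by norm_num) hr.ne']
  have e3 : 0 < Real.log 2.9 := Real.log_pos (by norm_num)
  have e4 : Real.log 2 ≤ 2 / 3 * Real.log 2.9 := by
    have h8 : 3 * Real.log 2 ≤ 2 * Real.log 2.9 := by
      have a1 : 3 * Real.log 2 = Real.log (2 ^ 3) := by rw [Real.log_pow]; norm_num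
      have a2 : 2 * Real.log 2.9 = Real.log (2.9 ^ 2) := by rw [Real.log_pow]; norm_num
      rw [a1, a2]
      exact Real.log_le_log (by norm_num) (by norm_num)
    linarith
  rw [e1]
  have e5 : (w.re - Real.log r) / Real.log 2.9 ≤ 2 / 3 := by
    rw [div_le_iff₀ e3]
    linarith
  linarith

/-- ROW R26.  Three circles: apply Hadamard's three lines theorem to `g (p + exp z)` on `log r ≤ Re z ≤ log (2.9 r)`; the exponent at
radius `2r` is `log 1.45/log 2.9 ≥ 1/3` (i.e. `1.45^3 ≥ 2.9`); for `|z - p| < r` use `ν ≤ ν^(1/3)`; the maximum principle is not needed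
(every radius in `[r, 2r]` is covered by the three lines theorem, the bound `‖g‖ ≤ ν` on the circle of radius `r` follows by
continuity). -/
theorem three_circles {g : ℂ → ℂ} {p : ℂ} {r : ℝ} (hr : 0 < r)
    (hg : DifferentiableOn ℂ g (Metric.ball p (3 * r))) (h1 : ∀ z ∈ Metric.ball p (3 * r), ‖g z‖ ≤ 1)
    (ν : ℝ) (hν : 0 < ν) (hν1 : ν ≤ 1) (hs : ∀ z ∈ Metric.ball p r, ‖g z‖ ≤ ν) :
    ∀ z ∈ Metric.ball p (2 * r), ‖g z‖ ≤ ν ^ (1 / 3 : ℝ) := by
  intro z hz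
  rw [Metric.mem_ball, dist_eq_norm] at hz
  rcases lt_or_ge ‖z - p‖ r with h | h
  · have h2 : ‖g z‖ ≤ ν := hs z (by rw [Metric.mem_ball, dist_eq_norm]; exact h)
    refine h2.trans ?_
    have := Real.rpow_le_rpow_of_exponent_ge hν hν1 (show (1 / 3 : ℝ) ≤ 1 by norm_num)
    rwa [Real.rpow_one] at this
  · have hne : z - p ≠ 0 := by
      intro h0
      rw [h0, norm_zero] at h
      linarith
    have hpos : 0 < ‖z - p‖ := norm_pos_iff.mpr hne
    have h3 := R26_lines hr hg h1 ν hν hν1 hs (Complex.log (z - p))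
      (by rw [Complex.log_re]; exact Real.log_le_log hr h)
      (by rw [Complex.log_re]; exact Real.log_le_log hpos hz.le)
    rw [Complex.exp_log hne] at h3
    simpa using h3

theorem R26_chain {g : ℂ → ℂ} {H : ℝ} (hH : 0 < H)
    (hg : DifferentiableOn ℂ g {σ : ℂ | 0 < σ.im ∧ σ.im < H})
    (h1 : ∀ σ : ℂ, 0 < σ.im → σ.im < H → ‖g σ‖ ≤ 1) (ν : ℝ) (hν : 0 < ν) (hν1 : ν ≤ 1) (t0 : ℝ)
    (hs : ∀ z ∈ Metric.ball ((t0 : ℂ) + ((3 * H / 8 : ℝ) : ℂ) * I) (H / 8), ‖g z‖ ≤ ν) (n : ℕ) :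
    ∀ z ∈ Metric.ball (((t0 + n * (H / 8) : ℝ) : ℂ) + ((3 * H / 8 : ℝ) : ℂ) * I) (H / 8),
      ‖g z‖ ≤ ν ^ ((1 / 3 : ℝ) ^ n) := by
  induction n with
  | zero =>
    intro z hz
    rw [pow_zero, Real.rpow_one]
    apply hs
    simpa using hz
  | succ n ih =>
    have hball : ∀ z ∈ Metric.ball (((t0 + n * (H / 8) : ℝ) : ℂ) + ((3 * H / 8 : ℝ) : ℂ) * I) (3 * (H / 8)),
        0 < z.im ∧ z.im < H := by
      intro z hz
      rw [Metric.mem_ball, dist_eq_norm] at hz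
      have h2 := (Complex.abs_im_le_norm _).trans_lt hz
      have h3 : (z - ((((t0 + n * (H / 8) : ℝ) : ℂ) + ((3 * H / 8 : ℝ) : ℂ) * I))).im = z.im - 3 * H / 8 := by
        simp [Complex.sub_im, Complex.add_im, Complex.mul_im]
      rw [h3] at h2
      have h4 := abs_lt.mp h2
      constructor <;> linarith [h4.1, h4.2]
    have hν' : 0 < ν ^ ((1 / 3 : ℝ) ^ n) := Real.rpow_pos_of_pos hν _
    have hν1' : ν ^ ((1 / 3 : ℝ) ^ n) ≤ 1 := Real.rpow_le_one hν.le hν1 (by positivity)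
    have h5 := three_circles (g := g) (by positivity : 0 < H / 8)
      (hg.mono fun z hz => hball z hz) (fun z hz => h1 z (hball z hz).1 (hball z hz).2) _ hν' hν1' ih
    intro z hz
    have h6 : z ∈ Metric.ball (((t0 + n * (H / 8) : ℝ) : ℂ) + ((3 * H / 8 : ℝ) : ℂ) * I) (2 * (H / 8)) := by
      rw [Metric.mem_ball] at hz ⊢
      calc dist z (((t0 + n * (H / 8) : ℝ) : ℂ) + ((3 * H / 8 : ℝ) : ℂ) * I)
          ≤ dist z (((t0 + (n + 1 : ℕ) * (H / 8) : ℝ) : ℂ) + ((3 * H / 8 : ℝ) : ℂ) * I) +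
            dist (((t0 + (n + 1 : ℕ) * (H / 8) : ℝ) : ℂ) + ((3 * H / 8 : ℝ) : ℂ) * I)
              (((t0 + n * (H / 8) : ℝ) : ℂ) + ((3 * H / 8 : ℝ) : ℂ) * I) := dist_triangle _ _ _
        _ < H / 8 + H / 8 := by
            refine add_lt_add_of_lt_of_le hz ?_
            rw [dist_eq_norm]
            have e : (((t0 + (n + 1 : ℕ) * (H / 8) : ℝ) : ℂ) + ((3 * H / 8 : ℝ) : ℂ) * I) -
                (((t0 + n * (H / 8) : ℝ) : ℂ) + ((3 * H / 8 : ℝ) : ℂ) * I) = ((H / 8 : ℝ) : ℂ) := by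
              push_cast
              ring
            rw [e, Complex.norm_real, Real.norm_eq_abs, abs_of_pos (by positivity)]
        _ = _ := by ring
    have h7 := h5 z h6
    rw [← Real.rpow_mul hν.le, ← pow_succ] at h7
    exact h7

/-- ROW R26.  By induction on `n`: `‖g‖ ≤ ν^((1/3)^n)` on `ball (t0 + nH/8 + i 3H/8) (H/8)` (`three_circles` with `r = H/8`; the ball of radius
`3H/8` lies in the strip).  For `t0 ≤ t ≤ t0 + 2π` take `n = ⌊8(t-t0)/H⌋ ≤ 16π/H ≤ ⌈52/H⌉`. -/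
theorem chain {g : ℂ → ℂ} {H : ℝ} (hH : 0 < H)
    (hg : DifferentiableOn ℂ g {σ : ℂ | 0 < σ.im ∧ σ.im < H})
    (h1 : ∀ σ : ℂ, 0 < σ.im → σ.im < H → ‖g σ‖ ≤ 1) (ν : ℝ) (hν : 0 < ν) (hν1 : ν ≤ 1) (t0 : ℝ)
    (hs : ∀ z ∈ Metric.ball ((t0 : ℂ) + ((3 * H / 8 : ℝ) : ℂ) * I) (H / 8), ‖g z‖ ≤ ν) :
    ∀ t : ℝ, t0 ≤ t → t ≤ t0 + 2 * Real.pi →
      ‖g ((t : ℂ) + ((3 * H / 8 : ℝ) : ℂ) * I)‖ ≤ ν ^ ((1 / 3 : ℝ) ^ (⌈52 / H⌉₊)) := by
  intro t ht ht'
  have hx0 : 0 ≤ 8 * (t - t0) / H := by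
    apply div_nonneg _ hH.le
    linarith
  set n := ⌊8 * (t - t0) / H⌋₊ with hn
  have hn1 : (n : ℝ) ≤ 8 * (t - t0) / H := Nat.floor_le hx0
  have hn2 : 8 * (t - t0) / H < n + 1 := Nat.lt_floor_add_one _
  have hn3 : n ≤ ⌈52 / H⌉₊ := by
    have : (n : ℝ) ≤ 52 / H := by
      refine hn1.trans ?_
      apply div_le_div_of_nonneg_right _ hH.le
      have := Real.pi_lt_d2
      linarith
    exact_mod_cast this.trans (Nat.le_ceil _)
  have h2 := R26_chain hH hg h1 ν hν hν1 t0 hs n ((t : ℂ) + ((3 * H / 8 : ℝ) : ℂ) * I) (by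
    rw [Metric.mem_ball, dist_eq_norm]
    have e : ((t : ℂ) + ((3 * H / 8 : ℝ) : ℂ) * I) -
        (((t0 + n * (H / 8) : ℝ) : ℂ) + ((3 * H / 8 : ℝ) : ℂ) * I) = ((t - (t0 + n * (H / 8)) : ℝ) : ℂ) := by
      push_cast
      ring
    rw [e, Complex.norm_real, Real.norm_eq_abs]
    rw [le_div_iff₀ hH] at hn1
    rw [div_lt_iff₀ hH] at hn2
    rw [abs_lt]
    constructor <;> linarith)
  refine h2.trans ?_
  apply Real.rpow_le_rpow_of_exponent_ge hν hν1
  exact pow_le_pow_of_le_one (by norm_num) (by norm_num) hn3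

end MP18cae5
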