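import Pool.Agent.Lib.MP_18cae5_an.Tower

/-! Row R27: the numerical recursion. -/

set_option autoImplicit false

namespace MP18cae5

open Complex MeasureTheory Set Filter Topology

theorem R27_lam (k : ℕ) : 0 < lam k ∧ lam k ≤ 1 / 8 := by
  unfold lam
  refine ⟨by positivity, ?_⟩
  rw [pow_add]
  have : (1 / 2 : ℝ) ^ k ≤ 1 := pow_le_one₀ (by norm_num) (by norm_num)
  calc (1 / 2 : ℝ) ^ k * (1 / 2) ^ 3 ≤ 1 * (1 / 2) ^ 3 := mul_le_mul_of_nonneg_right this (by positivity)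
    _ = 1 / 8 := by norm_num

theorem R27_e (e : ℕ → ℝ) (he0 : ∀ k, 0 < e k) (hez : e 0 ≤ 1 / 64) (hed : ∀ k, e (k + 1) ≤ e k ^ 2 / 4) (k : ℕ) :
    e k ≤ (1 / 64 : ℝ) ^ (k + 1) := by
  induction k with
  | zero => simpa using hez
  | succ k ih =>
    have h1 := hed k
    have h2 : e k ^ 2 ≤ ((1 / 64 : ℝ) ^ (k + 1)) ^ 2 := pow_le_pow_left₀ (he0 k).le ih 2
    have h3 : ((1 / 64 : ℝ) ^ (k + 1)) ^ 2 = (1 / 64 : ℝ) ^ (k + 1 + 1) * (1 / 64 : ℝ) ^ k := by ring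
    have h4 : (1 / 64 : ℝ) ^ k ≤ 1 := pow_le_one₀ (by norm_num) (by norm_num)
    have h5 : 0 < (1 / 64 : ℝ) ^ (k + 1 + 1) := by positivity
    have h6 : (1 / 64 : ℝ) ^ (k + 1 + 1) * (1 / 64 : ℝ) ^ k ≤ (1 / 64 : ℝ) ^ (k + 1 + 1) * 1 :=
      mul_le_mul_of_nonneg_left h4 h5.le
    linarith

theorem R27_nu (e : ℕ → ℝ) (he0 : ∀ k, 0 < e k) (hez : e 0 ≤ 1 / 64) (hed : ∀ k, e (k + 1) ≤ e k ^ 2 / 4) (k : ℕ) :
    2 * 4 ^ (k + 2) * e (k + 1) ≤ 1 := by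
  have h1 := R27_e e he0 hez hed (k + 1)
  calc 2 * 4 ^ (k + 2) * e (k + 1) ≤ 2 * 4 ^ (k + 2) * (1 / 64 : ℝ) ^ (k + 1 + 1) :=
        mul_le_mul_of_nonneg_left h1 (by positivity)
    _ = 2 * (4 * (1 / 64 : ℝ)) ^ (k + 2) := by rw [mul_pow]; ring
    _ = 2 * (1 / 256 : ℝ) * (1 / 16 : ℝ) ^ k := by
        rw [show (4 * (1 / 64 : ℝ)) = 1 / 16 by norm_num, pow_add]; ring
    _ ≤ 2 * (1 / 256 : ℝ) * 1 := by
        apply mul_le_mul_of_nonneg_left _ (by norm_num)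
        exact pow_le_one₀ (by norm_num) (by norm_num)
    _ ≤ 1 := by norm_num

/-- one step down -/
theorem R27_down (x e : ℕ → ℝ) (hx0 : ∀ k, 0 ≤ x k) (he0 : ∀ k, 0 < e k)
    (hez : e 0 ≤ 1 / 64) (hed : ∀ k, e (k + 1) ≤ e k ^ 2 / 4)
    (hx : ∀ k, x k ≤ x (k + 1) ^ (1 - lam k) + e k) (i : ℕ)
    (h : x (i + 1) ≤ 2 * 4 ^ (i + 2) * e (i + 1)) : x i ≤ 2 * 4 ^ (i + 1) * e i := by
  obtain ⟨hl0, hl1⟩ := R27_lam i
  have hν0 : 0 < 2 * 4 ^ (i + 2) * e (i + 1) := by have := he0 (i + 1); positivity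
  have hν1 := R27_nu e he0 hez hed i
  have h1 : x (i + 1) ^ (1 - lam i) ≤ (2 * 4 ^ (i + 2) * e (i + 1)) ^ (1 - lam i) :=
    Real.rpow_le_rpow (hx0 _) h (by linarith)
  have h2 : (2 * 4 ^ (i + 2) * e (i + 1)) ^ (1 - lam i) ≤ (2 * 4 ^ (i + 2) * e (i + 1)) ^ (1 / 2 : ℝ) :=
    Real.rpow_le_rpow_of_exponent_ge hν0 hν1 (by linarith)
  have h3 : 2 * 4 ^ (i + 2) * e (i + 1) ≤ (4 ^ (i + 1) * e i) ^ 2 := by
    have h4 : (2 : ℝ) ≤ 4 ^ (i + 1) := by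
      calc (2 : ℝ) ≤ 4 ^ 1 := by norm_num
        _ ≤ 4 ^ (i + 1) := pow_le_pow_right₀ (by norm_num) (by omega)
    calc 2 * 4 ^ (i + 2) * e (i + 1) ≤ 2 * 4 ^ (i + 2) * (e i ^ 2 / 4) :=
          mul_le_mul_of_nonneg_left (hed i) (by positivity)
      _ = 2 * (4 ^ (i + 1) * e i ^ 2) := by ring
      _ ≤ 4 ^ (i + 1) * (4 ^ (i + 1) * e i ^ 2) := mul_le_mul_of_nonneg_right h4 (by positivity)
      _ = (4 ^ (i + 1) * e i) ^ 2 := by ring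
  have h5 : (2 * 4 ^ (i + 2) * e (i + 1)) ^ (1 / 2 : ℝ) ≤ 4 ^ (i + 1) * e i := by
    rw [← Real.sqrt_eq_rpow]
    have h6 : 0 ≤ 4 ^ (i + 1) * e i := by have := he0 i; positivity
    calc Real.sqrt (2 * 4 ^ (i + 2) * e (i + 1)) ≤ Real.sqrt ((4 ^ (i + 1) * e i) ^ 2) := Real.sqrt_le_sqrt h3
      _ = 4 ^ (i + 1) * e i := Real.sqrt_sq h6
  have h7 : e i ≤ 4 ^ (i + 1) * e i := by
    have h8 : (1 : ℝ) ≤ 4 ^ (i + 1) := one_le_pow₀ (by norm_num)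
    calc e i = 1 * e i := by ring
      _ ≤ 4 ^ (i + 1) * e i := mul_le_mul_of_nonneg_right h8 (he0 i).le
  have h9 := hx i
  linarith

/-- one step of the logarithmic recursion -/
theorem R27_log (i : ℕ) (a b ei : ℝ) (ha : 2 * 4 ^ (i + 1) * ei < a) (hei : 0 < ei) (ha1 : a ≤ 1)
    (hb0 : 0 < b) (hb1 : b ≤ 1) (h : a ≤ b ^ (1 - lam i) + ei) :
    (-Real.log b + 1) * Real.exp (2 * (1 / 2 : ℝ) ^ (i + 1)) ≤
      (-Real.log a + 1) * Real.exp (2 * (1 / 2 : ℝ) ^ i) := by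
  obtain ⟨hl0, hl1⟩ := R27_lam i
  have ha0 : 0 < a := lt_trans (by positivity) ha
  set c : ℝ := 1 / (2 * 4 ^ (i + 1)) with hc
  have hc0 : 0 < c := by positivity
  have hc2 : c * (2 * 4 ^ (i + 1)) = 1 := by rw [hc]; field_simp
  have hc1 : c ≤ 1 / 8 := by
    rw [hc]
    apply one_div_le_one_div_of_le (by norm_num)
    have : (4 : ℝ) ^ 1 ≤ 4 ^ (i + 1) := pow_le_pow_right₀ (by norm_num) (by omega)
    linarith
  have h1 : ei ≤ a * c := by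
    have h2 := mul_le_mul_of_nonneg_right ha.le hc0.le
    calc ei = ei * (c * (2 * 4 ^ (i + 1))) := by rw [hc2, mul_one]
      _ = 2 * 4 ^ (i + 1) * ei * c := by ring
      _ ≤ a * c := h2
  have h2 : a * (1 - c) ≤ b ^ (1 - lam i) := by linarith
  have h3 : Real.log a + Real.log (1 - c) ≤ (1 - lam i) * Real.log b := by
    rw [← Real.log_rpow hb0, ← Real.log_mul ha0.ne' (by linarith)]
    exact Real.log_le_log (mul_pos ha0 (by linarith)) h2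
  have h4 : -(2 * c) ≤ Real.log (1 - c) := by
    have h5 := Real.one_sub_inv_le_log_of_pos (show 0 < 1 - c by linarith)
    have h6 : (1 - c)⁻¹ ≤ 1 + 2 * c := by
      rw [inv_eq_one_div, div_le_iff₀ (by linarith)]
      nlinarith
    linarith
  have hL0 : 0 ≤ -Real.log a := by linarith [Real.log_nonpos ha0.le ha1]
  have hL0' : 0 ≤ -Real.log b := by linarith [Real.log_nonpos hb0.le hb1]
  set L : ℝ := -Real.log a with hL
  set L' : ℝ := -Real.log b with hL'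
  have h5 : (1 - lam i) * L' ≤ L + 2 * c := by
    rw [hL, hL']; linarith
  have h6 : L' ≤ (L + 2 * c) * (1 + 2 * lam i) := by
    have h7 : 1 ≤ (1 - lam i) * (1 + 2 * lam i) := by nlinarith
    calc L' = 1 * L' := by ring
      _ ≤ ((1 - lam i) * (1 + 2 * lam i)) * L' := mul_le_mul_of_nonneg_right h7 hL0'
      _ = ((1 - lam i) * L') * (1 + 2 * lam i) := by ring
      _ ≤ (L + 2 * c) * (1 + 2 * lam i) := mul_le_mul_of_nonneg_right h5 (by linarith)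
  have h7 : 4 * c + 2 * lam i ≤ (1 / 2 : ℝ) ^ i := by
    have h8 : 4 * c = (1 / 2) * (1 / 4 : ℝ) ^ i := by
      rw [hc, pow_succ, one_div_pow]; field_simp
    have h9 : (1 / 4 : ℝ) ^ i ≤ (1 / 2 : ℝ) ^ i := pow_le_pow_left₀ (by norm_num) (by norm_num) i
    have h10 : 2 * lam i = (1 / 4) * (1 / 2 : ℝ) ^ i := by unfold lam; rw [pow_add]; ring
    have h11 : 0 < (1 / 2 : ℝ) ^ i := by positivity
    linarith
  have h8 : L' + 1 ≤ (L + 1) * (1 + (1 / 2 : ℝ) ^ i) := by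
    have h9 : (L + 2 * c) * (1 + 2 * lam i) + 1 ≤ (L + 1) * (1 + (4 * c + 2 * lam i)) := by
      have h10 : 0 ≤ L * c := mul_nonneg hL0 hc0.le
      have h11 : 0 ≤ c * lam i := mul_nonneg hc0.le hl0.le
      have h12 : c * lam i ≤ c * (1 / 8) := mul_le_mul_of_nonneg_left hl1 hc0.le
      nlinarith
    have h10 : (L + 1) * (1 + (4 * c + 2 * lam i)) ≤ (L + 1) * (1 + (1 / 2 : ℝ) ^ i) :=
      mul_le_mul_of_nonneg_left (by linarith) (by linarith)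
    linarith
  have h9 : 1 + (1 / 2 : ℝ) ^ i ≤ Real.exp ((1 / 2 : ℝ) ^ i) := by
    linarith [Real.add_one_le_exp ((1 / 2 : ℝ) ^ i)]
  have h10 : Real.exp (2 * (1 / 2 : ℝ) ^ (i + 1)) = Real.exp ((1 / 2 : ℝ) ^ i) := by
    congr 1; rw [pow_succ]; ring
  have h11 : Real.exp (2 * (1 / 2 : ℝ) ^ i) = Real.exp ((1 / 2 : ℝ) ^ i) * Real.exp ((1 / 2 : ℝ) ^ i) := by
    rw [← Real.exp_add]; congr 1; ring
  rw [h10, h11]
  have h12 : L' + 1 ≤ (L + 1) * Real.exp ((1 / 2 : ℝ) ^ i) :=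
    h8.trans (mul_le_mul_of_nonneg_left h9 (by linarith))
  calc (L' + 1) * Real.exp ((1 / 2 : ℝ) ^ i)
      ≤ ((L + 1) * Real.exp ((1 / 2 : ℝ) ^ i)) * Real.exp ((1 / 2 : ℝ) ^ i) :=
        mul_le_mul_of_nonneg_right h12 (Real.exp_pos _).le
    _ = (L + 1) * (Real.exp ((1 / 2 : ℝ) ^ i) * Real.exp ((1 / 2 : ℝ) ^ i)) := by ring

/-- ROW R27.  Call `i` good if `4^(-(i+1)) x_{i+1}^(1-λ_i) < e_i`; then `x_i ≤ (4^(i+1) + 1) e_i ≤ 2·4^(i+1) e_i`.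
If `i+1` is good (or just `x_{i+1} ≤ 2·4^(i+2) e_{i+1}`) then `i` is good: `x_{i+1}^(1-λ_i) ≤ (2·4^(i+2) e_{i+1})^(1/2) < 4^(i+1) e_i` because
`e_{i+1} ≤ e_i²/4` (and `2·4^(i+2) e_{i+1} ≤ 1`, `λ_i ≤ 1/2`).  So if some `i ≥ k` is good then `k` is good.  If no `i ≥ k` is good then
`x_i ≤ (1 + 4^(-(i+1))) x_{i+1}^(1-λ_i)` for all `i ≥ k`, hence `x_k ≤ 2 x_J^(3/4)` for all `J ≥ k`
(prove by induction on `J`: `x_k ≤ (∏_{k≤i<J} (1+4^(-(i+1)))) x_J^(p_J)`, `p_J = ∏ (1-λ_i) ≥ 1 - ∑ λ_i ≥ 3/4`, `x ≤ 1`), so `x_k = 0`. -/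
theorem rec_lemma (x e : ℕ → ℝ) (hx0 : ∀ k, 0 ≤ x k) (hx1 : ∀ k, x k ≤ 1) (he0 : ∀ k, 0 < e k)
    (hez : e 0 ≤ 1 / 64) (hed : ∀ k, e (k + 1) ≤ e k ^ 2 / 4)
    (hx : ∀ k, x k ≤ x (k + 1) ^ (1 - lam k) + e k) (hlim : Tendsto x atTop (𝓝 0)) (k : ℕ) :
    x k ≤ 2 * 4 ^ (k + 1) * e k := by
  by_contra hk
  have hA : ∀ j, ¬ x (k + j) ≤ 2 * 4 ^ (k + j + 1) * e (k + j) := by
    intro j
    induction j with
    | zero => exact hk
    | succ j ih =>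
      intro h
      exact ih (R27_down x e hx0 he0 hez hed hx (k + j) h)
  have hB : ∀ j, 2 * 4 ^ (k + j + 1) * e (k + j) < x (k + j) := fun j => not_le.mp (hA j)
  have hpos : ∀ j, 0 < x (k + j) := fun j => lt_trans (by have := he0 (k + j); positivity) (hB j)
  set u : ℕ → ℝ := fun j => (-Real.log (x (k + j)) + 1) * Real.exp (2 * (1 / 2 : ℝ) ^ (k + j)) with hu
  have hstep : ∀ j, u (j + 1) ≤ u j := fun j =>
    R27_log (k + j) (x (k + j)) (x (k + j + 1)) (e (k + j)) (hB j) (he0 _) (hx1 _) (hpos (j + 1)) (hx1 _)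
      (hx (k + j))
  have hanti : ∀ j, u j ≤ u 0 := by
    intro j
    induction j with
    | zero => exact le_refl _
    | succ j ih => exact (hstep j).trans ih
  have hlow : ∀ j, Real.exp (-(u 0)) ≤ x (k + j) := by
    intro j
    have h1 : 0 ≤ -Real.log (x (k + j)) := by linarith [Real.log_nonpos (hpos j).le (hx1 (k + j))]
    have h2 : -Real.log (x (k + j)) ≤ u j := by
      have h3 : 1 ≤ Real.exp (2 * (1 / 2 : ℝ) ^ (k + j)) := Real.one_le_exp (by positivity)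
      have h4 : (-Real.log (x (k + j)) + 1) * 1 ≤ u j := mul_le_mul_of_nonneg_left h3 (by linarith)
      linarith
    have h5 := h2.trans (hanti j)
    calc Real.exp (-(u 0)) ≤ Real.exp (Real.log (x (k + j))) := Real.exp_le_exp.mpr (by linarith)
      _ = x (k + j) := Real.exp_log (hpos j)
  have hlim2 : Tendsto (fun j => x (k + j)) atTop (𝓝 0) := by
    have := hlim.comp (tendsto_add_atTop_nat k)
    refine this.congr fun j => ?_
    show x (j + k) = x (k + j)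
    rw [add_comm]
  have h6 : Real.exp (-(u 0)) ≤ 0 := ge_of_tendsto' hlim2 hlow
  exact absurd h6 (not_le.mpr (Real.exp_pos _))

end MP18cae5
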