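import Pool.Agent.Lib.MP_18cae5_an.Tower

/-! Row R28: the limit curve. -/

set_option autoImplicit false

namespace MP18cae5

open Complex MeasureTheory Set Filter Topology

/-- the limit curve of a tower -/
structure Lim (φ : ℕ → ℂ → C2) (γ : ℝ → C2) : Prop where
  cont : Continuous γ
  dist : ∀ k (t : ℝ), nsq (φ k t - γ t) ≤ ((1 / 2 : ℝ) ^ (k + 8)) ^ 2
  unit : ∀ t, nsq (γ t) = 1
  per : ∀ t : ℝ, γ (t + 2 * Real.pi) = γ t

theorem R28_step {φ : ℕ → ℂ → C2} {E : ℕ → C2 → ℂ} {H e : ℕ → ℝ} (hT : Tower φ E H e) (k : ℕ) (t : ℝ) :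
    Real.sqrt (nsq (φ (k + 1) t - φ k t)) ≤ (1 / 2 : ℝ) ^ (k + 9) := by
  have h := hT.close k t 0 (by rw [abs_zero]; exact (hT.H_pos (k + 1)).le)
  have h1 : ((t : ℂ) + ((0 : ℝ) : ℂ) * I) = (t : ℂ) := by simp
  rw [h1] at h
  exact Real.sqrt_le_iff.mpr ⟨by positivity, h⟩

theorem R28_tele {φ : ℕ → ℂ → C2} {E : ℕ → C2 → ℂ} {H e : ℕ → ℝ} (hT : Tower φ E H e) (k n : ℕ) (t : ℝ) :
    Real.sqrt (nsq (φ (k + n) t - φ k t)) ≤ (1 / 2 : ℝ) ^ (k + 8) * (1 - (1 / 2) ^ n) := by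
  induction n with
  | zero =>
    have : φ (k + 0) t - φ k t = 0 := by simp
    rw [this, nsq_zero]; simp
  | succ n ih =>
    have h1 : φ (k + (n + 1)) t - φ k t = (φ (k + n + 1) t - φ (k + n) t) + (φ (k + n) t - φ k t) := by
      rw [← add_assoc]; abel
    rw [h1]
    refine (sqrt_nsq_add_le _ _).trans ?_
    have h2 := R28_step hT (k + n) t
    have h3 : (1 / 2 : ℝ) ^ (k + n + 9) = (1 / 2 : ℝ) ^ (k + 8) * ((1 / 2) ^ n * (1 / 2)) := by ring
    have h4 : (1 / 2 : ℝ) ^ (n + 1) = (1 / 2) ^ n * (1 / 2) := pow_succ _ _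
    rw [h4]
    rw [h3] at h2
    have h5 : (1 / 2 : ℝ) ^ (k + 8) * (1 - (1 / 2) ^ n * (1 / 2)) =
        (1 / 2 : ℝ) ^ (k + 8) * ((1 / 2) ^ n * (1 / 2)) + (1 / 2 : ℝ) ^ (k + 8) * (1 - (1 / 2) ^ n) := by ring
    rw [h5]
    exact add_le_add h2 ih

theorem R28_cont {φ : ℕ → ℂ → C2} {E : ℕ → C2 → ℂ} {H e : ℕ → ℝ} (hT : Tower φ E H e) (k : ℕ) :
    Continuous (fun t : ℝ => φ k t) := by
  obtain ⟨h, hh, hd⟩ := hT.holo k
  rw [continuous_iff_continuousAt]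
  intro t
  have hmem : (t : ℂ) ∈ strip h := by
    show |((t : ℂ)).im| < h
    rw [ofReal_im, abs_zero]
    exact (hT.H_pos k).trans hh
  have h1 : ContinuousAt (φ k) (t : ℂ) := (hd.differentiableAt ((isOpen_strip h).mem_nhds hmem)).continuousAt
  exact ContinuousAt.comp (f := fun s : ℝ => (s : ℂ)) h1 continuous_ofReal.continuousAt

/-- ROW R28.  `close` with `y = 0`: `√nsq (φ (k+1) t - φ k t) ≤ 2^{-(k+9)}` (`H_pos`), Cauchy sequence (`cauchySeq_of_le_geometric` for the norm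
`‖·‖ ≤ √nsq`), the bound by `sqrt_nsq_add_le` and a telescoping sum (or `dist_le_of_le_geometric_of_tendsto` in the euclidean norm),
uniform limit of continuous functions. -/
theorem exists_lim {φ : ℕ → ℂ → C2} {E : ℕ → C2 → ℂ} {H e : ℕ → ℝ} (hT : Tower φ E H e) :
    ∃ γ : ℝ → C2, Lim φ γ := by
  have hnorm : ∀ z : C2, ‖z‖ ≤ Real.sqrt (nsq z) := fun z => Real.le_sqrt_of_sq_le (norm_sq_le_nsq z)
  have hcau : ∀ t : ℝ, CauchySeq (fun k => φ k t) := by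
    intro t
    apply cauchySeq_of_le_geometric (1 / 2) ((1 / 2 : ℝ) ^ 9) (by norm_num)
    intro n
    rw [dist_comm, dist_eq_norm]
    refine ((hnorm _).trans (R28_step hT n t)).trans (le_of_eq ?_)
    rw [pow_add]; ring
  choose γ hγ using fun t : ℝ => cauchySeq_tendsto_of_complete (hcau t)
  have hdist : ∀ k (t : ℝ), nsq (φ k t - γ t) ≤ ((1 / 2 : ℝ) ^ (k + 8)) ^ 2 := by
    intro k t
    have h1 : Tendsto (fun n => nsq (φ k t - φ (k + n) t)) atTop (𝓝 (nsq (φ k t - γ t))) := by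
      have h2 : Tendsto (fun n => φ (k + n) t) atTop (𝓝 (γ t)) := by
        have := (hγ t).comp (tendsto_add_atTop_nat k)
        refine this.congr fun n => ?_
        show φ (n + k) t = φ (k + n) t
        rw [add_comm]
      exact (continuous_nsq.tendsto _).comp (tendsto_const_nhds.sub h2)
    refine le_of_tendsto' h1 fun n => ?_
    rw [nsq_sub_comm]
    have h3 := R28_tele hT k n t
    have h4 : (1 / 2 : ℝ) ^ (k + 8) * (1 - (1 / 2) ^ n) ≤ (1 / 2 : ℝ) ^ (k + 8) := by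
      have h5 : 0 < (1 / 2 : ℝ) ^ n := by positivity
      have h6 : 0 < (1 / 2 : ℝ) ^ (k + 8) := by positivity
      have := mul_le_mul_of_nonneg_left (show (1 - (1 / 2 : ℝ) ^ n) ≤ 1 by linarith) h6.le
      linarith
    exact (Real.sqrt_le_iff.mp (h3.trans h4)).2
  refine ⟨γ, ?_, hdist, ?_, ?_⟩
  · have hu : TendstoUniformly (fun (k : ℕ) (t : ℝ) => φ k t) γ atTop := by
      rw [Metric.tendstoUniformly_iff]
      intro ε hε
      have h3 : Tendsto (fun n : ℕ => (1 / 2 : ℝ) ^ n) atTop (𝓝 0) :=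
        tendsto_pow_atTop_nhds_zero_of_lt_one (by norm_num) (by norm_num)
      have h4 : Tendsto (fun k : ℕ => (1 / 2 : ℝ) ^ (k + 8)) atTop (𝓝 0) := h3.comp (tendsto_add_atTop_nat 8)
      filter_upwards [h4.eventually (gt_mem_nhds hε)] with k hk t
      rw [dist_comm, dist_eq_norm]
      refine lt_of_le_of_lt ?_ hk
      refine (hnorm _).trans ?_
      exact Real.sqrt_le_iff.mpr ⟨by positivity, hdist k t⟩
    exact hu.continuous (Frequently.of_forall fun k => R28_cont hT k)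
  · intro t
    have h1 : Tendsto (fun k => nsq (φ k t)) atTop (𝓝 (nsq (γ t))) := (continuous_nsq.tendsto _).comp (hγ t)
    have h2 : (fun k => nsq (φ k t)) = fun _ => (1 : ℝ) := by
      funext k; exact hT.unit k t
    rw [h2] at h1
    exact tendsto_nhds_unique h1 tendsto_const_nhds
  · intro t
    have h1 := hγ (t + 2 * Real.pi)
    have h2 : (fun k => φ k ((t + 2 * Real.pi : ℝ) : ℂ)) = fun k => φ k t := by
      funext k
      have := hT.per k (t : ℂ)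
      rw [← this]
      congr 1
      push_cast; rfl
    rw [h2] at h1
    exact tendsto_nhds_unique h1 (hγ t)

/-- ROW R28.  `φ (k+1) (t+iy)` is close to `γ t` for `|y| ≤ H (k+1)`. -/
theorem lim_close {φ : ℕ → ℂ → C2} {E : ℕ → C2 → ℂ} {H e : ℕ → ℝ} (hT : Tower φ E H e) {γ : ℝ → C2}
    (hγ : Lim φ γ) (k : ℕ) (t y : ℝ) (hy : |y| ≤ H (k + 1)) :
    nsq (φ (k + 1) ((t : ℂ) + (y : ℂ) * I) - γ t) ≤ ((1 / 2 : ℝ) ^ (k + 7)) ^ 2 := by
  have h1 := Real.sqrt_le_iff.mpr ⟨by positivity, hT.close k t y hy⟩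
  have h2 := Real.sqrt_le_iff.mpr ⟨by positivity, hγ.dist k t⟩
  have h3 : φ (k + 1) ((t : ℂ) + (y : ℂ) * I) - γ t =
      (φ (k + 1) ((t : ℂ) + (y : ℂ) * I) - φ k t) + (φ k t - γ t) := by abel
  have h4 := sqrt_nsq_add_le (φ (k + 1) ((t : ℂ) + (y : ℂ) * I) - φ k t) (φ k t - γ t)
  rw [← h3] at h4
  have h5 : (1 / 2 : ℝ) ^ (k + 9) = (1 / 2 : ℝ) ^ (k + 7) * (1 / 4) := by rw [pow_add, pow_add]; ring
  have h6 : (1 / 2 : ℝ) ^ (k + 8) = (1 / 2 : ℝ) ^ (k + 7) * (1 / 2) := by rw [pow_add, pow_add]; ring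
  have h7 : 0 < (1 / 2 : ℝ) ^ (k + 7) := by positivity
  rw [h5] at h1
  rw [h6] at h2
  exact (Real.sqrt_le_iff.mp (show Real.sqrt _ ≤ (1 / 2 : ℝ) ^ (k + 7) by linarith)).2

/-- ROW R28.  `γ π` is not on the arc `γ [0,1]`: `|γ t - (e^{it},0)| ≤ 1/256` and `|e^{iπ} - e^{it}| ≥ 1` for `0 ≤ t ≤ 1`. -/
theorem lim_ne {φ : ℕ → ℂ → C2} {E : ℕ → C2 → ℂ} {H e : ℕ → ℝ} (hT : Tower φ E H e) {γ : ℝ → C2}
    (hγ : Lim φ γ) (t : ℝ) (ht : 0 ≤ t) (ht' : t ≤ 1) : γ Real.pi ≠ γ t := by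
  intro h
  have h1 := Real.sqrt_le_iff.mpr ⟨by positivity, hγ.dist 0 Real.pi⟩
  have h2 := Real.sqrt_le_iff.mpr ⟨by positivity, hγ.dist 0 t⟩
  rw [nsq_sub_comm] at h2
  have h3 : φ 0 Real.pi - φ 0 t = (φ 0 Real.pi - γ Real.pi) + (γ t - φ 0 t) := by rw [h]; abel
  have h4 := sqrt_nsq_add_le (φ 0 Real.pi - γ Real.pi) (γ t - φ 0 t)
  rw [← h3] at h4
  have h5 : Real.sqrt (nsq (φ 0 Real.pi - φ 0 t)) ≤ 1 := by
    norm_num at h1 h2
    linarith
  have h6 : nsq (φ 0 Real.pi - φ 0 t) ≤ 1 := by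
    have := (Real.sqrt_le_iff.mp h5).2
    linarith
  rw [hT.start, hT.start] at h6
  have h7 : nsq ((Complex.exp ((Real.pi : ℂ) * I), (0 : ℂ)) - (Complex.exp ((t : ℂ) * I), (0 : ℂ)) : C2) =
      2 + 2 * Real.cos t := by
    have h8 : Complex.exp ((t : ℂ) * I) = ((Real.cos t : ℝ) : ℂ) + ((Real.sin t : ℝ) : ℂ) * I := by
      rw [exp_mul_I, ← ofReal_cos, ← ofReal_sin]
    have h9 := Real.sin_sq_add_cos_sq t
    unfold nsq
    rw [Prod.fst_sub, Prod.snd_sub, exp_pi_mul_I, h8]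
    simp only [normSq_apply, sub_re, sub_im, neg_re, neg_im, one_re, one_im, add_re, add_im, ofReal_re, ofReal_im,
      re_ofReal_mul, im_ofReal_mul, I_re, I_im]
    simp
    nlinarith
  rw [h7] at h6
  have h10 : 0 < Real.cos t := Real.cos_pos_of_mem_Ioo ⟨by linarith [Real.pi_pos], by linarith [Real.pi_gt_three]⟩
  linarith

end MP18cae5
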