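import Pool.Agent.Lib.MP_18cae5_an.R25
import Pool.Agent.Lib.MP_18cae5_an.R27
import Pool.Agent.Lib.MP_18cae5_an.R28

/-! Row R29: the numbers x_k. -/

set_option autoImplicit false

namespace MP18cae5

open Complex MeasureTheory Set Filter Topology

/-- the hypotheses on `f` -/
structure FH (γ : ℝ → C2) (f : C2 → ℂ) : Prop where
  ab : AB f
  le : ∀ z ∈ Bc, ‖f z‖ ≤ 1
  zero : ∀ t : ℝ, 0 ≤ t → t ≤ 1 → f (γ t) = 0

/-- the values of `‖f ∘ φ_k‖` on the small rectangle -/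
def xset (φ : ℕ → ℂ → C2) (H : ℕ → ℝ) (f : C2 → ℂ) (k : ℕ) : Set ℝ :=
  {r | ∃ t y : ℝ, (1 / 2 : ℝ) ^ (k + 2) ≤ t ∧ t ≤ 1 - (1 / 2 : ℝ) ^ (k + 2) ∧
    lam k * H (k + 1) / 4 ≤ y ∧ y ≤ lam k * H (k + 1) / 2 ∧ r = ‖f (φ k ((t : ℂ) + (y : ℂ) * I))‖}

/-- `x_k` -/
noncomputable def xs (φ : ℕ → ℂ → C2) (H : ℕ → ℝ) (f : C2 → ℂ) (k : ℕ) : ℝ := sSup (xset φ H f k)

theorem R29_lam (k : ℕ) : 0 < lam k ∧ lam k ≤ 1 :=
  ⟨by unfold lam; positivity, by unfold lam; exact pow_le_one₀ (by norm_num) (by norm_num)⟩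

theorem R29_y {φ : ℕ → ℂ → C2} {E : ℕ → C2 → ℂ} {H e : ℕ → ℝ} (hT : Tower φ E H e) (k : ℕ) {y : ℝ}
    (h1 : lam k * H (k + 1) / 4 ≤ y) (h2 : y ≤ lam k * H (k + 1) / 2) : 0 < y ∧ y ≤ H k := by
  obtain ⟨l0, l1⟩ := R29_lam k
  have hp := hT.H_pos (k + 1)
  have hp0 := hT.H_pos k
  have hd := hT.H_dec k
  have h3 : 0 < lam k * H (k + 1) := mul_pos l0 hp
  have h4 : lam k * H (k + 1) ≤ H (k + 1) := mul_le_of_le_one_left hp.le l1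
  constructor <;> linarith

theorem R29_bd {φ : ℕ → ℂ → C2} {E : ℕ → C2 → ℂ} {H e : ℕ → ℝ} (hT : Tower φ E H e) {γ : ℝ → C2}
    {f : C2 → ℂ} (hf : FH γ f) (k : ℕ) : ∀ r ∈ xset φ H f k, r ≤ 1 := by
  rintro r ⟨t, y, -, -, h1, h2, rfl⟩
  obtain ⟨y0, y1⟩ := R29_y hT k h1 h2
  exact hf.le _ (Bo_subset_Bc (hT.inB k t y y0 y1))

theorem R29_ne (φ : ℕ → ℂ → C2) {E : ℕ → C2 → ℂ} {H e : ℕ → ℝ} (hT : Tower φ E H e)
    (f : C2 → ℂ) (k : ℕ) : (xset φ H f k).Nonempty := by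
  have h1 : (1 / 2 : ℝ) ^ (k + 2) ≤ 1 / 4 := by
    calc (1 / 2 : ℝ) ^ (k + 2) ≤ (1 / 2 : ℝ) ^ 2 :=
          pow_le_pow_of_le_one (by norm_num) (by norm_num) (by omega)
      _ = 1 / 4 := by norm_num
  have h2 : 0 < lam k * H (k + 1) := mul_pos (R29_lam k).1 (hT.H_pos (k + 1))
  exact ⟨_, 1 / 2, lam k * H (k + 1) / 2, by linarith, by linarith, by linarith, le_rfl, rfl⟩

/-- ROW R29.  The set is nonempty and bounded by `1`. -/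
theorem xs_basic {φ : ℕ → ℂ → C2} {E : ℕ → C2 → ℂ} {H e : ℕ → ℝ} (hT : Tower φ E H e) {γ : ℝ → C2}
    {f : C2 → ℂ} (hf : FH γ f) (k : ℕ) : 0 ≤ xs φ H f k ∧ xs φ H f k ≤ 1 ∧
      ∀ t y : ℝ, (1 / 2 : ℝ) ^ (k + 2) ≤ t → t ≤ 1 - (1 / 2 : ℝ) ^ (k + 2) →
        lam k * H (k + 1) / 4 ≤ y → y ≤ lam k * H (k + 1) / 2 →
        ‖f (φ k ((t : ℂ) + (y : ℂ) * I))‖ ≤ xs φ H f k := by
  have hb : BddAbove (xset φ H f k) := ⟨1, R29_bd hT hf k⟩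
  have hne := R29_ne φ hT f k
  refine ⟨?_, csSup_le hne (R29_bd hT hf k), ?_⟩
  · obtain ⟨r, hr⟩ := hne
    have h1 : r ≤ xs φ H f k := le_csSup hb hr
    obtain ⟨t, y, -, -, -, -, rfl⟩ := hr
    exact (norm_nonneg _).trans h1
  · intro t y h1 h2 h3 h4
    exact le_csSup hb ⟨t, y, h1, h2, h3, h4, rfl⟩

/-- ROW R29.  Uniform continuity of `f` on `Bc` (compact), `lim_close` (for `k ≥ 1`; `y ≤ λ_k H_{k+1}/2 ≤ H_k`). -/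
theorem xs_lim {φ : ℕ → ℂ → C2} {E : ℕ → C2 → ℂ} {H e : ℕ → ℝ} (hT : Tower φ E H e) {γ : ℝ → C2}
    (hγ : Lim φ γ) {f : C2 → ℂ} (hf : FH γ f) : Tendsto (xs φ H f) atTop (𝓝 0) := by
  rw [Metric.tendsto_atTop]
  intro ε hε
  have huc : UniformContinuousOn f Bc := isCompact_Bc.uniformContinuousOn_of_continuous hf.ab.cont
  obtain ⟨δ, hδ, hδ'⟩ := Metric.uniformContinuousOn_iff.mp huc (ε / 2) (half_pos hε)
  obtain ⟨N, hN⟩ := exists_pow_lt_of_lt_one hδ (show (1 / 2 : ℝ) < 1 by norm_num)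
  refine ⟨N + 1, fun k hk => ?_⟩
  obtain ⟨m, rfl⟩ : ∃ m, k = m + 1 := ⟨k - 1, by omega⟩
  have h0 := (xs_basic hT hf (m + 1)).1
  rw [Real.dist_eq, sub_zero, abs_of_nonneg h0]
  refine lt_of_le_of_lt ?_ (half_lt_self hε)
  apply csSup_le (R29_ne φ hT f (m + 1))
  rintro r ⟨t, y, ht1, ht2, h1, h2, rfl⟩
  obtain ⟨y0, y1⟩ := R29_y hT (m + 1) h1 h2
  have hz : φ (m + 1) ((t : ℂ) + (y : ℂ) * I) ∈ Bc := Bo_subset_Bc (hT.inB (m + 1) t y y0 y1)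
  have hg : γ t ∈ Bc := le_of_eq (hγ.unit t)
  have hcl := lim_close hT hγ m t y (by rw [abs_of_pos y0]; exact y1)
  have hdist : dist (φ (m + 1) ((t : ℂ) + (y : ℂ) * I)) (γ t) < δ := by
    rw [dist_eq_norm]
    have h3 := (norm_sq_le_nsq (φ (m + 1) ((t : ℂ) + (y : ℂ) * I) - γ t)).trans hcl
    have h4 : ‖φ (m + 1) ((t : ℂ) + (y : ℂ) * I) - γ t‖ ≤ (1 / 2 : ℝ) ^ (m + 7) :=
      abs_le_of_sq_le_sq' h3 (by positivity) |>.2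
    refine h4.trans_lt (lt_of_le_of_lt ?_ hN)
    exact pow_le_pow_of_le_one (by norm_num) (by norm_num) (by omega)
  have h5 := hδ' _ hz _ hg hdist
  have ht0 : 0 ≤ t := le_trans (by positivity) ht1
  have ht3 : t ≤ 1 := ht2.trans (by
    have : 0 < (1 / 2 : ℝ) ^ (m + 1 + 2) := by positivity
    linarith)
  rw [hf.zero t ht0 ht3, dist_zero_right] at h5
  exact h5.le

end MP18cae5
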