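import Pool.Agent.Lib.MP_18cae5_an.R29

/-! Row R29b: the recursion for x_k. -/

set_option autoImplicit false

namespace MP18cae5

open Complex MeasureTheory Set Filter Topology

theorem R29b_lam_pos (k : ℕ) : 0 < lam k := by
  unfold lam
  positivity

theorem R29b_lam_succ (k : ℕ) : lam (k + 1) = lam k / 2 := by
  unfold lam
  rw [show k + 1 + 3 = (k + 3) + 1 by ring, pow_succ]
  ring

theorem R29b_lam_le (k : ℕ) : lam k ≤ 1 / 8 := by
  unfold lam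
  calc (1 / 2 : ℝ) ^ (k + 3) ≤ (1 / 2 : ℝ) ^ 3 :=
        pow_le_pow_of_le_one (by norm_num) (by norm_num) (by omega)
    _ = 1 / 8 := by norm_num

/-- the lower line is below the rectangle of stage `k` -/
theorem R29b_a_le {φ : ℕ → ℂ → C2} {E : ℕ → C2 → ℂ} {H e : ℕ → ℝ} (hT : Tower φ E H e) (k : ℕ) :
    lam (k + 1) * H (k + 2) / 2 ≤ lam k * H (k + 1) / 8 := by
  have h1 := hT.H_dec (k + 1)
  have h2 := R29b_lam_pos k
  have h3 := hT.H_pos (k + 2)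
  rw [R29b_lam_succ]
  have h4 : lam k * H (k + 2) ≤ lam k * (H (k + 1) / 2) := mul_le_mul_of_nonneg_left h1 h2.le
  linarith

/-- the exponent -/
theorem R29b_exp {a b y l : ℝ} (ha : 0 < a) (hay : a ≤ y) (hl : 0 < l) (hb : 0 < b)
    (hab : a < b) (hyb : y ≤ l * b / 2) (hlb : b ≤ l ^ 2 / 8) (hl1 : l ≤ 1 / 8) :
    1 - l ≤ 1 - (y - a) / (b - a) - 4 * Real.exp (-(l / (b - a))) := by
  have hba : 0 < b - a := sub_pos.mpr hab
  have h1 : (y - a) / (b - a) ≤ l / 2 := by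
    rw [div_le_iff₀ hba]
    have : l / 2 * a ≤ a := by nlinarith
    nlinarith
  have h2 : 4 * Real.exp (-(l / (b - a))) ≤ l / 2 := by
    have h3 : 8 / l ≤ l / (b - a) := by
      rw [div_le_div_iff₀ hl hba]
      nlinarith
    have h4 : Real.exp (-(l / (b - a))) ≤ Real.exp (-(8 / l)) := by
      apply Real.exp_le_exp.mpr
      linarith
    have h5 : 8 / l ≤ Real.exp (8 / l) := by
      have := Real.add_one_le_exp (8 / l)
      linarith
    have h6 : Real.exp (-(8 / l)) ≤ l / 8 := by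
      rw [Real.exp_neg]
      have h7 : (0 : ℝ) < 8 / l := by positivity
      calc (Real.exp (8 / l))⁻¹ ≤ (8 / l)⁻¹ := inv_anti₀ h7 h5
        _ = l / 8 := by rw [inv_div]
    linarith
  linarith

/-- the two constants estimate for `f ∘ φ (k+1)` -/
theorem R29b_two {φ : ℕ → ℂ → C2} {E : ℕ → C2 → ℂ} {H e : ℕ → ℝ} (hT : Tower φ E H e) {γ : ℝ → C2}
    {f : C2 → ℂ} (hf : FH γ f) (k : ℕ) (t0 y : ℝ) (ht1 : (1 / 2 : ℝ) ^ (k + 2) ≤ t0)
    (ht2 : t0 ≤ 1 - (1 / 2 : ℝ) ^ (k + 2)) (hy1 : lam k * H (k + 1) / 4 ≤ y)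
    (hy2 : y ≤ lam k * H (k + 1) / 2) (ν : ℝ) (hν : 0 < ν) (hν1 : ν ≤ 1)
    (hxν : xs φ H f (k + 1) ≤ ν) :
    ‖f (φ (k + 1) ((t0 : ℂ) + (y : ℂ) * I))‖ ≤ ν ^ (1 - lam k) := by
  have hl := R29b_lam_pos k
  have hl8 := R29b_lam_le k
  have hH1 := hT.H_pos (k + 1)
  have hH2 := hT.H_pos (k + 2)
  have hl' := R29b_lam_pos (k + 1)
  have ha : 0 < lam (k + 1) * H (k + 2) / 2 := by positivity
  have hale := R29b_a_le hT k
  have hab : lam (k + 1) * H (k + 2) / 2 < H (k + 1) := by nlinarith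
  have hay : lam (k + 1) * H (k + 2) / 2 ≤ y := by nlinarith
  have hyb : y ≤ H (k + 1) := by nlinarith
  obtain ⟨h, hh, hholo⟩ := hT.holo (k + 1)
  have hin : ∀ σ : ℂ, lam (k + 1) * H (k + 2) / 2 ≤ σ.im → σ.im ≤ H (k + 1) →
      φ (k + 1) σ ∈ Bo := by
    intro σ h1 h2
    have h3 := hT.inB (k + 1) σ.re σ.im (by linarith) h2
    rwa [Complex.re_add_im] at h3
  have hstrip : ∀ σ : ℂ, lam (k + 1) * H (k + 2) / 2 ≤ σ.im → σ.im ≤ H (k + 1) →
      σ ∈ strip h := by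
    intro σ h1 h2
    change |σ.im| < h
    rw [abs_of_pos (by linarith)]
    linarith
  have key := two_const (g := fun σ => f (φ (k + 1) σ)) hab ?_ ?_ ?_ ν hν hν1 t0 (lam k) hl ?_ y
    hay hyb
  · refine key.trans ?_
    exact Real.rpow_le_rpow_of_exponent_ge hν hν1
      (R29b_exp ha hay hl hH1 hab (by linarith) (hT.H_le k) hl8)
  · intro σ hσ
    have h1 : DifferentiableAt ℂ f (φ (k + 1) σ) :=
      hf.ab.holo.differentiableAt (isOpen_Bo.mem_nhds (hin σ hσ.1.le hσ.2.le))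
    have h2 : DifferentiableAt ℂ (φ (k + 1)) σ :=
      hholo.differentiableAt ((isOpen_strip h).mem_nhds (hstrip σ hσ.1.le hσ.2.le))
    exact (h1.comp σ h2).differentiableWithinAt
  · have h1 : ContinuousOn (φ (k + 1))
        {σ : ℂ | lam (k + 1) * H (k + 2) / 2 ≤ σ.im ∧ σ.im ≤ H (k + 1)} :=
      hholo.continuousOn.mono fun σ hσ => hstrip σ hσ.1 hσ.2
    exact hf.ab.cont.comp h1 fun σ hσ => Bo_subset_Bc (hin σ hσ.1 hσ.2)
  · intro σ h1 h2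
    exact hf.le _ (Bo_subset_Bc (hin σ h1 h2))
  · intro t ht
    refine le_trans ?_ hxν
    have hpow : (1 / 2 : ℝ) ^ (k + 2) = 2 * lam k := by
      unfold lam
      rw [show k + 3 = (k + 2) + 1 by ring, pow_succ]
      ring
    have hpow' : (1 / 2 : ℝ) ^ (k + 1 + 2) = lam k := by
      unfold lam
      rfl
    obtain ⟨h3, h4⟩ := abs_le.mp ht
    refine (xs_basic hT hf (k + 1)).2.2 t _ ?_ ?_ ?_ le_rfl
    · rw [hpow'] ; linarith
    · rw [hpow'] ; linarith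
    · nlinarith

/-- ROW R29b.  Fix `t0, y` in the rectangle of stage `k`, `g = f ∘ φ (k+1)`, strip `a = λ_{k+1} H_{k+2}/2 ≤ Im ≤ b = H_{k+1}`;
`two_const` with `ν = x_{k+1} + δ` (`0 < δ`, then `δ → 0`; if `ν > 1` trivial), `r = (1/2)^(k+3) = λ_k`: `‖g(t0+iy)‖ ≤ ν^(1-λ_k)` since
`(y-a)/(b-a) ≤ y/b ≤ λ_k/2` and `4 exp(-λ_k/(b-a)) ≤ 4 exp(-8/λ_k) ≤ λ_k/2` (`H_le`).  Note `a ≤ y` because
`λ_{k+1} H_{k+2}/2 ≤ λ_k H_{k+1}/8`.  Then `hug`. -/
theorem xs_rec {φ : ℕ → ℂ → C2} {E : ℕ → C2 → ℂ} {H e : ℕ → ℝ} (hT : Tower φ E H e) {γ : ℝ → C2}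
    {f : C2 → ℂ} (hf : FH γ f) (k : ℕ) :
    xs φ H f k ≤ xs φ H f (k + 1) ^ (1 - lam k) + e k := by
  have hl := R29b_lam_pos k
  have hl8 := R29b_lam_le k
  have hH1 := hT.H_pos (k + 1)
  obtain ⟨hx0, hx1, -⟩ := xs_basic hT hf (k + 1)
  have hne : (xset φ H f k).Nonempty := by
    refine ⟨_, 1 / 2, lam k * H (k + 1) / 2, ?_, ?_, ?_, le_rfl, rfl⟩
    · calc (1 / 2 : ℝ) ^ (k + 2) ≤ (1 / 2 : ℝ) ^ 1 :=
            pow_le_pow_of_le_one (by norm_num) (by norm_num) (by omega)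
        _ = 1 / 2 := by norm_num
    · have : (1 / 2 : ℝ) ^ (k + 2) ≤ (1 / 2 : ℝ) ^ 1 :=
            pow_le_pow_of_le_one (by norm_num) (by norm_num) (by omega)
      linarith
    · have : 0 < lam k * H (k + 1) := by positivity
      linarith
  refine csSup_le hne ?_
  rintro r ⟨t0, y, ht1, ht2, hy1, hy2, rfl⟩
  have hν : ∀ ν : ℝ, 0 < ν → xs φ H f (k + 1) ≤ ν →
      ‖f (φ (k + 1) ((t0 : ℂ) + (y : ℂ) * I))‖ ≤ ν ^ (1 - lam k) := by
    intro ν h0 h1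
    rcases le_or_gt ν 1 with h2 | h2
    · exact R29b_two hT hf k t0 y ht1 ht2 hy1 hy2 ν h0 h2 h1
    · have h3 : ‖f (φ (k + 1) ((t0 : ℂ) + (y : ℂ) * I))‖ ≤ 1 := by
        apply hf.le
        apply Bo_subset_Bc
        apply hT.inB
        · have : 0 < lam k * H (k + 1) := by positivity
          linarith
        · nlinarith
      exact h3.trans (Real.one_le_rpow h2.le (by linarith))
  have hlim : ‖f (φ (k + 1) ((t0 : ℂ) + (y : ℂ) * I))‖ ≤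
      xs φ H f (k + 1) ^ (1 - lam k) := by
    have h1 : ContinuousAt (fun ν : ℝ => ν ^ (1 - lam k)) (xs φ H f (k + 1)) :=
      Real.continuousAt_rpow_const _ _ (Or.inr (by linarith))
    have h2 : Tendsto (fun ν : ℝ => ν ^ (1 - lam k)) (𝓝[>] (xs φ H f (k + 1)))
        (𝓝 (xs φ H f (k + 1) ^ (1 - lam k))) := h1.tendsto.mono_left nhdsWithin_le_nhds
    refine ge_of_tendsto h2 ?_
    filter_upwards [self_mem_nhdsWithin] with ν hν'
    exact hν ν (lt_of_le_of_lt hx0 hν') hν'.le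
  have hhug := hT.hug k f hf.ab.holo (fun z hz => hf.le z (Bo_subset_Bc hz)) t0 y hy1 hy2
  calc ‖f (φ k ((t0 : ℂ) + (y : ℂ) * I))‖
      = ‖f (φ (k + 1) ((t0 : ℂ) + (y : ℂ) * I)) - (f (φ (k + 1) ((t0 : ℂ) + (y : ℂ) * I)) -
          f (φ k ((t0 : ℂ) + (y : ℂ) * I)))‖ := by
        congr 1
        ring
    _ ≤ ‖f (φ (k + 1) ((t0 : ℂ) + (y : ℂ) * I))‖ + ‖f (φ (k + 1) ((t0 : ℂ) + (y : ℂ) * I)) -
          f (φ k ((t0 : ℂ) + (y : ℂ) * I))‖ := norm_sub_le _ _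
    _ ≤ xs φ H f (k + 1) ^ (1 - lam k) + e k := add_le_add hlim hhug

end MP18cae5
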