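import Pool.Agent.Lib.MP_18cae5_an.R26
import Pool.Agent.Lib.MP_18cae5_an.R29b

/-! Row R30: the uniqueness theorem. -/

set_option autoImplicit false

namespace MP18cae5

open Complex MeasureTheory Set Filter Topology

theorem R30_eq (σ : ℂ) : ((σ.re : ℝ) : ℂ) + ((σ.im : ℝ) : ℂ) * I = σ := re_add_im σ

theorem R30_mem {φ : ℕ → ℂ → C2} {E : ℕ → C2 → ℂ} {H e : ℕ → ℝ} (hT : Tower φ E H e) (k : ℕ) {σ : ℂ}
    (h0 : 0 < σ.im) (h1 : σ.im ≤ H k) : φ k σ ∈ Bo := by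
  have h := hT.inB k σ.re σ.im h0 h1
  rwa [R30_eq] at h

theorem R30_diff {φ : ℕ → ℂ → C2} {E : ℕ → C2 → ℂ} {H e : ℕ → ℝ} (hT : Tower φ E H e) {γ : ℝ → C2}
    {f : C2 → ℂ} (hf : FH γ f) (k : ℕ) {σ : ℂ} (h0 : 0 < σ.im) (h1 : σ.im ≤ H k) :
    DifferentiableAt ℂ (fun τ => f (φ k τ)) σ := by
  obtain ⟨h, hh, hd⟩ := hT.holo k
  have hσ : σ ∈ strip h := by
    show |σ.im| < h
    rw [abs_of_pos h0]
    linarith
  have hφ : DifferentiableAt ℂ (φ k) σ := hd.differentiableAt ((isOpen_strip h).mem_nhds hσ)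
  have hf1 : DifferentiableAt ℂ f (φ k σ) := hf.ab.holo.differentiableAt (isOpen_Bo.mem_nhds (R30_mem hT k h0 h1))
  exact DifferentiableAt.comp σ hf1 hφ

theorem R30_e {φ : ℕ → ℂ → C2} {E : ℕ → C2 → ℂ} {H e : ℕ → ℝ} (hT : Tower φ E H e) (k : ℕ) :
    e k ≤ (1 / 64 : ℝ) ^ (k + 1) := by
  induction k with
  | zero => simpa using hT.e_zero
  | succ k ih =>
    have h1 := hT.e_dec k
    have h2 : e k ^ 2 ≤ ((1 / 64 : ℝ) ^ (k + 1)) ^ 2 := pow_le_pow_left₀ (hT.e_pos k).le ih 2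
    have h3 : ((1 / 64 : ℝ) ^ (k + 1)) ^ 2 = (1 / 64 : ℝ) ^ (k + 1 + 1) * (1 / 64 : ℝ) ^ k := by ring
    have h4 : (1 / 64 : ℝ) ^ k ≤ 1 := pow_le_one₀ (by norm_num) (by norm_num)
    have h5 : 0 < (1 / 64 : ℝ) ^ (k + 1 + 1) := by positivity
    have h6 : (1 / 64 : ℝ) ^ (k + 1 + 1) * (1 / 64 : ℝ) ^ k ≤ (1 / 64 : ℝ) ^ (k + 1 + 1) * 1 :=
      mul_le_mul_of_nonneg_left h4 h5.le
    linarith

theorem R30_nu {φ : ℕ → ℂ → C2} {E : ℕ → C2 → ℂ} {H e : ℕ → ℝ} (hT : Tower φ E H e) (k : ℕ) :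
    0 < 2 * 4 ^ (k + 2) * e (k + 1) ∧ 2 * 4 ^ (k + 2) * e (k + 1) ≤ 1 := by
  have h1 := R30_e hT (k + 1)
  have h2 := hT.e_pos (k + 1)
  refine ⟨by positivity, ?_⟩
  calc 2 * 4 ^ (k + 2) * e (k + 1) ≤ 2 * 4 ^ (k + 2) * (1 / 64 : ℝ) ^ (k + 1 + 1) :=
        mul_le_mul_of_nonneg_left h1 (by positivity)
    _ = 2 * (4 * (1 / 64 : ℝ)) ^ (k + 2) := by rw [mul_pow]; ring
    _ = 2 * (1 / 256 : ℝ) * (1 / 16 : ℝ) ^ k := by
        rw [show (4 * (1 / 64 : ℝ)) = 1 / 16 by norm_num, pow_add]; ring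
    _ ≤ 2 * (1 / 256 : ℝ) * 1 := by
        apply mul_le_mul_of_nonneg_left _ (by norm_num)
        exact pow_le_one₀ (by norm_num) (by norm_num)
    _ ≤ 1 := by norm_num

theorem R30_lam (k : ℕ) : 0 < lam k ∧ lam k ≤ 1 / 8 := by
  unfold lam
  refine ⟨by positivity, ?_⟩
  rw [pow_add]
  have : (1 / 2 : ℝ) ^ k ≤ 1 := pow_le_one₀ (by norm_num) (by norm_num)
  calc (1 / 2 : ℝ) ^ k * (1 / 2) ^ 3 ≤ 1 * (1 / 2) ^ 3 := mul_le_mul_of_nonneg_right this (by positivity)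
    _ = 1 / 8 := by norm_num

/-- ROW R30.  `rec_lemma` for `xs`; then `two_const` for `g = f ∘ φ (k+1)` with `a = λ_{k+1} H_{k+2}/2`, `b = H_{k+1} ≤ 1/512`, `r = 1/8`,
`ν = 2·4^(k+2) e_{k+1} ≤ 1`: exponent `1 - (y-a)/(b-a) - 4 exp(-1/(8b)) ≥ 1/4` for `a ≤ y ≤ b/2`. -/
theorem small_mid {φ : ℕ → ℂ → C2} {E : ℕ → C2 → ℂ} {H e : ℕ → ℝ} (hT : Tower φ E H e) {γ : ℝ → C2}
    (hγ : Lim φ γ) {f : C2 → ℂ} (hf : FH γ f) (k : ℕ) (t y : ℝ) (ht : 3 / 8 ≤ t) (ht' : t ≤ 5 / 8)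
    (hy : H (k + 1) / 4 ≤ y) (hy' : y ≤ H (k + 1) / 2) :
    ‖f (φ (k + 1) ((t : ℂ) + (y : ℂ) * I))‖ ≤ (2 * 4 ^ (k + 2) * e (k + 1)) ^ (1 / 4 : ℝ) := by
  obtain ⟨hν0, hν1⟩ := R30_nu hT k
  set ν : ℝ := 2 * 4 ^ (k + 2) * e (k + 1) with hν
  have hx : xs φ H f (k + 1) ≤ ν :=
    rec_lemma (xs φ H f) e (fun k => (xs_basic hT hf k).1) (fun k => (xs_basic hT hf k).2.1) hT.e_pos hT.e_zero
      hT.e_dec (fun k => xs_rec hT hf k) (xs_lim hT hγ hf) (k + 1)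
  set b : ℝ := H (k + 1) with hb
  set a : ℝ := lam (k + 1) * H (k + 2) / 2 with ha
  obtain ⟨hl0, hl1⟩ := R30_lam (k + 1)
  obtain ⟨hl0', hl1'⟩ := R30_lam k
  have hb0 : 0 < b := hT.H_pos (k + 1)
  have hH2 : 0 < H (k + 2) := hT.H_pos (k + 2)
  have hH3 : H (k + 2) ≤ b / 2 := hT.H_dec (k + 1)
  have ha0 : 0 < a := by positivity
  have ha1 : a ≤ b / 8 := by
    have : lam (k + 1) * H (k + 2) ≤ (1 / 8) * (b / 2) := mul_le_mul hl1 hH3 hH2.le (by norm_num)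
    rw [ha]; linarith
  have hb1 : b ≤ 1 / 512 := by
    have h1 : b ≤ lam k ^ 2 / 8 := hT.H_le k
    have h2 : lam k ^ 2 ≤ (1 / 8 : ℝ) ^ 2 := pow_le_pow_left₀ hl0'.le hl1' 2
    norm_num at h2
    linarith
  have hab : a < b := by linarith
  have key := two_const (g := fun τ => f (φ (k + 1) τ)) hab
    (fun σ hσ => (R30_diff hT hf (k + 1) (ha0.trans hσ.1) hσ.2.le).differentiableWithinAt)
    (fun σ hσ => (R30_diff hT hf (k + 1) (ha0.trans_le hσ.1) hσ.2).continuousAt.continuousWithinAt)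
    (fun σ h1 h2 => hf.le _ (Bo_subset_Bc (R30_mem hT (k + 1) (ha0.trans_le h1) h2))) ν hν0 hν1 t (1 / 8)
    (by norm_num) ?_ y (by linarith) (by linarith)
  · refine key.trans (Real.rpow_le_rpow_of_exponent_ge hν0 hν1 ?_)
    have h1 : (y - a) / (b - a) ≤ 1 / 2 := by
      rw [div_le_iff₀ (by linarith)]
      linarith
    have h2 : Real.exp (-(1 / 8 / (b - a))) ≤ 1 / 65 := by
      have h3 : (64 : ℝ) ≤ 1 / 8 / (b - a) := by
        rw [le_div_iff₀ (by linarith)]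
        linarith
      have h4 : (65 : ℝ) ≤ Real.exp (1 / 8 / (b - a)) := by
        have := Real.add_one_le_exp (1 / 8 / (b - a))
        linarith
      calc Real.exp (-(1 / 8 / (b - a))) = (Real.exp (1 / 8 / (b - a)))⁻¹ := Real.exp_neg _
        _ ≤ (65 : ℝ)⁻¹ := inv_anti₀ (by norm_num) h4
        _ = 1 / 65 := by norm_num
    linarith
  · intro t' ht1
    rw [abs_le] at ht1
    refine ((xs_basic hT hf (k + 1)).2.2 t' a ?_ ?_ ?_ ?_).trans hx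
    · have : (1 / 2 : ℝ) ^ (k + 1 + 2) = lam k := rfl
      rw [this]; linarith [ht1.1]
    · have : (1 / 2 : ℝ) ^ (k + 1 + 2) = lam k := rfl
      rw [this]; linarith [ht1.2]
    · show lam (k + 1) * H (k + 1 + 1) / 4 ≤ a
      have h5 : (0 : ℝ) < lam (k + 1) * H (k + 2) := by positivity
      show lam (k + 1) * H (k + 2) / 4 ≤ a
      rw [ha]; linarith
    · exact le_refl _

/-- ROW R30.  `chain` with `t0 = 1/2`, `H = H (k+1)`, then `e_super` and periodicity. -/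
theorem small_all {φ : ℕ → ℂ → C2} {E : ℕ → C2 → ℂ} {H e : ℕ → ℝ} (hT : Tower φ E H e) {γ : ℝ → C2}
    (hγ : Lim φ γ) {f : C2 → ℂ} (hf : FH γ f) (k : ℕ) (t : ℝ) :
    ‖f (φ (k + 1) ((t : ℂ) + ((3 * H (k + 1) / 8 : ℝ) : ℂ) * I))‖ ≤ 1 / (k + 2 : ℝ) := by
  obtain ⟨hν0, hν1⟩ := R30_nu hT k
  have hb0 : 0 < H (k + 1) := hT.H_pos (k + 1)
  obtain ⟨hl0', hl1'⟩ := R30_lam k
  have hb1 : H (k + 1) ≤ 1 / 512 := by
    have h1 : H (k + 1) ≤ lam k ^ 2 / 8 := hT.H_le k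
    have h2 : lam k ^ 2 ≤ (1 / 8 : ℝ) ^ 2 := pow_le_pow_left₀ hl0'.le hl1' 2
    norm_num at h2
    linarith
  have hper : Function.Periodic (fun s : ℝ => ‖f (φ (k + 1) ((s : ℂ) + ((3 * H (k + 1) / 8 : ℝ) : ℂ) * I))‖)
      (2 * Real.pi) := by
    intro s
    show ‖f (φ (k + 1) (((s + 2 * Real.pi : ℝ) : ℂ) + ((3 * H (k + 1) / 8 : ℝ) : ℂ) * I))‖ = _
    have h1 : ((s + 2 * Real.pi : ℝ) : ℂ) + ((3 * H (k + 1) / 8 : ℝ) : ℂ) * I =
        ((s : ℂ) + ((3 * H (k + 1) / 8 : ℝ) : ℂ) * I) + 2 * Real.pi := by push_cast; ring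
    rw [h1, hT.per]
  obtain ⟨s, hs, hst⟩ := hper.exists_mem_Ico (by positivity) t (1 / 2)
  have hst' : ‖f (φ (k + 1) ((t : ℂ) + ((3 * H (k + 1) / 8 : ℝ) : ℂ) * I))‖ =
      ‖f (φ (k + 1) ((s : ℂ) + ((3 * H (k + 1) / 8 : ℝ) : ℂ) * I))‖ := hst
  rw [hst']
  have key := chain (g := fun τ => f (φ (k + 1) τ)) hb0
    (fun σ hσ => (R30_diff hT hf (k + 1) hσ.1 hσ.2.le).differentiableWithinAt)
    (fun σ h1 h2 => hf.le _ (Bo_subset_Bc (R30_mem hT (k + 1) h1 h2.le)))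
    ((2 * 4 ^ (k + 2) * e (k + 1)) ^ (1 / 4 : ℝ)) (Real.rpow_pos_of_pos hν0 _)
    (Real.rpow_le_one hν0.le hν1 (by norm_num)) (1 / 2) ?_ s hs.1 hs.2.le
  · refine key.trans ?_
    rw [← Real.rpow_mul hν0.le]
    have h1 := hT.e_super (k + 1)
    have h2 : (((k + 1 : ℕ) : ℝ) + 1) = (k : ℝ) + 2 := by push_cast; ring
    rw [h2] at h1
    exact h1
  · intro z hz
    rw [Metric.mem_ball, dist_eq_norm] at hz
    have h1 : |z.re - 1 / 2| ≤ ‖z - (((1 / 2 : ℝ) : ℂ) + ((3 * H (k + 1) / 8 : ℝ) : ℂ) * I)‖ := by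
      have := abs_re_le_norm (z - (((1 / 2 : ℝ) : ℂ) + ((3 * H (k + 1) / 8 : ℝ) : ℂ) * I))
      rwa [sub_re, add_re, ofReal_re, re_ofReal_mul, I_re, mul_zero, add_zero] at this
    have h2 : |z.im - 3 * H (k + 1) / 8| ≤ ‖z - (((1 / 2 : ℝ) : ℂ) + ((3 * H (k + 1) / 8 : ℝ) : ℂ) * I)‖ := by
      have := abs_im_le_norm (z - (((1 / 2 : ℝ) : ℂ) + ((3 * H (k + 1) / 8 : ℝ) : ℂ) * I))
      rwa [sub_im, add_im, ofReal_im, im_ofReal_mul, I_im, mul_one, zero_add] at this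
    have h3 := abs_le.mp (h1.trans hz.le)
    have h4 := abs_le.mp (h2.trans hz.le)
    have h5 := small_mid hT hγ hf k z.re z.im (by linarith [h3.1]) (by linarith [h3.2]) (by linarith [h4.1])
      (by linarith [h4.2])
    rwa [R30_eq] at h5

/-- ROW R30.  Let `k → ∞`: `lim_close`, continuity of `f` on `Bc`. -/
theorem unique {φ : ℕ → ℂ → C2} {E : ℕ → C2 → ℂ} {H e : ℕ → ℝ} (hT : Tower φ E H e) {γ : ℝ → C2}
    (hγ : Lim φ γ) {f : C2 → ℂ} (hf : FH γ f) (t : ℝ) : f (γ t) = 0 := by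
  have hBc : γ t ∈ Bc := (hγ.unit t).le
  set z : ℕ → C2 := fun k => φ (k + 1) ((t : ℂ) + ((3 * H (k + 1) / 8 : ℝ) : ℂ) * I) with hz
  have hzB : ∀ k, z k ∈ Bc := fun k =>
    Bo_subset_Bc (hT.inB (k + 1) t (3 * H (k + 1) / 8) (by have := hT.H_pos (k + 1); positivity)
      (by have := hT.H_pos (k + 1); linarith))
  have hz1 : ∀ k, ‖z k - γ t‖ ≤ (1 / 2 : ℝ) ^ (k + 7) := by
    intro k
    have h1 := lim_close hT hγ k t (3 * H (k + 1) / 8) (by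
      have := hT.H_pos (k + 1)
      rw [abs_of_pos (by positivity)]
      linarith)
    have h2 := (norm_sq_le_nsq (z k - γ t)).trans h1
    exact le_of_sq_le_sq h2 (by positivity)
  have hz2 : Tendsto z atTop (𝓝 (γ t)) := by
    rw [tendsto_iff_norm_sub_tendsto_zero]
    refine squeeze_zero (fun k => norm_nonneg _) hz1 ?_
    have h3 : Tendsto (fun n : ℕ => (1 / 2 : ℝ) ^ n) atTop (𝓝 0) :=
      tendsto_pow_atTop_nhds_zero_of_lt_one (by norm_num) (by norm_num)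
    exact h3.comp (tendsto_add_atTop_nat 7)
  have hz3 : Tendsto z atTop (𝓝[Bc] (γ t)) :=
    tendsto_nhdsWithin_iff.mpr ⟨hz2, Eventually.of_forall hzB⟩
  have h4 : Tendsto (fun k => f (z k)) atTop (𝓝 (f (γ t))) := (hf.ab.cont (γ t) hBc).tendsto.comp hz3
  have h5 : Tendsto (fun k => f (z k)) atTop (𝓝 0) := by
    rw [tendsto_zero_iff_norm_tendsto_zero]
    refine squeeze_zero (fun k => norm_nonneg _) (fun k => small_all hT hγ hf k t) ?_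
    have h6 : Tendsto (fun n : ℕ => 1 / ((n : ℝ) + 1)) atTop (𝓝 0) := tendsto_one_div_add_atTop_nhds_zero_nat
    have h7 := h6.comp (tendsto_add_atTop_nat 1)
    refine h7.congr fun k => ?_
    show 1 / (((k + 1 : ℕ) : ℝ) + 1) = 1 / ((k : ℝ) + 2)
    push_cast
    ring_nf
  exact tendsto_nhds_unique h4 h5

end MP18cae5
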