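import Pool.Agent.Lib.MP_18cae5_an.R11

/-! Row R31: uniform limits of entire functions on the ball. -/

set_option autoImplicit false

namespace MP18cae5

open Complex MeasureTheory Set Filter Topology

/-- ROW R31.  `f z = F 0 z + ∑' (F (k+1) z - F k z)` on `Bc` (`0` elsewhere): uniform convergence on `Bc` gives continuity.
Differentiability at `x ∈ Bo`: on a small ball (sup norm, radius `ρ`, `ball x (2ρ) ⊆ Bo`) the derivatives of `F (k+1) - F k` are at most
`b k/ρ` (`cauchy_fderiv`), so `hasFDerivAt_of_tendstoUniformlyOnFilter` / `hasFDerivAt_tsum_of_isPreconnected`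
(`hasFDerivAt_tsum_of_isPreconnected` on the ball is the most convenient). -/
theorem AB_of_sum (F : ℕ → C2 → ℂ) (hF : ∀ k, Differentiable ℂ (F k)) (b : ℕ → ℝ) (hb : Summable b)
    (h : ∀ k, ∀ z ∈ Bc, ‖F (k + 1) z - F k z‖ ≤ b k) :
    ∃ f : C2 → ℂ, AB f ∧ (∀ z ∈ Bc, Tendsto (fun k => F k z) atTop (𝓝 (f z))) ∧
      ∀ z ∈ Bc, ∀ k, ‖f z - F k z‖ ≤ ∑' i, b (k + i) := by
  set g : ℕ → C2 → ℂ := fun k z => F (k + 1) z - F k z with hg
  set f : C2 → ℂ := fun z => F 0 z + ∑' k, g k z with hf
  have hsum : ∀ z ∈ Bc, Summable (fun k => g k z) := fun z hz =>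
    Summable.of_norm_bounded hb fun k => h k z hz
  have hpart : ∀ z n, ∑ k ∈ Finset.range n, g k z = F n z - F 0 z := fun z n =>
    Finset.sum_range_sub (fun k => F k z) n
  have hlim : ∀ z ∈ Bc, Tendsto (fun k => F k z) atTop (𝓝 (f z)) := by
    intro z hz
    have h1 := (hsum z hz).hasSum.tendsto_sum_nat
    have h2 : Tendsto (fun n => F 0 z + ∑ k ∈ Finset.range n, g k z) atTop (𝓝 (f z)) :=
      tendsto_const_nhds.add h1
    refine h2.congr fun n => ?_
    rw [hpart]
    ring
  have htail : ∀ z ∈ Bc, ∀ k, ‖f z - F k z‖ ≤ ∑' i, b (k + i) := by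
    intro z hz k
    have h1 : f z - F k z = ∑' i, g (k + i) z := by
      have h2 := (hsum z hz).sum_add_tsum_nat_add k
      rw [hpart] at h2
      have h3 : ∑' i, g (k + i) z = ∑' i, g (i + k) z := by
        congr 1
        funext i
        rw [add_comm]
      rw [h3]
      simp only [hf]
      rw [← h2]
      ring
    rw [h1]
    have hs2 : Summable (fun i => b (k + i)) := by
      have := (summable_nat_add_iff k).2 hb
      refine this.congr fun i => ?_
      rw [add_comm]
    exact tsum_of_norm_bounded hs2.hasSum fun i => h (k + i) z hz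
  have htail0 : Tendsto (fun k => ∑' i, b (k + i)) atTop (𝓝 0) := by
    have h1 := tendsto_sum_nat_add b
    refine h1.congr fun k => ?_
    congr 1
    funext i
    rw [add_comm]
  refine ⟨f, ⟨?_, ?_⟩, hlim, htail⟩
  · have hu : TendstoUniformlyOn F f atTop Bc := by
      rw [Metric.tendstoUniformlyOn_iff]
      intro e he
      have h1 := (Metric.tendsto_nhds.1 htail0) e he
      filter_upwards [h1] with k hk z hz
      rw [dist_eq_norm]
      refine (htail z hz k).trans_lt ?_
      rw [Real.dist_eq, sub_zero] at hk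
      exact (le_abs_self _).trans_lt hk
    exact hu.continuousOn (Filter.Frequently.of_forall fun k => (hF k).continuous.continuousOn)
  · intro x hx
    obtain ⟨r, hr, hball⟩ := Metric.isOpen_iff.1 isOpen_Bo x hx
    set ρ : ℝ := r / 2 with hρ
    have hρ0 : 0 < ρ := by positivity
    have hxs : x ∈ Metric.ball x ρ := Metric.mem_ball_self hρ0
    have hsub : ∀ y ∈ Metric.ball x ρ, Metric.ball y ρ ⊆ Bc := by
      intro y hy z hz
      refine Bo_subset_Bc (hball ?_)
      rw [Metric.mem_ball] at *
      have := dist_triangle z y x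
      linarith
    have hD := hasFDerivAt_tsum_of_isPreconnected (𝕜 := ℂ) (f := g) (f' := fun k y => fderiv ℂ (g k) y)
      (u := fun k => b k / ρ) (s := Metric.ball x ρ) (x₀ := x) (x := x) (hb.div_const ρ) Metric.isOpen_ball
      ((convex_ball x ρ).isPreconnected)
      (fun k y _ => (((hF (k + 1)) y).sub ((hF k) y)).hasFDerivAt)
      (fun k y hy => cauchy_fderiv hρ0 (((hF (k + 1)).sub (hF k)).differentiableOn)
        fun z hz => h k z (hsub y hy hz)) hxs
      (hsum x (Bo_subset_Bc hx)) hxs
    exact ((hF 0 x).add hD.differentiableAt).differentiableWithinAt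

end MP18cae5
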