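import Pool.Agent.Lib.MP_18cae5_an.R28
import Pool.Agent.Lib.MP_18cae5_an.R31

/-! Row R32: functions vanishing exactly on the limit curve. -/

set_option autoImplicit false

namespace MP18cae5

open Complex MeasureTheory Set Filter Topology

theorem R32_tail (j k : ℕ) : ∑' i : ℕ, (1 / 2 : ℝ) ^ (j + 1 + (k + i) + 3) = (1 / 2 : ℝ) ^ (j + k + 3) := by
  have h1 : ∀ i : ℕ, (1 / 2 : ℝ) ^ (j + 1 + (k + i) + 3) = (1 / 2 : ℝ) ^ (j + k + 4) * (1 / 2 : ℝ) ^ i := by
    intro i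
    rw [← pow_add]
    congr 1
    ring
  simp_rw [h1]
  rw [tsum_mul_left, tsum_geometric_two]
  rw [show j + k + 4 = (j + k + 3) + 1 by ring, pow_succ]
  ring

theorem R32_sum (j : ℕ) : Summable fun k : ℕ => (1 / 2 : ℝ) ^ (j + 1 + k + 3) := by
  have h1 : (fun k : ℕ => (1 / 2 : ℝ) ^ (j + 1 + k + 3)) = fun k : ℕ => (1 / 2 : ℝ) ^ (j + 4) * (1 / 2 : ℝ) ^ k := by
    funext k
    rw [← pow_add]
    congr 1
    ring
  rw [h1]
  exact summable_geometric_two.mul_left _

theorem R32_min {γ : ℝ → C2} (hc : Continuous γ) (hper : ∀ t : ℝ, γ (t + 2 * Real.pi) = γ t) (z : C2)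
    (hne : ∀ t : ℝ, z ≠ γ t) : ∃ r : ℝ, 0 < r ∧ ∀ t : ℝ, r ≤ Real.sqrt (nsq (z - γ t)) := by
  have hcont : Continuous fun t : ℝ => Real.sqrt (nsq (z - γ t)) :=
    Real.continuous_sqrt.comp (continuous_nsq.comp (continuous_const.sub hc))
  obtain ⟨t0, _, ht0⟩ := (isCompact_Icc (a := (0 : ℝ)) (b := 2 * Real.pi)).exists_isMinOn
    ⟨0, by constructor <;> linarith [Real.pi_pos]⟩ hcont.continuousOn
  refine ⟨Real.sqrt (nsq (z - γ t0)), ?_, fun t => ?_⟩
  · rw [Real.sqrt_pos]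
    refine lt_of_le_of_ne (nsq_nonneg _) fun h => ?_
    have := (nsq_eq_zero _).1 h.symm
    exact hne t0 (sub_eq_zero.1 this)
  · have hp : Function.Periodic γ (2 * Real.pi) := hper
    obtain ⟨y, hy, hty⟩ := hp.exists_mem_Ico₀ (by linarith [Real.pi_pos]) t
    rw [hty]
    exact ht0 (Set.mem_Icc.2 ⟨hy.1, hy.2.le⟩)

theorem R32_prod_diff (E : ℕ → C2 → ℂ) (hE : ∀ k, Differentiable ℂ (E k)) (s : Finset ℕ) :
    Differentiable ℂ (fun z => ∏ i ∈ s, E i z) := by
  induction s using Finset.induction_on with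
  | empty => simp only [Finset.prod_empty]; exact differentiable_const _
  | insert a s ha ih =>
    have h1 : (fun z => ∏ i ∈ insert a s, E i z) = fun z => E a z * ∏ i ∈ s, E i z := by
      funext z
      rw [Finset.prod_insert ha]
    rw [h1]
    exact (hE a).mul ih

/-- ROW R32.  For each `j` the products `∏_{i ∈ Ico j (j+1+k)} E i` converge uniformly on `Bc` (`E_small j (j+1+k)`: differences `≤ (1/2)^(j+k+4)`) to
`f_j ∈ AB` (`AB_of_sum`).  `f_j (γ t) = 0`: the product over `Ico j (j+1+k)` vanishes at `φ (j+1+k) t` (factor `E (j+k)`, `E_zero`),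
which tends to `γ t`, and the convergence is uniform (`‖f_j - product‖ ≤ tail`, `f_j` continuous on `Bc`).
If `z ∈ Bc` is not on `γ` then `nsq (z - γ t) ≥ 4ρ > 0` for all `t` (compactness of `[0,2π]`, periodicity), so for `j` large
`(1/4)^j ≤ nsq (z - φ j t)` and `‖E j z - 1‖ ≤ (1/2)^(j+3)` (`E_far`), `‖f_j z - E j z‖ ≤ ∑_k (1/2)^(j+k+4)`: `f_j z ≠ 0`. -/
theorem exists_fun {φ : ℕ → ℂ → C2} {E : ℕ → C2 → ℂ} {H e : ℕ → ℝ} (hT : Tower φ E H e) {γ : ℝ → C2}
    (hγ : Lim φ γ) (z : C2) (hz : z ∈ Bc) (hne : ∀ t : ℝ, z ≠ γ t) :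
    ∃ f : C2 → ℂ, AB f ∧ (∀ t : ℝ, f (γ t) = 0) ∧ f z ≠ 0 := by
  obtain ⟨r, hr, hrt⟩ := R32_min hγ.cont hγ.per z hne
  obtain ⟨j, hj⟩ := exists_pow_lt_of_lt_one (show 0 < r / 2 by positivity) (show (1 / 2 : ℝ) < 1 by norm_num)
  set F : ℕ → C2 → ℂ := fun k z => ∏ i ∈ Finset.Ico j (j + 1 + k), E i z with hF
  have hFd : ∀ k, Differentiable ℂ (F k) := by
    intro k
    exact R32_prod_diff E hT.E_ent _
  have hdiff : ∀ k, ∀ z ∈ Bc, ‖F (k + 1) z - F k z‖ ≤ (1 / 2 : ℝ) ^ (j + 1 + k + 3) := by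
    intro k x hx
    have h1 : F (k + 1) x - F k x = (∏ i ∈ Finset.Ico j (j + 1 + k), E i x) * (E (j + 1 + k) x - 1) := by
      rw [hF]
      simp only
      rw [show j + 1 + (k + 1) = (j + 1 + k) + 1 by ring, Finset.prod_Ico_succ_top (by omega)]
      ring
    rw [h1]
    exact hT.E_small j (j + 1 + k) (by omega) x hx
  obtain ⟨f, hfAB, hflim, hftail⟩ := AB_of_sum F hFd _ (R32_sum j) hdiff
  have hft : ∀ z ∈ Bc, ∀ k, ‖f z - F k z‖ ≤ (1 / 2 : ℝ) ^ (j + k + 3) := by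
    intro x hx k
    rw [← R32_tail j k]
    exact hftail x hx k
  refine ⟨f, hfAB, fun t => ?_, ?_⟩
  · -- zero on the curve
    have hγB : γ t ∈ Bc := (hγ.unit t).le
    have hφB : ∀ k, φ (j + 1 + k) t ∈ Bc := fun k => (hT.unit (j + 1 + k) t).le
    have hFz : ∀ k, F k (φ (j + 1 + k) t) = 0 := by
      intro k
      rw [hF]
      simp only
      apply Finset.prod_eq_zero (i := j + k)
      · rw [Finset.mem_Ico]; omega
      · have := hT.E_zero (j + k) t
        rw [show j + 1 + k = j + k + 1 by ring]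
        exact this
    have hφlim : Tendsto (fun k => φ (j + 1 + k) t) atTop (𝓝 (γ t)) := by
      rw [tendsto_iff_norm_sub_tendsto_zero]
      have hup : Tendsto (fun k : ℕ => (1 / 2 : ℝ) ^ k) atTop (𝓝 0) :=
        tendsto_pow_atTop_nhds_zero_of_lt_one (by norm_num) (by norm_num)
      refine squeeze_zero (fun _ => norm_nonneg _) (fun k => ?_) hup
      have h1 := hγ.dist (j + 1 + k) t
      have h2 := norm_sq_le_nsq (φ (j + 1 + k) t - γ t)
      have h3 : ‖φ (j + 1 + k) t - γ t‖ ≤ (1 / 2 : ℝ) ^ (j + 1 + k + 8) :=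
        (pow_le_pow_iff_left₀ (norm_nonneg _) (by positivity) (by norm_num)).1 (h2.trans h1)
      refine h3.trans ?_
      exact pow_le_pow_of_le_one (by norm_num) (by norm_num) (by omega)
    have hlim1 : Tendsto (fun k => f (φ (j + 1 + k) t)) atTop (𝓝 (f (γ t))) := by
      have hcw : ContinuousWithinAt f Bc (γ t) := hfAB.cont (γ t) hγB
      refine hcw.tendsto.comp ?_
      rw [tendsto_nhdsWithin_iff]
      exact ⟨hφlim, Eventually.of_forall hφB⟩
    have hlim2 : Tendsto (fun k => f (φ (j + 1 + k) t)) atTop (𝓝 0) := by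
      rw [tendsto_zero_iff_norm_tendsto_zero]
      have hup : Tendsto (fun k : ℕ => (1 / 2 : ℝ) ^ k) atTop (𝓝 0) :=
        tendsto_pow_atTop_nhds_zero_of_lt_one (by norm_num) (by norm_num)
      refine squeeze_zero (fun _ => norm_nonneg _) (fun k => ?_) hup
      have h1 := hft _ (hφB k) k
      rw [hFz k, sub_zero] at h1
      refine h1.trans ?_
      exact pow_le_pow_of_le_one (by norm_num) (by norm_num) (by omega)
    exact tendsto_nhds_unique hlim1 hlim2
  · -- nonzero at z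
    have hfar : ∀ t : ℝ, (1 / 4 : ℝ) ^ j ≤ nsq (z - φ j t) := by
      intro t
      have h1 : Real.sqrt (nsq (z - γ t)) ≤ Real.sqrt (nsq (z - φ j t)) + Real.sqrt (nsq (φ j t - γ t)) := by
        have h2 := sqrt_nsq_add_le (z - φ j t) (φ j t - γ t)
        rwa [sub_add_sub_cancel] at h2
      have h3 : Real.sqrt (nsq (φ j t - γ t)) ≤ (1 / 2 : ℝ) ^ j := by
        have h4 := Real.sqrt_le_sqrt (hγ.dist j t)
        rw [Real.sqrt_sq (by positivity)] at h4
        exact h4.trans (pow_le_pow_of_le_one (by norm_num) (by norm_num) (by omega))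
      have h5 := hrt t
      have h6 : (1 / 2 : ℝ) ^ j ≤ Real.sqrt (nsq (z - φ j t)) := by linarith
      have h7 : ((1 / 2 : ℝ) ^ j) ^ 2 ≤ Real.sqrt (nsq (z - φ j t)) ^ 2 :=
        pow_le_pow_left₀ (by positivity) h6 2
      rw [Real.sq_sqrt (nsq_nonneg _), ← pow_mul, mul_comm, pow_mul] at h7
      norm_num at h7
      norm_num
      exact h7
    have h1 := hT.E_far j z hz hfar
    have h2 := hft z hz 0
    have h3 : F 0 z = E j z := by
      rw [hF]
      simp
    rw [h3] at h2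
    intro h0
    rw [h0] at h2
    have h4 : (1 / 2 : ℝ) ^ (j + 3) ≤ 1 / 8 := by
      calc (1 / 2 : ℝ) ^ (j + 3) ≤ (1 / 2 : ℝ) ^ 3 := pow_le_pow_of_le_one (by norm_num) (by norm_num) (by omega)
        _ = 1 / 8 := by norm_num
    rw [add_zero, zero_sub, norm_neg] at h2
    have h5 : (1 : ℝ) ≤ ‖E j z‖ + ‖E j z - 1‖ := by
      have h6 := norm_sub_le (E j z) (E j z - 1)
      have h7 : E j z - (E j z - 1) = 1 := by ring
      rw [h7, norm_one] at h6
      exact h6
    linarith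

end MP18cae5
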