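import Pool.Agent.Lib.MP_18cae5_an.R24
import Pool.Agent.Lib.MP_18cae5_an.R30
import Pool.Agent.Lib.MP_18cae5_an.R32

/-! Row R33: the answer, in every dimension. -/

set_option autoImplicit false

namespace MP18cae5

open Complex MeasureTheory Set Filter Topology

/-- The answer in dimension two. -/
theorem dim_two : ∃ γ : ℝ → C2, Continuous γ ∧ (∀ t, nsq (γ t) = 1) ∧
    (∀ t : ℝ, 0 ≤ t → t ≤ 1 → γ Real.pi ≠ γ t) ∧
    (∀ f : C2 → ℂ, AB f → (∀ t : ℝ, 0 ≤ t → t ≤ 1 → f (γ t) = 0) → ∀ t : ℝ, f (γ t) = 0) ∧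
    (∀ z ∈ Bc, (∀ t : ℝ, z ≠ γ t) → ∃ f : C2 → ℂ, AB f ∧ (∀ t : ℝ, f (γ t) = 0) ∧ f z ≠ 0) := by
  obtain ⟨φ, E, H, e, hT⟩ := exists_tower
  obtain ⟨γ, hγ⟩ := exists_lim hT
  refine ⟨γ, hγ.cont, hγ.unit, fun t h0 h1 => lim_ne hT hγ t h0 h1, ?_,
    fun z hz hne => exists_fun hT hγ z hz hne⟩
  intro f hf h0 t
  -- normalise
  obtain ⟨C, hC⟩ := isCompact_Bc.exists_bound_of_continuousOn hf.cont
  set D : ℝ := max C 1 with hD
  have hD1 : 1 ≤ D := le_max_right _ _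
  have hD0 : 0 < D := lt_of_lt_of_le one_pos hD1
  have hDc : (D : ℂ) ≠ 0 := by exact_mod_cast hD0.ne'
  have hg : FH γ (fun z => (D : ℂ)⁻¹ * f z) := by
    refine ⟨⟨continuousOn_const.mul hf.cont, hf.holo.const_mul _⟩, ?_, ?_⟩
    · intro z hz
      rw [norm_mul, norm_inv, Complex.norm_real, Real.norm_of_nonneg hD0.le,
        inv_mul_le_iff₀ hD0, mul_one]
      exact (hC z hz).trans (le_max_left _ _)
    · intro s hs hs'
      simp only [h0 s hs hs', mul_zero]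
  have := unique hT hγ hg t
  rcases mul_eq_zero.1 this with h | h
  · exact absurd h (inv_ne_zero hDc)
  · exact h

/-- the ball algebra of `ℂⁿ` -/
def IsBallAlg (n : ℕ) (f : EuclideanSpace ℂ (Fin n) → ℂ) : Prop :=
  ContinuousOn f (Metric.closedBall 0 1) ∧ DifferentiableOn ℂ f (Metric.ball 0 1)

/-- `(Z)`-sets -/
def IsZSet (n : ℕ) (K : Set (EuclideanSpace ℂ (Fin n))) : Prop :=
  ∃ f, IsBallAlg n f ∧ {z | z ∈ Metric.closedBall 0 1 ∧ f z = 0} = K

/-- the common zeros `E_K` off `K` -/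
def commonZeros (n : ℕ) (K : Set (EuclideanSpace ℂ (Fin n))) : Set (EuclideanSpace ℂ (Fin n)) :=
  {z | z ∈ Metric.closedBall 0 1 ∧ z ∉ K ∧ ∀ f, IsBallAlg n f → (∀ x ∈ K, f x = 0) → f z = 0}

/-- the embedding `C2 → ℂⁿ` -/
noncomputable def R33_iota {n : ℕ} (i j : Fin n) : C2 →L[ℂ] EuclideanSpace ℂ (Fin n) :=
  (ContinuousLinearMap.fst ℂ ℂ ℂ).smulRight (EuclideanSpace.single i (1 : ℂ)) +
    (ContinuousLinearMap.snd ℂ ℂ ℂ).smulRight (EuclideanSpace.single j (1 : ℂ))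

/-- the projection `ℂⁿ → C2` -/
noncomputable def R33_pi {n : ℕ} (i j : Fin n) : EuclideanSpace ℂ (Fin n) →L[ℂ] C2 :=
  (EuclideanSpace.proj i : EuclideanSpace ℂ (Fin n) →L[ℂ] ℂ).prod (EuclideanSpace.proj j)

theorem R33_iota_apply {n : ℕ} (i j : Fin n) (z : C2) (m : Fin n) :
    R33_iota i j z m = z.1 * (if m = i then 1 else 0) + z.2 * (if m = j then 1 else 0) := by
  simp [R33_iota]

theorem R33_pi_apply {n : ℕ} (i j : Fin n) (x : EuclideanSpace ℂ (Fin n)) :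
    R33_pi i j x = (x i, x j) := by
  simp [R33_pi]

theorem R33_pi_iota {n : ℕ} (i j : Fin n) (hij : i ≠ j) (z : C2) :
    R33_pi i j (R33_iota i j z) = z := by
  rw [R33_pi_apply, R33_iota_apply, R33_iota_apply]
  simp [hij, hij.symm]

theorem R33_norm_iota {n : ℕ} (i j : Fin n) (hij : i ≠ j) (z : C2) :
    ‖R33_iota i j z‖ ^ 2 = nsq z := by
  rw [EuclideanSpace.norm_sq_eq]
  have h : ∀ m : Fin n, ‖R33_iota i j z m‖ ^ 2 =
      (if m = i then normSq z.1 else 0) + (if m = j then normSq z.2 else 0) := by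
    intro m
    rw [R33_iota_apply]
    by_cases h1 : m = i
    · have h2 : ¬ m = j := fun h => hij (h1.symm.trans h)
      simp only [if_pos h1, if_neg h2, mul_one, mul_zero, add_zero, normSq_eq_norm_sq]
    · by_cases h2 : m = j
      · simp only [if_neg h1, if_pos h2, mul_one, mul_zero, zero_add, normSq_eq_norm_sq]
      · simp [if_neg h1, if_neg h2]
  rw [Finset.sum_congr rfl (fun m _ => h m), Finset.sum_add_distrib]
  simp [nsq]

theorem R33_nsq_pi {n : ℕ} (i j : Fin n) (hij : i ≠ j) (x : EuclideanSpace ℂ (Fin n)) :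
    nsq (R33_pi i j x) ≤ ‖x‖ ^ 2 := by
  rw [EuclideanSpace.norm_sq_eq, R33_pi_apply, nsq, normSq_eq_norm_sq, normSq_eq_norm_sq]
  have h1 : ∑ m ∈ ({i, j} : Finset (Fin n)), ‖x m‖ ^ 2 = ‖x i‖ ^ 2 + ‖x j‖ ^ 2 :=
    Finset.sum_pair hij
  rw [← h1]
  exact Finset.sum_le_sum_of_subset_of_nonneg (Finset.subset_univ _) (fun _ _ _ => by positivity)

theorem R33_AB {n : ℕ} (i j : Fin n) (hij : i ≠ j) {f : EuclideanSpace ℂ (Fin n) → ℂ}
    (hf : IsBallAlg n f) : AB (fun z => f (R33_iota i j z)) := by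
  constructor
  · refine hf.1.comp (R33_iota i j).continuous.continuousOn ?_
    intro z hz
    have h1 : nsq z ≤ 1 := hz
    rw [mem_closedBall_zero_iff]
    have h2 := R33_norm_iota i j hij z
    nlinarith [norm_nonneg (R33_iota i j z)]
  · refine hf.2.comp (R33_iota i j).differentiable.differentiableOn ?_
    intro z hz
    have h1 : nsq z < 1 := hz
    rw [mem_ball_zero_iff]
    have h2 := R33_norm_iota i j hij z
    nlinarith [norm_nonneg (R33_iota i j z)]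

theorem R33_ball {n : ℕ} (i j : Fin n) (hij : i ≠ j) {g : C2 → ℂ} (hg : AB g) :
    IsBallAlg n (fun x => g (R33_pi i j x)) := by
  constructor
  · refine hg.cont.comp (R33_pi i j).continuous.continuousOn ?_
    intro x hx
    rw [mem_closedBall_zero_iff] at hx
    have h2 := R33_nsq_pi i j hij x
    have h3 : nsq (R33_pi i j x) ≤ 1 := by nlinarith [norm_nonneg x]
    exact h3
  · refine hg.holo.comp (R33_pi i j).differentiable.differentiableOn ?_
    intro x hx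
    rw [mem_ball_zero_iff] at hx
    have h2 := R33_nsq_pi i j hij x
    have h3 : nsq (R33_pi i j x) < 1 := by nlinarith [norm_nonneg x]
    exact h3

/-- ROW R33.  `π : ℂⁿ → C2` the first two coordinates, `ι : C2 → ℂⁿ`; `f ∘ ι ∈ AB` for `f` in the ball algebra of `ℂⁿ`, `g ∘ π` in it for
`g ∈ AB`; `K = ι (γ [0,1])`. -/
theorem main (n : ℕ) (hn : 2 ≤ n) : ∃ K : Set (EuclideanSpace ℂ (Fin n)),
    IsCompact K ∧ K ⊆ Metric.sphere 0 1 ∧ ¬ IsZSet n K ∧
    (commonZeros n K ∩ Metric.sphere 0 1).Nonempty ∧ commonZeros n K ∩ Metric.ball 0 1 = ∅ := by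
  obtain ⟨γ, hγc, hγu, hγne, huniq, hex⟩ := dim_two
  set i : Fin n := ⟨0, by omega⟩ with hi
  set j : Fin n := ⟨1, by omega⟩ with hj
  have hij : i ≠ j := by
    intro h
    have := congrArg Fin.val h
    simp [hi, hj] at this
  have hinj : ∀ s t : ℝ, R33_iota i j (γ s) = R33_iota i j (γ t) → γ s = γ t := by
    intro s t h
    have := congrArg (R33_pi i j) h
    rwa [R33_pi_iota i j hij, R33_pi_iota i j hij] at this
  have hsph : ∀ t : ℝ, ‖R33_iota i j (γ t)‖ = 1 := by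
    intro t
    have h1 := R33_norm_iota i j hij (γ t)
    rw [hγu t] at h1
    have h2 := norm_nonneg (R33_iota i j (γ t))
    nlinarith [sq_nonneg (‖R33_iota i j (γ t)‖ - 1)]
  set K : Set (EuclideanSpace ℂ (Fin n)) := (fun t : ℝ => R33_iota i j (γ t)) '' Icc 0 1 with hK
  have hmem : ∀ t : ℝ, 0 ≤ t → t ≤ 1 → R33_iota i j (γ t) ∈ K := fun t h0 h1 =>
    ⟨t, ⟨h0, h1⟩, rfl⟩
  have hpiK : R33_iota i j (γ Real.pi) ∉ K := by
    rintro ⟨t, ⟨h0, h1⟩, ht⟩
    exact hγne t h0 h1 (hinj _ _ ht).symm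
  have hvan : ∀ f, IsBallAlg n f → (∀ x ∈ K, f x = 0) → ∀ t : ℝ, f (R33_iota i j (γ t)) = 0 := by
    intro f hf h0 t
    exact huniq _ (R33_AB i j hij hf) (fun s hs hs' => h0 _ (hmem s hs hs')) t
  refine ⟨K, ?_, ?_, ?_, ?_, ?_⟩
  · exact isCompact_Icc.image ((R33_iota i j).continuous.comp hγc)
  · rintro x ⟨t, -, rfl⟩
    rw [mem_sphere_zero_iff_norm]
    exact hsph t
  · rintro ⟨f, hf, hfK⟩
    have h0 : ∀ x ∈ K, f x = 0 := by
      intro x hx
      rw [← hfK] at hx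
      exact hx.2
    apply hpiK
    rw [← hfK]
    refine ⟨?_, hvan f hf h0 Real.pi⟩
    rw [mem_closedBall_zero_iff, hsph]
  · refine ⟨R33_iota i j (γ Real.pi), ⟨?_, hpiK, ?_⟩, ?_⟩
    · rw [mem_closedBall_zero_iff, hsph]
    · exact fun f hf h0 => hvan f hf h0 Real.pi
    · rw [mem_sphere_zero_iff_norm, hsph]
  · rw [Set.eq_empty_iff_forall_notMem]
    rintro x ⟨⟨-, -, hx⟩, hxb⟩
    rw [mem_ball_zero_iff] at hxb
    have h1 := R33_nsq_pi i j hij x
    have h2 : nsq (R33_pi i j x) < 1 := by nlinarith [norm_nonneg x]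
    have h3 : R33_pi i j x ∈ Bc := h2.le
    have h4 : ∀ t : ℝ, R33_pi i j x ≠ γ t := by
      intro t h
      rw [h, hγu t] at h2
      exact lt_irrefl _ h2
    obtain ⟨g, hg, hg0, hgx⟩ := hex _ h3 h4
    apply hgx
    refine hx (fun x => g (R33_pi i j x)) (R33_ball i j hij hg) ?_
    rintro y ⟨t, -, rfl⟩
    simp only
    rw [R33_pi_iota i j hij]
    exact hg0 t

end MP18cae5
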