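import Pool.Agent.Lib.MP_18cae5_an.Basic

/-! # The tower of curves (definitions, nothing to prove) -/

set_option autoImplicit false

namespace MP18cae5

open Complex MeasureTheory Set Filter Topology

/-- `λ_k = 2^{-(k+3)}` -/
noncomputable def lam (k : ℕ) : ℝ := (1 / 2 : ℝ) ^ (k + 3)

/-- The data produced by iterating the step: curves `φ k`, entire functions `E k` vanishing on the real curve `φ (k+1)`,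
heights `H k` (`φ k` maps `0 < Im ≤ H k` into the ball), errors `e k`.  `s_k = λ_k H_{k+1}/2`. -/
structure Tower (φ : ℕ → ℂ → C2) (E : ℕ → C2 → ℂ) (H e : ℕ → ℝ) : Prop where
  start : ∀ t : ℝ, φ 0 t = (Complex.exp ((t : ℂ) * I), 0)
  holo : ∀ k, ∃ h : ℝ, H k < h ∧ DifferentiableOn ℂ (φ k) (strip h)
  per : ∀ k (σ : ℂ), φ k (σ + 2 * Real.pi) = φ k σ
  unit : ∀ k (t : ℝ), nsq (φ k t) = 1
  inB : ∀ k (t y : ℝ), 0 < y → y ≤ H k → φ k ((t : ℂ) + (y : ℂ) * I) ∈ Bo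
  E_ent : ∀ k, Differentiable ℂ (E k)
  E_zero : ∀ k (t : ℝ), E k (φ (k + 1) t) = 0
  E_small : ∀ j k : ℕ, j < k → ∀ z ∈ Bc,
    ‖(∏ i ∈ Finset.Ico j k, E i z) * (E k z - 1)‖ ≤ (1 / 2 : ℝ) ^ (k + 3)
  E_far : ∀ k, ∀ z ∈ Bc, (∀ t : ℝ, (1 / 4 : ℝ) ^ k ≤ nsq (z - φ k t)) →
    ‖E k z - 1‖ ≤ (1 / 2 : ℝ) ^ (k + 3)
  close : ∀ k (t y : ℝ), |y| ≤ H (k + 1) →
    nsq (φ (k + 1) ((t : ℂ) + (y : ℂ) * I) - φ k t) ≤ ((1 / 2 : ℝ) ^ (k + 9)) ^ 2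
  H_pos : ∀ k, 0 < H k
  H_le : ∀ k, H (k + 1) ≤ lam k ^ 2 / 8
  H_dec : ∀ k, H (k + 1) ≤ H k / 2
  e_pos : ∀ k, 0 < e k
  e_zero : e 0 ≤ 1 / 64
  e_dec : ∀ k, e (k + 1) ≤ e k ^ 2 / 4
  e_super : ∀ k, (2 * 4 ^ (k + 1) * e k) ^ ((1 / 4 : ℝ) * (1 / 3) ^ (⌈52 / H k⌉₊)) ≤ 1 / (k + 1 : ℝ)
  hug : ∀ k (f : C2 → ℂ), DifferentiableOn ℂ f Bo → (∀ z ∈ Bo, ‖f z‖ ≤ 1) →
    ∀ t y : ℝ, lam k * H (k + 1) / 4 ≤ y → y ≤ lam k * H (k + 1) / 2 →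
      ‖f (φ (k + 1) ((t : ℂ) + (y : ℂ) * I)) - f (φ k ((t : ℂ) + (y : ℂ) * I))‖ ≤ e k

end MP18cae5
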